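import Mathlib

/-!
# Periodic arcs on the real line

`arc a θ` is the set of reals congruent modulo `1` to a point of `[a, a + θ]`.
-/

set_option autoImplicit false

namespace Pool.Agent.Hhelper50

open Set MeasureTheory

/-- periodic arc -/
def arc (a θ : ℝ) : Set ℝ := {t | ∃ k : ℤ, a ≤ t + k ∧ t + k ≤ a + θ}

lemma mem_arc {a θ t : ℝ} : t ∈ arc a θ ↔ ∃ k : ℤ, a ≤ t + k ∧ t + k ≤ a + θ := Iff.rfl

lemma arc_left_mem {a θ : ℝ} (h : 0 ≤ θ) : a ∈ arc a θ := ⟨0, by simp, by simpa using h⟩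

lemma arc_right_mem {a θ : ℝ} (h : 0 ≤ θ) : a + θ ∈ arc a θ := ⟨0, by simpa using h, by simp⟩

lemma arc_add_int {a θ t : ℝ} (k : ℤ) : t + k ∈ arc a θ ↔ t ∈ arc a θ := by
  constructor
  · rintro ⟨m, h1, h2⟩
    exact ⟨k + m, by push_cast; linarith, by push_cast; linarith⟩
  · rintro ⟨m, h1, h2⟩
    exact ⟨m - k, by push_cast; linarith, by push_cast; linarith⟩

lemma Icc_subset_arc (a θ : ℝ) : Icc a (a + θ) ⊆ arc a θ := by
  intro t ht
  exact ⟨0, by simpa using ht.1, by simpa using ht.2⟩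

lemma arc_eq_iUnion (a θ : ℝ) : arc a θ = ⋃ k : ℤ, Icc (a - k) (a + θ - k) := by
  ext t
  simp only [mem_arc, mem_iUnion, mem_Icc]
  constructor
  · rintro ⟨k, h1, h2⟩
    exact ⟨k, by linarith, by linarith⟩
  · rintro ⟨k, h1, h2⟩
    exact ⟨k, by linarith, by linarith⟩

lemma measurableSet_arc (a θ : ℝ) : MeasurableSet (arc a θ) := by
  rw [arc_eq_iUnion]
  exact MeasurableSet.iUnion (fun _ => measurableSet_Icc)

/-- A shifted arc. -/
lemma arc_shift (a θ s t : ℝ) : t ∈ arc (a + s) θ ↔ t - s ∈ arc a θ := by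
  constructor
  · rintro ⟨k, h1, h2⟩
    exact ⟨k, by linarith, by linarith⟩
  · rintro ⟨k, h1, h2⟩
    exact ⟨k, by linarith, by linarith⟩

/-- A reflected arc. -/
lemma arc_reflect (a θ s t : ℝ) : t ∈ arc (s - a - θ) θ ↔ s - t ∈ arc a θ := by
  constructor
  · rintro ⟨k, h1, h2⟩
    exact ⟨-k, by push_cast; linarith, by push_cast; linarith⟩
  · rintro ⟨k, h1, h2⟩
    exact ⟨-k, by push_cast; linarith, by push_cast; linarith⟩

/-- Measure (length) of a periodic set. -/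
noncomputable def plen (S : Set ℝ) : ℝ := (volume (S ∩ Ioc 0 1)).toReal

lemma volume_periodic (S : Set ℝ) (hS : MeasurableSet S)
    (hper : ∀ (t : ℝ) (k : ℤ), t + (k : ℝ) ∈ S ↔ t ∈ S)
    (x y : ℝ) : volume (S ∩ Ioc x (x + 1)) = volume (S ∩ Ioc y (y + 1)) := by
  apply (isAddFundamentalDomain_Ioc one_pos x volume).measure_set_eq
    (isAddFundamentalDomain_Ioc one_pos y volume) hS
  rintro ⟨g, hg⟩
  rw [AddSubgroup.mem_zmultiples_iff] at hg
  obtain ⟨k, rfl⟩ := hg
  ext t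
  simp only [mem_preimage]
  have : (⟨k • (1 : ℝ), hg⟩ : AddSubgroup.zmultiples (1 : ℝ)) +ᵥ t = t + k := by
    rw [AddSubgroup.vadd_def]
    simp [add_comm]
  rw [this]
  exact hper t k

lemma volume_arc (a θ : ℝ) (h0 : 0 ≤ θ) (h1 : θ < 1) :
    volume (arc a θ ∩ Ioc 0 1) = ENNReal.ofReal θ := by
  have h := volume_periodic (arc a θ) (measurableSet_arc a θ) (fun t k => arc_add_int k) 0
    (a + θ - 1)
  rw [zero_add] at h
  rw [h]
  have : arc a θ ∩ Ioc (a + θ - 1) (a + θ - 1 + 1) = Icc a (a + θ) := by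
    ext t
    simp only [mem_inter_iff, mem_arc, mem_Ioc, mem_Icc]
    constructor
    · rintro ⟨⟨k, h2, h3⟩, h4, h5⟩
      have hk : (k : ℝ) < 1 := by linarith
      have hk' : (-1 : ℝ) < k := by linarith
      have hk0 : k = 0 := by
        have e1 : k < 1 := by exact_mod_cast hk
        have e2 : -1 < k := by exact_mod_cast hk'
        omega
      subst hk0
      simp at h2 h3
      exact ⟨h2, h3⟩
    · rintro ⟨h2, h3⟩
      exact ⟨⟨0, by simpa using h2, by simpa using h3⟩, by linarith, by linarith⟩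
  rw [this, Real.volume_Icc]
  congr 1
  ring

lemma plen_arc (a θ : ℝ) (h0 : 0 ≤ θ) (h1 : θ < 1) : plen (arc a θ) = θ := by
  rw [plen, volume_arc a θ h0 h1, ENNReal.toReal_ofReal h0]

/-- In an arc of positive length, near each point there is an open interval of the arc. -/
lemma exists_Ioo_subset_arc {a θ t δ : ℝ} (hθ : 0 < θ) (ht : t ∈ arc a θ) (hδ : 0 < δ) :
    ∃ x y, x < y ∧ Ioo x y ⊆ arc a θ ∩ Ioo (t - δ) (t + δ) := by
  obtain ⟨k, h1, h2⟩ := ht
  rcases lt_or_eq_of_le h2 with h | h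
  · refine ⟨t, min (t + δ) (a + θ - k), ?_, ?_⟩
    · rw [lt_min_iff]
      constructor <;> linarith
    · intro s hs
      rw [mem_Ioo, lt_min_iff] at hs
      exact ⟨⟨k, by linarith, by linarith⟩, by constructor <;> linarith⟩
  · refine ⟨max (t - δ) (a - k), t, ?_, ?_⟩
    · rw [max_lt_iff]
      constructor <;> linarith
    · intro s hs
      rw [mem_Ioo, max_lt_iff] at hs
      exact ⟨⟨k, by linarith, by linarith⟩, by constructor <;> linarith⟩

/-- Points of an open interval inside an arc are interior to the arc. -/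
lemma Ioo_subset_arc_interior {a θ x y s : ℝ} (h0 : 0 ≤ θ) (h1 : θ < 1)
    (hsub : Ioo x y ⊆ arc a θ) (hs : s ∈ Ioo x y) : ∃ k : ℤ, a < s + k ∧ s + k < a + θ := by
  obtain ⟨k, h2, h3⟩ := hsub hs
  refine ⟨k, ?_, ?_⟩
  · rcases lt_or_eq_of_le h2 with h | h
    · exact h
    · exfalso
      set δ := min ((s - x) / 2) ((1 - θ) / 2) with hδ
      have hδ0 : 0 < δ := by
        rw [hδ, lt_min_iff]; constructor <;> linarith [hs.1]
      have hδ1 : δ ≤ (s - x) / 2 := min_le_left _ _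
      have hδ2 : δ ≤ (1 - θ) / 2 := min_le_right _ _
      have : s - δ ∈ Ioo x y := ⟨by linarith [hs.1], by linarith [hs.2]⟩
      obtain ⟨m, h4, h5⟩ := hsub this
      have e1 : ((m - k : ℤ) : ℝ) > 0 := by push_cast; linarith
      have e2 : ((m - k : ℤ) : ℝ) < 1 := by push_cast; linarith
      have e1' : 0 < m - k := by exact_mod_cast e1
      have e2' : m - k < 1 := by exact_mod_cast e2
      omega
  · rcases lt_or_eq_of_le h3 with h | h
    · exact h
    · exfalso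
      set δ := min ((y - s) / 2) ((1 - θ) / 2) with hδ
      have hδ0 : 0 < δ := by
        rw [hδ, lt_min_iff]; constructor <;> linarith [hs.2]
      have hδ1 : δ ≤ (y - s) / 2 := min_le_left _ _
      have hδ2 : δ ≤ (1 - θ) / 2 := min_le_right _ _
      have : s + δ ∈ Ioo x y := ⟨by linarith [hs.1], by linarith [hs.2]⟩
      obtain ⟨m, h4, h5⟩ := hsub this
      have e1 : ((k - m : ℤ) : ℝ) > 0 := by push_cast; linarith
      have e2 : ((k - m : ℤ) : ℝ) < 1 := by push_cast; linarith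
      have e1' : 0 < k - m := by exact_mod_cast e1
      have e2' : k - m < 1 := by exact_mod_cast e2
      omega

/-- Two sets do not overlap in an open interval. -/
def NoOverlap (S S' : Set ℝ) : Prop := ∀ x y : ℝ, x < y → ¬ (Ioo x y ⊆ S ∩ S')

lemma NoOverlap.symm {S S' : Set ℝ} (h : NoOverlap S S') : NoOverlap S' S := by
  intro x y hxy hsub
  exact h x y hxy (by rw [inter_comm]; exact hsub)

/-- if `t` is strictly inside the first arc then it is not in the second (non-overlapping) one -/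
lemma NoOverlap.not_mem_of_interior {a θ b ψ t : ℝ} (h : NoOverlap (arc a θ) (arc b ψ))
    (hψ : 0 < ψ) {k : ℤ} (h1 : a < t + k) (h2 : t + k < a + θ) : t ∉ arc b ψ := by
  intro ht
  obtain ⟨x, y, hxy, hsub⟩ := exists_Ioo_subset_arc (δ := min (t + k - a) (a + θ - t - k)) hψ ht
    (by rw [lt_min_iff]; constructor <;> linarith)
  apply h x y hxy
  intro s hs
  have hs' := hsub hs
  refine ⟨⟨k, ?_, ?_⟩, hs'.1⟩
  · have := hs'.2.1
    have h3 := min_le_left (t + k - a) (a + θ - t - k)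
    linarith
  · have := hs'.2.2
    have h3 := min_le_right (t + k - a) (a + θ - t - k)
    linarith

lemma NoOverlap.endpoint {a θ b ψ t : ℝ} (h : NoOverlap (arc a θ) (arc b ψ))
    (hψ : 0 < ψ) (h1 : t ∈ arc a θ) (h2 : t ∈ arc b ψ) :
    (∃ k : ℤ, t + k = a) ∨ (∃ k : ℤ, t + k = a + θ) := by
  obtain ⟨k, h3, h4⟩ := h1
  rcases lt_or_eq_of_le h3 with h5 | h5
  · rcases lt_or_eq_of_le h4 with h6 | h6
    · exact absurd h2 (h.not_mem_of_interior hψ h5 h6)
    · exact Or.inr ⟨k, h6⟩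
  · exact Or.inl ⟨k, h5.symm⟩

lemma NoOverlap.null {a θ b ψ : ℝ} (h : NoOverlap (arc a θ) (arc b ψ)) (hψ : 0 < ψ) :
    volume (arc a θ ∩ arc b ψ) = 0 := by
  apply measure_mono_null (t := (range fun k : ℤ => a - (k : ℝ)) ∪
    (range fun k : ℤ => a + θ - (k : ℝ)))
  · rintro t ⟨h1, h2⟩
    rcases h.endpoint hψ h1 h2 with ⟨k, hk⟩ | ⟨k, hk⟩
    · exact Or.inl ⟨k, by simp only; linarith⟩
    · exact Or.inr ⟨k, by simp only; linarith⟩
  · exact Set.Countable.measure_zero ((countable_range _).union (countable_range _)) _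

/-- **Partition lemma**: finitely many non-overlapping arcs covering the circle have total
length `1`. -/
theorem arcs_sum {ι : Type*} (s : Finset ι) (a θ : ι → ℝ) (h0 : ∀ i ∈ s, 0 < θ i)
    (h1 : ∀ i ∈ s, θ i < 1) (hcov : ∀ t, ∃ i ∈ s, t ∈ arc (a i) (θ i))
    (hdis : ∀ i ∈ s, ∀ j ∈ s, i ≠ j → NoOverlap (arc (a i) (θ i)) (arc (a j) (θ j))) :
    ∑ i ∈ s, θ i = 1 := by
  have hU : (⋃ i ∈ s, arc (a i) (θ i) ∩ Ioc 0 1) = Ioc (0 : ℝ) 1 := by
    ext t
    simp only [mem_iUnion, mem_inter_iff, exists_prop]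
    constructor
    · rintro ⟨i, _, _, h⟩
      exact h
    · intro h
      obtain ⟨i, hi, hi'⟩ := hcov t
      exact ⟨i, hi, hi', h⟩
  have hm : volume (⋃ i ∈ s, arc (a i) (θ i) ∩ Ioc (0 : ℝ) 1)
      = ∑ i ∈ s, volume (arc (a i) (θ i) ∩ Ioc (0 : ℝ) 1) := by
    apply measure_biUnion_finset₀
    · intro i hi j hj hij
      apply measure_mono_null (t := arc (a i) (θ i) ∩ arc (a j) (θ j))
      · rintro t ⟨h1, h2⟩
        exact ⟨h1.1, h2.1⟩
      · exact (hdis i hi j hj hij).null (h0 j hj)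
    · intro i _
      exact ((measurableSet_arc _ _).inter measurableSet_Ioc).nullMeasurableSet
  rw [hU, Real.volume_Ioc] at hm
  have h2 : ∑ i ∈ s, volume (arc (a i) (θ i) ∩ Ioc (0 : ℝ) 1) = ENNReal.ofReal (∑ i ∈ s, θ i) := by
    rw [ENNReal.ofReal_sum_of_nonneg (fun i hi => (h0 i hi).le)]
    exact Finset.sum_congr rfl (fun i hi => volume_arc _ _ (h0 i hi).le (h1 i hi))
  rw [h2] at hm
  have h3 : 0 ≤ ∑ i ∈ s, θ i := Finset.sum_nonneg (fun i hi => (h0 i hi).le)
  have := (ENNReal.ofReal_eq_ofReal_iff (by norm_num : (0 : ℝ) ≤ 1 - 0) h3).mp hm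
  linarith

/-- Data of the arcs around a point. -/
structure ArcFam {ι : Type*} (s : Finset ι) (a θ : ι → ℝ) : Prop where
  pos : ∀ i ∈ s, 0 < θ i
  le : ∀ i ∈ s, θ i ≤ 1 / 2
  cover : ∀ t, ∃ i ∈ s, t ∈ arc (a i) (θ i)
  disj : ∀ i ∈ s, ∀ j ∈ s, i ≠ j → NoOverlap (arc (a i) (θ i)) (arc (a j) (θ j))

lemma ArcFam.sum {ι : Type*} {s : Finset ι} {a θ : ι → ℝ} (h : ArcFam s a θ) :
    ∑ i ∈ s, θ i = 1 :=
  arcs_sum s a θ h.pos (fun i hi => by have := h.le i hi; linarith) h.cover h.disj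

/-- membership in an arc is a closed condition on one side -/
lemma arc_mem_of_tendsto {a θ t : ℝ}
    (h : ∀ δ > 0, ∃ s, t < s ∧ s < t + δ ∧ s ∈ arc a θ) : t ∈ arc a θ := by
  set u : ℝ := a + Int.fract (t - a) with hu
  have hu0 : 0 ≤ Int.fract (t - a) := Int.fract_nonneg _
  have hu1 : Int.fract (t - a) < 1 := Int.fract_lt_one _
  have hut : u = t + ((-⌊t - a⌋ : ℤ) : ℝ) := by
    rw [hu, Int.fract]; push_cast; ring
  by_cases hle : u ≤ a + θ
  · exact ⟨-⌊t - a⌋, by rw [← hut]; linarith, by rw [← hut]; exact hle⟩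
  · exfalso
    push Not at hle
    obtain ⟨s, h1, h2, k, h3, h4⟩ := h (1 - Int.fract (t - a)) (by linarith)
    -- s + (-⌊t-a⌋) ∈ (u, a+1)
    have e1 : s + ((-⌊t - a⌋ : ℤ) : ℝ) > u := by rw [hut]; linarith
    have e2 : s + ((-⌊t - a⌋ : ℤ) : ℝ) < a + 1 := by
      have : t + ((-⌊t - a⌋ : ℤ) : ℝ) = a + Int.fract (t - a) := by rw [← hut]
      linarith
    have e3 : ((k - (-⌊t - a⌋) : ℤ) : ℝ) > -1 := by
      push_cast at e2 ⊢; linarith
    have e4 : ((k - (-⌊t - a⌋) : ℤ) : ℝ) < 0 := by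
      push_cast at e1 ⊢; linarith
    have e3' : -1 < k - (-⌊t - a⌋) := by exact_mod_cast e3
    have e4' : k - (-⌊t - a⌋) < 0 := by exact_mod_cast e4
    omega

/-- The point just to the right of an arc's right end is not in the arc. -/
lemma right_not_mem_arc {a θ η : ℝ} (h0 : 0 ≤ θ) (h1 : 0 < η) (h2 : θ + η < 1) :
    a + θ + η ∉ arc a θ := by
  rintro ⟨k, h3, h4⟩
  have e1 : (k : ℝ) < 0 := by linarith
  have e2 : (-1 : ℝ) < k := by linarith
  have e1' : k < 0 := by exact_mod_cast e1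
  have e2' : -1 < k := by exact_mod_cast e2
  omega

/-- Existence of the right neighbour. -/
lemma ArcFam.exists_right {ι : Type*} {s : Finset ι} {a θ : ι → ℝ} (h : ArcFam s a θ) {i : ι}
    (hi : i ∈ s) : ∃ j ∈ s, j ≠ i ∧ a i + θ i ∈ arc (a j) (θ j) := by
  classical
  -- pigeonhole along the sequence η_m = 1/(m+3)
  by_contra hcon
  push Not at hcon
  have h1 : ∀ j ∈ s, j ≠ i → ∃ δ > 0, ∀ t, a i + θ i < t → t < a i + θ i + δ →
      t ∉ arc (a j) (θ j) := by
    intro j hj hji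
    by_contra hc
    push Not at hc
    exact hcon j hj hji (arc_mem_of_tendsto (fun δ hδ => by
      obtain ⟨t, ht1, ht2, ht3⟩ := hc δ hδ
      exact ⟨t, ht1, ht2, ht3⟩))
  choose! δ hδ0 hδ using h1
  -- take the minimum of δ over s \ {i}
  have hex : ∃ ε > 0, ∀ j ∈ s, j ≠ i → ε ≤ δ j := by
    rcases (s.erase i).eq_empty_or_nonempty with he | hne
    · refine ⟨1, one_pos, ?_⟩
      intro j hj hji
      have : j ∈ s.erase i := Finset.mem_erase.mpr ⟨hji, hj⟩
      rw [he] at this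
      exact absurd this (Finset.notMem_empty j)
    · obtain ⟨j0, hj0, hmin⟩ := (s.erase i).exists_min_image δ hne
      rw [Finset.mem_erase] at hj0
      exact ⟨δ j0, hδ0 j0 hj0.2 hj0.1, fun j hj hji => hmin j (Finset.mem_erase.mpr ⟨hji, hj⟩)⟩
  obtain ⟨ε, hε, hεle⟩ := hex
  have hθ := h.le i hi
  have hθ0 := h.pos i hi
  set η : ℝ := min (ε / 2) (1 / 4) with hη
  have hη0 : 0 < η := by rw [hη, lt_min_iff]; constructor <;> linarith
  have hη1 : η ≤ ε / 2 := min_le_left _ _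
  have hη2 : η ≤ 1 / 4 := min_le_right _ _
  obtain ⟨j, hj, hmem⟩ := h.cover (a i + θ i + η)
  by_cases hji : j = i
  · subst hji
    exact right_not_mem_arc hθ0.le hη0 (by linarith) hmem
  · refine hδ j hj hji (a i + θ i + η) (by linarith) ?_ hmem
    have := hεle j hj hji
    linarith

/-- if `a i + θ i` is in another arc, then it is its left endpoint -/
lemma ArcFam.right_eq {ι : Type*} {s : Finset ι} {a θ : ι → ℝ} (h : ArcFam s a θ) {i j : ι}
    (hi : i ∈ s) (hj : j ∈ s) (hij : j ≠ i) (hmem : a i + θ i ∈ arc (a j) (θ j)) :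
    ∃ k : ℤ, a i + θ i + k = a j := by
  obtain ⟨k, h1, h2⟩ := hmem
  rcases lt_or_eq_of_le h1 with h3 | h3
  · exfalso
    have hθi := h.pos i hi
    apply h.disj i hi j hj hij.symm (max (a i) (a j - k)) (a i + θ i)
      (by rw [max_lt_iff]; constructor <;> linarith)
    intro t ht
    rw [mem_Ioo, max_lt_iff] at ht
    exact ⟨⟨0, by push_cast; linarith, by push_cast; linarith⟩,
      ⟨k, by linarith, by linarith⟩⟩
  · exact ⟨k, h3.symm⟩

lemma ArcFam.right_unique {ι : Type*} {s : Finset ι} {a θ : ι → ℝ} (h : ArcFam s a θ) {i j j' : ι}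
    (hi : i ∈ s) (hj : j ∈ s) (hj' : j' ∈ s) (hij : j ≠ i) (hij' : j' ≠ i)
    (hmem : a i + θ i ∈ arc (a j) (θ j)) (hmem' : a i + θ i ∈ arc (a j') (θ j')) : j = j' := by
  by_contra hne
  obtain ⟨k, hk⟩ := h.right_eq hi hj hij hmem
  obtain ⟨k', hk'⟩ := h.right_eq hi hj' hij' hmem'
  have h1 := h.pos j hj
  have h2 := h.pos j' hj'
  apply h.disj j hj j' hj' hne (a i + θ i) (a i + θ i + min (θ j) (θ j'))
    (by have : 0 < min (θ j) (θ j') := lt_min h1 h2
        linarith)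
  intro t ht
  have h3 : min (θ j) (θ j') ≤ θ j := min_le_left _ _
  have h4 : min (θ j) (θ j') ≤ θ j' := min_le_right _ _
  exact ⟨⟨k, by linarith [ht.1], by linarith [ht.2]⟩, ⟨k', by linarith [ht.1], by linarith [ht.2]⟩⟩

/-- Reflection of an arc family. -/
lemma ArcFam.reflect {ι : Type*} {s : Finset ι} {a θ : ι → ℝ} (h : ArcFam s a θ) :
    ArcFam s (fun i => -a i - θ i) θ := by
  have key : ∀ a θ t, t ∈ arc (-a - θ) θ ↔ -t ∈ arc a θ := by
    intro a θ t
    have := arc_reflect a θ 0 t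
    simpa using this
  refine ⟨h.pos, h.le, ?_, ?_⟩
  · intro t
    obtain ⟨i, hi, hi'⟩ := h.cover (-t)
    exact ⟨i, hi, (key _ _ _).mpr hi'⟩
  · intro i hi j hj hij x y hxy hsub
    apply h.disj i hi j hj hij (-y) (-x) (by linarith)
    intro t ht
    have := hsub (show -t ∈ Ioo x y from ⟨by linarith [ht.2], by linarith [ht.1]⟩)
    constructor
    · have := (key _ _ _).mp this.1
      simpa using this
    · have := (key _ _ _).mp this.2
      simpa using this

lemma ArcFam.exists_left {ι : Type*} {s : Finset ι} {a θ : ι → ℝ} (h : ArcFam s a θ) {i : ι}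
    (hi : i ∈ s) : ∃ j ∈ s, j ≠ i ∧ a i ∈ arc (a j) (θ j) := by
  obtain ⟨j, hj, hji, hmem⟩ := h.reflect.exists_right hi
  refine ⟨j, hj, hji, ?_⟩
  have := (arc_reflect (a j) (θ j) 0 (-a i - θ i + θ i))
  simp only [zero_sub] at this
  have h2 := this.mp hmem
  simpa using h2

lemma ArcFam.left_eq {ι : Type*} {s : Finset ι} {a θ : ι → ℝ} (h : ArcFam s a θ) {i j : ι}
    (hi : i ∈ s) (hj : j ∈ s) (hij : j ≠ i) (hmem : a i ∈ arc (a j) (θ j)) :
    ∃ k : ℤ, a i + k = a j + θ j := by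
  have hmem' : (-a i - θ i) + θ i ∈ arc (-a j - θ j) (θ j) := by
    have := (arc_reflect (a j) (θ j) 0 (-a i - θ i + θ i))
    simp only [zero_sub] at this
    apply this.mpr
    simpa using hmem
  obtain ⟨k, hk⟩ := h.reflect.right_eq hi hj hij hmem'
  exact ⟨-k, by push_cast; linarith⟩

lemma ArcFam.left_unique {ι : Type*} {s : Finset ι} {a θ : ι → ℝ} (h : ArcFam s a θ) {i j j' : ι}
    (hi : i ∈ s) (hj : j ∈ s) (hj' : j' ∈ s) (hij : j ≠ i) (hij' : j' ≠ i)
    (hmem : a i ∈ arc (a j) (θ j)) (hmem' : a i ∈ arc (a j') (θ j')) : j = j' := by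
  have key : ∀ l, a i ∈ arc (a l) (θ l) → (-a i - θ i) + θ i ∈ arc (-a l - θ l) (θ l) := by
    intro l hl
    have := (arc_reflect (a l) (θ l) 0 (-a i - θ i + θ i))
    simp only [zero_sub] at this
    apply this.mpr
    simpa using hl
  exact h.reflect.right_unique hi hj hj' hij hij' (key j hmem) (key j' hmem')

/-- If two arcs meet, they meet at an endpoint of the first. -/
lemma ArcFam.meet_endpoint {ι : Type*} {s : Finset ι} {a θ : ι → ℝ} (h : ArcFam s a θ) {i j : ι}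
    (hi : i ∈ s) (hj : j ∈ s) (hij : j ≠ i) {t : ℝ} (h1 : t ∈ arc (a i) (θ i))
    (h2 : t ∈ arc (a j) (θ j)) : a i ∈ arc (a j) (θ j) ∨ a i + θ i ∈ arc (a j) (θ j) := by
  rcases (h.disj i hi j hj hij.symm).endpoint (h.pos j hj) h1 h2 with ⟨k, hk⟩ | ⟨k, hk⟩
  · left
    rw [← hk, arc_add_int]
    exact h2
  · right
    rw [← hk, arc_add_int]
    exact h2

/-- The two ends of an arc belong to different neighbours if there are at least three arcs. -/
lemma ArcFam.ends_ne {ι : Type*} [DecidableEq ι] {s : Finset ι} {a θ : ι → ℝ} (h : ArcFam s a θ)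
    (h3 : 3 ≤ s.card) {i j : ι}
    (hi : i ∈ s) (hj : j ∈ s) (hij : j ≠ i) (hl : a i ∈ arc (a j) (θ j))
    (hr : a i + θ i ∈ arc (a j) (θ j)) : False := by
  obtain ⟨k, hk⟩ := h.left_eq hi hj hij hl
  obtain ⟨m, hm⟩ := h.right_eq hi hj hij hr
  have hsum : θ i + θ j = ((k - m : ℤ) : ℝ) := by push_cast; linarith
  have hpi := h.pos i hi
  have hpj := h.pos j hj
  have hli := h.le i hi
  have hlj := h.le j hj
  have e1 : (0 : ℝ) < ((k - m : ℤ) : ℝ) := by linarith
  have e1' : 0 < k - m := by exact_mod_cast e1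
  have e2 : (1 : ℝ) ≤ ((k - m : ℤ) : ℝ) := by exact_mod_cast e1'
  have htot := h.sum
  have hsub : ({i, j} : Finset ι) ⊆ s := by
    intro x hx
    simp only [Finset.mem_insert, Finset.mem_singleton] at hx
    rcases hx with rfl | rfl <;> assumption
  have hcard : ({i, j} : Finset ι).card = 2 := Finset.card_pair hij.symm
  have : (s \ {i, j}).Nonempty := by
    rw [← Finset.card_pos, Finset.card_sdiff_of_subset hsub]
    omega
  obtain ⟨l, hl⟩ := this
  have h5 := Finset.sum_sdiff (f := θ) hsub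
  rw [Finset.sum_pair hij.symm] at h5
  have h6 : 0 < ∑ x ∈ s \ {i, j}, θ x := by
    apply Finset.sum_pos
    · intro x hx
      exact h.pos x (Finset.mem_sdiff.mp hx).1
    · exact ⟨l, hl⟩
  linarith

open Classical in
/-- Each arc has exactly two neighbours. -/
theorem ArcFam.card_nbr {ι : Type*} {s : Finset ι} {a θ : ι → ℝ}
    (h : ArcFam s a θ) (h3 : 3 ≤ s.card) {i : ι} (hi : i ∈ s) :
    (s.filter (fun j => j ≠ i ∧ (arc (a i) (θ i) ∩ arc (a j) (θ j)).Nonempty)).card = 2 := by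
  obtain ⟨l, hl, hli, hlm⟩ := h.exists_left hi
  obtain ⟨r, hr, hri, hrm⟩ := h.exists_right hi
  have hlr : l ≠ r := by
    rintro rfl
    exact h.ends_ne h3 hi hl hli hlm hrm
  have : s.filter (fun j => j ≠ i ∧ (arc (a i) (θ i) ∩ arc (a j) (θ j)).Nonempty) = {l, r} := by
    ext j
    simp only [Finset.mem_filter, Finset.mem_insert, Finset.mem_singleton]
    constructor
    · rintro ⟨hj, hji, t, ht1, ht2⟩
      rcases h.meet_endpoint hi hj hji ht1 ht2 with h4 | h4
      · exact Or.inl (h.left_unique hi hj hl hji hli h4 hlm)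
      · exact Or.inr (h.right_unique hi hj hr hji hri h4 hrm)
    · rintro (rfl | rfl)
      · exact ⟨hl, hli, a i, arc_left_mem (h.pos i hi).le, hlm⟩
      · exact ⟨hr, hri, a i + θ i, arc_right_mem (h.pos i hi).le, hrm⟩
  rw [this, Finset.card_pair hlr]

/-- If an arc of length `≤ 1/2` contains `t` and `t + 1/2` then its length is `1/2`. -/
lemma arc_half {a θ t : ℝ} (hθ : θ ≤ 1 / 2) (h1 : t ∈ arc a θ) (h2 : t + 1 / 2 ∈ arc a θ) :
    θ = 1 / 2 := by
  obtain ⟨k, h3, h4⟩ := h1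
  obtain ⟨m, h5, h6⟩ := h2
  by_contra hne
  have hlt : θ < 1 / 2 := lt_of_le_of_ne hθ hne
  have e1 : ((m - k : ℤ) : ℝ) < 0 := by push_cast; linarith
  have e2 : (-1 : ℝ) < ((m - k : ℤ) : ℝ) := by push_cast; linarith
  have e1' : m - k < 0 := by exact_mod_cast e1
  have e2' : -1 < m - k := by exact_mod_cast e2
  omega

/-- If an arc of length `1/2` contains `t` as an endpoint it contains `t+1/2`. -/
lemma arc_half_opposite {a t : ℝ} (h : (∃ k : ℤ, t + k = a) ∨ (∃ k : ℤ, t + k = a + 1 / 2)) :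
    t + 1 / 2 ∈ arc a (1 / 2) := by
  rcases h with ⟨k, hk⟩ | ⟨k, hk⟩
  · exact ⟨k, by linarith, by linarith⟩
  · exact ⟨k - 1, by push_cast; linarith, by push_cast; linarith⟩

end Pool.Agent.Hhelper50
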