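import Pool.Agent.Hhelper50.Geo2

/-!
# Normal form of congruences and their effect on direction sets and angles
-/

set_option autoImplicit false

namespace Pool.Agent.Hhelper50

open Set MeasureTheory Metric
open scoped ComplexConjugate

/-- Every isometry of the plane in normal form. -/
theorem isometry_form (f : ℂ ≃ᵢ ℂ) : ∃ (s : ℝ) (v : ℂ),
    (∀ z, f z = dir s * z + v) ∨ (∀ z, f z = dir s * conj z + v) := by
  obtain ⟨a, ha⟩ := linear_isometry_complex f.toRealLinearIsometryEquiv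
  have hL : ∀ z, f.toRealLinearIsometryEquiv z = f z - f 0 :=
    fun z => f.toRealLinearIsometryEquiv_apply z
  obtain ⟨s, hs⟩ := exists_polar (a : ℂ)
  rw [Circle.norm_coe, one_smul] at hs
  refine ⟨s, f 0, ?_⟩
  rcases ha with ha | ha
  · left
    intro z
    have h1 := hL z
    rw [ha, rotation_apply, hs] at h1
    rw [h1]; ring
  · right
    intro z
    have h1 := hL z
    rw [ha, LinearIsometryEquiv.trans_apply, rotation_apply, Complex.conjLIE_apply, hs] at h1
    rw [h1]; ring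

lemma Dset_direct {K : Set ℂ} {f : ℂ → ℂ} {s : ℝ} {v : ℂ} (hf : ∀ z, f z = dir s * z + v)
    (p : ℂ) (t : ℝ) : t ∈ Dset (f '' K) (f p) ↔ t - s ∈ Dset K p := by
  have hinj : ∀ x y, f x = f y → x = y := by
    intro x y hxy
    rw [hf, hf] at hxy
    exact mul_left_cancel₀ (dir_ne_zero s) (add_right_cancel hxy)
  have key : ∀ ε : ℝ, f p + ε • dir t = f (p + ε • dir (t - s)) := by
    intro ε
    rw [hf, hf, mul_add, mul_smul_comm, ← dir_add]
    have : s + (t - s) = t := by ring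
    rw [this]
    ring
  unfold Dset
  simp only [mem_ofPred_eq]
  constructor
  · rintro ⟨ε, hε, k, hk, e⟩
    rw [key] at e
    refine ⟨ε, hε, ?_⟩
    rw [← hinj _ _ e]
    exact hk
  · rintro ⟨ε, hε, h⟩
    refine ⟨ε, hε, p + ε • dir (t - s), h, (key ε).symm⟩

lemma Dset_conj {K : Set ℂ} {f : ℂ → ℂ} {s : ℝ} {v : ℂ} (hf : ∀ z, f z = dir s * conj z + v)
    (p : ℂ) (t : ℝ) : t ∈ Dset (f '' K) (f p) ↔ s - t ∈ Dset K p := by
  have hinj : ∀ x y, f x = f y → x = y := by
    intro x y hxy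
    rw [hf, hf] at hxy
    have := mul_left_cancel₀ (dir_ne_zero s) (add_right_cancel hxy)
    exact (starRingEnd ℂ).injective this
  have key : ∀ ε : ℝ, f p + ε • dir t = f (p + ε • dir (s - t)) := by
    intro ε
    have h1 : conj (ε • dir (s - t)) = ε • dir (t - s) := by
      rw [Complex.real_smul, Complex.real_smul, map_mul, Complex.conj_ofReal, ← dir_neg]
      congr 2
      ring
    rw [hf, hf, map_add, h1, mul_add, mul_smul_comm, ← dir_add]
    have : s + (t - s) = t := by ring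
    rw [this]
    ring
  unfold Dset
  simp only [mem_ofPred_eq]
  constructor
  · rintro ⟨ε, hε, k, hk, e⟩
    rw [key] at e
    refine ⟨ε, hε, ?_⟩
    rw [← hinj _ _ e]
    exact hk
  · rintro ⟨ε, hε, h⟩
    refine ⟨ε, hε, p + ε • dir (s - t), h, (key ε).symm⟩

/-- Both cases at once: an isometry shifts or reflects the direction sets, with the same
parameter for all sets and points. -/
theorem Dset_image (f : ℂ ≃ᵢ ℂ) : ∃ s : ℝ,
    (∀ (K : Set ℂ) (p : ℂ) (t : ℝ), t ∈ Dset (f '' K) (f p) ↔ t - s ∈ Dset K p) ∨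
    (∀ (K : Set ℂ) (p : ℂ) (t : ℝ), t ∈ Dset (f '' K) (f p) ↔ s - t ∈ Dset K p) := by
  obtain ⟨s, v, h | h⟩ := isometry_form f
  · exact ⟨s, Or.inl (fun K p t => Dset_direct h p t)⟩
  · exact ⟨s, Or.inr (fun K p t => Dset_conj h p t)⟩

/-- Isometries map direction arcs to direction arcs of the same length. -/
theorem Dset_image_arc (f : ℂ ≃ᵢ ℂ) {K : Set ℂ} {p : ℂ} {a θ : ℝ} (h : Dset K p = arc a θ) :
    ∃ a' : ℝ, Dset (f '' K) (f p) = arc a' θ := by
  obtain ⟨s, hs | hs⟩ := Dset_image f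
  · refine ⟨a + s, ?_⟩
    ext t
    rw [hs, h, arc_shift]
  · refine ⟨s - a - θ, ?_⟩
    ext t
    rw [hs, h, arc_reflect]

lemma Dset_interior {K : Set ℂ} {p : ℂ} (hp : p ∈ interior K) : Dset K p = univ := by
  rw [eq_univ_iff_forall]
  intro t
  obtain ⟨r, hr, hsub⟩ := Metric.isOpen_iff.mp isOpen_interior p hp
  refine ⟨r / 2, by linarith, interior_subset (hsub ?_)⟩
  rw [mem_ball, dist_eq_norm, add_sub_cancel_left, norm_smul, norm_dir, mul_one,
    Real.norm_of_nonneg (by linarith)]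
  linarith

namespace CT

variable (X : CT)

/-- Each tile is the image of any other tile under an isometry. -/
theorem exists_iso {A B : Set ℂ} (hA : A ∈ X.𝒯) (hB : B ∈ X.𝒯) : ∃ f : ℂ ≃ᵢ ℂ, B = f '' A := by
  obtain ⟨f, hf⟩ := X.hcong A hA
  obtain ⟨g, hg⟩ := X.hcong B hB
  refine ⟨f.symm.trans g, ?_⟩
  rw [hf, hg]
  ext z
  simp only [mem_image]
  constructor
  · rintro ⟨x, hx, rfl⟩
    exact ⟨f x, ⟨x, hx, rfl⟩, by simp⟩
  · rintro ⟨_, ⟨x, hx, rfl⟩, rfl⟩
    exact ⟨x, hx, by simp⟩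

/-- Each tile in normal form. -/
theorem exists_form {A : Set ℂ} (hA : A ∈ X.𝒯) : ∃ (s : ℝ) (v : ℂ),
    A = (fun z => dir s * z + v) '' X.K ∨ A = (fun z => dir s * conj z + v) '' X.K := by
  obtain ⟨f, hf⟩ := X.hcong A hA
  obtain ⟨s, v, h | h⟩ := isometry_form f
  · refine ⟨s, v, Or.inl ?_⟩
    rw [hf]
    exact image_congr (fun z _ => h z)
  · refine ⟨s, v, Or.inr ?_⟩
    rw [hf]
    exact image_congr (fun z _ => h z)

/-- Isometries preserve angles. -/
theorem ang_image {A : Set ℂ} (hA : A ∈ X.𝒯) (f : ℂ ≃ᵢ ℂ) {p : ℂ} (hp : p ∈ A) :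
    ang (f p) (f '' A) = ang p A := by
  by_cases hint : p ∈ interior A
  · have h2 : (f '' interior A) = interior (f '' A) := f.toHomeomorph.image_interior A
    have h3 : f p ∈ interior (f '' A) := by
      rw [← h2]; exact ⟨p, hint, rfl⟩
    unfold ang
    rw [Dset_interior hint, Dset_interior h3]
  · obtain ⟨a, h1, h2, h3⟩ := X.exists_arc' hA hp hint
    obtain ⟨a', ha'⟩ := Dset_image_arc f h3
    rw [ang, ha', plen_arc _ _ h1.le (by linarith)]

theorem ang_congr {A : Set ℂ} (hA : A ∈ X.𝒯) (f : ℂ ≃ᵢ ℂ) {p : ℂ} (hp : p ∈ A)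
    (_hint : p ∉ interior A) : ang (f p) (f '' A) = ang p A :=
  X.ang_image hA f hp

end CT

end Pool.Agent.Hhelper50
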