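import Pool.Agent.Hhelper50.Geo5

/-!
# The exterior angle sum of a tile (normal arcs)
-/

set_option autoImplicit false

namespace Pool.Agent.Hhelper50

open Set Metric

/-- height function in direction `s` -/
noncomputable def ht (s : ℝ) (z : ℂ) : ℝ := (z * (starRingEnd ℂ) (dir s)).re

lemma ht_add (s : ℝ) (z w : ℂ) : ht s (z + w) = ht s z + ht s w := by
  unfold ht
  rw [add_mul, Complex.add_re]

lemma ht_smul_dir (s r t : ℝ) : ht s (r • dir t) = r * Real.cos (2 * Real.pi * (t - s)) := by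
  unfold ht
  rw [Complex.real_smul, mul_assoc, Complex.re_ofReal_mul, re_dir_mul_conj]

lemma ht_ray (s : ℝ) (p : ℂ) (r t : ℝ) :
    ht s (p + r • dir t) = ht s p + r * Real.cos (2 * Real.pi * (t - s)) := by
  rw [ht_add, ht_smul_dir]

lemma continuous_ht (s : ℝ) : Continuous (ht s) := by
  unfold ht
  exact Complex.continuous_re.comp (continuous_id.mul continuous_const)

namespace CT

variable (X : CT)

lemma mem_Dset_of_interior {A : Set ℂ} {p : ℂ} (hp : p ∈ interior A) (t : ℝ) :
    t ∈ Dset A p := by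
  obtain ⟨ε, hε, hsub⟩ := Metric.isOpen_iff.mp isOpen_interior p hp
  refine ⟨ε / 2, by linarith, interior_subset (hsub ?_)⟩
  rw [mem_ball, dist_eq_norm, add_sub_cancel_left, norm_smul, norm_dir, mul_one,
    Real.norm_of_nonneg (by linarith)]
  linarith

theorem ext_sum {A : Set ℂ} (hA : A ∈ X.𝒯) (s : Finset ℂ)
    (hs : ∀ p, p ∈ s ↔ p ∈ A ∧ 3 ≤ (X.tiles p).ncard) : ∑ p ∈ s, (1 / 2 - ang p A) = 1 := by
  classical
  have hex : ∀ p : ℂ, ∃ a : ℝ, p ∈ A → p ∉ interior A → 0 < ang p A ∧ ang p A ≤ 1 / 2 ∧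
      Dset A p = arc a (ang p A) := by
    intro p
    by_cases hp : p ∈ A
    · by_cases hint : p ∈ interior A
      · exact ⟨0, fun _ h => absurd hint h⟩
      · obtain ⟨a, ha⟩ := X.exists_arc' hA hp hint
        exact ⟨a, fun _ _ => ha⟩
    · exact ⟨0, fun h => absurd h hp⟩
  choose a ha using hex
  set c : Finset ℂ := s.filter (fun p => ang p A < 1 / 2) with hc
  have hcm : ∀ p, p ∈ c ↔ IsCorner A p := by
    intro p
    rw [hc, Finset.mem_filter, hs]
    constructor
    · rintro ⟨⟨h1, h2⟩, h3⟩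
      exact ⟨h1, X.vert_not_interior ⟨p, h2⟩ hA, h3⟩
    · intro h
      exact ⟨⟨h.1, IsCorner.isVert X hA h⟩, h.2.2⟩
  have hsum : ∑ p ∈ s, (1 / 2 - ang p A) = ∑ p ∈ c, (1 / 2 - ang p A) := by
    symm
    apply Finset.sum_subset (Finset.filter_subset _ _)
    intro p hp hpc
    rw [hs] at hp
    have hint := X.vert_not_interior ⟨p, hp.2⟩ hA
    have h1 := ha p hp.1 hint
    have : ¬ (ang p A < 1 / 2) := fun h => hpc ((hcm p).mpr ⟨hp.1, hint, h⟩)
    linarith [h1.2.1]
  rw [hsum]
  apply arcs_sum c (fun p => a p + ang p A + 1 / 4) (fun p => 1 / 2 - ang p A)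
  · intro p hp
    have := ((hcm p).mp hp).2.2
    linarith
  · intro p hp
    have h := (hcm p).mp hp
    have := (ha p h.1 h.2.1).1
    linarith
  · -- cover
    intro t0
    obtain ⟨x0, hx0, hmax⟩ := (X.compact hA).exists_isMaxOn (X.nonempty hA)
      (continuous_ht t0).continuousOn
    have hF : IsCompact (A ∩ {z | ht t0 z = ht t0 x0}) :=
      (X.compact hA).inter_right (isClosed_eq (continuous_ht t0) continuous_const)
    obtain ⟨p, hpF, hmax2⟩ := hF.exists_isMaxOn ⟨x0, hx0, rfl⟩
      (continuous_ht (t0 + 1 / 4)).continuousOn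
    obtain ⟨hpA, hpM⟩ := hpF
    have hpM' : ht t0 p = ht t0 x0 := hpM
    have hle : ∀ z ∈ A, ht t0 z ≤ ht t0 p := by
      intro z hz
      rw [hpM']
      exact hmax hz
    have hcosle : ∀ t ∈ Dset A p, Real.cos (2 * Real.pi * (t - t0)) ≤ 0 := by
      rintro t ⟨ε, hε, hmem⟩
      have h1 := hle _ hmem
      rw [ht_ray] at h1
      by_contra hcon
      push Not at hcon
      have := mul_pos hε hcon
      linarith
    have ht0 : t0 ∉ Dset A p := by
      intro h
      have := hcosle t0 h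
      rw [sub_self, mul_zero, Real.cos_zero] at this
      linarith
    have hint : p ∉ interior A := fun h => ht0 (mem_Dset_of_interior h t0)
    obtain ⟨hpos, hhalf, harc⟩ := ha p hpA hint
    have hd : ∀ t ∈ arc (a p) (ang p A), t - t0 ∈ arc (1 / 4) (1 / 2) := by
      intro t ht
      rw [← harc] at ht
      exact cos_nonpos_arc (hcosle t ht)
    obtain ⟨k, hk1, hk2⟩ := hd _ (arc_left_mem (a := a p) hpos.le)
    obtain ⟨m, hm1, hm2⟩ := hd _ (arc_right_mem (a := a p) hpos.le)
    have hkm : m = k := by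
      by_contra hne
      have e1 : ((m - k : ℤ) : ℝ) < 1 := by push_cast; linarith
      have e2 : (-1 : ℝ) ≤ ((m - k : ℤ) : ℝ) := by push_cast; linarith
      have e1' : m - k < 1 := by exact_mod_cast e1
      have e2' : -1 ≤ m - k := by exact_mod_cast e2
      have e3 : m = k - 1 := by omega
      have e4 : (m : ℝ) = k - 1 := by rw [e3]; push_cast; ring
      -- then the arc contains t0
      apply ht0
      rw [harc]
      refine ⟨1 - k, ?_, ?_⟩ <;> push_cast <;> linarith
    subst hkm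
    have hmemN : t0 ∈ arc (a p + ang p A + 1 / 4) (1 / 2 - ang p A) :=
      ⟨1 - m, by push_cast; linarith, by push_cast; linarith⟩
    have hlt : ang p A < 1 / 2 := by
      rcases hhalf.lt_or_eq with h | h
      · exact h
      · exfalso
        have h1 : t0 + 1 / 4 ∈ Dset A p := by
          rw [harc]
          exact ⟨-m, by push_cast; linarith, by push_cast; linarith⟩
        obtain ⟨ε, hε, hmem⟩ := h1
        have h2 : ht t0 (p + ε • dir (t0 + 1 / 4)) = ht t0 p := by
          rw [ht_ray]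
          have : 2 * Real.pi * (t0 + 1 / 4 - t0) = Real.pi / 2 := by ring
          rw [this, Real.cos_pi_div_two]
          ring
        have h3 : ht (t0 + 1 / 4) (p + ε • dir (t0 + 1 / 4)) ≤ ht (t0 + 1 / 4) p :=
          hmax2 ⟨hmem, by rw [mem_setOf_eq, h2, hpM']⟩
        rw [ht_ray, sub_self, mul_zero, Real.cos_zero] at h3
        linarith
    exact ⟨p, (hcm p).mpr ⟨hpA, hint, hlt⟩, hmemN⟩
  · -- no overlap
    have key : ∀ p ∈ c, ∀ q ∈ A, q ≠ p → ∀ t0 : ℝ, ∀ k : ℤ, a p + ang p A + 1 / 4 < t0 + k →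
        t0 + k < a p + ang p A + 1 / 4 + (1 / 2 - ang p A) → ht t0 q < ht t0 p := by
      intro p hp q hq hqp t0 k h1 h2
      have hpc := (hcm p).mp hp
      obtain ⟨t, ht⟩ := exists_polar (q - p)
      have hr : 0 < ‖q - p‖ := norm_pos_iff.mpr (sub_ne_zero.mpr hqp)
      have he : q = p + ‖q - p‖ • dir t := by rw [← ht]; ring
      have hD : t ∈ Dset A p := mem_Dset_of_sub hq hr he
      rw [(ha p hpc.1 hpc.2.1).2.2] at hD
      obtain ⟨m, hm1, hm2⟩ := hD
      have hcos : Real.cos (2 * Real.pi * (t - t0)) < 0 := by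
        apply cos_arc_neg (k := m - k + 1)
        · push_cast; linarith
        · push_cast; linarith
      rw [he, ht_ray]
      have := mul_neg_of_pos_of_neg hr hcos
      linarith
    intro p hp q hq hpq x y hxy hsub
    have hpc := (hcm p).mp hp
    have hqc := (hcm q).mp hq
    have hmid : (x + y) / 2 ∈ Ioo x y := ⟨by linarith, by linarith⟩
    have hp0 := ha p hpc.1 hpc.2.1
    have hq0 := ha q hqc.1 hqc.2.1
    obtain ⟨k, hk1, hk2⟩ := Ioo_subset_arc_interior (by linarith [hp0.2.1])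
      (by linarith [hp0.1]) (fun t ht => (hsub ht).1) hmid
    obtain ⟨m, hm1, hm2⟩ := Ioo_subset_arc_interior (by linarith [hq0.2.1])
      (by linarith [hq0.1]) (fun t ht => (hsub ht).2) hmid
    have h1 := key p hp q hqc.1 hpq.symm _ k hk1 hk2
    have h2 := key q hq p hpc.1 hpq _ m hm1 hm2
    linarith

end CT

end Pool.Agent.Hhelper50
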