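import Mathlib
import Pool.Agent.Hhelper50.Arcs

/-!
# Convex monohedral tilings of `ℂ`: local finiteness and local cone structure
-/

set_option autoImplicit false

namespace Pool.Agent.Hhelper50

open Set MeasureTheory Metric

/-- A tiling of `ℂ` by congruent copies of the convex compact body `K` (itself a tile),
every tile having exactly `n > 0` neighbours. -/
structure CT where
  /-- the tiles -/
  𝒯 : Set (Set ℂ)
  /-- a reference tile -/
  K : Set ℂ
  /-- number of neighbours -/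
  n : ℕ
  hK : K ∈ 𝒯
  hconv : Convex ℝ K
  hcomp : IsCompact K
  hint : (interior K).Nonempty
  hcong : ∀ A ∈ 𝒯, ∃ f : ℂ ≃ᵢ ℂ, A = f '' K
  hcov : ⋃₀ 𝒯 = Set.univ
  hdisj : ∀ A ∈ 𝒯, ∀ B ∈ 𝒯, A ≠ B → Disjoint (interior A) (interior B)
  hn : ∀ A ∈ 𝒯, {B | B ∈ 𝒯 ∧ B ≠ A ∧ (A ∩ B).Nonempty}.ncard = n
  hn0 : 0 < n

namespace CT

variable (X : CT)

lemma convex {A : Set ℂ} (hA : A ∈ X.𝒯) : Convex ℝ A := by
  obtain ⟨f, rfl⟩ := X.hcong A hA
  have := X.hconv.affine_image (f.toRealAffineIsometryEquiv.toAffineEquiv.toAffineMap)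
  simpa using this

lemma compact {A : Set ℂ} (hA : A ∈ X.𝒯) : IsCompact A := by
  obtain ⟨f, rfl⟩ := X.hcong A hA
  exact X.hcomp.image f.continuous

lemma closed {A : Set ℂ} (hA : A ∈ X.𝒯) : IsClosed A := (X.compact hA).isClosed

lemma int_nonempty {A : Set ℂ} (hA : A ∈ X.𝒯) : (interior A).Nonempty := by
  obtain ⟨f, rfl⟩ := X.hcong A hA
  have := f.toHomeomorph.image_interior X.K
  have h2 : (f '' interior X.K) = interior (f '' X.K) := this
  rw [← h2]
  exact X.hint.image f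

lemma nonempty {A : Set ℂ} (hA : A ∈ X.𝒯) : A.Nonempty :=
  (X.int_nonempty hA).mono interior_subset

lemma closure_int {A : Set ℂ} (hA : A ∈ X.𝒯) : closure (interior A) = A := by
  rw [(X.convex hA).closure_interior_eq_closure_of_nonempty_interior (X.int_nonempty hA),
    (X.closed hA).closure_eq]

/-- a tile is disjoint from the interiors of the other tiles -/
lemma int_disj {A B : Set ℂ} (hA : A ∈ X.𝒯) (hB : B ∈ X.𝒯) (hAB : A ≠ B) {x : ℂ}
    (h1 : x ∈ interior A) (h2 : x ∈ B) : False := by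
  rw [← X.closure_int hB] at h2
  obtain ⟨y, hy1, hy2⟩ := mem_closure_iff.mp h2 (interior A) isOpen_interior h1
  exact Set.disjoint_left.mp (X.hdisj A hA B hB hAB) hy1 hy2

lemma exists_tile (x : ℂ) : ∃ A ∈ X.𝒯, x ∈ A := by
  have : x ∈ ⋃₀ X.𝒯 := by rw [X.hcov]; trivial
  obtain ⟨A, hA, hx⟩ := this
  exact ⟨A, hA, hx⟩

lemma exists_diam : ∃ D > 0, ∀ A ∈ X.𝒯, ∀ x ∈ A, ∀ y ∈ A, dist x y ≤ D := by
  obtain ⟨D, hD⟩ := Metric.isBounded_iff.mp X.hcomp.isBounded
  refine ⟨max D 1, lt_of_lt_of_le one_pos (le_max_right _ _), ?_⟩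
  intro A hA x hx y hy
  obtain ⟨f, rfl⟩ := X.hcong A hA
  obtain ⟨x', hx', rfl⟩ := hx
  obtain ⟨y', hy', rfl⟩ := hy
  rw [f.dist_eq]
  exact le_trans (hD hx' hy') (le_max_left _ _)

lemma exists_inball : ∃ ρ > 0, ∀ A ∈ X.𝒯, ∃ c ∈ A, ball c ρ ⊆ interior A := by
  obtain ⟨c, hc⟩ := X.hint
  obtain ⟨ρ, hρ, hsub⟩ := Metric.isOpen_iff.mp isOpen_interior c hc
  refine ⟨ρ, hρ, ?_⟩
  intro A hA
  obtain ⟨f, rfl⟩ := X.hcong A hA
  refine ⟨f c, ⟨c, interior_subset hc, rfl⟩, ?_⟩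
  have h2 : (f '' interior X.K) = interior (f '' X.K) := f.toHomeomorph.image_interior X.K
  rw [← h2, ← f.image_ball]
  exact image_mono hsub

/-- Quadratic bound for the number of tiles meeting a ball. -/
lemma exists_count : ∃ C ≥ 0, ∀ (x : ℂ) (R : ℝ), 0 ≤ R → ∀ s : Finset (Set ℂ),
    (∀ A ∈ s, A ∈ X.𝒯 ∧ (A ∩ closedBall x R).Nonempty) → (s.card : ℝ) ≤ C * (R + 1) ^ 2 := by
  obtain ⟨D, hD, hdiam⟩ := X.exists_diam
  obtain ⟨ρ, hρ, hball⟩ := X.exists_inball
  refine ⟨((D + ρ + 1) / ρ) ^ 2, by positivity, ?_⟩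
  intro x R hR s hs
  have hex : ∀ A : Set ℂ, ∃ c : ℂ, A ∈ s → c ∈ A ∧ ball c ρ ⊆ interior A := by
    intro A
    by_cases hA : A ∈ s
    · obtain ⟨c, hc, hc'⟩ := hball A (hs A hA).1
      exact ⟨c, fun _ => ⟨hc, hc'⟩⟩
    · exact ⟨0, fun h => absurd h hA⟩
  choose c hc using hex
  have hsub : (⋃ A ∈ s, ball (c A) ρ) ⊆ ball x (R + D + ρ) := by
    intro y hy
    simp only [mem_iUnion, exists_prop] at hy
    obtain ⟨A, hA, hy⟩ := hy
    obtain ⟨hA', z, hz, hzR⟩ := hs A hA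
    rw [mem_ball] at hy ⊢
    rw [mem_closedBall] at hzR
    have h1 := hdiam A hA' (c A) (hc A hA).1 z hz
    have h2 := dist_triangle y (c A) x
    have h3 := dist_triangle (c A) z x
    linarith
  have hdisj : (s : Set (Set ℂ)).PairwiseDisjoint (fun A => ball (c A) ρ) := by
    intro A hA B hB hAB
    exact (X.hdisj A (hs A hA).1 B (hs B hB).1 hAB).mono (hc A hA).2 (hc B hB).2
  have hm : volume (⋃ A ∈ s, ball (c A) ρ) = ∑ A ∈ s, volume (ball (c A) ρ) :=
    measure_biUnion_finset hdisj (fun _ _ => measurableSet_ball)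
  have hle : volume (⋃ A ∈ s, ball (c A) ρ) ≤ volume (ball x (R + D + ρ)) := measure_mono hsub
  rw [hm] at hle
  simp only [Complex.volume_ball, Finset.sum_const, nsmul_eq_mul] at hle
  have h1 : (s.card : ENNReal) * (ENNReal.ofReal ρ ^ 2 * NNReal.pi)
      = ENNReal.ofReal ((s.card : ℝ) * (ρ ^ 2 * Real.pi)) := by
    rw [ENNReal.ofReal_mul (Nat.cast_nonneg _), ENNReal.ofReal_natCast,
      ENNReal.ofReal_mul (by positivity), ENNReal.ofReal_pow hρ.le]
    congr 2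
    rw [← NNReal.coe_real_pi, ENNReal.ofReal_coe_nnreal]
  have h2 : ENNReal.ofReal (R + D + ρ) ^ 2 * (NNReal.pi : ENNReal)
      = ENNReal.ofReal ((R + D + ρ) ^ 2 * Real.pi) := by
    rw [ENNReal.ofReal_mul (by positivity), ENNReal.ofReal_pow (by positivity)]
    congr 1
    rw [← NNReal.coe_real_pi, ENNReal.ofReal_coe_nnreal]
  rw [h1, h2, ENNReal.ofReal_le_ofReal_iff (by positivity)] at hle
  have h3 : (s.card : ℝ) * ρ ^ 2 ≤ (R + D + ρ) ^ 2 := by
    have hpi := Real.pi_pos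
    have : (s.card : ℝ) * ρ ^ 2 * Real.pi ≤ (R + D + ρ) ^ 2 * Real.pi := by linarith
    exact le_of_mul_le_mul_right this hpi
  have h4 : R + D + ρ ≤ (D + ρ + 1) * (R + 1) := by nlinarith
  have h5 : (R + D + ρ) ^ 2 ≤ ((D + ρ + 1) * (R + 1)) ^ 2 := by
    apply pow_le_pow_left₀ (by positivity) h4
  rw [div_pow, div_mul_eq_mul_div, le_div_iff₀ (by positivity)]
  nlinarith

lemma finite_meet (x : ℂ) (R : ℝ) (hR : 0 ≤ R) :
    {A | A ∈ X.𝒯 ∧ (A ∩ closedBall x R).Nonempty}.Finite := by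
  obtain ⟨C, hC0, hC⟩ := X.exists_count
  by_contra hinf
  have hinf' : {A | A ∈ X.𝒯 ∧ (A ∩ closedBall x R).Nonempty}.Infinite := hinf
  obtain ⟨t, ht, hcard⟩ := hinf'.exists_subset_card_eq (⌊C * (R + 1) ^ 2⌋₊ + 1)
  have := hC x R hR t (fun A hA => ht hA)
  rw [hcard] at this
  have h2 := Nat.lt_floor_add_one (C * (R + 1) ^ 2)
  push_cast at this
  linarith

/-- Near `p` only the tiles containing `p` occur. -/
lemma exists_radius (p : ℂ) : ∃ r > 0, ∀ A ∈ X.𝒯, (A ∩ closedBall p r).Nonempty → p ∈ A := by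
  have hfin := X.finite_meet p 1 zero_le_one
  have hfin2 : {A | A ∈ X.𝒯 ∧ (A ∩ closedBall p 1).Nonempty ∧ p ∉ A}.Finite :=
    hfin.subset (fun A hA => ⟨hA.1, hA.2.1⟩)
  have hcl : IsClosed (⋃ A ∈ {A | A ∈ X.𝒯 ∧ (A ∩ closedBall p 1).Nonempty ∧ p ∉ A}, A) :=
    hfin2.isClosed_biUnion (fun A hA => X.closed hA.1)
  have hnot : p ∈ (⋃ A ∈ {A | A ∈ X.𝒯 ∧ (A ∩ closedBall p 1).Nonempty ∧ p ∉ A}, A)ᶜ := by
    rw [mem_compl_iff, mem_iUnion₂]
    rintro ⟨A, hA, hp⟩
    exact hA.2.2 hp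
  obtain ⟨ε, hε, hsub⟩ := Metric.isOpen_iff.mp hcl.isOpen_compl p hnot
  refine ⟨min (ε / 2) 1, lt_min (by linarith) one_pos, ?_⟩
  rintro A hA ⟨x, hx, hxr⟩
  by_contra hp
  rw [mem_closedBall] at hxr
  have hx1 : x ∈ ball p ε := by
    rw [mem_ball]
    have := min_le_left (ε / 2) 1
    linarith
  have hx2 : x ∈ closedBall p 1 := by
    rw [mem_closedBall]
    exact le_trans hxr (min_le_right _ _)
  have := hsub hx1
  rw [mem_compl_iff, mem_iUnion₂] at this
  exact this ⟨A, ⟨hA, ⟨x, hx, hx2⟩, hp⟩, hx⟩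

/-- the tiles at a point -/
def tiles (p : ℂ) : Set (Set ℂ) := {A | A ∈ X.𝒯 ∧ p ∈ A}

lemma tiles_finite (p : ℂ) : (X.tiles p).Finite :=
  (X.finite_meet p 0 le_rfl).subset (fun A hA => ⟨hA.1, ⟨p, hA.2, by simp⟩⟩)

lemma smul_mem {A : Set ℂ} (hA : A ∈ X.𝒯) {p v : ℂ} (hp : p ∈ A) {ε : ℝ}
    (h0 : 0 ≤ ε) (h1 : ε ≤ 1) (hv : p + v ∈ A) : p + ε • v ∈ A := by
  have := (X.convex hA) hp hv (a := 1 - ε) (b := ε) (by linarith) h0 (by ring)
  convert this using 1
  simp only [Complex.real_smul]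
  push_cast
  ring

/-- **Local cone lemma.** -/
lemma exists_cone_radius (p : ℂ) : ∃ r > 0, (∀ A ∈ X.𝒯, (A ∩ closedBall p r).Nonempty → p ∈ A) ∧
    ∀ A ∈ X.𝒯, p ∈ A → ∀ v : ℂ, ‖v‖ < r → ∀ ε : ℝ, 0 < ε → ε ≤ 1 → p + ε • v ∈ A → p + v ∈ A := by
  obtain ⟨r, hr, hrad⟩ := X.exists_radius p
  refine ⟨r, hr, hrad, ?_⟩
  intro A hA hp v hv ε hε hε1 hmem
  by_contra hnot
  have hopen : IsOpen Aᶜ := (X.closed hA).isOpen_compl
  obtain ⟨z, hz⟩ := X.int_nonempty hA
  -- u l = ((1-l)(p+εv) + l z - p)/ε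
  let u : ℝ → ℂ := fun l => v + (l / ε) • (z - (p + ε • v))
  have hucont : Continuous u := by
    apply Continuous.add continuous_const
    exact (continuous_id.div_const ε).smul continuous_const
  have hu0 : u 0 = v := by simp [u]
  have hev1 : ∀ᶠ l in nhds (0 : ℝ), p + u l ∈ Aᶜ := by
    have : Filter.Tendsto (fun l => p + u l) (nhds 0) (nhds (p + v)) := by
      have h : Continuous (fun l => p + u l) := continuous_const.add hucont
      have h' := h.tendsto 0
      simp only [hu0] at h'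
      exact h'
    exact this.eventually (hopen.mem_nhds hnot)
  have hev2 : ∀ᶠ l in nhds (0 : ℝ), ‖u l‖ < r := by
    have : Filter.Tendsto (fun l => ‖u l‖) (nhds 0) (nhds ‖v‖) := by
      have h := hucont.norm.tendsto 0
      simpa [hu0] using h
    exact this.eventually (gt_mem_nhds hv)
  obtain ⟨δ, hδ, hball⟩ := Metric.eventually_nhds_iff.mp (hev1.and hev2)
  set l : ℝ := min (δ / 2) (1 / 2) with hl
  have hl0 : 0 < l := lt_min (by linarith) (by norm_num)
  have hl1 : l < 1 := lt_of_le_of_lt (min_le_right _ _) (by norm_num)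
  have hlδ : dist l 0 < δ := by
    rw [Real.dist_eq, sub_zero, abs_of_pos hl0]
    have := min_le_left (δ / 2) (1 / 2)
    linarith
  obtain ⟨h1, h2⟩ := hball hlδ
  -- the tile containing p + u l
  obtain ⟨B, hB, hBmem⟩ := X.exists_tile (p + u l)
  have hBA : A ≠ B := by
    rintro rfl
    exact h1 hBmem
  have hpB : p ∈ B := by
    apply hrad B hB
    refine ⟨p + u l, hBmem, ?_⟩
    rw [mem_closedBall, dist_eq_norm]
    simpa using h2.le
  have hw : p + ε • u l ∈ B := X.smul_mem hB hpB hε.le hε1 hBmem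
  have hw2 : p + ε • u l = (1 - l) • (p + ε • v) + l • z := by
    simp only [u, Complex.real_smul]
    have : (ε : ℂ) ≠ 0 := by exact_mod_cast hε.ne'
    push_cast
    field_simp
    ring
  have hw3 : p + ε • u l ∈ interior A := by
    rw [hw2]
    have := (X.convex hA).combo_self_interior_subset_interior (a := 1 - l) (b := l)
      (by linarith) hl0 (by ring)
    apply this
    exact Set.add_mem_add (Set.smul_mem_smul_set hmem) (Set.smul_mem_smul_set hz)
  exact X.int_disj hA hB hBA hw3 hw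

/-- A radius at `p` inside which all tiles are cones with apex `p`. -/
noncomputable def rad (p : ℂ) : ℝ := (X.exists_cone_radius p).choose

lemma rad_pos (p : ℂ) : 0 < X.rad p := (X.exists_cone_radius p).choose_spec.1

lemma rad_spec (p : ℂ) {A : Set ℂ} (hA : A ∈ X.𝒯) (h : (A ∩ closedBall p (X.rad p)).Nonempty) :
    p ∈ A := (X.exists_cone_radius p).choose_spec.2.1 A hA h

lemma rad_cone {p : ℂ} {A : Set ℂ} (hA : A ∈ X.𝒯) (hp : p ∈ A) {v : ℂ} (hv : ‖v‖ < X.rad p)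
    {ε : ℝ} (h0 : 0 < ε) (h1 : ε ≤ 1) (h : p + ε • v ∈ A) : p + v ∈ A :=
  (X.exists_cone_radius p).choose_spec.2.2 A hA hp v hv ε h0 h1 h

end CT

/-! ### Directions -/

/-- unit vector in direction `t` (in full turns) -/
noncomputable def dir (t : ℝ) : ℂ := Complex.exp ((2 * Real.pi * t : ℝ) * Complex.I)

lemma norm_dir (t : ℝ) : ‖dir t‖ = 1 := Complex.norm_exp_ofReal_mul_I _

lemma dir_ne_zero (t : ℝ) : dir t ≠ 0 := Complex.exp_ne_zero _

lemma continuous_dir : Continuous dir := by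
  unfold dir
  fun_prop

lemma dir_add (s t : ℝ) : dir (s + t) = dir s * dir t := by
  unfold dir
  rw [← Complex.exp_add]
  congr 1
  push_cast
  ring

lemma dir_int (k : ℤ) : dir k = 1 := by
  unfold dir
  have : ((2 * Real.pi * (k : ℝ) : ℝ) : ℂ) * Complex.I = k * (2 * Real.pi * Complex.I) := by
    push_cast; ring
  rw [this]
  exact Complex.exp_int_mul_two_pi_mul_I k

lemma dir_zero : dir 0 = 1 := by simpa using dir_int 0

lemma dir_add_int (t : ℝ) (k : ℤ) : dir (t + k) = dir t := by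
  rw [dir_add, dir_int, mul_one]

lemma dir_half (t : ℝ) : dir (t + 1 / 2) = - dir t := by
  rw [dir_add]
  have : dir (1 / 2) = -1 := by
    unfold dir
    have : ((2 * Real.pi * (1 / 2 : ℝ) : ℝ) : ℂ) * Complex.I = Real.pi * Complex.I := by
      push_cast; ring
    rw [this, Complex.exp_pi_mul_I]
  rw [this]
  ring

lemma dir_neg (t : ℝ) : dir (-t) = (starRingEnd ℂ) (dir t) := by
  unfold dir
  rw [← Complex.exp_conj]
  congr 1
  rw [map_mul, Complex.conj_I, Complex.conj_ofReal]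
  push_cast
  ring

lemma dir_re (t : ℝ) : (dir t).re = Real.cos (2 * Real.pi * t) := by
  unfold dir
  rw [Complex.exp_ofReal_mul_I_re]

lemma dir_im (t : ℝ) : (dir t).im = Real.sin (2 * Real.pi * t) := by
  unfold dir
  rw [Complex.exp_ofReal_mul_I_im]

/-- Every vector has a polar form. -/
lemma exists_polar (z : ℂ) : ∃ t : ℝ, z = ‖z‖ • dir t := by
  refine ⟨z.arg / (2 * Real.pi), ?_⟩
  have h := Complex.norm_mul_exp_arg_mul_I z
  rw [Complex.real_smul]
  unfold dir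
  have : (2 * Real.pi * (z.arg / (2 * Real.pi)) : ℝ) = z.arg := by
    have := Real.pi_ne_zero
    field_simp
  rw [this]
  exact h.symm

lemma dir_inj {s t : ℝ} (h : dir s = dir t) : ∃ k : ℤ, s = t + k := by
  unfold dir at h
  rw [Complex.exp_eq_exp_iff_exists_int] at h
  obtain ⟨k, hk⟩ := h
  refine ⟨k, ?_⟩
  have h2 : ((2 * Real.pi * s : ℝ) : ℂ) * Complex.I
      = ((2 * Real.pi * (t + k) : ℝ) : ℂ) * Complex.I := by
    rw [hk]; push_cast; ring
  have h3 := mul_right_cancel₀ Complex.I_ne_zero h2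
  have h4 : 2 * Real.pi * s = 2 * Real.pi * (t + k) := by exact_mod_cast h3
  have := Real.pi_pos
  exact mul_left_cancel₀ (by positivity) h4

/-- the real inner product of directions -/
lemma re_dir_mul_conj (s t : ℝ) : (dir t * (starRingEnd ℂ) (dir s)).re
    = Real.cos (2 * Real.pi * (t - s)) := by
  rw [← dir_neg, ← dir_add, dir_re]
  congr 1

lemma dir_combo (t1 t2 t : ℝ) : (Real.sin (2 * Real.pi * (t2 - t1))) • dir t
    = (Real.sin (2 * Real.pi * (t2 - t))) • dir t1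
      + (Real.sin (2 * Real.pi * (t - t1))) • dir t2 := by
  apply Complex.ext
  · simp only [Complex.add_re, Complex.real_smul, Complex.mul_re, Complex.ofReal_re,
      Complex.ofReal_im, zero_mul, sub_zero, dir_re]
    have e1 : 2 * Real.pi * (t2 - t1) = 2 * Real.pi * t2 - 2 * Real.pi * t1 := by ring
    have e2 : 2 * Real.pi * (t2 - t) = 2 * Real.pi * t2 - 2 * Real.pi * t := by ring
    have e3 : 2 * Real.pi * (t - t1) = 2 * Real.pi * t - 2 * Real.pi * t1 := by ring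
    rw [e1, e2, e3, Real.sin_sub, Real.sin_sub, Real.sin_sub]
    ring
  · simp only [Complex.add_im, Complex.real_smul, Complex.mul_im, Complex.ofReal_re,
      Complex.ofReal_im, zero_mul, add_zero, dir_im]
    have e1 : 2 * Real.pi * (t2 - t1) = 2 * Real.pi * t2 - 2 * Real.pi * t1 := by ring
    have e2 : 2 * Real.pi * (t2 - t) = 2 * Real.pi * t2 - 2 * Real.pi * t := by ring
    have e3 : 2 * Real.pi * (t - t1) = 2 * Real.pi * t - 2 * Real.pi * t1 := by ring
    rw [e1, e2, e3, Real.sin_sub, Real.sin_sub, Real.sin_sub]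
    ring

end Pool.Agent.Hhelper50
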