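import Pool.Agent.Hhelper50.Geo1

/-!
# Direction sets of the tiles at a point
-/

set_option autoImplicit false

namespace Pool.Agent.Hhelper50

open Set MeasureTheory Metric

/-- Directions (in full turns) in which one can leave `p` inside `A`. -/
def Dset (A : Set ℂ) (p : ℂ) : Set ℝ := {t | ∃ ε : ℝ, 0 < ε ∧ p + ε • dir t ∈ A}

lemma Dset_add_int {A : Set ℂ} {p : ℂ} (t : ℝ) (k : ℤ) : t + k ∈ Dset A p ↔ t ∈ Dset A p := by
  simp only [Dset, mem_setOf_eq, dir_add_int]

lemma mem_Dset_of_sub {A : Set ℂ} {p q : ℂ} (hq : q ∈ A) {r t : ℝ} (hr : 0 < r)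
    (h : q = p + r • dir t) : t ∈ Dset A p := ⟨r, hr, h ▸ hq⟩

lemma cos_nonpos_arc {u : ℝ} (h : Real.cos (2 * Real.pi * u) ≤ 0) : u ∈ arc (1 / 4) (1 / 2) := by
  have hpi := Real.pi_pos
  have h0 := Int.fract_nonneg u
  have h1 := Int.fract_lt_one u
  have hf : Int.fract u = u + ((-⌊u⌋ : ℤ) : ℝ) := by rw [Int.fract]; push_cast; ring
  have hc : Real.cos (2 * Real.pi * Int.fract u) = Real.cos (2 * Real.pi * u) := by
    rw [Int.fract]
    have : 2 * Real.pi * (u - ⌊u⌋) = 2 * Real.pi * u - ⌊u⌋ * (2 * Real.pi) := by ring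
    rw [this, Real.cos_sub_int_mul_two_pi]
  refine ⟨-⌊u⌋, ?_, ?_⟩
  · rw [← hf]
    by_contra hlt
    push Not at hlt
    have : 0 < Real.cos (2 * Real.pi * Int.fract u) := by
      apply Real.cos_pos_of_mem_Ioo
      constructor <;> nlinarith
    linarith
  · rw [← hf]
    by_contra hlt
    push Not at hlt
    have : 0 < Real.cos (2 * Real.pi * Int.fract u) := by
      have e : 2 * Real.pi * Int.fract u = 2 * Real.pi * (Int.fract u - 1) + 2 * Real.pi := by ring
      rw [e, Real.cos_add_two_pi]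
      apply Real.cos_pos_of_mem_Ioo
      constructor <;> nlinarith
    linarith

lemma cos_neg_arc {u : ℝ} (h : Real.cos (2 * Real.pi * u) < 0) :
    ∃ k : ℤ, 1 / 4 < u + k ∧ u + k < 3 / 4 := by
  obtain ⟨k, h1, h2⟩ := cos_nonpos_arc h.le
  have hc : Real.cos (2 * Real.pi * (u + k)) = Real.cos (2 * Real.pi * u) := by
    have : 2 * Real.pi * (u + k) = 2 * Real.pi * u + k * (2 * Real.pi) := by ring
    rw [this, Real.cos_add_int_mul_two_pi]
  refine ⟨k, lt_of_le_of_ne h1 ?_, lt_of_le_of_ne (by linarith) ?_⟩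
  · intro he
    rw [← he] at hc
    have : 2 * Real.pi * (1 / 4) = Real.pi / 2 := by ring
    rw [this, Real.cos_pi_div_two] at hc
    linarith
  · intro he
    rw [he] at hc
    have : 2 * Real.pi * (3 / 4) = Real.pi / 2 + Real.pi := by ring
    rw [this, Real.cos_add_pi, Real.cos_pi_div_two] at hc
    linarith

lemma cos_arc_neg {u : ℝ} {k : ℤ} (h1 : 1 / 4 < u + k) (h2 : u + k < 3 / 4) :
    Real.cos (2 * Real.pi * u) < 0 := by
  have hpi := Real.pi_pos
  have hc : Real.cos (2 * Real.pi * (u + k)) = Real.cos (2 * Real.pi * u) := by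
    have : 2 * Real.pi * (u + k) = 2 * Real.pi * u + k * (2 * Real.pi) := by ring
    rw [this, Real.cos_add_int_mul_two_pi]
  rw [← hc]
  apply Real.cos_neg_of_pi_div_two_lt_of_lt <;> nlinarith

lemma cos_arc_nonpos {u : ℝ} (h : u ∈ arc (1 / 4) (1 / 2)) :
    Real.cos (2 * Real.pi * u) ≤ 0 := by
  obtain ⟨k, h1, h2⟩ := h
  have hpi := Real.pi_pos
  have hc : Real.cos (2 * Real.pi * (u + k)) = Real.cos (2 * Real.pi * u) := by
    have : 2 * Real.pi * (u + k) = 2 * Real.pi * u + k * (2 * Real.pi) := by ring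
    rw [this, Real.cos_add_int_mul_two_pi]
  rw [← hc]
  apply Real.cos_nonpos_of_pi_div_two_le_of_le <;> nlinarith

/-- A real-linear functional on `ℂ` evaluated on directions. -/
lemma dual_dir (f : StrongDual ℝ ℂ) : ∃ c s : ℝ, 0 ≤ c ∧ ∀ t, f (dir t)
    = c * Real.cos (2 * Real.pi * (t - s)) := by
  set w : ℂ := ⟨f 1, f Complex.I⟩ with hw
  obtain ⟨s, hs⟩ := exists_polar w
  refine ⟨‖w‖, s, norm_nonneg _, ?_⟩
  intro t
  have h1 : f (dir t) = (dir t).re * w.re + (dir t).im * w.im := by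
    have h2 : dir t = (dir t).re • (1 : ℂ) + (dir t).im • Complex.I := by
      apply Complex.ext <;> simp
    conv_lhs => rw [h2]
    rw [map_add, map_smul, map_smul]
    simp [hw]
  have hre : w.re = ‖w‖ * Real.cos (2 * Real.pi * s) := by
    conv_lhs => rw [hs]
    simp [dir_re]
  have him : w.im = ‖w‖ * Real.sin (2 * Real.pi * s) := by
    conv_lhs => rw [hs]
    simp [dir_im]
  have e1 : 2 * Real.pi * (t - s) = 2 * Real.pi * t - 2 * Real.pi * s := by ring
  rw [h1, hre, him, dir_re, dir_im, e1, Real.cos_sub]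
  ring

namespace CT

variable (X : CT)

lemma Dset_iff {p : ℂ} {A : Set ℂ} (hA : A ∈ X.𝒯) (hp : p ∈ A) {r : ℝ} (hr : 0 < r)
    (hr' : r < X.rad p) (t : ℝ) : t ∈ Dset A p ↔ p + r • dir t ∈ A := by
  constructor
  · rintro ⟨ε, hε, h⟩
    rcases le_or_gt r ε with hle | hlt
    · have := X.smul_mem hA hp (ε := r / ε) (v := ε • dir t) (by positivity)
        ((div_le_one hε).mpr hle) h
      rw [smul_smul, div_mul_cancel₀ _ hε.ne'] at this
      exact this
    · apply X.rad_cone hA hp (v := r • dir t) (ε := ε / r)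
      · rw [norm_smul, norm_dir, mul_one, Real.norm_of_nonneg hr.le]
        exact hr'
      · positivity
      · exact (div_le_one hr).mpr hlt.le
      · rw [smul_smul, div_mul_cancel₀ _ hr.ne']
        exact h
  · intro h
    exact ⟨r, hr, h⟩

lemma exists_small (p : ℂ) : ∃ r : ℝ, 0 < r ∧ r < X.rad p :=
  ⟨X.rad p / 2, half_pos (X.rad_pos p), half_lt_self (X.rad_pos p)⟩

lemma Dset_closed {p : ℂ} {A : Set ℂ} (hA : A ∈ X.𝒯) (hp : p ∈ A) : IsClosed (Dset A p) := by
  obtain ⟨r, hr, hr'⟩ := X.exists_small p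
  have : Dset A p = (fun t => p + r • dir t) ⁻¹' A := by
    ext t
    exact X.Dset_iff hA hp hr hr' t
  rw [this]
  apply (X.closed hA).preimage
  exact continuous_const.add (continuous_dir.const_smul r)

lemma Dset_cover (p : ℂ) (t : ℝ) : ∃ A ∈ X.𝒯, p ∈ A ∧ t ∈ Dset A p := by
  obtain ⟨r, hr, hr'⟩ := X.exists_small p
  obtain ⟨A, hA, hmem⟩ := X.exists_tile (p + r • dir t)
  refine ⟨A, hA, ?_, r, hr, hmem⟩
  apply X.rad_spec p hA
  refine ⟨_, hmem, ?_⟩
  rw [mem_closedBall, dist_eq_norm]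
  simp only [add_sub_cancel_left, norm_smul, norm_dir, mul_one, Real.norm_of_nonneg hr.le]
  exact hr'.le

lemma Dset_convex {p : ℂ} {A : Set ℂ} (hA : A ∈ X.𝒯) (hp : p ∈ A) {t1 t2 t : ℝ}
    (h1 : t1 ∈ Dset A p) (h2 : t2 ∈ Dset A p) (h12 : t2 < t1 + 1 / 2) (ht1 : t1 ≤ t)
    (ht2 : t ≤ t2) : t ∈ Dset A p := by
  rcases eq_or_lt_of_le ht1 with rfl | ht1
  · exact h1
  rcases eq_or_lt_of_le ht2 with rfl | ht2
  · exact h2
  obtain ⟨r, hr, hr'⟩ := X.exists_small p
  rw [X.Dset_iff hA hp hr hr'] at h1 h2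
  have hpi := Real.pi_pos
  have s0 : 0 < Real.sin (2 * Real.pi * (t2 - t1)) := by
    apply Real.sin_pos_of_pos_of_lt_pi <;> nlinarith
  have s1 : 0 < Real.sin (2 * Real.pi * (t2 - t)) := by
    apply Real.sin_pos_of_pos_of_lt_pi <;> nlinarith
  have s2 : 0 < Real.sin (2 * Real.pi * (t - t1)) := by
    apply Real.sin_pos_of_pos_of_lt_pi <;> nlinarith
  have hc := dir_combo t1 t2 t
  set S0 := Real.sin (2 * Real.pi * (t2 - t1))
  set S1 := Real.sin (2 * Real.pi * (t2 - t))
  set S2 := Real.sin (2 * Real.pi * (t - t1))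
  refine ⟨r * S0 / (S1 + S2), by positivity, ?_⟩
  have := (X.convex hA) h1 h2 (a := S1 / (S1 + S2)) (b := S2 / (S1 + S2)) (by positivity)
    (by positivity) (by field_simp)
  convert this using 1
  have hS : ((S1 : ℂ) + S2) ≠ 0 := by
    have : S1 + S2 ≠ 0 := by positivity
    exact_mod_cast this
  simp only [Complex.real_smul] at hc ⊢
  push_cast
  field_simp
  linear_combination (r : ℂ) * hc

/-- The direction set at a boundary point is an arc of length in `(0, 1/2]`. -/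
theorem exists_arc {p : ℂ} {A : Set ℂ} (hA : A ∈ X.𝒯) (hp : p ∈ A) (hint : p ∉ interior A) :
    ∃ a θ : ℝ, 0 < θ ∧ θ ≤ 1 / 2 ∧ Dset A p = arc a θ := by
  obtain ⟨f, hf⟩ := geometric_hahn_banach_open_point (X.convex hA).interior isOpen_interior hint
  obtain ⟨c, s, hc, hfd⟩ := dual_dir f
  -- f ≤ f p on A
  have hfA : ∀ x ∈ A, f x ≤ f p := by
    intro x hx
    rw [← X.closure_int hA] at hx
    have hcl : IsClosed {x : ℂ | f x ≤ f p} := isClosed_le f.continuous continuous_const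
    exact hcl.closure_subset_iff.mpr (fun y hy => (hf y hy).le) hx
  obtain ⟨z, hz⟩ := X.int_nonempty hA
  have hfz := hf z hz
  have hzp : z - p ≠ 0 := by
    intro h
    rw [sub_eq_zero] at h
    rw [h] at hz
    exact hint hz
  obtain ⟨t0', ht0'⟩ := exists_polar (z - p)
  have hnz : 0 < ‖z - p‖ := norm_pos_iff.mpr hzp
  have hfz2 : f (dir t0') < 0 := by
    have h1 : f (z - p) < 0 := by rw [map_sub]; linarith
    rw [ht0', map_smul, smul_eq_mul] at h1
    by_contra hcon
    push Not at hcon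
    have := mul_nonneg hnz.le hcon
    linarith
  have hcpos : 0 < c := by
    rcases hc.lt_or_eq with h | h
    · exact h
    · exfalso
      rw [hfd, ← h] at hfz2
      linarith
  have hcos0 : Real.cos (2 * Real.pi * (t0' - s)) < 0 := by
    rw [hfd] at hfz2
    by_contra hcon
    push Not at hcon
    have := mul_nonneg hc hcon
    linarith
  obtain ⟨k0, hk1, hk2⟩ := cos_neg_arc hcos0
  set t0 : ℝ := t0' + k0 with ht0
  set a0 : ℝ := s + 1 / 4 with ha0
  have ht0a : a0 < t0 := by rw [ha0, ht0]; linarith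
  have ht0b : t0 < a0 + 1 / 2 := by rw [ha0, ht0]; linarith
  have hz' : z = p + ‖z - p‖ • dir t0 := by
    rw [ht0, dir_add_int, ← ht0']
    ring
  -- all directions in the half-circle
  have hsub : ∀ t ∈ Dset A p, t ∈ arc a0 (1 / 2) := by
    rintro t ⟨ε, hε, h⟩
    have h1 := hfA _ h
    rw [map_add, map_smul, smul_eq_mul, hfd] at h1
    have h2 : Real.cos (2 * Real.pi * (t - s)) ≤ 0 := by
      by_contra hcon
      push Not at hcon
      have := mul_pos hε (mul_pos hcpos hcon)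
      linarith
    obtain ⟨k, hk1, hk2⟩ := cos_nonpos_arc h2
    exact ⟨k, by rw [ha0]; linarith, by rw [ha0]; linarith⟩
  -- an open set of directions around t0
  have hopen : ∃ δ > 0, ∀ t, |t - t0| < δ → t ∈ Dset A p := by
    have hcont : Continuous (fun t : ℝ => p + ‖z - p‖ • dir t) :=
      continuous_const.add (continuous_dir.const_smul (‖z - p‖))
    have hev : ∀ᶠ t in nhds t0, p + ‖z - p‖ • dir t ∈ interior A := by
      apply hcont.continuousAt.eventually (isOpen_interior.mem_nhds _)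
      show p + ‖z - p‖ • dir t0 ∈ interior A
      rw [← hz']
      exact hz
    obtain ⟨δ, hδ, hδ'⟩ := Metric.eventually_nhds_iff.mp hev
    refine ⟨δ, hδ, fun t ht => ⟨‖z - p‖, hnz, interior_subset (hδ' ?_)⟩⟩
    rw [Real.dist_eq]
    exact ht
  obtain ⟨δ, hδ, hδ'⟩ := hopen
  have ht0D : t0 ∈ Dset A p := hδ' t0 (by simpa using hδ)
  set J : Set ℝ := Dset A p ∩ Icc a0 (a0 + 1 / 2) with hJ
  have hJc : IsCompact J := isCompact_Icc.inter_left (X.Dset_closed hA hp)
  have hJne : J.Nonempty := ⟨t0, ht0D, ht0a.le, ht0b.le⟩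
  have haJ := hJc.sInf_mem hJne
  have hbJ := hJc.sSup_mem hJne
  set a := sInf J with ha
  set b := sSup J with hb
  have hale : ∀ t ∈ J, a ≤ t := fun t ht => csInf_le hJc.bddBelow ht
  have hleb : ∀ t ∈ J, t ≤ b := fun t ht => le_csSup hJc.bddAbove ht
  have hat0 : a ≤ t0 := hale t0 ⟨ht0D, ht0a.le, ht0b.le⟩
  have hbt0 : t0 < b := by
    set η := min (δ / 2) (a0 + 1 / 2 - t0) with hη
    have hη0 : 0 < η := lt_min (by linarith) (by linarith)
    have h1 : η ≤ δ / 2 := min_le_left _ _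
    have h2 : η ≤ a0 + 1 / 2 - t0 := min_le_right _ _
    have : t0 + η ∈ J := by
      refine ⟨hδ' _ ?_, by linarith, by linarith⟩
      rw [add_sub_cancel_left, abs_of_pos hη0]
      linarith
    have := hleb _ this
    linarith
  refine ⟨a, b - a, by linarith, ?_, ?_⟩
  · have := haJ.2.1
    have := hbJ.2.2
    linarith
  · ext t
    constructor
    · intro ht
      obtain ⟨k, h1, h2⟩ := hsub t ht
      have hmem : t + k ∈ J := ⟨(Dset_add_int t k).mpr ht, h1, h2⟩
      exact ⟨k, hale _ hmem, by have := hleb _ hmem; linarith⟩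
    · rintro ⟨k, h1, h2⟩
      rw [← Dset_add_int t k]
      rcases le_total (t + k) t0 with h3 | h3
      · apply X.Dset_convex hA hp haJ.1 ht0D _ h1 h3
        have := haJ.2.1
        linarith
      · apply X.Dset_convex hA hp ht0D hbJ.1 _ h3 (by linarith)
        have := hbJ.2.2
        linarith

/-- The angle (in full turns) of `A` at `p`. -/
noncomputable def ang (p : ℂ) (A : Set ℂ) : ℝ := plen (Dset A p)

theorem exists_arc' {p : ℂ} {A : Set ℂ} (hA : A ∈ X.𝒯) (hp : p ∈ A) (hint : p ∉ interior A) :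
    ∃ a : ℝ, 0 < ang p A ∧ ang p A ≤ 1 / 2 ∧ Dset A p = arc a (ang p A) := by
  obtain ⟨a, θ, h1, h2, h3⟩ := X.exists_arc hA hp hint
  have : ang p A = θ := by
    rw [ang, h3, plen_arc a θ h1.le (by linarith)]
  exact ⟨a, by rw [this]; exact h1, by rw [this]; exact h2, by rw [this]; exact h3⟩

/-- Open intervals of directions give interior points. -/
lemma interior_of_Ioo {p : ℂ} {A : Set ℂ} (hA : A ∈ X.𝒯) (hp : p ∈ A) {x y : ℝ}
    (hsub : Ioo x y ⊆ Dset A p) {t : ℝ} (ht : t ∈ Ioo x y) {r : ℝ} (hr : 0 < r)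
    (hr' : r < X.rad p) : p + r • dir t ∈ interior A := by
  -- the open set of w with re w < log rad, 2πx < im w < 2πy, mapped by p + exp
  set U : Set ℂ := {w : ℂ | w.re < Real.log (X.rad p) ∧ 2 * Real.pi * x < w.im ∧
    w.im < 2 * Real.pi * y} with hU
  have hUo : IsOpen U := by
    apply IsOpen.inter (isOpen_lt Complex.continuous_re continuous_const)
    exact IsOpen.inter (isOpen_lt continuous_const Complex.continuous_im)
      (isOpen_lt Complex.continuous_im continuous_const)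
  have himg : IsOpen ((fun w => p + w) '' (Complex.exp '' U)) := by
    have h1 : IsOpen (Complex.exp '' U) := Complex.isOpenMap_exp U hUo
    exact (Homeomorph.addLeft p).isOpenMap _ h1
  have hpi := Real.pi_pos
  have hsubA : ((fun w => p + w) '' (Complex.exp '' U)) ⊆ A := by
    rintro _ ⟨_, ⟨w, hw, rfl⟩, rfl⟩
    have h1 : Complex.exp w = Real.exp w.re • dir (w.im / (2 * Real.pi)) := by
      unfold dir
      rw [Complex.real_smul]
      have e : (2 * Real.pi * (w.im / (2 * Real.pi)) : ℝ) = w.im := by field_simp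
      rw [e, Complex.ofReal_exp, ← Complex.exp_add]
      congr 1
      exact (Complex.re_add_im w).symm
    simp only
    rw [h1]
    rw [← X.Dset_iff hA hp (Real.exp_pos _) _ (w.im / (2 * Real.pi))]
    · apply hsub
      constructor
      · rw [lt_div_iff₀ (by positivity)]
        linarith [hw.2.1]
      · rw [div_lt_iff₀ (by positivity)]
        linarith [hw.2.2]
    · rw [← Real.lt_log_iff_exp_lt (X.rad_pos p)]
      exact hw.1
  apply mem_interior.mpr
  refine ⟨_, hsubA, himg, ?_⟩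
  refine ⟨r • dir t, ⟨⟨Real.log r, 2 * Real.pi * t⟩, ⟨?_, ?_, ?_⟩, ?_⟩, rfl⟩
  · exact Real.log_lt_log hr hr'
  · simp only
    have := ht.1
    nlinarith
  · simp only
    have := ht.2
    nlinarith
  · have : (⟨Real.log r, 2 * Real.pi * t⟩ : ℂ)
        = (Real.log r : ℂ) + ((2 * Real.pi * t : ℝ) : ℂ) * Complex.I := by
      apply Complex.ext <;> simp
    rw [this, Complex.exp_add, ← Complex.ofReal_exp, Real.exp_log hr, Complex.real_smul]
    rfl

lemma noOverlap {p : ℂ} {A B : Set ℂ} (hA : A ∈ X.𝒯) (hB : B ∈ X.𝒯) (hAB : A ≠ B)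
    (hpA : p ∈ A) (hpB : p ∈ B) : NoOverlap (Dset A p) (Dset B p) := by
  intro x y hxy hsub
  obtain ⟨r, hr, hr'⟩ := X.exists_small p
  have hmid : (x + y) / 2 ∈ Ioo x y := ⟨by linarith, by linarith⟩
  have h1 := X.interior_of_Ioo hA hpA (fun t ht => (hsub ht).1) hmid hr hr'
  have h2 := X.interior_of_Ioo hB hpB (fun t ht => (hsub ht).2) hmid hr hr'
  exact X.int_disj hA hB hAB h1 (interior_subset h2)

lemma not_interior_of_two {p : ℂ} {A B : Set ℂ} (hA : A ∈ X.𝒯) (hB : B ∈ X.𝒯) (hAB : A ≠ B)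
    (hpB : p ∈ B) : p ∉ interior A := fun h => X.int_disj hA hB hAB h hpB

/-- If `p` is a boundary point of one tile then it is a boundary point of all tiles at `p`. -/
lemma not_interior_all {p : ℂ} {A : Set ℂ} (hA : A ∈ X.𝒯) (hp : p ∈ A) (hint : p ∉ interior A)
    {B : Set ℂ} (hB : B ∈ X.𝒯) : p ∉ interior B := by
  by_cases hAB : B = A
  · rw [hAB]; exact hint
  · exact X.not_interior_of_two hB hA hAB hp

/-- **The arcs around a boundary point.** -/
theorem exists_arcFam {p : ℂ} (hbd : ∃ A ∈ X.𝒯, p ∈ A ∧ p ∉ interior A) :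
    ∃ a : Set ℂ → ℝ, (∀ A ∈ X.𝒯, p ∈ A → Dset A p = arc (a A) (ang p A)) ∧
      ArcFam (X.tiles_finite p).toFinset a (fun A => ang p A) := by
  classical
  obtain ⟨A₀, hA₀, hpA₀, hint₀⟩ := hbd
  have hall : ∀ B ∈ X.𝒯, p ∉ interior B := fun B hB => X.not_interior_all hA₀ hpA₀ hint₀ hB
  have h := fun (A : Set ℂ) (hA : A ∈ X.𝒯) (hp : p ∈ A) => X.exists_arc' hA hp (hall A hA)
  have hch : ∀ A : Set ℂ, ∃ a : ℝ, A ∈ X.𝒯 → p ∈ A → 0 < ang p A ∧ ang p A ≤ 1 / 2 ∧
      Dset A p = arc a (ang p A) := by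
    intro A
    by_cases hA : A ∈ X.𝒯
    · by_cases hp : p ∈ A
      · obtain ⟨a, ha⟩ := h A hA hp
        exact ⟨a, fun _ _ => ha⟩
      · exact ⟨0, fun _ hp' => absurd hp' hp⟩
    · exact ⟨0, fun hA' => absurd hA' hA⟩
  choose a ha using hch
  refine ⟨a, fun A hA hp => (ha A hA hp).2.2, ?_⟩
  have hmem : ∀ A, A ∈ (X.tiles_finite p).toFinset ↔ A ∈ X.𝒯 ∧ p ∈ A := by
    intro A
    rw [Set.Finite.mem_toFinset]
    rfl
  refine ⟨?_, ?_, ?_, ?_⟩
  · intro A hA
    rw [hmem] at hA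
    exact (ha A hA.1 hA.2).1
  · intro A hA
    rw [hmem] at hA
    exact (ha A hA.1 hA.2).2.1
  · intro t
    obtain ⟨A, hA, hp, ht⟩ := X.Dset_cover p t
    refine ⟨A, (hmem A).mpr ⟨hA, hp⟩, ?_⟩
    rw [← (ha A hA hp).2.2]
    exact ht
  · intro A hA B hB hAB
    rw [hmem] at hA hB
    rw [← (ha A hA.1 hA.2).2.2, ← (ha B hB.1 hB.2).2.2]
    exact X.noOverlap hA.1 hB.1 hAB hA.2 hB.2

end CT

end Pool.Agent.Hhelper50
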