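import Pool.Agent.Hhelper50.Geo2

/-!
# Adjacency of tiles in a convex monohedral tiling
-/

set_option autoImplicit false

namespace Pool.Agent.Hhelper50

open Set MeasureTheory Metric

namespace CT

variable (X : CT)

/-- vertices: points in at least three tiles -/
def IsVert (p : ℂ) : Prop := 3 ≤ (X.tiles p).ncard

lemma mem_tiles {p : ℂ} {A : Set ℂ} : A ∈ X.tiles p ↔ A ∈ X.𝒯 ∧ p ∈ A := Iff.rfl

lemma mem_tilesF {p : ℂ} {A : Set ℂ} : A ∈ (X.tiles_finite p).toFinset ↔ A ∈ X.𝒯 ∧ p ∈ A := by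
  rw [Set.Finite.mem_toFinset]
  rfl

lemma ncard_tiles (p : ℂ) : (X.tiles p).ncard = (X.tiles_finite p).toFinset.card :=
  Set.ncard_eq_toFinset_card _ (X.tiles_finite p)

lemma isVert_iff (p : ℂ) : X.IsVert p ↔ 3 ≤ (X.tiles_finite p).toFinset.card := by
  rw [IsVert, ncard_tiles]

/-- a vertex has a third tile -/
lemma IsVert.third {p : ℂ} (h : X.IsVert p) (A B : Set ℂ) : ∃ C ∈ X.𝒯, p ∈ C ∧ C ≠ A ∧ C ≠ B := by
  classical
  rw [isVert_iff] at h
  have : ((X.tiles_finite p).toFinset \ {A, B}).Nonempty := by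
    rw [← Finset.card_pos]
    have h1 := Finset.le_card_sdiff {A, B} (X.tiles_finite p).toFinset
    have h2 : ({A, B} : Finset (Set ℂ)).card ≤ 2 := Finset.card_le_two
    omega
  obtain ⟨C, hC⟩ := this
  rw [Finset.mem_sdiff, mem_tilesF] at hC
  simp only [Finset.mem_insert, Finset.mem_singleton, not_or] at hC
  exact ⟨C, hC.1.1, hC.1.2, hC.2.1, hC.2.2⟩

lemma isVert_of_three {p : ℂ} {A B C : Set ℂ} (hA : A ∈ X.𝒯) (hB : B ∈ X.𝒯) (hC : C ∈ X.𝒯)
    (hpA : p ∈ A) (hpB : p ∈ B) (hpC : p ∈ C) (hAB : A ≠ B) (hAC : A ≠ C) (hBC : B ≠ C) :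
    X.IsVert p := by
  classical
  rw [isVert_iff]
  have hsub : ({A, B, C} : Finset (Set ℂ)) ⊆ (X.tiles_finite p).toFinset := by
    intro D hD
    simp only [Finset.mem_insert, Finset.mem_singleton] at hD
    rw [mem_tilesF]
    rcases hD with rfl | rfl | rfl
    · exact ⟨hA, hpA⟩
    · exact ⟨hB, hpB⟩
    · exact ⟨hC, hpC⟩
  have h3 : ({A, B, C} : Finset (Set ℂ)).card = 3 :=
    Finset.card_eq_three.mpr ⟨A, B, C, hAB, hAC, hBC, rfl⟩
  rw [← h3]
  exact Finset.card_le_card hsub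

/-- A direction and its opposite: the angle is `1/2`. -/
lemma ang_half {p : ℂ} {A : Set ℂ} (hA : A ∈ X.𝒯) (hp : p ∈ A) (hint : p ∉ interior A) {t : ℝ}
    (h1 : t ∈ Dset A p) (h2 : t + 1 / 2 ∈ Dset A p) : ang p A = 1 / 2 := by
  obtain ⟨a, h3, h4, h5⟩ := X.exists_arc' hA hp hint
  rw [h5] at h1 h2
  exact arc_half h4 h1 h2

/-- the sum of the angles at a point of at least two tiles -/
lemma ang_sum {p : ℂ} (hbd : ∃ A ∈ X.𝒯, p ∈ A ∧ p ∉ interior A) :
    ∑ A ∈ (X.tiles_finite p).toFinset, ang p A = 1 := by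
  obtain ⟨a, _, hfam⟩ := X.exists_arcFam hbd
  exact hfam.sum

lemma isVert_bd {p : ℂ} (h : X.IsVert p) : ∃ A ∈ X.𝒯, p ∈ A ∧ p ∉ interior A := by
  obtain ⟨A, hA, hpA, _, _⟩ := h.third X ∅ ∅
  obtain ⟨B, hB, hpB, hBA, _⟩ := h.third X A A
  exact ⟨A, hA, hpA, X.not_interior_of_two hA hB hBA.symm hpB⟩

/-- at most ... : two tiles with angle `1/2` at a vertex is impossible -/
lemma not_two_half {p : ℂ} (h : X.IsVert p) {A B : Set ℂ} (hA : A ∈ X.𝒯) (hB : B ∈ X.𝒯)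
    (hpA : p ∈ A) (hpB : p ∈ B) (hAB : A ≠ B) (h1 : ang p A = 1 / 2) (h2 : ang p B = 1 / 2) :
    False := by
  classical
  obtain ⟨C, hC, hpC, hCA, hCB⟩ := h.third X A B
  obtain ⟨a, _, hfam⟩ := X.exists_arcFam (X.isVert_bd h)
  have hs := hfam.sum
  have hsub : ({A, B, C} : Finset (Set ℂ)) ⊆ (X.tiles_finite p).toFinset := by
    intro D hD
    simp only [Finset.mem_insert, Finset.mem_singleton] at hD
    rw [mem_tilesF]
    rcases hD with rfl | rfl | rfl
    · exact ⟨hA, hpA⟩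
    · exact ⟨hB, hpB⟩
    · exact ⟨hC, hpC⟩
  have hle := Finset.sum_le_sum_of_subset_of_nonneg (f := fun A => ang p A) hsub
    (fun D hD _ => (hfam.pos D hD).le)
  rw [hs, Finset.sum_insert, Finset.sum_pair hCB.symm] at hle
  · have := hfam.pos C (X.mem_tilesF.mpr ⟨hC, hpC⟩)
    linarith
  · simp only [Finset.mem_insert, Finset.mem_singleton, not_or]
    exact ⟨hAB, hCA.symm⟩

/-- **Going to the end of a common segment.** -/
theorem exists_end {A B : Set ℂ} (hA : A ∈ X.𝒯) (hB : B ∈ X.𝒯) (hAB : A ≠ B) {p : ℂ}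
    (hpA : p ∈ A) (hpB : p ∈ B) {t : ℝ} (htA : t ∈ Dset A p) (htB : t ∈ Dset B p) :
    ∃ r : ℝ, 0 < r ∧ p + r • dir t ∈ A ∧ p + r • dir t ∈ B ∧ X.IsVert (p + r • dir t) ∧
      t + 1 / 2 ∈ Dset A (p + r • dir t) ∧ t + 1 / 2 ∈ Dset B (p + r • dir t) := by
  obtain ⟨D, hD, hdiam⟩ := X.exists_diam
  -- the compact set of parameters
  set S : Set ℝ := {r | 0 ≤ r ∧ r ≤ D ∧ p + r • dir t ∈ A ∧ p + r • dir t ∈ B} with hS
  have hcont : Continuous (fun r : ℝ => p + r • dir t) := by fun_prop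
  have hSclosed : IsClosed S := by
    have h1 : IsClosed {r : ℝ | 0 ≤ r} := isClosed_le continuous_const continuous_id
    have h2 : IsClosed {r : ℝ | r ≤ D} := isClosed_le continuous_id continuous_const
    have h3 : IsClosed {r : ℝ | p + r • dir t ∈ A} := (X.closed hA).preimage hcont
    have h4 : IsClosed {r : ℝ | p + r • dir t ∈ B} := (X.closed hB).preimage hcont
    exact h1.inter (h2.inter (h3.inter h4))
  have hScomp : IsCompact S := by
    apply IsCompact.of_isClosed_subset (isCompact_Icc (a := (0 : ℝ)) (b := D)) hSclosed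
    rintro r ⟨h1, h2, _, _⟩
    exact ⟨h1, h2⟩
  have hdist : ∀ r : ℝ, 0 ≤ r → p + r • dir t ∈ A → r ≤ D := by
    intro r hr hmem
    have := hdiam A hA _ hmem p hpA
    rw [dist_eq_norm] at this
    simpa [norm_smul, norm_dir, abs_of_nonneg hr] using this
  obtain ⟨r1, hr1, hr1'⟩ := X.exists_small p
  have hA1 := (X.Dset_iff hA hpA hr1 hr1' t).mp htA
  have hB1 := (X.Dset_iff hB hpB hr1 hr1' t).mp htB
  have hr1S : r1 ∈ S := ⟨hr1.le, hdist r1 hr1.le hA1, hA1, hB1⟩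
  have hmem := hScomp.sSup_mem ⟨r1, hr1S⟩
  set r := sSup S with hr
  have hmax : ∀ x ∈ S, x ≤ r := fun x hx => le_csSup hScomp.bddAbove hx
  have hrpos : 0 < r := lt_of_lt_of_le hr1 (hmax r1 hr1S)
  obtain ⟨_, _, hqA, hqB⟩ := hmem
  set q : ℂ := p + r • dir t with hq
  have hpq : p = q + r • dir (t + 1 / 2) := by
    rw [hq, dir_half]
    simp
  have htA' : t + 1 / 2 ∈ Dset A q := mem_Dset_of_sub hpA hrpos hpq
  have htB' : t + 1 / 2 ∈ Dset B q := mem_Dset_of_sub hpB hrpos hpq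
  refine ⟨r, hrpos, hqA, hqB, ?_, htA', htB'⟩
  -- q is a vertex
  by_contra hnv
  have hbd : ∃ A ∈ X.𝒯, q ∈ A ∧ q ∉ interior A :=
    ⟨A, hA, hqA, X.not_interior_of_two hA hB hAB hqB⟩
  obtain ⟨a, harc, hfam⟩ := X.exists_arcFam hbd
  have honly : ∀ C ∈ X.𝒯, q ∈ C → C = A ∨ C = B := by
    intro C hC hqC
    by_contra hne
    push Not at hne
    exact hnv (X.isVert_of_three hA hB hC hqA hqB hqC hAB hne.1.symm hne.2.symm)
  classical
  have htiles : (X.tiles_finite q).toFinset = {A, B} := by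
    ext C
    rw [mem_tilesF]
    simp only [Finset.mem_insert, Finset.mem_singleton]
    constructor
    · rintro ⟨h1, h2⟩
      exact honly C h1 h2
    · rintro (rfl | rfl)
      · exact ⟨hA, hqA⟩
      · exact ⟨hB, hqB⟩
  have hsum := hfam.sum
  rw [htiles, Finset.sum_pair hAB] at hsum
  have hAm : A ∈ (X.tiles_finite q).toFinset := X.mem_tilesF.mpr ⟨hA, hqA⟩
  have hBm : B ∈ (X.tiles_finite q).toFinset := X.mem_tilesF.mpr ⟨hB, hqB⟩
  have hleA := hfam.le A hAm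
  have hleB := hfam.le B hBm
  have hangA : ang q A = 1 / 2 := by linarith
  have hangB : ang q B = 1 / 2 := by linarith
  have hno := hfam.disj A hAm B hBm hAB
  have h1 : t + 1 / 2 ∈ arc (a A) (ang q A) := by rw [← harc A hA hqA]; exact htA'
  have h2 : t + 1 / 2 ∈ arc (a B) (ang q B) := by rw [← harc B hB hqB]; exact htB'
  have e1 := hno.endpoint (hfam.pos B hBm) h1 h2
  have e2 := hno.symm.endpoint (hfam.pos A hAm) h2 h1
  rw [hangA] at e1
  rw [hangB] at e2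
  have f1 := arc_half_opposite e1
  have f2 := arc_half_opposite e2
  have g1 : t ∈ Dset A q := by
    rw [harc A hA hqA, hangA, ← arc_add_int 1]
    convert f1 using 1
    push_cast
    ring
  have g2 : t ∈ Dset B q := by
    rw [harc B hB hqB, hangB, ← arc_add_int 1]
    convert f2 using 1
    push_cast
    ring
  obtain ⟨r2, hr2, hr2'⟩ := X.exists_small q
  have k1 := (X.Dset_iff hA hqA hr2 hr2' t).mp g1
  have k2 := (X.Dset_iff hB hqB hr2 hr2' t).mp g2
  have e3 : q + r2 • dir t = p + (r + r2) • dir t := by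
    rw [hq, add_smul]
    ring
  rw [e3] at k1 k2
  have hmemS : r + r2 ∈ S := ⟨by linarith, hdist _ (by linarith) k1, k1, k2⟩
  have := hmax _ hmemS
  linarith

/-- Two tiles sharing a direction at a point share two distinct vertices. -/
theorem exists_two_verts {A B : Set ℂ} (hA : A ∈ X.𝒯) (hB : B ∈ X.𝒯) (hAB : A ≠ B) {p : ℂ}
    (hpA : p ∈ A) (hpB : p ∈ B) {t : ℝ} (htA : t ∈ Dset A p) (htB : t ∈ Dset B p) :
    ∃ q₁ q₂, q₁ ≠ q₂ ∧ q₁ ∈ A ∧ q₁ ∈ B ∧ q₂ ∈ A ∧ q₂ ∈ B ∧ X.IsVert q₁ ∧ X.IsVert q₂ := by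
  obtain ⟨r, hr, h1, h2, h3, h4, h5⟩ := X.exists_end hA hB hAB hpA hpB htA htB
  obtain ⟨r', hr', h1', h2', h3', _, _⟩ := X.exists_end hA hB hAB h1 h2 h4 h5
  refine ⟨_, _, ?_, h1, h2, h1', h2', h3, h3'⟩
  intro h
  have h6 : r' • dir (t + 1 / 2) = 0 := by
    have := h
    simpa using this
  rw [smul_eq_zero] at h6
  rcases h6 with h6 | h6
  · exact hr'.ne' h6
  · exact dir_ne_zero _ h6

/-- From two distinct common points we get a common direction. -/
lemma common_dir {A B : Set ℂ} {p q : ℂ} (hpq : p ≠ q) (hqA : q ∈ A) (hqB : q ∈ B) :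
    ∃ t r : ℝ, 0 < r ∧ q = p + r • dir t ∧ t ∈ Dset A p ∧ t ∈ Dset B p := by
  obtain ⟨t, ht⟩ := exists_polar (q - p)
  have hr : 0 < ‖q - p‖ := norm_pos_iff.mpr (sub_ne_zero.mpr hpq.symm)
  have he : q = p + ‖q - p‖ • dir t := by rw [← ht]; ring
  exact ⟨t, ‖q - p‖, hr, he, mem_Dset_of_sub hqA hr he, mem_Dset_of_sub hqB hr he⟩

/-- No three tiles have two common points. -/
theorem two_verts {A B C : Set ℂ} (hA : A ∈ X.𝒯) (hB : B ∈ X.𝒯) (hC : C ∈ X.𝒯)
    (hAB : A ≠ B) (hAC : A ≠ C) (hBC : B ≠ C) {p q : ℂ} (hpq : p ≠ q)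
    (hpA : p ∈ A) (hpB : p ∈ B) (hpC : p ∈ C) (hqA : q ∈ A) (hqB : q ∈ B) (hqC : q ∈ C) :
    False := by
  obtain ⟨t, ht⟩ := exists_polar (q - p)
  have hr : 0 < ‖q - p‖ := norm_pos_iff.mpr (sub_ne_zero.mpr hpq.symm)
  have he : q = p + ‖q - p‖ • dir t := by rw [← ht]; ring
  set r := ‖q - p‖ with hrdef
  set x : ℂ := p + (r / 2) • dir t with hx
  have hmid : ∀ D ∈ X.𝒯, p ∈ D → q ∈ D → x ∈ D := by
    intro D hD hpD hqD
    have h1 : p + r • dir t ∈ D := by rw [← he]; exact hqD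
    have := X.smul_mem hD hpD (ε := 1 / 2) (v := r • dir t) (by norm_num) (by norm_num) h1
    rw [smul_smul] at this
    convert this using 3
    ring
  have hd1 : q = x + (r / 2) • dir t := by
    rw [hx, add_assoc, ← add_smul, add_halves]
    exact he
  have hd2 : p = x + (r / 2) • dir (t + 1 / 2) := by
    rw [hx, dir_half]
    simp
  have hxA := hmid A hA hpA hqA
  have hxB := hmid B hB hpB hqB
  have hxC := hmid C hC hpC hqC
  have hang : ∀ D ∈ X.𝒯, p ∈ D → q ∈ D → x ∉ interior D → ang x D = 1 / 2 := by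
    intro D hD hpD hqD hint
    exact X.ang_half hD (hmid D hD hpD hqD) hint (mem_Dset_of_sub hqD (half_pos hr) hd1)
      (mem_Dset_of_sub hpD (half_pos hr) hd2)
  have hv : X.IsVert x := X.isVert_of_three hA hB hC hxA hxB hxC hAB hAC hBC
  exact X.not_two_half hv hA hB hxA hxB hAB
    (hang A hA hpA hqA (X.not_interior_of_two hA hB hAB hxB))
    (hang B hB hpB hqB (X.not_interior_of_two hB hA hAB.symm hxA))

/-- Seen from a vertex in `A ∩ B`, all other points of `A ∩ B` lie on one ray. -/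
lemma same_ray {A B : Set ℂ} (hA : A ∈ X.𝒯) (hB : B ∈ X.𝒯) (hAB : A ≠ B) {p : ℂ}
    (hv : X.IsVert p) (hpA : p ∈ A) (hpB : p ∈ B) {q s : ℂ} (hqA : q ∈ A) (hqB : q ∈ B)
    (hsA : s ∈ A) (hsB : s ∈ B) (hpq : p ≠ q) (hps : p ≠ s) :
    ∃ c : ℝ, 0 < c ∧ s - p = c • (q - p) := by
  classical
  obtain ⟨t, r, hr, hq, htA, htB⟩ := common_dir (A := A) (B := B) hpq hqA hqB
  obtain ⟨t', r', hr', hs, htA', htB'⟩ := common_dir (A := A) (B := B) hps hsA hsB
  obtain ⟨a, harc, hfam⟩ := X.exists_arcFam (X.isVert_bd hv)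
  have hAm : A ∈ (X.tiles_finite p).toFinset := X.mem_tilesF.mpr ⟨hA, hpA⟩
  have hBm : B ∈ (X.tiles_finite p).toFinset := X.mem_tilesF.mpr ⟨hB, hpB⟩
  have h3 : 3 ≤ (X.tiles_finite p).toFinset.card := (X.isVert_iff p).mp hv
  rw [harc A hA hpA] at htA htA'
  rw [harc B hB hpB] at htB htB'
  have hno := hfam.disj A hAm B hBm hAB
  have e1 := hno.endpoint (hfam.pos B hBm) htA htB
  have e2 := hno.endpoint (hfam.pos B hBm) htA' htB'
  have hnot : ¬ (a A ∈ arc (a B) (ang p B) ∧ a A + ang p A ∈ arc (a B) (ang p B)) := by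
    rintro ⟨h4, h5⟩
    exact hfam.ends_ne h3 hAm hBm hAB.symm h4 h5
  have hdir : dir t = dir t' := by
    rcases e1 with ⟨k, hk⟩ | ⟨k, hk⟩ <;> rcases e2 with ⟨m, hm⟩ | ⟨m, hm⟩
    · rw [← dir_add_int t k, ← dir_add_int t' m, hk, hm]
    · exfalso
      apply hnot
      rw [← hk, arc_add_int]
      refine ⟨htB, ?_⟩
      rw [hk, ← hm, arc_add_int]
      exact htB'
    · exfalso
      apply hnot
      constructor
      · rw [← hm, arc_add_int]
        exact htB'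
      · rw [← hk, arc_add_int]
        exact htB
    · rw [← dir_add_int t k, ← dir_add_int t' m, hk, hm]
  refine ⟨r' / r, div_pos hr' hr, ?_⟩
  rw [hq, hs, hdir]
  simp only [add_sub_cancel_left, smul_smul]
  rw [div_mul_cancel₀ _ hr.ne']

/-- Two tiles have at most two common vertices. -/
theorem two_tiles {A B : Set ℂ} (hA : A ∈ X.𝒯) (hB : B ∈ X.𝒯) (hAB : A ≠ B) {p q s : ℂ}
    (hp : X.IsVert p) (hq : X.IsVert q) (hs : X.IsVert s) (hpA : p ∈ A) (hpB : p ∈ B)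
    (hqA : q ∈ A) (hqB : q ∈ B) (hsA : s ∈ A) (hsB : s ∈ B) (hpq : p ≠ q) (hps : p ≠ s)
    (hqs : q ≠ s) : False := by
  obtain ⟨c, hc, h1⟩ := X.same_ray hA hB hAB hp hpA hpB hqA hqB hsA hsB hpq hps
  obtain ⟨d, hd, h2⟩ := X.same_ray hA hB hAB hq hqA hqB hpA hpB hsA hsB hpq.symm hqs
  obtain ⟨e, he, h3⟩ := X.same_ray hA hB hAB hs hsA hsB hpA hpB hqA hqB hps.symm hqs.symm
  -- s - p = c (q-p), s - q = d (p - q), q - s = e (p - s)
  have hne : q - p ≠ 0 := sub_ne_zero.mpr hpq.symm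
  have h4 : (c - 1 + d) • (q - p) = 0 := by
    simp only [Complex.real_smul] at *
    push_cast
    linear_combination h2 - h1
  have h5 : (1 - c + e * c) • (q - p) = 0 := by
    simp only [Complex.real_smul] at *
    push_cast
    linear_combination h3 - (e - 1) * h1
  rw [smul_eq_zero] at h4 h5
  have h6 : c - 1 + d = 0 := h4.resolve_right hne
  have h7 : 1 - c + e * c = 0 := h5.resolve_right hne
  nlinarith [mul_pos he hc]

/-- Two distinct tiles that meet have a common vertex. -/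
theorem exists_common_vert {A B : Set ℂ} (hA : A ∈ X.𝒯) (hB : B ∈ X.𝒯) (hAB : A ≠ B) {p : ℂ}
    (hpA : p ∈ A) (hpB : p ∈ B) : ∃ q, q ∈ A ∧ q ∈ B ∧ X.IsVert q := by
  classical
  by_cases hv : X.IsVert p
  · exact ⟨p, hpA, hpB, hv⟩
  · -- only two tiles at p
    have hbd : ∃ A ∈ X.𝒯, p ∈ A ∧ p ∉ interior A :=
      ⟨A, hA, hpA, X.not_interior_of_two hA hB hAB hpB⟩
    obtain ⟨a, harc, hfam⟩ := X.exists_arcFam hbd
    have hAm : A ∈ (X.tiles_finite p).toFinset := X.mem_tilesF.mpr ⟨hA, hpA⟩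
    obtain ⟨C, hC, hCA, hmem⟩ := hfam.exists_right hAm
    have hC' := X.mem_tilesF.mp hC
    have hCB : C = B := by
      by_contra hne
      exact hv (X.isVert_of_three hA hB hC'.1 hpA hpB hC'.2 hAB hCA.symm (Ne.symm hne))
    subst hCB
    have h1 : a A + ang p A ∈ Dset A p := by
      rw [harc A hA hpA]
      exact arc_right_mem (hfam.pos A hAm).le
    have h2 : a A + ang p A ∈ Dset C p := by
      rw [harc C hB hpB]
      exact hmem
    obtain ⟨r, _, h3, h4, h5, _, _⟩ := X.exists_end hA hB hAB hpA hpB h1 h2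
    exact ⟨_, h3, h4, h5⟩

end CT

end Pool.Agent.Hhelper50
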