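import Mathlib

/-!
# Combinatorial interface for tilings of the plane by convex polygons

Used for the problem of Fejes Toth on the number of neighbours (MP_b6c147_co).
The geometric part shows that a monohedral convex tiling with `n ≥ 22` neighbours per tile yields
such a structure; the combinatorial part shows that such a structure cannot exist.

A *vertex* is a point lying in at least three tiles.  `V T` is the set of vertices in the tile `T`,
`τ p` the set of tiles containing `p`, `ang p T` the angle of `T` at `p` as a fraction of the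
full circle (`1/2` if `p` is in the relative interior of a side of `T`).
Two tiles are adjacent (share a segment) iff they have exactly two common vertices.
-/

set_option autoImplicit false

namespace Pool.Agent.Hhelper50

variable {Tile Vert : Type*} [DecidableEq Tile] [DecidableEq Vert]

/-- Balls in the neighbour graph: `N T` is the closed neighbourhood of `T`. -/
def ballAux (N : Tile → Finset Tile) (T₀ : Tile) : ℕ → Finset Tile
  | 0 => {T₀}
  | r + 1 => (ballAux N T₀ r).biUnion N

/-- Combinatorial data of a locally finite tiling of the plane by convex polygons in which every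
tile has exactly `n` neighbours. -/
structure Tess (Tile Vert : Type*) [DecidableEq Tile] [DecidableEq Vert] where
  /-- vertices on a tile -/
  V : Tile → Finset Vert
  /-- tiles at a vertex -/
  τ : Vert → Finset Tile
  mem_iff : ∀ p T, p ∈ V T ↔ T ∈ τ p
  /-- number of neighbours of each tile -/
  n : ℕ
  /-- angle of the tile at the vertex, in full turns -/
  ang : Vert → Tile → ℝ
  deg_ge : ∀ p, 3 ≤ (τ p).card
  two_tiles : ∀ T T', T ≠ T' → (V T ∩ V T').card ≤ 2
  two_verts : ∀ p q, p ≠ q → (τ p ∩ τ q).card ≤ 2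
  adj : ∀ p, ∀ T ∈ τ p, ((τ p).filter (fun T' => T' ≠ T ∧ (V T ∩ V T').card = 2)).card = 2
  nbr : ∀ T, (((V T).biUnion τ).erase T).card = n
  ang_pos : ∀ p, ∀ T ∈ τ p, 0 < ang p T
  ang_le : ∀ p, ∀ T ∈ τ p, ang p T ≤ 1 / 2
  ang_sum : ∀ p, ∑ T ∈ τ p, ang p T = 1
  ext_sum : ∀ T, ∑ p ∈ V T, (1 / 2 - ang p T) = 1
  conn : ∀ G : Set Tile, G.Nonempty →
    (∀ T ∈ G, ∀ T', T' ≠ T → (V T ∩ V T').card = 2 → T' ∈ G) → ∀ T, T ∈ G
  /-- a base tile -/
  T₀ : Tile
  growth : ∃ C : ℝ, ∀ r : ℕ,
    ((ballAux (fun T => (V T).biUnion τ) T₀ r).card : ℝ) ≤ C * ((r : ℝ) + 1) ^ 2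

/-- The degree of a vertex. -/
def Tess.deg (X : Tess Tile Vert) (p : Vert) : ℕ := (X.τ p).card

/-- All tiles are congruent to a triangle with angles `α ≥ β ≥ γ` (in full turns);
`A T, B T, C T` are the corners of the tile `T`, with angles `α, β, γ`.
All other vertices on `T` are in the relative interior of sides of `T`. -/
structure Tess.Tri (X : Tess Tile Vert) where
  A : Tile → Vert
  B : Tile → Vert
  C : Tile → Vert
  α : ℝ
  β : ℝ
  γ : ℝ
  γ_pos : 0 < γ
  hγβ : γ ≤ β
  hβα : β ≤ α
  hα : α < 1 / 2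
  hA : ∀ T, A T ∈ X.V T
  hB : ∀ T, B T ∈ X.V T
  hC : ∀ T, C T ∈ X.V T
  hAB : ∀ T, A T ≠ B T
  hAC : ∀ T, A T ≠ C T
  hBC : ∀ T, B T ≠ C T
  angA : ∀ T, X.ang (A T) T = α
  angB : ∀ T, X.ang (B T) T = β
  angC : ∀ T, X.ang (C T) T = γ
  straight : ∀ T, ∀ p ∈ X.V T, p ≠ A T → p ≠ B T → p ≠ C T → X.ang p T = 1 / 2

/-- The extra geometric input needed for the triangle with angles 90, 72, 18 degrees. -/
def Tess.Tri.Hd {X : Tess Tile Vert} (R : X.Tri) : Prop :=
  ∀ P, (X.τ P).card = 5 → (∀ T ∈ X.τ P, R.B T = P) →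
    ∃ U ∈ X.τ P, ∃ q ∈ X.V U, (X.ang q U = 1 / 2 ∨ q = R.C U) ∧
      (∃ S ∈ X.τ q, X.ang q S = 1 / 2) ∧ 4 ≤ (X.τ q).card

end Pool.Agent.Hhelper50
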