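import Pool.Agent.Hhelper50.Geo3
import Pool.Agent.Hhelper50.Tess

/-!
# From a convex monohedral tiling to the combinatorial structure `Tess`
-/

set_option autoImplicit false

namespace Pool.Agent.Hhelper50

open Set MeasureTheory Metric

namespace CT

variable (X : CT)

/-- tiles as a type -/
def Tile : Type := {A : Set ℂ // A ∈ X.𝒯}

/-- vertices as a type -/
def Vert : Type := {p : ℂ // X.IsVert p}

noncomputable instance : DecidableEq X.Tile := Classical.decEq _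

noncomputable instance : DecidableEq X.Vert := Classical.decEq _

/-- the underlying set of a tile -/
def valT : X.Tile ↪ Set ℂ := ⟨fun T => T.1, fun _ _ h => Subtype.ext h⟩

/-- the underlying point of a vertex -/
def valV : X.Vert ↪ ℂ := ⟨fun p => p.1, fun _ _ h => Subtype.ext h⟩

@[simp] lemma valT_apply (T : X.Tile) : X.valT T = T.1 := rfl

@[simp] lemma valV_apply (p : X.Vert) : X.valV p = p.1 := rfl

lemma finite_of_no_three {α : Type*} (S : Set α)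
    (h : ∀ a ∈ S, ∀ b ∈ S, ∀ c ∈ S, a ≠ b → a ≠ c → b ≠ c → False) : S.Finite := by
  classical
  by_contra hinf
  have hinf' : S.Infinite := hinf
  obtain ⟨t, ht, hcard⟩ := hinf'.exists_subset_card_eq 3
  obtain ⟨a, b, c, hab, hac, hbc, rfl⟩ := Finset.card_eq_three.mp hcard
  exact h a (ht (by simp)) b (ht (by simp)) c (ht (by simp)) hab hac hbc

lemma nbrs_finite {A : Set ℂ} (hA : A ∈ X.𝒯) :
    {B | B ∈ X.𝒯 ∧ B ≠ A ∧ (A ∩ B).Nonempty}.Finite := by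
  apply Set.finite_of_ncard_pos
  rw [X.hn A hA]
  exact X.hn0

lemma verts_finite {A : Set ℂ} (hA : A ∈ X.𝒯) : {p : ℂ | p ∈ A ∧ X.IsVert p}.Finite := by
  have hsub : {p : ℂ | p ∈ A ∧ X.IsVert p} ⊆
      ⋃ B ∈ {B | B ∈ X.𝒯 ∧ B ≠ A ∧ (A ∩ B).Nonempty}, {p : ℂ | p ∈ A ∧ p ∈ B ∧ X.IsVert p} := by
    rintro p ⟨hp, hv⟩
    obtain ⟨B, hB, hpB, hBA, _⟩ := hv.third X A A
    rw [mem_iUnion₂]
    exact ⟨B, ⟨hB, hBA, p, hp, hpB⟩, hp, hpB, hv⟩
  apply Set.Finite.subset _ hsub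
  apply (X.nbrs_finite hA).biUnion
  rintro B ⟨hB, hBA, _⟩
  apply finite_of_no_three
  rintro a ⟨ha1, ha2, ha3⟩ b ⟨hb1, hb2, hb3⟩ c ⟨hc1, hc2, hc3⟩ hab hac hbc
  exact X.two_tiles hA hB hBA.symm ha3 hb3 hc3 ha1 ha2 hb1 hb2 hc1 hc2 hab hac hbc

lemma vertsT_finite (T : X.Tile) : {p : X.Vert | p.1 ∈ T.1}.Finite := by
  have h := X.verts_finite T.2
  have : {p : X.Vert | p.1 ∈ T.1} = Subtype.val ⁻¹' {p : ℂ | p ∈ T.1 ∧ X.IsVert p} := by
    ext p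
    simp only [mem_setOf_eq, mem_preimage]
    exact ⟨fun h => ⟨h, p.2⟩, fun h => h.1⟩
  rw [this]
  exact h.preimage (Subtype.val_injective.injOn)

lemma tilesT_finite (p : X.Vert) : {T : X.Tile | p.1 ∈ T.1}.Finite := by
  have h := X.tiles_finite p.1
  have : {T : X.Tile | p.1 ∈ T.1} = Subtype.val ⁻¹' (X.tiles p.1) := by
    ext T
    simp only [mem_setOf_eq, mem_preimage]
    exact ⟨fun h => ⟨T.2, h⟩, fun h => h.2⟩
  rw [this]
  exact h.preimage (Subtype.val_injective.injOn)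

/-- vertices on a tile -/
noncomputable def V (T : X.Tile) : Finset X.Vert := (X.vertsT_finite T).toFinset

/-- tiles at a vertex -/
noncomputable def τ (p : X.Vert) : Finset X.Tile := (X.tilesT_finite p).toFinset

lemma mem_V {T : X.Tile} {p : X.Vert} : p ∈ X.V T ↔ p.1 ∈ T.1 := by
  unfold V
  rw [Set.Finite.mem_toFinset]
  rfl

lemma mem_τ {T : X.Tile} {p : X.Vert} : T ∈ X.τ p ↔ p.1 ∈ T.1 := by
  unfold τ
  rw [Set.Finite.mem_toFinset]
  rfl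

lemma τ_map (p : X.Vert) : (X.τ p).map X.valT = (X.tiles_finite p.1).toFinset := by
  ext A
  simp only [Finset.mem_map, valT_apply]
  rw [mem_tilesF]
  constructor
  · rintro ⟨T, hT, rfl⟩
    exact ⟨T.2, X.mem_τ.mp hT⟩
  · rintro ⟨hA, hp⟩
    exact ⟨⟨A, hA⟩, X.mem_τ.mpr hp, rfl⟩

lemma card_τ (p : X.Vert) : 3 ≤ (X.τ p).card := by
  have h := (X.isVert_iff p.1).mp p.2
  rw [← X.τ_map p, Finset.card_map] at h
  exact h

lemma card_inter_V {T T' : X.Tile} (h : T ≠ T') : (X.V T ∩ X.V T').card ≤ 2 := by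
  by_contra hcon
  push Not at hcon
  obtain ⟨a, ha, b, hb, c, hc, hab, hac, hbc⟩ := Finset.two_lt_card.mp hcon
  rw [Finset.mem_inter, mem_V, mem_V] at ha hb hc
  exact X.two_tiles T.2 T'.2 (fun h' => h (Subtype.ext h')) a.2 b.2 c.2 ha.1 ha.2 hb.1 hb.2
    hc.1 hc.2 (fun h' => hab (Subtype.ext h')) (fun h' => hac (Subtype.ext h'))
    (fun h' => hbc (Subtype.ext h'))

lemma card_inter_τ {p q : X.Vert} (h : p ≠ q) : (X.τ p ∩ X.τ q).card ≤ 2 := by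
  by_contra hcon
  push Not at hcon
  obtain ⟨a, ha, b, hb, c, hc, hab, hac, hbc⟩ := Finset.two_lt_card.mp hcon
  rw [Finset.mem_inter, mem_τ, mem_τ] at ha hb hc
  exact X.two_verts a.2 b.2 c.2 (fun h' => hab (Subtype.ext h')) (fun h' => hac (Subtype.ext h'))
    (fun h' => hbc (Subtype.ext h')) (fun h' => h (Subtype.ext h')) ha.1 hb.1 hc.1 ha.2 hb.2 hc.2

/-- Adjacency in terms of common directions. -/
lemma card_inter_eq_two {T T' : X.Tile} (h : T ≠ T') {p : ℂ} (hp : p ∈ T.1) (hp' : p ∈ T'.1)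
    {t : ℝ} (ht : t ∈ Dset T.1 p) (ht' : t ∈ Dset T'.1 p) : (X.V T ∩ X.V T').card = 2 := by
  apply le_antisymm (X.card_inter_V h)
  obtain ⟨q₁, q₂, hne, h1, h2, h3, h4, h5, h6⟩ := X.exists_two_verts T.2 T'.2
    (fun h' => h (Subtype.ext h')) hp hp' ht ht'
  have hsub : ({⟨q₁, h5⟩, ⟨q₂, h6⟩} : Finset X.Vert) ⊆ X.V T ∩ X.V T' := by
    intro x hx
    simp only [Finset.mem_insert, Finset.mem_singleton] at hx
    rw [Finset.mem_inter, mem_V, mem_V]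
    rcases hx with rfl | rfl
    · exact ⟨h1, h2⟩
    · exact ⟨h3, h4⟩
  have hc : ({⟨q₁, h5⟩, ⟨q₂, h6⟩} : Finset X.Vert).card = 2 := by
    apply Finset.card_pair
    intro h'
    exact hne (congrArg Subtype.val h')
  rw [← hc]
  exact Finset.card_le_card hsub

lemma dir_of_card_two {T T' : X.Tile} {p : X.Vert}
    (hc : (X.V T ∩ X.V T').card = 2) : ∃ t : ℝ, t ∈ Dset T.1 p.1 ∧ t ∈ Dset T'.1 p.1 := by
  obtain ⟨a, b, hab, heq⟩ := Finset.card_eq_two.mp hc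
  have ha : a ∈ X.V T ∩ X.V T' := by rw [heq]; simp
  have hb : b ∈ X.V T ∩ X.V T' := by rw [heq]; simp
  rw [Finset.mem_inter, mem_V, mem_V] at ha hb
  have : ∃ q : X.Vert, q ≠ p ∧ q.1 ∈ T.1 ∧ q.1 ∈ T'.1 := by
    by_cases h : a = p
    · refine ⟨b, ?_, hb⟩
      rw [← h]
      exact hab.symm
    · exact ⟨a, h, ha⟩
  obtain ⟨q, hq, hq1, hq2⟩ := this
  obtain ⟨t, r, _, _, h1, h2⟩ := common_dir (A := T.1) (B := T'.1) (p := p.1) (q := q.1)
    (fun h' => hq (Subtype.ext h'.symm)) hq1 hq2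
  exact ⟨t, h1, h2⟩

lemma adj' (p : X.Vert) (T : X.Tile) (hT : T ∈ X.τ p) :
    ((X.τ p).filter (fun T' => T' ≠ T ∧ (X.V T ∩ X.V T').card = 2)).card = 2 := by
  classical
  obtain ⟨a, harc, hfam⟩ := X.exists_arcFam (X.isVert_bd p.2)
  have hpT : p.1 ∈ T.1 := X.mem_τ.mp hT
  have h := hfam.card_nbr ((X.isVert_iff p.1).mp p.2) (X.mem_tilesF.mpr ⟨T.2, hpT⟩)
  refine Eq.trans ?_ h
  rw [← X.τ_map p, Finset.filter_map, Finset.card_map]
  congr 1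
  apply Finset.filter_congr
  intro T' hT'
  have hpT' : p.1 ∈ T'.1 := X.mem_τ.mp hT'
  simp only [Function.comp, valT_apply]
  rw [← harc T.1 T.2 hpT, ← harc T'.1 T'.2 hpT']
  constructor
  · rintro ⟨h1, h2⟩
    refine ⟨fun h' => h1 (Subtype.ext h'), ?_⟩
    obtain ⟨t, ht1, ht2⟩ := X.dir_of_card_two (p := p) h2
    exact ⟨t, ht1, ht2⟩
  · rintro ⟨h1, t, ht1, ht2⟩
    have hne : T' ≠ T := fun h' => h1 (congrArg Subtype.val h')
    exact ⟨hne, X.card_inter_eq_two hne.symm hpT hpT' ht1 ht2⟩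

lemma nbr' (T : X.Tile) : (((X.V T).biUnion X.τ).erase T).card = X.n := by
  classical
  have key : (((X.V T).biUnion X.τ).erase T).map X.valT = (X.nbrs_finite T.2).toFinset := by
    ext A
    simp only [Finset.mem_map, valT_apply, Set.Finite.mem_toFinset, mem_setOf_eq,
      Finset.mem_erase, Finset.mem_biUnion]
    constructor
    · rintro ⟨T', ⟨h1, p, hp, hp'⟩, rfl⟩
      exact ⟨T'.2, fun h' => h1 (Subtype.ext h'), p.1, X.mem_V.mp hp, X.mem_τ.mp hp'⟩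
    · rintro ⟨hA, hne, x, hx, hx'⟩
      refine ⟨⟨A, hA⟩, ⟨fun h' => hne (congrArg Subtype.val h'), ?_⟩, rfl⟩
      obtain ⟨q, hq1, hq2, hq3⟩ := X.exists_common_vert T.2 hA (Ne.symm hne) hx hx'
      exact ⟨⟨q, hq3⟩, X.mem_V.mpr hq1, X.mem_τ.mpr hq2⟩
  rw [← Finset.card_map X.valT, key, ← Set.ncard_eq_toFinset_card _ (X.nbrs_finite T.2)]
  exact X.hn T.1 T.2

lemma vert_not_interior (p : X.Vert) {A : Set ℂ} (hA : A ∈ X.𝒯) : p.1 ∉ interior A := by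
  obtain ⟨B, hB, hpB, hint⟩ := X.isVert_bd p.2
  exact X.not_interior_all hB hpB hint hA

lemma ang_sum' (p : X.Vert) : ∑ T ∈ X.τ p, ang p.1 T.1 = 1 := by
  have h := X.ang_sum (X.isVert_bd p.2)
  rw [← X.τ_map p, Finset.sum_map] at h
  exact h

/-! ### Connectedness -/

lemma sUnion_closed (S : Set (Set ℂ)) (hS : S ⊆ X.𝒯) : IsClosed (⋃₀ S) := by
  rw [← isOpen_compl_iff, Metric.isOpen_iff]
  intro p hp
  refine ⟨X.rad p, X.rad_pos p, ?_⟩
  intro x hx hx'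
  obtain ⟨A, hA, hxA⟩ := hx'
  apply hp
  exact ⟨A, hA, X.rad_spec p (hS hA) ⟨x, hxA, ball_subset_closedBall hx⟩⟩

theorem conn_set (G : Set (Set ℂ)) (hG : G ⊆ X.𝒯) (hne : G.Nonempty)
    (hcl : ∀ A ∈ G, ∀ B ∈ X.𝒯, B ≠ A → (∃ p t, p ∈ A ∧ p ∈ B ∧ t ∈ Dset A p ∧ t ∈ Dset B p) →
      B ∈ G) : G = X.𝒯 := by
  by_contra hcon
  have hdiff : (X.𝒯 \ G).Nonempty := by
    rw [Set.nonempty_iff_ne_empty]
    intro h
    exact hcon (subset_antisymm hG (Set.sdiff_eq_empty.mp h))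
  have hc1 : IsClosed (⋃₀ G) := X.sUnion_closed G hG
  have hc2 : IsClosed (⋃₀ (X.𝒯 \ G)) := X.sUnion_closed _ sdiff_subset
  have hcover : (Set.univ : Set ℂ) ⊆ ⋃₀ G ∪ ⋃₀ (X.𝒯 \ G) := by
    intro x _
    obtain ⟨A, hA, hx⟩ := X.exists_tile x
    by_cases h : A ∈ G
    · exact Or.inl ⟨A, h, hx⟩
    · exact Or.inr ⟨A, ⟨hA, h⟩, hx⟩
  have hn1 : (Set.univ ∩ ⋃₀ G).Nonempty := by
    obtain ⟨A, hA⟩ := hne
    obtain ⟨x, hx⟩ := X.nonempty (hG hA)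
    exact ⟨x, trivial, A, hA, hx⟩
  have hn2 : (Set.univ ∩ ⋃₀ (X.𝒯 \ G)).Nonempty := by
    obtain ⟨A, hA⟩ := hdiff
    obtain ⟨x, hx⟩ := X.nonempty hA.1
    exact ⟨x, trivial, A, hA, hx⟩
  obtain ⟨p, _, ⟨A, hA, hpA⟩, B, hB, hpB⟩ :=
    isPreconnected_closed_iff.mp (isPreconnected_univ (α := ℂ)) _ _ hc1 hc2 hcover hn1 hn2
  have hAB : A ≠ B := by
    rintro rfl
    exact hB.2 hA
  -- directions
  set DX : Set ℝ := ⋃ A ∈ {A | A ∈ G ∧ p ∈ A}, Dset A p with hDX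
  set DY : Set ℝ := ⋃ A ∈ {A | A ∈ X.𝒯 \ G ∧ p ∈ A}, Dset A p with hDY
  have hf1 : {A | A ∈ G ∧ p ∈ A}.Finite :=
    (X.tiles_finite p).subset (fun A hA => ⟨hG hA.1, hA.2⟩)
  have hf2 : {A | A ∈ X.𝒯 \ G ∧ p ∈ A}.Finite :=
    (X.tiles_finite p).subset (fun A hA => ⟨hA.1.1, hA.2⟩)
  have hcX : IsClosed DX := hf1.isClosed_biUnion (fun A hA => X.Dset_closed (hG hA.1) hA.2)
  have hcY : IsClosed DY := hf2.isClosed_biUnion (fun A hA => X.Dset_closed hA.1.1 hA.2)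
  have hcov : (Set.univ : Set ℝ) ⊆ DX ∪ DY := by
    intro t _
    obtain ⟨C, hC, hpC, ht⟩ := X.Dset_cover p t
    by_cases h : C ∈ G
    · left
      exact mem_iUnion₂.mpr ⟨C, ⟨h, hpC⟩, ht⟩
    · right
      exact mem_iUnion₂.mpr ⟨C, ⟨⟨hC, h⟩, hpC⟩, ht⟩
  have hDne : ∀ C ∈ X.𝒯, p ∈ C → p ∉ interior C → (Dset C p).Nonempty := by
    intro C hC hpC hint
    obtain ⟨a, θ, h1, _, h3⟩ := X.exists_arc hC hpC hint
    rw [h3]
    exact ⟨a, arc_left_mem h1.le⟩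
  have hnX : (Set.univ ∩ DX).Nonempty := by
    obtain ⟨t, ht⟩ := hDne A (hG hA) hpA (X.not_interior_of_two (hG hA) hB.1 hAB hpB)
    exact ⟨t, trivial, mem_iUnion₂.mpr ⟨A, ⟨hA, hpA⟩, ht⟩⟩
  have hnY : (Set.univ ∩ DY).Nonempty := by
    obtain ⟨t, ht⟩ := hDne B hB.1 hpB (X.not_interior_of_two hB.1 (hG hA) hAB.symm hpA)
    exact ⟨t, trivial, mem_iUnion₂.mpr ⟨B, ⟨hB, hpB⟩, ht⟩⟩
  obtain ⟨t, _, htX, htY⟩ :=
    isPreconnected_closed_iff.mp (isPreconnected_univ (α := ℝ)) _ _ hcX hcY hcov hnX hnY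
  obtain ⟨A', hA', htA'⟩ := mem_iUnion₂.mp htX
  obtain ⟨B', hB', htB'⟩ := mem_iUnion₂.mp htY
  have hne' : B' ≠ A' := by
    rintro rfl
    exact hB'.1.2 hA'.1
  exact hB'.1.2 (hcl A' hA'.1 B' hB'.1.1 hne' ⟨p, t, hA'.2, hB'.2, htA', htB'⟩)

lemma conn' (G : Set X.Tile) (hne : G.Nonempty)
    (hcl : ∀ T ∈ G, ∀ T', T' ≠ T → (X.V T ∩ X.V T').card = 2 → T' ∈ G) : ∀ T, T ∈ G := by
  have h := X.conn_set (Subtype.val '' G) (by rintro _ ⟨T, _, rfl⟩; exact T.2)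
    (hne.image _) (by
      rintro _ ⟨T, hT, rfl⟩ B hB hBT ⟨p, t, hp, hp', ht, ht'⟩
      have hne' : (⟨B, hB⟩ : X.Tile) ≠ T := fun h' => hBT (congrArg Subtype.val h')
      exact ⟨⟨B, hB⟩, hcl T hT ⟨B, hB⟩ hne' (X.card_inter_eq_two hne'.symm hp hp' ht ht'), rfl⟩)
  intro T
  have : T.1 ∈ Subtype.val '' G := by rw [h]; exact T.2
  obtain ⟨T', hT', he⟩ := this
  have : T' = T := Subtype.ext he
  rw [← this]
  exact hT'

/-! ### Growth -/

lemma growth' : ∃ C : ℝ, ∀ r : ℕ,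
    ((ballAux (fun T => (X.V T).biUnion X.τ) (⟨X.K, X.hK⟩ : X.Tile) r).card : ℝ)
      ≤ C * ((r : ℝ) + 1) ^ 2 := by
  classical
  obtain ⟨C, hC0, hC⟩ := X.exists_count
  obtain ⟨D, hD, hdiam⟩ := X.exists_diam
  obtain ⟨x₀, hx₀⟩ := X.nonempty X.hK
  have hsub : ∀ r : ℕ, ∀ T ∈ ballAux (fun T => (X.V T).biUnion X.τ) (⟨X.K, X.hK⟩ : X.Tile) r,
      T.1 ⊆ closedBall x₀ (((r : ℝ) + 1) * D) := by
    intro r
    induction r with
    | zero =>
      intro T hT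
      have : T = ⟨X.K, X.hK⟩ := by simpa [ballAux] using hT
      subst this
      intro y hy
      rw [mem_closedBall]
      have := hdiam X.K X.hK y hy x₀ hx₀
      simpa using this
    | succ r ih =>
      intro T hT
      have hT' : T ∈ (ballAux (fun T => (X.V T).biUnion X.τ) (⟨X.K, X.hK⟩ : X.Tile) r).biUnion
        (fun T => (X.V T).biUnion X.τ) := hT
      simp only [Finset.mem_biUnion] at hT'
      obtain ⟨S, hS, p, hp, hpT⟩ := hT'
      have h1 := ih S hS (X.mem_V.mp hp)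
      intro y hy
      rw [mem_closedBall] at h1 ⊢
      have h2 := hdiam T.1 T.2 y hy p.1 (X.mem_τ.mp hpT)
      have h3 := dist_triangle y p.1 x₀
      push_cast
      linarith
  refine ⟨C * (D + 1) ^ 2, ?_⟩
  intro r
  have h1 := hC x₀ (((r : ℝ) + 1) * D) (by positivity)
    ((ballAux (fun T => (X.V T).biUnion X.τ) (⟨X.K, X.hK⟩ : X.Tile) r).map X.valT) (by
      intro A hA
      simp only [Finset.mem_map, valT_apply] at hA
      obtain ⟨T, hT, rfl⟩ := hA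
      refine ⟨T.2, ?_⟩
      obtain ⟨y, hy⟩ := X.nonempty T.2
      exact ⟨y, hy, hsub r T hT hy⟩)
  rw [Finset.card_map] at h1
  refine le_trans h1 ?_
  rw [mul_assoc]
  apply mul_le_mul_of_nonneg_left _ hC0
  rw [← mul_pow]
  apply pow_le_pow_left₀ (by positivity)
  have : (0 : ℝ) ≤ r := Nat.cast_nonneg r
  nlinarith

/-- The vertices of a tile as a finset of complex numbers. -/
lemma V_map_mem (T : X.Tile) (p : ℂ) :
    p ∈ (X.V T).map X.valV ↔ p ∈ T.1 ∧ 3 ≤ (X.tiles p).ncard := by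
  simp only [Finset.mem_map, valV_apply]
  constructor
  · rintro ⟨q, hq, rfl⟩
    exact ⟨X.mem_V.mp hq, q.2⟩
  · rintro ⟨h1, h2⟩
    exact ⟨⟨p, h2⟩, X.mem_V.mpr h1, rfl⟩

/-- The combinatorial structure of a convex monohedral tiling, given the exterior angle sums. -/
noncomputable def toTess (hext : ∀ A ∈ X.𝒯, ∀ s : Finset ℂ,
    (∀ p, p ∈ s ↔ p ∈ A ∧ 3 ≤ (X.tiles p).ncard) → ∑ p ∈ s, (1 / 2 - ang p A) = 1) :
    Tess X.Tile X.Vert where
  V := X.V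
  τ := X.τ
  mem_iff := fun _ _ => by rw [mem_V, mem_τ]
  n := X.n
  ang := fun p T => ang p.1 T.1
  deg_ge := X.card_τ
  two_tiles := fun _ _ h => X.card_inter_V h
  two_verts := fun _ _ h => X.card_inter_τ h
  adj := X.adj'
  nbr := X.nbr'
  ang_pos := by
    intro p T hT
    obtain ⟨_, h, _, _⟩ := X.exists_arc' T.2 (X.mem_τ.mp hT) (X.vert_not_interior p T.2)
    exact h
  ang_le := by
    intro p T hT
    obtain ⟨_, _, h, _⟩ := X.exists_arc' T.2 (X.mem_τ.mp hT) (X.vert_not_interior p T.2)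
    exact h
  ang_sum := X.ang_sum'
  ext_sum := by
    intro T
    have h := hext T.1 T.2 _ (X.V_map_mem T)
    rw [Finset.sum_map] at h
    exact h
  conn := X.conn'
  T₀ := ⟨X.K, X.hK⟩
  growth := X.growth'

end CT

end Pool.Agent.Hhelper50
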