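import Pool.Agent.Hhelper50.TessBase

/-!
# Case Q: every tile has at least four vertices
-/

set_option autoImplicit false

namespace Pool.Agent.Hhelper50

open Finset

variable {Tile Vert : Type*} [DecidableEq Tile] [DecidableEq Vert]

namespace Tess

variable (X : Tess Tile Vert)

/-- Averaging principle applied to `1/deg - ang`. -/
theorem ap_neg (ε : ℝ) (hε : 0 < ε)
    (ht : ∀ T, ((X.V T).card : ℝ) / 2 - 1 + ε ≤ ∑ p ∈ X.V T, 1 / (X.deg p : ℝ)) : False := by
  apply X.ap (fun p T => 1 / (X.deg p : ℝ) - X.ang p T) 1 _ _ ε hε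
  · intro T
    have h1 := X.ext_sum T
    rw [Finset.sum_sub_distrib, Finset.sum_const, nsmul_eq_mul] at h1
    have h2 := ht T
    rw [Finset.sum_sub_distrib]
    linarith
  · intro p T hT
    have h1 := X.ang_pos p T hT
    have h2 := X.ang_le p T hT
    have h4 : 0 < 1 / (X.deg p : ℝ) := by
      have : 0 < X.deg p := by have := X.deg_ge' p; omega
      positivity
    have h5 : 1 / (X.deg p : ℝ) ≤ 1 / 3 := by
      apply one_div_le_one_div_of_le (by norm_num)
      exact_mod_cast X.deg_ge' p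
    rw [abs_le]
    constructor <;> linarith
  · intro p
    have h1 := X.ang_sum p
    have h3 : ∑ _T ∈ X.τ p, 1 / (X.deg p : ℝ) = 1 := by
      rw [Finset.sum_const, nsmul_eq_mul]
      have : (0 : ℝ) < (X.deg p : ℝ) := by
        have : 0 < X.deg p := by have := X.deg_ge' p; omega
        exact_mod_cast this
      unfold deg at *
      field_simp
    rw [Finset.sum_sub_distrib, h3, h1]
    linarith

lemma deg3_adj {p : Vert} {T T' : Tile} (h : X.deg p = 3) (hT : p ∈ X.V T) (hT' : p ∈ X.V T')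
    (hne : T' ≠ T) : (X.V T ∩ X.V T').card = 2 := by
  have h1 := X.adj p T (X.mem_V_iff.mp hT)
  have hsub : (X.τ p).filter (fun T' => T' ≠ T ∧ (X.V T ∩ X.V T').card = 2)
      ⊆ (X.τ p).erase T := by
    intro S hS
    rw [Finset.mem_filter] at hS
    exact Finset.mem_erase.mpr ⟨hS.2.1, hS.1⟩
  have h2 : ((X.τ p).erase T).card = 2 := by
    rw [Finset.card_erase_of_mem (X.mem_V_iff.mp hT)]
    unfold deg at h
    omega
  have h3 := Finset.eq_of_subset_of_card_le hsub (by omega)
  have h4 : T' ∈ (X.τ p).erase T := Finset.mem_erase.mpr ⟨hne, X.mem_V_iff.mp hT'⟩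
  rw [← h3, Finset.mem_filter] at h4
  exact h4.2.2

/-- Two tiles sharing exactly two vertices, one of them `p`. -/
lemma adj_edge {p : Vert} {T T' : Tile} (hc : (X.V T ∩ X.V T').card = 2) (hT : p ∈ X.V T)
    (hT' : p ∈ X.V T') (hne : T' ≠ T) :
    ∃ x, x ≠ p ∧ X.V T ∩ X.V T' = {p, x} ∧ x ∈ X.V T ∧ x ∈ X.V T' ∧ X.Edge p x := by
  obtain ⟨x, hx, e⟩ := pair_of_card_two hc (Finset.mem_inter.mpr ⟨hT, hT'⟩)
  have hm : x ∈ X.V T ∩ X.V T' := by rw [e]; simp
  rw [Finset.mem_inter] at hm
  exact ⟨x, hx, e, hm.1, hm.2, X.edge_of hne.symm hx.symm hT hT' hm.1 hm.2⟩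

/-- Structure of a tile with exactly four vertices. -/
lemma quad {T : Tile} (h4 : (X.V T).card = 4) {p : Vert} (hp : p ∈ X.V T) :
    ∃ q₁ q₂ r, q₁ ≠ q₂ ∧ r ≠ p ∧ r ≠ q₁ ∧ r ≠ q₂ ∧ q₁ ≠ p ∧ q₂ ≠ p ∧
      (∀ x, x ∈ X.V T ↔ x = p ∨ x = q₁ ∨ x = q₂ ∨ x = r) ∧
      X.Edge p q₁ ∧ X.Edge p q₂ ∧ X.Edge q₁ r ∧ X.Edge q₂ r ∧ ¬ X.Edge p r ∧ ¬ X.Edge q₁ q₂ := by
  obtain ⟨q₁, q₂, h1, h2, h3, e1, e2, hu⟩ := X.card_nb hp
  have hc : ({p, q₁, q₂} : Finset Vert).card = 3 := by
    rw [Finset.card_eq_three]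
    exact ⟨p, q₁, q₂, e1.1, e2.1, h1, rfl⟩
  have hsub : ({p, q₁, q₂} : Finset Vert) ⊆ X.V T := by
    intro x hx
    simp only [Finset.mem_insert, Finset.mem_singleton] at hx
    rcases hx with rfl | rfl | rfl <;> assumption
  obtain ⟨r, hr, hr'⟩ := Finset.exists_mem_notMem_of_card_lt_card
    (s := ({p, q₁, q₂} : Finset Vert)) (t := X.V T) (by omega)
  simp only [Finset.mem_insert, Finset.mem_singleton, not_or] at hr'
  have hc4 : ({p, q₁, q₂, r} : Finset Vert).card = 4 := by
    have : ({p, q₁, q₂, r} : Finset Vert) = insert r {p, q₁, q₂} := by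
      ext x; simp only [Finset.mem_insert, Finset.mem_singleton]; tauto
    rw [this, Finset.card_insert_of_notMem, hc]
    simp only [Finset.mem_insert, Finset.mem_singleton, not_or]
    exact hr'
  have heq : ({p, q₁, q₂, r} : Finset Vert) = X.V T := by
    apply Finset.eq_of_subset_of_card_le
    · intro x hx
      simp only [Finset.mem_insert, Finset.mem_singleton] at hx
      rcases hx with rfl | rfl | rfl | rfl <;> assumption
    · omega
  have hmem : ∀ x, x ∈ X.V T ↔ x = p ∨ x = q₁ ∨ x = q₂ ∨ x = r := by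
    intro x
    rw [← heq]
    simp only [Finset.mem_insert, Finset.mem_singleton]
  have npr : ¬ X.Edge p r := by
    intro hE
    rcases hu r hr hE with h | h
    · exact hr'.2.1 h
    · exact hr'.2.2 h
  obtain ⟨s₁, s₂, g1, g2, g3, f1, f2, hv⟩ := X.card_nb hr
  have hs1 : s₁ = q₁ ∨ s₁ = q₂ := by
    rcases (hmem s₁).mp g2 with h | h | h | h
    · exact absurd (h ▸ f1.symm) npr
    · exact Or.inl h
    · exact Or.inr h
    · exact absurd h.symm f1.1
  have hs2 : s₂ = q₁ ∨ s₂ = q₂ := by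
    rcases (hmem s₂).mp g3 with h | h | h | h
    · exact absurd (h ▸ f2.symm) npr
    · exact Or.inl h
    · exact Or.inr h
    · exact absurd h.symm f2.1
  have er : X.Edge q₁ r ∧ X.Edge q₂ r := by
    rcases hs1 with rfl | rfl <;> rcases hs2 with rfl | rfl
    · exact absurd rfl g1
    · exact ⟨f1.symm, f2.symm⟩
    · exact ⟨f2.symm, f1.symm⟩
    · exact absurd rfl g1
  refine ⟨q₁, q₂, r, h1, hr'.1, hr'.2.1, hr'.2.2, e1.1.symm, e2.1.symm, hmem, e1, e2, er.1, er.2,
    npr, ?_⟩
  intro hE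
  obtain ⟨a, b, _, _, _, _, _, hw⟩ := X.card_nb h2
  have w1 := hw p hp e1.symm
  have w2 := hw r hr er.1
  have w3 := hw q₂ h3 hE
  have n1 : p ≠ r := fun h => hr'.1 h.symm
  have n2 : q₂ ≠ p := e2.1.symm
  have n3 : r ≠ q₂ := hr'.2.2
  rcases w1 with rfl | rfl <;> rcases w2 with h | h <;> rcases w3 with h' | h' <;>
    first
    | exact n1 h.symm
    | exact n2 h'
    | exact n3 (h.trans h'.symm)

/-- A star: a tile containing a vertex of degree `n - 1`. -/
def Star (T : Tile) : Prop := ∃ p ∈ X.V T, X.deg p + 1 = X.n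

/-- If `p ∈ V T` and `(deg p - 2) + (m-1) = n` then all other vertices have degree `3`. -/
lemma star_struct (hQ : ∀ T, 4 ≤ (X.V T).card) {T : Tile} {O : Vert} (hO : O ∈ X.V T)
    (hd : X.deg O + 1 = X.n) : (X.V T).card = 4 ∧ ∀ q ∈ X.V T, q ≠ O → X.deg q = 3 := by
  have h := X.nformula T
  rw [← Finset.add_sum_erase _ _ hO] at h
  have h3 := X.deg_ge' O
  have hcard : ((X.V T).erase O).card = (X.V T).card - 1 := Finset.card_erase_of_mem hO
  have hge : ((X.V T).erase O).card ≤ ∑ q ∈ (X.V T).erase O, (X.deg q - 2) := by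
    rw [Finset.card_eq_sum_ones]
    apply Finset.sum_le_sum
    intro q _
    have := X.deg_ge' q
    omega
  have hQT := hQ T
  refine ⟨by omega, ?_⟩
  intro q hq hqO
  have hq' : q ∈ (X.V T).erase O := Finset.mem_erase.mpr ⟨hqO, hq⟩
  rw [← Finset.add_sum_erase _ _ hq'] at h
  have hge2 : (((X.V T).erase O).erase q).card ≤
      ∑ r ∈ ((X.V T).erase O).erase q, (X.deg r - 2) := by
    rw [Finset.card_eq_sum_ones]
    apply Finset.sum_le_sum
    intro r _
    have := X.deg_ge' r
    omega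
  rw [Finset.card_erase_of_mem hq'] at hge2
  have := X.deg_ge' q
  omega

lemma τ_eq_of_three {p : Vert} {T₁ T₂ T₃ : Tile} (h : X.deg p = 3) (h1 : p ∈ X.V T₁)
    (h2 : p ∈ X.V T₂) (h3 : p ∈ X.V T₃) (n12 : T₁ ≠ T₂) (n13 : T₁ ≠ T₃) (n23 : T₂ ≠ T₃)
    {S : Tile} (hS : p ∈ X.V S) : S = T₁ ∨ S = T₂ ∨ S = T₃ := by
  have hc : ({T₁, T₂, T₃} : Finset Tile).card = 3 := by
    rw [Finset.card_eq_three]
    exact ⟨T₁, T₂, T₃, n12, n13, n23, rfl⟩
  have heq : ({T₁, T₂, T₃} : Finset Tile) = X.τ p := by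
    apply Finset.eq_of_subset_of_card_le
    · intro x hx
      simp only [Finset.mem_insert, Finset.mem_singleton] at hx
      rcases hx with rfl | rfl | rfl <;> exact X.mem_V_iff.mp (by assumption)
    · unfold deg at h; omega
  have := X.mem_V_iff.mp hS
  rw [← heq] at this
  simpa only [Finset.mem_insert, Finset.mem_singleton] using this

lemma exists_third {p : Vert} {T₁ T₂ : Tile} (h : X.deg p = 3) (h1 : p ∈ X.V T₁)
    (h2 : p ∈ X.V T₂) : ∃ S, p ∈ X.V S ∧ S ≠ T₁ ∧ S ≠ T₂ := by
  obtain ⟨S, hS, hS'⟩ := Finset.exists_mem_notMem_of_card_lt_card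
    (s := ({T₁, T₂} : Finset Tile)) (t := X.τ p) (by
      have := Finset.card_le_two (a := T₁) (b := T₂)
      unfold deg at h
      omega)
  simp only [Finset.mem_insert, Finset.mem_singleton, not_or] at hS'
  exact ⟨S, X.mem_V_iff.mpr hS, hS'.1, hS'.2⟩

/-- Key propagation step: if the third tile at an end `P` of an edge `O P` of a star is a star, then
all tiles touching the star are stars. -/
lemma star_prop (hQ : ∀ T, 4 ≤ (X.V T).card) (hn : 22 ≤ X.n) {T S : Tile} {O P : Vert}
    (hO : O ∈ X.V T) (hd : X.deg O + 1 = X.n) (hP : P ∈ X.V T) (hE : X.Edge O P)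
    (hPS : P ∈ X.V S) (hOS : O ∉ X.V S) (hS : X.Star S) :
    ∀ p ∈ X.V T, ∀ U, p ∈ X.V U → X.Star U := by
  obtain ⟨h4, hdeg⟩ := X.star_struct hQ hO hd
  obtain ⟨q₁, q₂, Q, hq12, hQO, hQq1, hQq2, hq1O, hq2O, hmem, e1, e2, f1, f2, nOQ, nqq⟩ :=
    X.quad h4 hO
  -- a symmetric version
  have main : ∀ P P' : Vert, P ≠ P' → P ≠ O → P' ≠ O → Q ≠ P → Q ≠ P' →
      (∀ x, x ∈ X.V T ↔ x = O ∨ x = P ∨ x = P' ∨ x = Q) → X.Edge O P → X.Edge O P' →
      X.Edge P Q → X.Edge P' Q → ¬ X.Edge P P' → P ∈ X.V S →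
      ∀ p ∈ X.V T, ∀ U, p ∈ X.V U → X.Star U := by
    intro P P' hPP' hPO hP'O hQP hQP' hmem eP eP' fP fP' nPP hPS
    have hPT : P ∈ X.V T := (hmem P).mpr (Or.inr (Or.inl rfl))
    have hP'T : P' ∈ X.V T := (hmem P').mpr (Or.inr (Or.inr (Or.inl rfl)))
    have hQT : Q ∈ X.V T := (hmem Q).mpr (Or.inr (Or.inr (Or.inr rfl)))
    have dP := hdeg P hPT hPO
    have dP' := hdeg P' hP'T hP'O
    have dQ := hdeg Q hQT hQO
    have hST : S ≠ T := fun h => hOS (h ▸ hO)
    -- the other tile on the edge O P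
    obtain ⟨T', hT'T, hOT', hPT', hτ, hV⟩ := Edge.other X eP hO hPT
    have hT'S : T' ≠ S := fun h => hOS (h ▸ hOT')
    have starT' : X.Star T' := ⟨O, hOT', hd⟩
    have starT : X.Star T := ⟨O, hO, hd⟩
    have hQT' : Q ∉ X.V T' := by
      intro h
      have : Q ∈ X.V T ∩ X.V T' := Finset.mem_inter.mpr ⟨hQT, h⟩
      rw [hV] at this
      simp only [Finset.mem_insert, Finset.mem_singleton] at this
      rcases this with h | h
      · exact hQO h
      · exact hQP h
    -- T and S share P and Q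
    obtain ⟨x, hxP, hVx, hxT, hxS, hEx⟩ := X.adj_edge (X.deg3_adj dP hPT hPS hST) hPT hPS hST
    have hxQ : x = Q := by
      rcases (hmem x).mp hxT with h | h | h | h
      · exact absurd (h ▸ hxS) hOS
      · exact absurd h hxP
      · exact absurd (h ▸ hEx) nPP
      · exact h
    subst hxQ
    -- T' and S share P and x'
    obtain ⟨x', hx'P, hVx', hx'T', hx'S, hEx'⟩ :=
      X.adj_edge (X.deg3_adj dP hPT' hPS hT'S.symm) hPT' hPS hT'S.symm
    have hx'Q : x' ≠ x := fun h => hQT' (h ▸ hx'T')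
    have hx'O : x' ≠ O := fun h => hOS (h ▸ hx'S)
    obtain ⟨_, hdeg'⟩ := X.star_struct hQ hOT' hd
    have dx' := hdeg' x' hx'T' hx'O
    -- structure of S
    obtain ⟨OS, hOSm, hdS⟩ := hS
    obtain ⟨h4S, hdegS⟩ := X.star_struct hQ hOSm hdS
    obtain ⟨a, b, r, hab, hrP, hra, hrb, haP, hbP, hmemS, ea, eb, fa, fb, nPr, nab⟩ :=
      X.quad h4S hPS
    have hOSO : OS ≠ O := fun h => hOS (h ▸ hOSm)
    have hOSP : OS ≠ P := fun h => by rw [h] at hdS; omega
    have hOSx : OS ≠ x := fun h => by rw [h] at hdS; omega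
    have hOSx' : OS ≠ x' := fun h => by rw [h] at hdS; omega
    -- {a,b} = {x,x'}
    have hxab : x = a ∨ x = b := by
      rcases (hmemS x).mp hxS with h | h | h | h
      · exact absurd h hxP
      · exact Or.inl h
      · exact Or.inr h
      · exact absurd (h ▸ hEx) nPr
    have hx'ab : x' = a ∨ x' = b := by
      rcases (hmemS x').mp hx'S with h | h | h | h
      · exact absurd h hx'P
      · exact Or.inl h
      · exact Or.inr h
      · exact absurd (h ▸ hEx') nPr
    have hrOS : r = OS := by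
      rcases (hmemS OS).mp hOSm with h | h | h | h
      · exact absurd h hOSP
      · exfalso
        rcases hxab with h' | h' <;> rcases hx'ab with h'' | h''
        · exact hOSx (h.trans h'.symm)
        · exact hOSx (h.trans h'.symm)
        · exact hOSx' (h.trans h''.symm)
        · exact hx'Q (h''.trans h'.symm)
      · exfalso
        rcases hxab with h' | h' <;> rcases hx'ab with h'' | h''
        · exact hx'Q (h''.trans h'.symm)
        · exact hOSx' (h.trans h''.symm)
        · exact hOSx (h.trans h'.symm)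
        · exact hOSx (h.trans h'.symm)
      · exact h.symm
    -- third tile at x = Q
    obtain ⟨S', hxS', hS'T, hS'S⟩ := X.exists_third dQ hQT hxS
    have hPS' : P ∉ X.V S' := by
      intro h
      rcases X.τ_eq_of_three dP hPT hPT' hPS hT'T.symm hST.symm hT'S h with h | h | h
      · exact hS'T h
      · exact hQT' (h ▸ hxS')
      · exact hS'S h
    -- T and S' share Q and P'
    obtain ⟨y, hyx, hVy, hyT, hyS', hEy⟩ :=
      X.adj_edge (X.deg3_adj dQ hQT hxS' hS'T) hQT hxS' hS'T
    have hyP' : y = P' := by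
      rcases (hmem y).mp hyT with h | h | h | h
      · exact absurd (h ▸ hEy.symm) nOQ
      · exact absurd (h ▸ hyS') hPS'
      · exact h
      · exact absurd h hyx
    subst hyP'
    -- S and S' share Q and OS
    obtain ⟨z, hzx, hVz, hzS, hzS', hEz⟩ :=
      X.adj_edge (X.deg3_adj dQ hxS hxS' hS'S) hxS hxS' hS'S
    have hzOS : z = OS := by
      rcases (hmemS z).mp hzS with h | h | h | h
      · exact absurd (h ▸ hzS') hPS'
      · exfalso
        rcases hxab with h' | h'
        · exact hzx (h.trans h'.symm)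
        · rw [h, h'] at hEz
          exact nab hEz.symm
      · exfalso
        rcases hxab with h' | h'
        · rw [h, h'] at hEz
          exact nab hEz
        · exact hzx (h.trans h'.symm)
      · exact h.trans hrOS
    have hOSS' : OS ∈ X.V S' := hzOS ▸ hzS'
    have starS' : X.Star S' := ⟨OS, hOSS', hdS⟩
    have starS : X.Star S := ⟨OS, hOSm, hdS⟩
    have hOS' : O ∉ X.V S' := by
      intro h
      obtain ⟨_, hdS'⟩ := X.star_struct hQ h hd
      have := hdS' OS hOSS' hOSO
      omega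
    -- the other tile on the edge O P'
    obtain ⟨T'', hT''T, hOT'', hPT'', _, _⟩ := Edge.other X eP' hO hP'T
    have starT'' : X.Star T'' := ⟨O, hOT'', hd⟩
    have hT''S' : T'' ≠ S' := fun h => hOS' (h ▸ hOT'')
    intro p hp U hpU
    rcases (hmem p).mp hp with rfl | rfl | rfl | rfl
    · exact ⟨p, hpU, hd⟩
    · rcases X.τ_eq_of_three dP hPT hPT' hPS hT'T.symm hST.symm hT'S hpU with rfl | rfl | rfl
        <;> assumption
    · rcases X.τ_eq_of_three dP' hP'T hPT'' hyS' hT''T.symm hS'T.symm hT''S' hpU with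
        rfl | rfl | rfl <;> assumption
    · rcases X.τ_eq_of_three dQ hQT hxS hxS' hST.symm hS'T.symm hS'S.symm hpU with
        rfl | rfl | rfl <;> assumption
  rcases (hmem P).mp hP with h | h | h | h
  · exact absurd h.symm hE.1
  · subst h
    exact main P q₂ hq12 hq1O hq2O hQq1 hQq2 hmem e1 e2 f1 f2 nqq hPS
  · subst h
    refine main P q₁ hq12.symm hq2O hq1O hQq2 hQq1 ?_ e2 e1 f2 f1 (fun h => nqq h.symm) hPS
    intro x
    rw [hmem x]
    tauto
  · exact absurd (h ▸ hE) nOQ

/-- There is no such configuration. -/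
lemma no_G (hQ : ∀ T, 4 ≤ (X.V T).card) (hn : 22 ≤ X.n) {T S : Tile} {O P : Vert}
    (hO : O ∈ X.V T) (hd : X.deg O + 1 = X.n) (hP : P ∈ X.V T) (hE : X.Edge O P)
    (hPS : P ∈ X.V S) (hOS : O ∉ X.V S) : ¬ X.Star S := by
  intro hS
  have hall : ∀ T, T ∈ {T | X.Star T ∧ ∀ p ∈ X.V T, ∀ U, p ∈ X.V U → X.Star U} := by
    apply X.conn
    · exact ⟨T, ⟨O, hO, hd⟩, X.star_prop hQ hn hO hd hP hE hPS hOS hS⟩
    · rintro T ⟨_, hT⟩ T' hne hc
      -- V T ∩ V T' is a pair
      obtain ⟨p, hp⟩ : (X.V T ∩ X.V T').Nonempty := by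
        rw [← Finset.card_pos]; omega
      have hp' := Finset.mem_inter.mp hp
      obtain ⟨x, hxp, hV, hxT, hxT', hEx⟩ := X.adj_edge hc hp'.1 hp'.2 hne
      have starT' : X.Star T' := hT p hp'.1 T' hp'.2
      obtain ⟨O', hO', hd'⟩ := starT'
      obtain ⟨h4, hdeg⟩ := X.star_struct hQ hO' hd'
      obtain ⟨q₁, q₂, Q, hq12, hQO, hQq1, hQq2, hq1O, hq2O, hmem, e1, e2, f1, f2, nOQ, nqq⟩ :=
        X.quad h4 hO'
      -- one of p, x is a neighbour of O'
      have hW : ∃ W, W ∈ X.V T ∧ W ∈ X.V T' ∧ X.Edge O' W := by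
        rcases (hmem p).mp hp'.2 with h | h | h | h
        · exact ⟨x, hxT, hxT', h ▸ hEx⟩
        · exact ⟨p, hp'.1, hp'.2, h ▸ e1⟩
        · exact ⟨p, hp'.1, hp'.2, h ▸ e2⟩
        · rcases (hmem x).mp hxT' with h' | h' | h' | h'
          · exfalso
            rw [h, h'] at hEx
            exact nOQ hEx.symm
          · exact ⟨x, hxT, hxT', h' ▸ e1⟩
          · exact ⟨x, hxT, hxT', h' ▸ e2⟩
          · exact absurd (h'.trans h.symm) hxp
      obtain ⟨W, hWT, hWT', hEW⟩ := hW
      have dW : X.deg W = 3 := hdeg W hWT' hEW.1.symm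
      obtain ⟨T'', hT''T', hOT'', hWT'', hτ, _⟩ := Edge.other X hEW hO' hWT'
      obtain ⟨S', hWS', hS'1, hS'2⟩ := X.exists_third dW hWT' hWT''
      have hO'S' : O' ∉ X.V S' := by
        intro h
        have : S' ∈ X.τ O' ∩ X.τ W :=
          Finset.mem_inter.mpr ⟨X.mem_V_iff.mp h, X.mem_V_iff.mp hWS'⟩
        rw [hτ] at this
        simp only [Finset.mem_insert, Finset.mem_singleton] at this
        tauto
      have starS' : X.Star S' := hT W hWT S' hWS'
      exact ⟨⟨O', hO', hd'⟩, X.star_prop hQ hn hO' hd' hWT' hEW hWS' hO'S' starS'⟩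
  -- all tiles are stars
  refine X.ap_neg (1 / ((X.n : ℝ) - 1)) ?_ ?_
  · have : (22 : ℝ) ≤ (X.n : ℝ) := by exact_mod_cast hn
    apply one_div_pos.mpr
    linarith
  · intro T
    obtain ⟨⟨O, hO, hd⟩, _⟩ := hall T
    obtain ⟨h4, hdeg⟩ := X.star_struct hQ hO hd
    have hdr : (X.deg O : ℝ) = (X.n : ℝ) - 1 := by
      have : ((X.deg O + 1 : ℕ) : ℝ) = (X.n : ℝ) := by rw [hd]
      push_cast at this
      linarith
    rw [← Finset.add_sum_erase _ _ hO, h4, hdr]
    have : ∑ p ∈ (X.V T).erase O, 1 / (X.deg p : ℝ) = ∑ p ∈ (X.V T).erase O, (1 / 3 : ℝ) := by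
      apply Finset.sum_congr rfl
      intro p hp
      rw [Finset.mem_erase] at hp
      rw [hdeg p hp.2 hp.1]
      norm_num
    rw [this, Finset.sum_const, Finset.card_erase_of_mem hO, h4]
    norm_num
    linarith

open Classical in
/-- A vertex of degree three lying in exactly two stars. -/
def Good (p : Vert) : Prop := X.deg p = 3 ∧ ((X.τ p).filter (fun T => X.Star T)).card = 2

/-- At a vertex of degree three of a star which is adjacent to the centre. -/
lemma star_nbr (hQ : ∀ T, 4 ≤ (X.V T).card) (hn : 22 ≤ X.n) {T : Tile} {O P : Vert}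
    (hO : O ∈ X.V T) (hd : X.deg O + 1 = X.n) (hP : P ∈ X.V T) (hE : X.Edge O P) :
    ∃ T' S, T' ≠ T ∧ S ≠ T ∧ S ≠ T' ∧ P ∈ X.V T' ∧ P ∈ X.V S ∧ O ∈ X.V T' ∧ X.Star T' ∧
      ¬ X.Star S ∧ O ∉ X.V S ∧ (∀ U, P ∈ X.V U → U = T ∨ U = T' ∨ U = S) := by
  obtain ⟨h4, hdeg⟩ := X.star_struct hQ hO hd
  have dP : X.deg P = 3 := hdeg P hP hE.1.symm
  obtain ⟨T', hT'T, hOT', hPT', hτ, hV⟩ := Edge.other X hE hO hP
  obtain ⟨S, hPS, hS1, hS2⟩ := X.exists_third dP hP hPT'
  have hOS : O ∉ X.V S := by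
    intro h
    have : S ∈ X.τ O ∩ X.τ P := Finset.mem_inter.mpr ⟨X.mem_V_iff.mp h, X.mem_V_iff.mp hPS⟩
    rw [hτ] at this
    simp only [Finset.mem_insert, Finset.mem_singleton] at this
    tauto
  exact ⟨T', S, hT'T, hS1, hS2, hPT', hPS, hOT', ⟨O, hOT', hd⟩,
    X.no_G hQ hn hO hd hP hE hPS hOS, hOS,
    fun U hU => X.τ_eq_of_three dP hP hPT' hPS hT'T.symm hS1.symm hS2.symm hU⟩

lemma good_of_nbr (hQ : ∀ T, 4 ≤ (X.V T).card) (hn : 22 ≤ X.n) {T : Tile} {O P : Vert}
    (hO : O ∈ X.V T) (hd : X.deg O + 1 = X.n) (hP : P ∈ X.V T) (hE : X.Edge O P) :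
    X.Good P := by
  classical
  obtain ⟨h4, hdeg⟩ := X.star_struct hQ hO hd
  have dP : X.deg P = 3 := hdeg P hP hE.1.symm
  obtain ⟨T', S, h1, h2, h3, h5, h6, h7, h8, h9, h10, h11⟩ := X.star_nbr hQ hn hO hd hP hE
  refine ⟨dP, ?_⟩
  have : (X.τ P).filter (fun T => X.Star T) = {T, T'} := by
    ext U
    simp only [Finset.mem_filter, Finset.mem_insert, Finset.mem_singleton]
    constructor
    · rintro ⟨hU, hs⟩
      rcases h11 U (X.mem_V_iff.mpr hU) with h | h | h
      · exact Or.inl h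
      · exact Or.inr h
      · exact absurd (h ▸ hs) h9
    · rintro (rfl | rfl)
      · exact ⟨X.mem_V_iff.mp hP, ⟨O, hO, hd⟩⟩
      · exact ⟨X.mem_V_iff.mp h5, h8⟩
  convert Finset.card_pair h1.symm using 2

/-- The vertex opposite to the centre of a star is not good. -/
lemma opp_not_good (hQ : ∀ T, 4 ≤ (X.V T).card) (hn : 22 ≤ X.n) {T : Tile} {O Q : Vert}
    (hO : O ∈ X.V T) (hd : X.deg O + 1 = X.n) (hQT : Q ∈ X.V T) (hOQ : Q ≠ O)
    (hE : ¬ X.Edge O Q) : ¬ X.Good Q := by
  classical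
  rintro ⟨dQ, hc⟩
  obtain ⟨h4, hdeg⟩ := X.star_struct hQ hO hd
  obtain ⟨q₁, q₂, r, hq12, hrO, hrq1, hrq2, hq1O, hq2O, hmem, e1, e2, f1, f2, nOr, nqq⟩ :=
    X.quad h4 hO
  have hQr : Q = r := by
    rcases (hmem Q).mp hQT with h | h | h | h
    · exact absurd h hOQ
    · exact absurd (h ▸ e1) hE
    · exact absurd (h ▸ e2) hE
    · exact h
  subst hQr
  have hq1T : q₁ ∈ X.V T := (hmem q₁).mpr (by tauto)
  have hq2T : q₂ ∈ X.V T := (hmem q₂).mpr (by tauto)
  -- another star at Q
  obtain ⟨S, hS, hS'⟩ : ∃ S ∈ X.τ Q, S ≠ T ∧ X.Star S := by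
    have hc' : ((X.τ Q).filter (fun T => X.Star T)).card = 2 := by convert hc
    obtain ⟨U, hU, hU'⟩ := Finset.exists_mem_ne (by omega : 1 < ((X.τ Q).filter
      (fun T => X.Star T)).card) T
    rw [Finset.mem_filter] at hU
    exact ⟨U, hU.1, hU', hU.2⟩
  have hQS : Q ∈ X.V S := X.mem_V_iff.mpr hS
  obtain ⟨x, hxQ, hV, hxT, hxS, hEx⟩ :=
    X.adj_edge (X.deg3_adj dQ hQT hQS hS'.1) hQT hQS hS'.1
  have hOS : O ∉ X.V S := by
    intro h
    have : O ∈ X.V T ∩ X.V S := Finset.mem_inter.mpr ⟨hO, h⟩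
    rw [hV] at this
    simp only [Finset.mem_insert, Finset.mem_singleton] at this
    rcases this with h | h
    · exact hOQ h.symm
    · exact hE (h ▸ hEx.symm)
  have hOx : X.Edge O x := by
    rcases (hmem x).mp hxT with h | h | h | h
    · exact absurd (h ▸ hxS) hOS
    · exact h ▸ e1
    · exact h ▸ e2
    · exact absurd h hxQ
  exact X.no_G hQ hn hO hd hxT hOx hxS hOS hS'.2

/-- A nonstar containing a good vertex. -/
lemma nonstar_good (hQ : ∀ T, 4 ≤ (X.V T).card) (hn : 22 ≤ X.n) {S : Tile} {P : Vert}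
    (hP : P ∈ X.V S) (hg : X.Good P) (hS : ¬ X.Star S) :
    5 ≤ (X.V S).card ∧ ∀ q ∈ X.V S, X.Edge P q → ¬ X.Good q := by
  classical
  obtain ⟨dP, hc⟩ := hg
  have hc' : ((X.τ P).filter (fun T => X.Star T)).card = 2 := by convert hc
  obtain ⟨T, T', hTT', heq⟩ := Finset.card_eq_two.mp hc'
  have hT : T ∈ (X.τ P).filter (fun T => X.Star T) := by rw [heq]; simp
  have hT' : T' ∈ (X.τ P).filter (fun T => X.Star T) := by rw [heq]; simp
  rw [Finset.mem_filter, ← X.mem_V_iff] at hT hT'
  -- general facts about a star at P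
  have fact : ∀ T T', T ≠ T' → P ∈ X.V T → X.Star T → P ∈ X.V T' → X.Star T' →
      ∃ Q, Q ∈ X.V T ∧ Q ∈ X.V S ∧ Q ≠ P ∧ X.V T ∩ X.V S = {P, Q} ∧ X.deg Q = 3 ∧
        ¬ X.Good Q ∧ Q ∉ X.V T' := by
    intro T T' hTT' hPT sT hPT' sT'
    obtain ⟨O, hO, hd⟩ := sT
    have hOP : P ≠ O := fun h => by rw [← h] at hd; omega
    have hE : X.Edge O P := by
      by_contra hE
      exact X.opp_not_good hQ hn hO hd hPT hOP hE ⟨dP, hc⟩
    obtain ⟨T1, S1, h1, h2, h3, h5, h6, h7, h8, h9, h10, h11⟩ := X.star_nbr hQ hn hO hd hPT hE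
    have hT1 : T' = T1 := by
      rcases h11 T' hPT' with h | h | h
      · exact absurd h.symm hTT'
      · exact h
      · exact absurd (h ▸ sT') h9
    have hS1 : S = S1 := by
      rcases h11 S hP with h | h | h
      · exact absurd (h ▸ (⟨O, hO, hd⟩ : X.Star T)) hS
      · exact absurd (h ▸ h8) hS
      · exact h
    subst hT1 hS1
    obtain ⟨Q, hQP, hV, hQT, hQS, hEQ⟩ := X.adj_edge (X.deg3_adj dP hPT hP h2) hPT hP h2
    obtain ⟨h4, hdeg⟩ := X.star_struct hQ hO hd
    have hQO : Q ≠ O := fun h => h10 (h ▸ hQS)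
    obtain ⟨q₁, q₂, r, hq12, hrO, hrq1, hrq2, hq1O, hq2O, hmem, e1, e2, f1, f2, nOr, nqq⟩ :=
      X.quad h4 hO
    have hnE : ¬ X.Edge O Q := by
      intro hOQ
      -- then P and Q are the two neighbours of O, not adjacent
      have hPq : P = q₁ ∨ P = q₂ := by
        rcases (hmem P).mp hPT with h | h | h | h
        · exact absurd h hOP
        · exact Or.inl h
        · exact Or.inr h
        · exact absurd (h ▸ hE) nOr
      have hQq : Q = q₁ ∨ Q = q₂ := by
        rcases (hmem Q).mp hQT with h | h | h | h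
        · exact absurd h hQO
        · exact Or.inl h
        · exact Or.inr h
        · exact absurd (h ▸ hOQ) nOr
      rcases hPq with h | h <;> rcases hQq with h' | h'
      · exact hQP (h'.trans h.symm)
      · rw [h, h'] at hEQ; exact nqq hEQ
      · rw [h, h'] at hEQ; exact nqq hEQ.symm
      · exact hQP (h'.trans h.symm)
    refine ⟨Q, hQT, hQS, hQP, hV, hdeg Q hQT hQO, X.opp_not_good hQ hn hO hd hQT hQO hnE, ?_⟩
    intro hQT'
    have hV' := X.inter_V_eq hTT' (Ne.symm hOP) hO h7 hPT hPT'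
    have : Q ∈ X.V T ∩ X.V T' := Finset.mem_inter.mpr ⟨hQT, hQT'⟩
    rw [hV'] at this
    simp only [Finset.mem_insert, Finset.mem_singleton] at this
    rcases this with h | h
    · exact hQO h
    · exact hQP h
  obtain ⟨Q, a1, a2, a3, a4, a5, a6, a7⟩ := fact T T' hTT' hT.1 hT.2 hT'.1 hT'.2
  obtain ⟨Q', b1, b2, b3, b4, b5, b6, b7⟩ := fact T' T hTT'.symm hT'.1 hT'.2 hT.1 hT.2
  have hQQ' : Q ≠ Q' := fun h => a7 (h ▸ b1)
  constructor
  · by_contra hlt
    have h4 : (X.V S).card = 4 := by have := hQ S; omega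
    apply hS
    -- the fourth vertex
    have hc3 : ({P, Q, Q'} : Finset Vert).card = 3 := by
      rw [Finset.card_eq_three]
      exact ⟨P, Q, Q', a3.symm, b3.symm, hQQ', rfl⟩
    obtain ⟨W, hW, hW'⟩ := Finset.exists_mem_notMem_of_card_lt_card
      (s := ({P, Q, Q'} : Finset Vert)) (t := X.V S) (by omega)
    have hc4 : (insert W {P, Q, Q'} : Finset Vert).card = 4 := by
      rw [Finset.card_insert_of_notMem hW', hc3]
    have heqS : (insert W {P, Q, Q'} : Finset Vert) = X.V S := by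
      apply Finset.eq_of_subset_of_card_le
      · intro x hx
        simp only [Finset.mem_insert, Finset.mem_singleton] at hx
        rcases hx with rfl | rfl | rfl | rfl <;> assumption
      · omega
    have hn' := X.nformula S
    rw [← heqS, Finset.sum_insert hW', Finset.sum_insert (by
      simp only [Finset.mem_insert, Finset.mem_singleton, not_or]
      exact ⟨a3.symm, b3.symm⟩), Finset.sum_pair hQQ', dP, a5, b5] at hn'
    have := X.deg_ge' W
    exact ⟨W, hW, by omega⟩
  · intro q hq hEq hgq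
    -- neighbours of P in S are Q and Q'
    obtain ⟨u, v, huv, hu, hv, eu, ev, hall⟩ := X.card_nb hP
    have eQ : X.Edge P Q := by
      have hST : S ≠ T := fun h => hS (h ▸ hT.2)
      exact X.edge_of hST.symm a3.symm hT.1 hP a1 a2
    have eQ' : X.Edge P Q' := by
      have hST : S ≠ T' := fun h => hS (h ▸ hT'.2)
      exact X.edge_of hST.symm b3.symm hT'.1 hP b1 b2
    have c1 := hall Q a2 eQ
    have c2 := hall Q' b2 eQ'
    have c3 := hall q hq hEq
    have hqQ : q = Q ∨ q = Q' := by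
      rcases c1 with h | h <;> rcases c2 with h' | h' <;> rcases c3 with h'' | h''
      · exact Or.inl (h''.trans h.symm)
      · exact absurd (h.trans h'.symm) hQQ'
      · exact Or.inl (h''.trans h.symm)
      · exact Or.inr (h''.trans h'.symm)
      · exact Or.inr (h''.trans h'.symm)
      · exact Or.inl (h''.trans h.symm)
      · exact absurd (h.trans h'.symm) hQQ'
      · exact Or.inl (h''.trans h.symm)
    rcases hqQ with h | h
    · exact a6 (h ▸ hgq)
    · exact b6 (h ▸ hgq)

open Classical in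
/-- In a nonstar at most half of the vertices are good. -/
lemma two_sigma_le (hQ : ∀ T, 4 ≤ (X.V T).card) (hn : 22 ≤ X.n) {S : Tile}
    (hS : ¬ X.Star S) : 2 * ((X.V S).filter (fun p => X.Good p)).card ≤ (X.V S).card := by
  have h := Finset.card_mul_le_card_mul (s := (X.V S).filter (fun p => X.Good p))
    (t := (X.V S).filter (fun p => ¬ X.Good p)) (m := 2) (n := 2) (fun p q => X.Edge p q) ?_ ?_
  · have h2 := Finset.card_filter_add_card_filter_not (s := X.V S) (fun p => X.Good p)
    omega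
  · intro p hp
    rw [Finset.mem_filter] at hp
    obtain ⟨q₁, q₂, h1, h2, h3, h4, h5, h6⟩ := X.card_nb hp.1
    have hh := (X.nonstar_good hQ hn hp.1 hp.2 hS).2
    have hsub : ({q₁, q₂} : Finset Vert) ⊆ Finset.bipartiteAbove (fun p q => X.Edge p q)
        ((X.V S).filter (fun p => ¬ X.Good p)) p := by
      intro x hx
      simp only [Finset.mem_insert, Finset.mem_singleton] at hx
      rw [Finset.mem_bipartiteAbove, Finset.mem_filter]
      rcases hx with rfl | rfl
      · exact ⟨⟨h2, hh x h2 h4⟩, h4⟩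
      · exact ⟨⟨h3, hh x h3 h5⟩, h5⟩
    have := Finset.card_le_card hsub
    rwa [Finset.card_pair h1] at this
  · intro q hq
    rw [Finset.mem_filter] at hq
    obtain ⟨q₁, q₂, h1, h2, h3, h4, h5, h6⟩ := X.card_nb hq.1
    have hsub : Finset.bipartiteBelow (fun p q => X.Edge p q)
        ((X.V S).filter (fun p => X.Good p)) q ⊆ {q₁, q₂} := by
      intro x hx
      rw [Finset.mem_bipartiteBelow, Finset.mem_filter] at hx
      simp only [Finset.mem_insert, Finset.mem_singleton]
      exact h6 x hx.1.1 hx.2.symm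
    exact le_trans (Finset.card_le_card hsub) Finset.card_le_two

lemma inv_bound (a b : ℝ) (hb : 0 < b) (hab : b ≤ a) : 1 / a ≤ 1 / b :=
  one_div_le_one_div_of_le hb hab

/-- **Case Q.** -/
theorem Q (hQ : ∀ T, 4 ≤ (X.V T).card) : X.n ≤ 21 := by
  classical
  by_contra hlt
  have hn : 22 ≤ X.n := by omega
  have hnr : (22 : ℝ) ≤ (X.n : ℝ) := by exact_mod_cast hn
  refine X.ap_phi (fun p T => if X.Good p then (if X.Star T then 1 / 40 else - (1 / 20)) else 0)
    1 ?_ ?_ (1 / 420) (by norm_num) ?_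
  · intro p T _
    rw [abs_le]
    split_ifs <;> norm_num
  · intro p
    by_cases hp : X.Good p
    · simp only [hp, if_true]
      rw [Finset.sum_ite, Finset.sum_const, Finset.sum_const]
      have h1 : ((X.τ p).filter (fun T => X.Star T)).card = 2 := by
        have := hp.2
        convert this
      have h2 := Finset.card_filter_add_card_filter_not (s := X.τ p) (fun T => X.Star T)
      have h3 : (X.τ p).card = 3 := hp.1
      have h4 : ((X.τ p).filter (fun T => ¬ X.Star T)).card = 1 := by omega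
      rw [h1, h4]
      norm_num
    · simp [hp]
  · intro T
    rw [Finset.sum_add_distrib]
    by_cases hT : X.Star T
    · obtain ⟨O, hO, hd⟩ := hT
      obtain ⟨h4, hdeg⟩ := X.star_struct hQ hO hd
      obtain ⟨q₁, q₂, r, hq12, hrO, hrq1, hrq2, hq1O, hq2O, hmem, e1, e2, f1, f2, nOr, nqq⟩ :=
        X.quad h4 hO
      have hq1T : q₁ ∈ X.V T := (hmem q₁).mpr (by tauto)
      have hq2T : q₂ ∈ X.V T := (hmem q₂).mpr (by tauto)
      have hrT : r ∈ X.V T := (hmem r).mpr (by tauto)
      have g1 : X.Good q₁ := X.good_of_nbr hQ hn hO hd hq1T e1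
      have g2 : X.Good q₂ := X.good_of_nbr hQ hn hO hd hq2T e2
      have g3 : ¬ X.Good r := X.opp_not_good hQ hn hO hd hrT hrO nOr
      have g4 : ¬ X.Good O := fun h => by have := h.1; omega
      have hV : X.V T = {O, q₁, q₂, r} := by
        ext x
        rw [hmem x]
        simp only [Finset.mem_insert, Finset.mem_singleton]
      have n1 : O ∉ ({q₁, q₂, r} : Finset Vert) := by
        simp only [Finset.mem_insert, Finset.mem_singleton, not_or]
        exact ⟨hq1O.symm, hq2O.symm, hrO.symm⟩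
      have n2 : q₁ ∉ ({q₂, r} : Finset Vert) := by
        simp only [Finset.mem_insert, Finset.mem_singleton, not_or]
        exact ⟨hq12, hrq1.symm⟩
      have sT : X.Star T := ⟨O, hO, hd⟩
      rw [hV, Finset.sum_insert n1, Finset.sum_insert n2, Finset.sum_pair hrq2.symm,
        Finset.sum_insert n1, Finset.sum_insert n2, Finset.sum_pair hrq2.symm,
        if_neg g4, if_pos g1, if_pos g2, if_neg g3, if_pos sT, hdeg q₁ hq1T hq1O,
        hdeg q₂ hq2T hq2O, hdeg r hrT hrO]
      have hdr : (X.deg O : ℝ) = (X.n : ℝ) - 1 := by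
        have : ((X.deg O + 1 : ℕ) : ℝ) = (X.n : ℝ) := by rw [hd]
        push_cast at this
        linarith
      rw [hdr]
      have := inv_bound ((X.n : ℝ) - 1) 21 (by norm_num) (by linarith)
      push_cast
      linarith
    · -- nonstar
      have hG : ∑ p ∈ X.V T, (if X.Good p then (if X.Star T then (1 / 40 : ℝ) else - (1 / 20))
          else 0) = - (((X.V T).filter (fun p => X.Good p)).card : ℝ) / 20 := by
        rw [Finset.sum_ite, Finset.sum_const_zero, Finset.sum_const, if_neg hT, nsmul_eq_mul]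
        ring
      rw [hG]
      have hσ := X.two_sigma_le hQ hn hT
      set σ := ((X.V T).filter (fun p => X.Good p)).card with hσdef
      have h4 := hQ T
      have hle := X.card_V_le T
      have hphi := X.phi_ge T 3 (by norm_num) (fun p _ => X.deg_ge' p)
      push_cast at hphi
      set m := (X.V T).card with hm
      rcases Nat.lt_or_ge m 5 with h5 | h5
      · -- m = 4
        have hm4 : m = 4 := by omega
        have hσ0 : σ = 0 := by
          by_contra hne
          have : 0 < σ := Nat.pos_of_ne_zero hne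
          obtain ⟨p, hp⟩ := Finset.card_pos.mp this
          rw [Finset.mem_filter] at hp
          have := (X.nonstar_good hQ hn hp.1 hp.2 hT).1
          omega
        rw [hσ0]
        -- a vertex of degree at least four
        obtain ⟨p, hp, hp4⟩ : ∃ p ∈ X.V T, 4 ≤ X.deg p := by
          by_contra hcon
          push Not at hcon
          have h := X.nformula T
          have : ∑ p ∈ X.V T, (X.deg p - 2) ≤ ∑ _p ∈ X.V T, 1 := by
            apply Finset.sum_le_sum
            intro p hp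
            have := hcon p hp
            omega
          rw [h, Finset.sum_const, smul_eq_mul, mul_one] at this
          omega
        have hpn : X.deg p + 2 ≤ X.n := by
          have h := X.deg_le_of T p hp 3 (fun q _ _ => X.deg_ge' q)
          have h' : X.deg p + 1 ≠ X.n := fun h => hT ⟨p, hp, h⟩
          omega
        have hcard : ((X.V T).erase p).card = 3 := by
          rw [Finset.card_erase_of_mem hp]; omega
        have hmf := merge_finset ((X.V T).erase p) (by rw [← Finset.card_pos]; omega) 3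
          (by norm_num) (fun q => (X.deg q : ℝ)) (fun q _ => by exact_mod_cast X.deg_ge' q)
        have hsum : ∑ q ∈ (X.V T).erase p, ((X.deg q : ℝ) - 3) = X.n - 1 - X.deg p := by
          have h := X.nformula_real T
          rw [← Finset.add_sum_erase _ _ hp] at h
          rw [Finset.sum_sub_distrib, Finset.sum_const, hcard, nsmul_eq_mul] at h ⊢
          push_cast at h ⊢
          linarith
        rw [hsum, hcard] at hmf
        rw [← Finset.add_sum_erase _ _ hp]
        have hd4 : (4 : ℝ) ≤ (X.deg p : ℝ) := by exact_mod_cast hp4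
        have hdn : (X.deg p : ℝ) + 2 ≤ (X.n : ℝ) := by exact_mod_cast hpn
        have hkey : 1 / (X.deg p : ℝ) + 1 / (3 + ((X.n : ℝ) - 1 - X.deg p)) ≤
            1 / 4 + 1 / ((X.n : ℝ) - 2) := by
          rw [div_add_div _ _ (by linarith) (by linarith), div_add_div _ _ (by norm_num)
            (by linarith), div_le_div_iff₀ (by nlinarith) (by linarith)]
          nlinarith [mul_nonneg (by linarith : (0 : ℝ) ≤ (X.deg p : ℝ) - 4)
            (by linarith : (0 : ℝ) ≤ (X.n : ℝ) - 2 - X.deg p)]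
        have h20 := inv_bound ((X.n : ℝ) - 2) 20 (by norm_num) (by linarith)
        push_cast at hmf ⊢
        linarith
      · rcases Nat.lt_or_ge m 6 with h6 | h6
        · have hm5 : m = 5 := by omega
          have hσ2 : σ ≤ 2 := by omega
          have hσr : (σ : ℝ) ≤ 2 := by exact_mod_cast hσ2
          rw [hm5] at hphi
          push_cast at hphi
          have h20 := inv_bound ((X.n : ℝ) + 2 * 5 - 3 * (5 - 1)) 20 (by norm_num) (by linarith)
          linarith
        · rcases Nat.lt_or_ge m 7 with h7 | h7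
          · have hm6 : m = 6 := by omega
            have hσ2 : σ ≤ 3 := by omega
            have hσr : (σ : ℝ) ≤ 3 := by exact_mod_cast hσ2
            rw [hm6] at hphi
            push_cast at hphi
            have h20 := inv_bound ((X.n : ℝ) + 2 * 6 - 3 * (6 - 1)) 19 (by norm_num)
              (by linarith)
            linarith
          · rcases Nat.lt_or_ge m 8 with h8 | h8
            · have hm7 : m = 7 := by omega
              have hσ2 : σ ≤ 3 := by omega
              have hσr : (σ : ℝ) ≤ 3 := by exact_mod_cast hσ2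
              rw [hm7] at hphi
              push_cast at hphi
              have h20 := inv_bound ((X.n : ℝ) + 2 * 7 - 3 * (7 - 1)) 18 (by norm_num)
                (by linarith)
              linarith
            · have hm8 : (8 : ℝ) ≤ (m : ℝ) := by exact_mod_cast h8
              have hσr : 2 * (σ : ℝ) ≤ (m : ℝ) := by exact_mod_cast hσ
              have hmn : (m : ℝ) ≤ (X.n : ℝ) := by exact_mod_cast hle
              have h20 := inv_bound ((X.n : ℝ) + 2 * m - 3 * (m - 1)) 3 (by norm_num)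
                (by linarith)
              linarith

end Tess

end Pool.Agent.Hhelper50
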