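import Pool.Agent.Hhelper50.TessBase

/-!
# Tilings by a right triangle: at most 21 neighbours

The case `α = 1/4` of the triangle case. A corner label potential gives `n ≤ Λ`, with a discharging
argument for the triangle with angles 90, 72, 18 degrees.
-/

set_option autoImplicit false

namespace Pool.Agent.Hhelper50

open Finset

variable {Tile Vert : Type*} [DecidableEq Tile] [DecidableEq Vert]

namespace Tess

variable {X : Tess Tile Vert}

lemma deg_sub_two_le {p : Vert} {T : Tile} (hp : p ∈ X.V T) : X.deg p - 2 ≤ X.n := by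
  rw [← X.nformula T]
  exact Finset.single_le_sum (f := fun q => X.deg q - 2) (fun _ _ => Nat.zero_le _) hp

namespace Tri

variable (R : X.Tri)

/-- The value attached to the flag `(p,T)` by its label. -/
noncomputable def lab (xA xB xC xS : ℝ) (p : Vert) (T : Tile) : ℝ :=
  if p = R.A T then xA else if p = R.B T then xB else if p = R.C T then xC else xS

/-- Number of right angle corners at `p`. -/
def nA (p : Vert) : ℕ := ((X.τ p).filter (fun T => p = R.A T)).card
/-- Number of `β` corners at `p`. -/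
def nB (p : Vert) : ℕ := ((X.τ p).filter (fun T => p = R.B T)).card
/-- Number of `γ` corners at `p`. -/
def nC (p : Vert) : ℕ := ((X.τ p).filter (fun T => p = R.C T)).card
/-- Number of straight tiles at `p`. -/
def nS (p : Vert) : ℕ :=
  ((X.τ p).filter (fun T => p ≠ R.A T ∧ p ≠ R.B T ∧ p ≠ R.C T)).card

lemma lab_eq (xA xB xC xS : ℝ) (p : Vert) (T : Tile) :
    R.lab xA xB xC xS p T = (if p = R.A T then xA else 0) + (if p = R.B T then xB else 0)
      + (if p = R.C T then xC else 0)
      + (if p ≠ R.A T ∧ p ≠ R.B T ∧ p ≠ R.C T then xS else 0) := by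
  unfold lab
  by_cases h1 : p = R.A T
  · have h2 : p ≠ R.B T := fun h => R.hAB T (h1.symm.trans h)
    have h3 : p ≠ R.C T := fun h => R.hAC T (h1.symm.trans h)
    simp [h1, R.hAB T, R.hAC T]
  · by_cases h2 : p = R.B T
    · have h3 : p ≠ R.C T := fun h => R.hBC T (h2.symm.trans h)
      simp [h2, (R.hAB T).symm, R.hBC T]
    · by_cases h3 : p = R.C T
      · simp [h3, (R.hAC T).symm, (R.hBC T).symm]
      · simp [h1, h2, h3]

lemma sum_lab_vert (xA xB xC xS : ℝ) (p : Vert) :
    ∑ T ∈ X.τ p, R.lab xA xB xC xS p T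
      = R.nA p * xA + R.nB p * xB + R.nC p * xC + R.nS p * xS := by
  rw [Finset.sum_congr rfl (fun T _ => R.lab_eq xA xB xC xS p T), Finset.sum_add_distrib,
    Finset.sum_add_distrib, Finset.sum_add_distrib]
  simp only [← Finset.sum_filter, Finset.sum_const, nsmul_eq_mul]
  rfl

lemma sum_lab_tile (xA xB xC : ℝ) (T : Tile) :
    ∑ p ∈ X.V T, R.lab xA xB xC 0 p T = xA + xB + xC := by
  rw [Finset.sum_congr rfl (fun p _ => R.lab_eq xA xB xC 0 p T), Finset.sum_add_distrib,
    Finset.sum_add_distrib, Finset.sum_add_distrib]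
  simp [R.hA T, R.hB T, R.hC T]

lemma deg_eq (p : Vert) : X.deg p = R.nA p + R.nB p + R.nC p + R.nS p := by
  have h := R.sum_lab_vert 1 1 1 1 p
  have h1 : ∑ T ∈ X.τ p, R.lab 1 1 1 1 p T = (X.deg p : ℝ) := by
    have : ∀ T ∈ X.τ p, R.lab 1 1 1 1 p T = 1 := by
      intro T _
      unfold lab
      split_ifs <;> rfl
    rw [Finset.sum_congr rfl this]
    simp [Tess.deg]
  rw [h1] at h
  have : (X.deg p : ℝ) = ((R.nA p + R.nB p + R.nC p + R.nS p : ℕ) : ℝ) := by
    rw [h]; push_cast; ring
  exact_mod_cast this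

lemma ang_eq_lab {p : Vert} {T : Tile} (hp : p ∈ X.V T) :
    X.ang p T = R.lab R.α R.β R.γ (1 / 2) p T := by
  unfold lab
  split_ifs with h1 h2 h3
  · rw [h1]; exact R.angA T
  · rw [h2]; exact R.angB T
  · rw [h3]; exact R.angC T
  · exact R.straight T p hp h1 h2 h3

lemma angle_sum (p : Vert) :
    (R.nA p : ℝ) * R.α + R.nB p * R.β + R.nC p * R.γ + R.nS p * (1 / 2) = 1 := by
  rw [← R.sum_lab_vert, Finset.sum_congr rfl
    (fun T hT => (R.ang_eq_lab (X.mem_V_iff.mpr hT)).symm)]
  exact X.ang_sum p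

lemma sum_angles : R.α + R.β + R.γ = 1 / 2 := by
  have h := X.ext_sum X.T₀
  have h1 : ∑ p ∈ X.V X.T₀, (1 / 2 - X.ang p X.T₀)
      = ∑ p ∈ X.V X.T₀, R.lab (1 / 2 - R.α) (1 / 2 - R.β) (1 / 2 - R.γ) 0 p X.T₀ := by
    apply Finset.sum_congr rfl
    intro p hp
    rw [R.ang_eq_lab hp]
    unfold lab
    split_ifs <;> ring
  rw [h1, R.sum_lab_tile] at h
  linarith

lemma nS_le (p : Vert) : R.nS p ≤ 1 := by
  by_contra hcon
  have h2 : 2 ≤ R.nS p := by omega
  have h2' : (2 : ℝ) ≤ R.nS p := by exact_mod_cast h2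
  have h := R.angle_sum p
  have hγ := R.γ_pos
  have hβ : 0 < R.β := lt_of_lt_of_le hγ R.hγβ
  have hα : 0 < R.α := lt_of_lt_of_le hβ R.hβα
  have hd : 3 ≤ X.deg p := X.deg_ge' p
  rw [R.deg_eq p] at hd
  have hd' : (3 : ℝ) ≤ R.nA p + R.nB p + R.nC p + R.nS p := by exact_mod_cast hd
  have a0 : (0 : ℝ) ≤ R.nA p := Nat.cast_nonneg _
  have b0 : (0 : ℝ) ≤ R.nB p := Nat.cast_nonneg _
  have c0 : (0 : ℝ) ≤ R.nC p := Nat.cast_nonneg _
  have e1 : (R.nA p + R.nB p + R.nC p : ℝ) * R.γ ≤
      R.nA p * R.α + R.nB p * R.β + R.nC p * R.γ := by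
    have i1 : (R.nA p : ℝ) * R.γ ≤ R.nA p * R.α :=
      mul_le_mul_of_nonneg_left (R.hγβ.trans R.hβα) a0
    have i2 : (R.nB p : ℝ) * R.γ ≤ R.nB p * R.β := mul_le_mul_of_nonneg_left R.hγβ b0
    nlinarith
  rcases Nat.lt_or_ge (R.nS p) 3 with h3 | h3
  · have : R.nS p = 2 := by omega
    have hs : (R.nS p : ℝ) = 2 := by exact_mod_cast this
    have : (1 : ℝ) ≤ R.nA p + R.nB p + R.nC p := by linarith
    have : 0 < (R.nA p + R.nB p + R.nC p : ℝ) * R.γ := by positivity
    rw [hs] at h
    linarith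
  · have hs : (3 : ℝ) ≤ R.nS p := by exact_mod_cast h3
    have : 0 ≤ (R.nA p + R.nB p + R.nC p : ℝ) * R.γ := by positivity
    linarith

/-- The averaging principle with label potentials `lA, lB, lC` and transfers `t`. -/
theorem pot_ap (lA lB lC : ℝ) (t : Vert → Tile → ℝ) (M : ℝ)
    (hM : ∀ p, ∀ T ∈ X.τ p, |t p T| ≤ M)
    (hv : ∀ p, (X.deg p : ℝ) * ((X.deg p : ℝ) - 2) + ∑ T ∈ X.τ p, t p T
      ≤ R.nA p * lA + R.nB p * lB + R.nC p * lC)
    (ε : ℝ) (hε : 0 < ε) (ht : ∀ T, lA + lB + lC + ε ≤ X.n + ∑ p ∈ X.V T, t p T) : False := by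
  apply X.ap (fun p T => ((X.deg p : ℝ) - 2) - R.lab lA lB lC 0 p T + t p T)
    (X.n + (|lA| + |lB| + |lC|) + M) _ _ ε hε
  · intro T
    rw [Finset.sum_add_distrib, Finset.sum_sub_distrib, X.nformula_real T, R.sum_lab_tile]
    have := ht T
    linarith
  · intro p T hT
    have h1 : (0 : ℝ) ≤ (X.deg p : ℝ) - 2 := by
      have : 3 ≤ X.deg p := X.deg_ge' p
      have : (3 : ℝ) ≤ X.deg p := by exact_mod_cast this
      linarith
    have h2 : (X.deg p : ℝ) - 2 ≤ X.n := by
      have h := deg_sub_two_le (X.mem_V_iff.mpr hT)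
      have h3 : 3 ≤ X.deg p := X.deg_ge' p
      have : X.deg p ≤ X.n + 2 := by omega
      have : (X.deg p : ℝ) ≤ X.n + 2 := by exact_mod_cast this
      linarith
    have h3 : |R.lab lA lB lC 0 p T| ≤ |lA| + |lB| + |lC| := by
      have a0 := abs_nonneg lA
      have b0 := abs_nonneg lB
      have c0 := abs_nonneg lC
      unfold lab
      split_ifs
      · linarith
      · linarith
      · linarith
      · rw [abs_zero]; positivity
    have h4 := hM p T hT
    rw [abs_le] at h3 h4 ⊢
    have a0 := abs_nonneg lA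
    have b0 := abs_nonneg lB
    have c0 := abs_nonneg lC
    constructor <;> linarith
  · intro p
    rw [Finset.sum_add_distrib, Finset.sum_sub_distrib, R.sum_lab_vert, Finset.sum_const,
      nsmul_eq_mul]
    have := hv p
    have hc : ((X.τ p).card : ℝ) = (X.deg p : ℝ) := rfl
    rw [hc]
    linarith

/-- The averaging principle with label potentials and no transfers. -/
theorem pot_le (lA lB lC : ℝ)
    (hv : ∀ p, (X.deg p : ℝ) * ((X.deg p : ℝ) - 2) ≤ R.nA p * lA + R.nB p * lB + R.nC p * lC) :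
    (X.n : ℝ) ≤ lA + lB + lC := by
  by_contra hcon
  push Not at hcon
  apply R.pot_ap lA lB lC (fun _ _ => 0) 0 _ _ ((X.n : ℝ) - (lA + lB + lC)) (by linarith)
  · intro T
    simp
  · intro p T _
    simp
  · intro p
    have := hv p
    simpa using this

/-- Case `γ > 1/16`. -/
theorem T2a (h : R.α = 1 / 4) (hg : 1 / 16 < R.γ) : X.n ≤ 21 := by
  have hγ := R.γ_pos
  set ρ : ℝ := 1 / R.γ with hρ
  have hρ16 : ρ < 16 := by
    rw [hρ, div_lt_iff₀ hγ]; linarith
  have hργ : ρ * R.γ = 1 := by rw [hρ]; field_simp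
  have hβ : R.β = 1 / 4 - R.γ := by have := R.sum_angles; linarith
  have hγ8 : R.γ ≤ 1 / 8 := by have := R.hγβ; linarith
  have hρ8 : 8 ≤ ρ := by
    rw [hρ, le_div_iff₀ hγ]; linarith
  have key : (X.n : ℝ) ≤ 2 + 6 + (ρ - 2) := by
    apply R.pot_le
    intro p
    have hs := R.nS_le p
    have hang := R.angle_sum p
    have hdeg := R.deg_eq p
    have hdeg' : (X.deg p : ℝ) = R.nA p + R.nB p + R.nC p + R.nS p := by exact_mod_cast hdeg
    have a0 : (0 : ℝ) ≤ R.nA p := Nat.cast_nonneg _
    have b0 : (0 : ℝ) ≤ R.nB p := Nat.cast_nonneg _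
    have c0 : (0 : ℝ) ≤ R.nC p := Nat.cast_nonneg _
    rw [h, hβ] at hang
    rw [hdeg']
    generalize (R.nA p : ℝ) = a at *
    generalize (R.nB p : ℝ) = b at *
    generalize (R.nC p : ℝ) = c at *
    have hs' : (R.nS p : ℝ) = 0 ∨ (R.nS p : ℝ) = 1 := by
      rcases Nat.le_one_iff_eq_zero_or_eq_one.mp hs with h | h
      · left; exact_mod_cast h
      · right; exact_mod_cast h
    -- basic bounds
    rcases hs' with hs' | hs'
    · rw [hs'] at hang ⊢
      have e1 : ρ * (a + b) + 4 * (c - b) = 4 * ρ := by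
        have : 4 * ρ * (a * (1 / 4) + b * (1 / 4 - R.γ) + c * R.γ + 0 * (1 / 2)) = 4 * ρ := by
          rw [hang]; ring
        have h2 : 4 * ρ * (a * (1 / 4) + b * (1 / 4 - R.γ) + c * R.γ + 0 * (1 / 2))
            = ρ * (a + b) + 4 * (c - b) * (ρ * R.γ) := by ring
        rw [h2, hργ] at this
        linarith
      have e2 : 4 ≤ a + b + c := by nlinarith
      have e3 : a + b + c ≤ ρ := by
        have : (a + b + c) * R.γ ≤ 1 := by nlinarith
        calc a + b + c = (a + b + c) * (ρ * R.γ) := by rw [hργ]; ring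
          _ = ρ * ((a + b + c) * R.γ) := by ring
          _ ≤ ρ * 1 := mul_le_mul_of_nonneg_left this (by linarith)
          _ = ρ := by ring
      have e4 : 0 ≤ (a + b + c - 4) * (ρ - (a + b + c)) :=
        mul_nonneg (by linarith) (by linarith)
      nlinarith
    · rw [hs'] at hang ⊢
      have e1 : ρ * (a + b) + 4 * (c - b) = 2 * ρ := by
        have : 4 * ρ * (a * (1 / 4) + b * (1 / 4 - R.γ) + c * R.γ + 1 * (1 / 2)) = 4 * ρ := by
          rw [hang]; ring
        have h2 : 4 * ρ * (a * (1 / 4) + b * (1 / 4 - R.γ) + c * R.γ + 1 * (1 / 2))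
            = ρ * (a + b) + 4 * (c - b) * (ρ * R.γ) + 2 * ρ := by ring
        rw [h2, hργ] at this
        linarith
      have e2 : 2 ≤ a + b + c := by nlinarith
      have e3 : a + b + c ≤ ρ := by
        have : (a + b + c) * R.γ ≤ 1 := by nlinarith
        calc a + b + c = (a + b + c) * (ρ * R.γ) := by rw [hργ]; ring
          _ = ρ * ((a + b + c) * R.γ) := by ring
          _ ≤ ρ * 1 := mul_le_mul_of_nonneg_left this (by linarith)
          _ = ρ := by ring
      have e4 : 0 ≤ (a + b + c - 2) * (ρ - (a + b + c)) :=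
        mul_nonneg (by linarith) (by linarith)
      nlinarith
  have : (X.n : ℝ) < 22 := by linarith
  have : X.n < 22 := by exact_mod_cast this
  omega

/-- Case `γ = 1/16`. -/
theorem T2b (h : R.α = 1 / 4) (hg : R.γ = 1 / 16) : X.n ≤ 21 := by
  have hβ : R.β = 3 / 16 := by have := R.sum_angles; linarith
  have key : (X.n : ℝ) ≤ 2 + 13 / 4 + 14 := by
    apply R.pot_le
    intro p
    have hs := R.nS_le p
    have hang := R.angle_sum p
    have hdeg := R.deg_eq p
    rw [h, hβ, hg] at hang
    have hN : 4 * R.nA p + 3 * R.nB p + R.nC p + 8 * R.nS p = 16 := by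
      have : (4 * R.nA p + 3 * R.nB p + R.nC p + 8 * R.nS p : ℝ) = 16 := by linarith
      exact_mod_cast this
    rw [hdeg]
    generalize R.nA p = a at *
    generalize R.nB p = b at *
    generalize R.nC p = c at *
    generalize R.nS p = s at *
    have ha : a ≤ 4 := by omega
    have hb : b ≤ 5 := by omega
    obtain rfl : c = 16 - 4 * a - 3 * b - 8 * s := by omega
    clear hang hdeg
    interval_cases s <;> interval_cases a <;> interval_cases b <;>
      first
      | (exfalso; omega)
      | norm_num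
  have : (X.n : ℝ) < 22 := by linarith
  have : X.n < 22 := by exact_mod_cast this
  omega

/-- Case `γ < 1/16`, `γ ≠ 1/20`. -/
theorem T2c (h : R.α = 1 / 4) (hg : R.γ < 1 / 16) (hg' : R.γ ≠ 1 / 20) : X.n ≤ 21 := by
  have hγ := R.γ_pos
  set ρ : ℝ := 1 / R.γ with hρ
  have hργ : ρ * R.γ = 1 := by rw [hρ]; field_simp
  have hρ16 : 16 ≤ ρ := by
    rw [hρ, le_div_iff₀ hγ]; linarith
  have hβ : R.β = 1 / 4 - R.γ := by have := R.sum_angles; linarith
  have key : (X.n : ℝ) ≤ 2 + (12 - ρ ^ 2) + ρ ^ 2 := by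
    apply R.pot_le
    intro p
    have hs := R.nS_le p
    have hang := R.angle_sum p
    have hdeg := R.deg_eq p
    have hdeg' : (X.deg p : ℝ) = R.nA p + R.nB p + R.nC p + R.nS p := by exact_mod_cast hdeg
    rw [h, hβ] at hang
    rw [hdeg']
    generalize R.nA p = a at *
    generalize R.nB p = b at *
    generalize R.nC p = c at *
    generalize R.nS p = s at *
    have a0 : (0 : ℝ) ≤ a := Nat.cast_nonneg _
    have b0 : (0 : ℝ) ≤ b := Nat.cast_nonneg _
    have c0 : (0 : ℝ) ≤ c := Nat.cast_nonneg _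
    have s0 : (0 : ℝ) ≤ s := Nat.cast_nonneg _
    have s1 : (s : ℝ) ≤ 1 := by exact_mod_cast hs
    -- `c ≥ b`
    have hcb : b ≤ c := by
      by_contra hlt
      push Not at hlt
      have hlt' : (c : ℝ) + 1 ≤ b := by exact_mod_cast hlt
      -- a + b + 2 s - 4 > 0
      have e1 : ((a : ℝ) + b + 2 * s - 4) = 4 * R.γ * (b - c) := by linarith
      have e2 : 0 < 4 * R.γ * ((b : ℝ) - c) := by
        have : (0 : ℝ) < b - c := by linarith
        positivity
      have e3 : (4 : ℝ) < a + b + 2 * s := by linarith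
      have e3' : 4 < a + b + 2 * s := by exact_mod_cast e3
      have e4 : 4 * ((a : ℝ) + b + 2 * s - 4) < b - c := by
        have : (0 : ℝ) < b - c := by linarith
        nlinarith
      have e5 : 4 * ((a : ℝ) + b + 2 * s) + c < b + 16 := by linarith
      have e5' : 4 * (a + b + 2 * s) + c < b + 16 := by exact_mod_cast e5
      -- k = a + b + 2 s - 4 ≥ 1
      have hb5 : b = 5 ∧ a = 0 ∧ c = 0 ∧ s = 0 := by omega
      obtain ⟨rfl, rfl, rfl, rfl⟩ := hb5
      apply hg'
      push_cast at hang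
      linarith
    have hcb' : (b : ℝ) ≤ c := by exact_mod_cast hcb
    rcases hcb.eq_or_lt with heq | hlt
    · subst heq
      -- a + b + 2 s = 4
      have e1 : (a : ℝ) + b + 2 * s = 4 := by linarith
      have ha : (a : ℝ) = 4 - b - 2 * s := by linarith
      have hss : (s : ℝ) * s = s := by
        rcases Nat.le_one_iff_eq_zero_or_eq_one.mp hs with h | h <;> rw [h] <;> norm_num
      rw [ha] at a0 ⊢
      nlinarith [mul_nonneg b0 a0, mul_nonneg b0 s0]
    · have hlt' : (b : ℝ) + 1 ≤ c := by exact_mod_cast hlt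
      have hwle : (a + b + c + s : ℝ) ≤ ρ := by
        have : (a + b + c + s : ℝ) * R.γ ≤ 1 := by
          have i1 : (a : ℝ) * R.γ ≤ a * (1 / 4) := mul_le_mul_of_nonneg_left (by linarith) a0
          have i2 : (b : ℝ) * R.γ ≤ b * (1 / 4 - R.γ) :=
            mul_le_mul_of_nonneg_left (by linarith) b0
          have i3 : (s : ℝ) * R.γ ≤ s * (1 / 2) := mul_le_mul_of_nonneg_left (by linarith) s0
          linarith
        calc (a + b + c + s : ℝ) = (a + b + c + s) * (ρ * R.γ) := by rw [hργ]; ring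
          _ = ρ * ((a + b + c + s) * R.γ) := by ring
          _ ≤ ρ * 1 := mul_le_mul_of_nonneg_left this (by linarith)
          _ = ρ := by ring
      have hw0 : (0 : ℝ) ≤ a + b + c + s := by positivity
      have e1 : (a + b + c + s : ℝ) * ((a + b + c + s : ℝ) - 2) ≤ ρ ^ 2 := by nlinarith
      have e2 : ρ ^ 2 ≤ ρ ^ 2 * ((c : ℝ) - b) := by
        have : 0 ≤ ρ ^ 2 := by positivity
        nlinarith
      nlinarith
  have : (X.n : ℝ) < 22 := by linarith
  have : X.n < 22 := by exact_mod_cast this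
  omega

/-! ### The triangle with angles 90, 72, 18 degrees -/

/-- `p` is the common `B`-vertex of five tiles. -/
def Five (p : Vert) : Prop := (X.τ p).card = 5 ∧ ∀ T ∈ X.τ p, R.B T = p

/-- Straight vertex of degree at least 4. -/
def Str (p : Vert) : Prop := 1 ≤ R.nS p ∧ 4 ≤ X.deg p

open Classical in
/-- first transfer: `9/5` to each `B` corner at a vertex which is not `Five`. -/
noncomputable def t1 (p : Vert) (T : Tile) : ℝ :=
  if p = R.B T ∧ ¬ R.Five p then 9 / 5 else 0

open Classical in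
/-- second transfer: `11/2` to straight tiles and `C` corners at a `Str` vertex. -/
noncomputable def t2 (p : Vert) (T : Tile) : ℝ :=
  if R.Str p then R.lab 0 0 (11 / 2) (11 / 2) p T else 0

/-- What a tile receives through `t2`. -/
noncomputable def rec2 (T : Tile) : ℝ := ∑ p ∈ X.V T, R.t2 p T

open Classical in
/-- third transfer: forwarding. -/
noncomputable def t3 (p : Vert) (T : Tile) : ℝ :=
  if R.B T = p ∧ R.Five p then (1 / 5) * (∑ U ∈ X.τ p, R.rec2 U) - R.rec2 T else 0

lemma t2_nonneg (p : Vert) (T : Tile) : 0 ≤ R.t2 p T := by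
  unfold t2 lab
  split_ifs <;> norm_num

lemma t2_le (p : Vert) (T : Tile) : R.t2 p T ≤ 11 / 2 := by
  unfold t2 lab
  split_ifs <;> norm_num

lemma rec2_nonneg (T : Tile) : 0 ≤ R.rec2 T := Finset.sum_nonneg (fun p _ => R.t2_nonneg p T)

lemma rec2_le (T : Tile) : R.rec2 T ≤ (11 / 2) * X.n := by
  have h : R.rec2 T ≤ ∑ _p ∈ X.V T, (11 / 2 : ℝ) := Finset.sum_le_sum (fun p _ => R.t2_le p T)
  rw [Finset.sum_const, nsmul_eq_mul] at h
  have h2 : ((X.V T).card : ℝ) ≤ X.n := by exact_mod_cast X.card_V_le T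
  linarith

lemma t3_sum_vert (p : Vert) : ∑ T ∈ X.τ p, R.t3 p T = 0 := by
  by_cases h : R.Five p
  · have : ∀ T ∈ X.τ p, R.t3 p T = (1 / 5) * (∑ U ∈ X.τ p, R.rec2 U) - R.rec2 T := by
      intro T hT
      unfold t3
      rw [if_pos ⟨h.2 T hT, h⟩]
    rw [Finset.sum_congr rfl this, Finset.sum_sub_distrib, Finset.sum_const, nsmul_eq_mul, h.1]
    push_cast
    ring
  · apply Finset.sum_eq_zero
    intro T _
    unfold t3
    rw [if_neg (fun hh => h hh.2)]

lemma t3_abs (p : Vert) (T : Tile) : |R.t3 p T| ≤ 11 * X.n := by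
  have hn : (0 : ℝ) ≤ X.n := Nat.cast_nonneg _
  unfold t3
  split_ifs with h
  · have h1 : ∑ U ∈ X.τ p, R.rec2 U ≤ ∑ _U ∈ X.τ p, (11 / 2 : ℝ) * X.n :=
      Finset.sum_le_sum (fun U _ => R.rec2_le U)
    rw [Finset.sum_const, nsmul_eq_mul, h.2.1] at h1
    have h2 : 0 ≤ ∑ U ∈ X.τ p, R.rec2 U := Finset.sum_nonneg (fun U _ => R.rec2_nonneg U)
    have h3 := R.rec2_nonneg T
    have h4 := R.rec2_le T
    push_cast at h1
    rw [abs_le]
    constructor <;> linarith
  · rw [abs_zero]; positivity

lemma t1_sum_vert (p : Vert) (h : ¬ R.Five p) : ∑ T ∈ X.τ p, R.t1 p T = R.nB p * (9 / 5) := by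
  have : ∀ T ∈ X.τ p, R.t1 p T = R.lab 0 (9 / 5) 0 0 p T := by
    intro T _
    unfold t1 lab
    by_cases h2 : p = R.B T
    · have h1 : p ≠ R.A T := fun h => R.hAB T (h.symm.trans h2)
      rw [if_pos ⟨h2, h⟩, if_neg h1, if_pos h2]
    · rw [if_neg (fun hh => h2 hh.1), if_neg h2]
      split_ifs <;> rfl
  rw [Finset.sum_congr rfl this, R.sum_lab_vert]
  ring

lemma t1_sum_vert' (p : Vert) (h : R.Five p) : ∑ T ∈ X.τ p, R.t1 p T = 0 := by
  apply Finset.sum_eq_zero
  intro T _
  unfold t1
  rw [if_neg (fun hh => hh.2 h)]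

lemma t2_sum_vert (p : Vert) (h : R.Str p) :
    ∑ T ∈ X.τ p, R.t2 p T = (R.nC p + R.nS p) * (11 / 2) := by
  have : ∀ T ∈ X.τ p, R.t2 p T = R.lab 0 0 (11 / 2) (11 / 2) p T := by
    intro T _
    unfold t2
    rw [if_pos h]
  rw [Finset.sum_congr rfl this, R.sum_lab_vert]
  ring

lemma t2_sum_vert' (p : Vert) (h : ¬ R.Str p) : ∑ T ∈ X.τ p, R.t2 p T = 0 := by
  apply Finset.sum_eq_zero
  intro T _
  unfold t2
  rw [if_neg h]

/-- If all corners at `p` are `B` corners, `p` is `Five` as soon as the degree is five. -/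
lemma five_of (p : Vert) (hB : R.nB p = 5) (hdeg : X.deg p = 5) : R.Five p := by
  refine ⟨hdeg, ?_⟩
  have hsub : (X.τ p).filter (fun T => p = R.B T) = X.τ p := by
    apply Finset.eq_of_subset_of_card_le (Finset.filter_subset _ _)
    have h1 : (X.τ p).card = 5 := hdeg
    have h2 : ((X.τ p).filter (fun T => p = R.B T)).card = 5 := hB
    omega
  intro T hT
  rw [← hsub, Finset.mem_filter] at hT
  exact hT.2.symm

lemma five_nB (p : Vert) (h : R.Five p) : R.nB p = 5 := by
  unfold nB
  rw [Finset.filter_true_of_mem (fun T hT => (h.2 T hT).symm)]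
  exact h.1

/-- Case `γ = 1/20`. -/
theorem T2d (h : R.α = 1 / 4) (hg : R.γ = 1 / 20) (hd : R.Hd) : X.n ≤ 21 := by
  by_contra hcon
  push Not at hcon
  have hβ : R.β = 1 / 5 := by have := R.sum_angles; linarith
  have hn : (22 : ℝ) ≤ X.n := by exact_mod_cast hcon
  apply R.pot_ap 2 3 18 (fun p T => R.t1 p T + R.t2 p T + R.t3 p T)
    (9 / 5 + 11 / 2 + 11 * X.n) _ _ (1 / 10) (by norm_num)
  · -- tile sums
    intro T
    rw [Finset.sum_add_distrib, Finset.sum_add_distrib]
    have h3 : ∑ p ∈ X.V T, R.t3 p T = R.t3 (R.B T) T := by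
      apply Finset.sum_eq_single_of_mem (R.B T) (R.hB T)
      intro q _ hq
      unfold t3
      rw [if_neg (fun hh => hq hh.1.symm)]
    have h1 : ∑ p ∈ X.V T, R.t1 p T = R.t1 (R.B T) T := by
      apply Finset.sum_eq_single_of_mem (R.B T) (R.hB T)
      intro q _ hq
      unfold t1
      rw [if_neg (fun hh => hq hh.1)]
    have h2 : ∑ p ∈ X.V T, R.t2 p T = R.rec2 T := rfl
    rw [h1, h2, h3]
    by_cases hF : R.Five (R.B T)
    · -- forwarded
      obtain ⟨U, hU, q, hq, hlab, ⟨S, hS, hS2⟩, hdeg⟩ := hd (R.B T) hF.1 hF.2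
      have hnS : 1 ≤ R.nS q := by
        unfold nS
        rw [Nat.one_le_iff_ne_zero, Finset.card_ne_zero]
        refine ⟨S, Finset.mem_filter.mpr ⟨hS, ?_, ?_, ?_⟩⟩
        · intro hqq
          rw [hqq, R.angA S, h] at hS2
          norm_num at hS2
        · intro hqq
          rw [hqq, R.angB S, hβ] at hS2
          norm_num at hS2
        · intro hqq
          rw [hqq, R.angC S, hg] at hS2
          norm_num at hS2
      have hstr : R.Str q := ⟨hnS, hdeg⟩
      have ht2 : R.t2 q U = 11 / 2 := by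
        unfold t2
        rw [if_pos hstr]
        unfold lab
        rcases hlab with hl | hl
        · have n1 : q ≠ R.A U := by
            intro hqq
            rw [hqq, R.angA U, h] at hl
            norm_num at hl
          have n2 : q ≠ R.B U := by
            intro hqq
            rw [hqq, R.angB U, hβ] at hl
            norm_num at hl
          rw [if_neg n1, if_neg n2]
          split_ifs <;> rfl
        · rw [hl, if_neg (R.hAC U).symm, if_neg (R.hBC U).symm, if_pos rfl]
      have hrec : 11 / 2 ≤ R.rec2 U := by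
        have : R.t2 q U ≤ R.rec2 U :=
          Finset.single_le_sum (f := fun q => R.t2 q U) (fun p _ => R.t2_nonneg p U) hq
        linarith
      have hsum : 11 / 2 ≤ ∑ W ∈ X.τ (R.B T), R.rec2 W := by
        have : R.rec2 U ≤ ∑ W ∈ X.τ (R.B T), R.rec2 W :=
          Finset.single_le_sum (f := fun W => R.rec2 W) (fun W _ => R.rec2_nonneg W) hU
        linarith
      have e1 : R.t1 (R.B T) T = 0 := by
        unfold t1
        rw [if_neg (fun hh => hh.2 hF)]
      have e3 : R.t3 (R.B T) T = (1 / 5) * (∑ U ∈ X.τ (R.B T), R.rec2 U) - R.rec2 T := by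
        unfold t3
        rw [if_pos ⟨rfl, hF⟩]
      rw [e1, e3]
      linarith
    · have e1 : R.t1 (R.B T) T = 9 / 5 := by
        unfold t1
        rw [if_pos ⟨rfl, hF⟩]
      have e3 : R.t3 (R.B T) T = 0 := by
        unfold t3
        rw [if_neg (fun hh => hF hh.2)]
      have e2 := R.rec2_nonneg T
      rw [e1, e3]
      linarith
  · -- bounded
    intro p T _
    have h3 := R.t3_abs p T
    have h2 := R.t2_nonneg p T
    have h2' := R.t2_le p T
    have h1 : 0 ≤ R.t1 p T ∧ R.t1 p T ≤ 9 / 5 := by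
      unfold t1
      split_ifs <;> norm_num
    rw [abs_le] at h3 ⊢
    constructor <;> linarith [h1.1, h1.2]
  · -- vertex sums
    intro p
    rw [Finset.sum_add_distrib, Finset.sum_add_distrib, R.t3_sum_vert]
    have hs := R.nS_le p
    have hang := R.angle_sum p
    have hdeg := R.deg_eq p
    rw [h, hβ, hg] at hang
    have hN : 5 * R.nA p + 4 * R.nB p + R.nC p + 10 * R.nS p = 20 := by
      have : (5 * R.nA p + 4 * R.nB p + R.nC p + 10 * R.nS p : ℝ) = 20 := by linarith
      exact_mod_cast this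
    have hd3 : 3 ≤ X.deg p := X.deg_ge' p
    by_cases hF : R.Five p
    · have hb5 := R.five_nB p hF
      have ha : R.nA p = 0 := by omega
      have hc : R.nC p = 0 := by omega
      have hss : R.nS p = 0 := by omega
      have hstr : ¬ R.Str p := by
        intro hst
        have := hst.1
        omega
      rw [R.t1_sum_vert' p hF, R.t2_sum_vert' p hstr, hdeg, ha, hb5, hc, hss]
      norm_num
    · rw [R.t1_sum_vert p hF]
      have hnot : ¬ (R.nB p = 5) := by
        intro hb5
        apply hF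
        apply R.five_of p hb5
        omega
      by_cases hstr : R.Str p
      · rw [R.t2_sum_vert p hstr]
        have hst := hstr.1
        have hst2 := hstr.2
        rw [hdeg] at hst2 ⊢
        clear hang hdeg hd3 hstr hF
        generalize R.nA p = a at *
        generalize R.nB p = b at *
        generalize R.nC p = c at *
        generalize R.nS p = s at *
        have ha : a ≤ 2 := by omega
        have hb : b ≤ 2 := by omega
        obtain rfl : s = 1 := by omega
        obtain rfl : c = 10 - 5 * a - 4 * b := by omega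
        interval_cases a <;> interval_cases b <;>
          first
          | (exfalso; omega)
          | norm_num
      · rw [R.t2_sum_vert' p hstr]
        have hst : R.nS p = 0 ∨ X.deg p ≤ 3 := by
          unfold Str at hstr
          by_contra hcc
          push Not at hcc
          apply hstr
          omega
        rw [hdeg] at hst hd3 ⊢
        clear hang hdeg hstr hF
        generalize R.nA p = a at *
        generalize R.nB p = b at *
        generalize R.nC p = c at *
        generalize R.nS p = s at *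
        have ha : a ≤ 4 := by omega
        have hb : b ≤ 4 := by omega
        obtain rfl : c = 20 - 5 * a - 4 * b - 10 * s := by omega
        interval_cases s <;> interval_cases a <;> interval_cases b <;>
          first
          | (exfalso; omega)
          | norm_num

/-- **Right triangles**: at most 21 neighbours. -/
theorem T2 (h : R.α = 1 / 4) (hd : R.β = 1 / 5 → R.Hd) : X.n ≤ 21 := by
  rcases lt_trichotomy R.γ (1 / 16) with hg | hg | hg
  · by_cases hg' : R.γ = 1 / 20
    · apply R.T2d h hg'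
      apply hd
      have := R.sum_angles
      linarith
    · exact R.T2c h hg hg'
  · exact R.T2b h hg
  · exact R.T2a h hg

end Tri

end Tess

end Pool.Agent.Hhelper50
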