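import Pool.Agent.Hhelper50.TessQ
import Pool.Agent.Hhelper50.TessT2

/-!
# Case T1: triangles with largest angle neither 90 nor 120 degrees

Then all vertices have degree at least four.
-/

set_option autoImplicit false

namespace Pool.Agent.Hhelper50

open Finset

variable {Tile Vert : Type*} [DecidableEq Tile] [DecidableEq Vert]

namespace Tess

variable (X : Tess Tile Vert)

/-- A tile containing a vertex of degree `n - 2`. -/
def Star2 (T : Tile) : Prop := ∃ p ∈ X.V T, X.deg p + 2 = X.n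

/-- A tile containing a vertex of degree `n - 3`. -/
def Flat (T : Tile) : Prop := ∃ p ∈ X.V T, X.deg p + 3 = X.n

lemma three_struct {T : Tile} (h3 : (X.V T).card = 3) {O : Vert} (hO : O ∈ X.V T) :
    ∃ W W', W ≠ O ∧ W' ≠ O ∧ W ≠ W' ∧ (∀ x, x ∈ X.V T ↔ x = O ∨ x = W ∨ x = W') ∧
      X.deg O + X.deg W + X.deg W' = X.n + 6 := by
  have h1 : ((X.V T).erase O).card = 2 := by rw [Finset.card_erase_of_mem hO, h3]
  obtain ⟨W, W', hne, heq⟩ := Finset.card_eq_two.mp h1
  have hW : W ∈ (X.V T).erase O := by rw [heq]; simp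
  have hW' : W' ∈ (X.V T).erase O := by rw [heq]; simp
  rw [Finset.mem_erase] at hW hW'
  refine ⟨W, W', hW.1, hW'.1, hne, ?_, ?_⟩
  · intro x
    constructor
    · intro hx
      by_cases hxO : x = O
      · exact Or.inl hxO
      · have : x ∈ (X.V T).erase O := Finset.mem_erase.mpr ⟨hxO, hx⟩
        rw [heq] at this
        simp only [Finset.mem_insert, Finset.mem_singleton] at this
        exact Or.inr this
    · rintro (rfl | rfl | rfl)
      · exact hO
      · exact hW.2
      · exact hW'.2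
  · have h := X.nformula T
    rw [← Finset.add_sum_erase _ _ hO, heq, Finset.sum_pair hne] at h
    have := X.deg_ge' O
    have := X.deg_ge' W
    have := X.deg_ge' W'
    omega

lemma card_three_of_big (h4 : ∀ p, 4 ≤ X.deg p) {T : Tile} {O : Vert} (hO : O ∈ X.V T)
    (hd : X.n ≤ X.deg O + 3) : (X.V T).card = 3 := by
  have h := X.deg_le_of T O hO 4 (fun q _ _ => h4 q)
  have := X.three_le_card_V T
  have := h4 O
  omega

lemma deg_add_two_le (h4 : ∀ p, 4 ≤ X.deg p) {T : Tile} {O : Vert} (hO : O ∈ X.V T) :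
    X.deg O + 2 ≤ X.n := by
  have h := X.deg_le_of T O hO 4 (fun q _ _ => h4 q)
  have := X.three_le_card_V T
  have := h4 O
  omega

lemma star2_struct (h4 : ∀ p, 4 ≤ X.deg p) {T : Tile} {O : Vert} (hO : O ∈ X.V T)
    (hd : X.deg O + 2 = X.n) : (X.V T).card = 3 ∧ ∀ q ∈ X.V T, q ≠ O → X.deg q = 4 := by
  have h3 := X.card_three_of_big h4 hO (by omega)
  refine ⟨h3, ?_⟩
  obtain ⟨W, W', a1, a2, a3, a4, a5⟩ := X.three_struct h3 hO
  have := h4 W
  have := h4 W'
  intro q hq hqO
  rcases (a4 q).mp hq with rfl | rfl | rfl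
  · exact absurd rfl hqO
  · omega
  · omega

/-- A triangle tile with two vertices of degree four is a star. -/
lemma star2_of_three {T : Tile} (h3 : (X.V T).card = 3) {W W' : Vert} (hW : W ∈ X.V T)
    (hW' : W' ∈ X.V T) (hne : W ≠ W') (d : X.deg W = 4) (d' : X.deg W' = 4) :
    ∃ O, O ∈ X.V T ∧ X.deg O + 2 = X.n ∧ (∀ x, x ∈ X.V T ↔ x = O ∨ x = W ∨ x = W') := by
  obtain ⟨A, B, a1, a2, a3, a4, a5⟩ := X.three_struct h3 hW
  have hA : A ∈ X.V T := (a4 A).mpr (by tauto)
  have hB : B ∈ X.V T := (a4 B).mpr (by tauto)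
  rcases (a4 W').mp hW' with h | h | h
  · exact absurd h.symm hne
  · subst h
    refine ⟨B, hB, by omega, ?_⟩
    intro x
    rw [a4 x]
    tauto
  · subst h
    refine ⟨A, hA, by omega, ?_⟩
    intro x
    rw [a4 x]
    tauto

/-- Local structure at a degree four vertex of a star. -/
lemma star2_local (h4 : ∀ p, 4 ≤ X.deg p) (hn : 22 ≤ X.n) {T R : Tile} {O W W' : Vert}
    (hO : O ∈ X.V T) (hd : X.deg O + 2 = X.n) (hW : W ∈ X.V T) (hW' : W' ∈ X.V T)
    (hWO : W ≠ O) (hW'O : W' ≠ O) (hWW' : W ≠ W') (hRT : R ≠ T) (hWR : W ∈ X.V R)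
    (hW'R : W' ∈ X.V R) :
    ∃ T' R' W1, T' ≠ T ∧ T' ≠ R ∧ R' ≠ T ∧ R' ≠ T' ∧ R' ≠ R ∧ W1 ≠ O ∧ W1 ≠ W ∧
      O ∈ X.V T' ∧ W ∈ X.V T' ∧ W1 ∈ X.V T' ∧ W ∈ X.V R' ∧ W1 ∈ X.V R' ∧
      (∀ U, W ∈ X.V U → U = T ∨ U = T' ∨ U = R ∨ U = R') ∧ (X.V R ∩ X.V R').card = 2 ∧
      W' ∉ X.V R' := by
  obtain ⟨h3, hdeg⟩ := X.star2_struct h4 hO hd
  have dW := hdeg W hW hWO
  have hE : X.Edge O W := X.edge_of_card_three h3 hO hW hWO.symm
  obtain ⟨T', hT'T, hOT', hWT', hτ, hV⟩ := Edge.other X hE hO hW
  have hτR := X.inter_τ_eq hRT.symm hWW' hW hWR hW' hW'R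
  have hVR := X.inter_V_eq hRT.symm hWW' hW hWR hW' hW'R
  have hT'R : T' ≠ R := by
    rintro rfl
    have : W' ∈ X.V T ∩ X.V T' := Finset.mem_inter.mpr ⟨hW', hW'R⟩
    rw [hV] at this
    simp only [Finset.mem_insert, Finset.mem_singleton] at this
    rcases this with h | h
    · exact hW'O h
    · exact hWW' h.symm
  have hc3 : ({T, T', R} : Finset Tile).card = 3 := by
    rw [Finset.card_eq_three]
    exact ⟨T, T', R, hT'T.symm, hRT.symm, hT'R, rfl⟩
  obtain ⟨R', hR', hR'n⟩ := Finset.exists_mem_notMem_of_card_lt_card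
    (s := ({T, T', R} : Finset Tile)) (t := X.τ W) (by
      have : (X.τ W).card = 4 := dW
      omega)
  simp only [Finset.mem_insert, Finset.mem_singleton, not_or] at hR'n
  obtain ⟨r1, r2, r3⟩ := hR'n
  have hWR' : W ∈ X.V R' := X.mem_V_iff.mpr hR'
  have heq4 : insert R' ({T, T', R} : Finset Tile) = X.τ W := by
    apply Finset.eq_of_subset_of_card_le
    · intro x hx
      simp only [Finset.mem_insert, Finset.mem_singleton] at hx
      rcases hx with rfl | rfl | rfl | rfl
      · exact hR'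
      · exact X.mem_V_iff.mp hW
      · exact X.mem_V_iff.mp hWT'
      · exact X.mem_V_iff.mp hWR
    · rw [Finset.card_insert_of_notMem (by
        simp only [Finset.mem_insert, Finset.mem_singleton, not_or]; exact ⟨r1, r2, r3⟩), hc3]
      have : (X.τ W).card = 4 := dW
      omega
  have hall : ∀ U, W ∈ X.V U → U = T ∨ U = T' ∨ U = R ∨ U = R' := by
    intro U hU
    have := X.mem_V_iff.mp hU
    rw [← heq4] at this
    simp only [Finset.mem_insert, Finset.mem_singleton] at this
    tauto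
  -- adjacency of T at W
  have adjT : ¬ (X.V T ∩ X.V R').card = 2 := by
    intro hc
    have hsub : ({R', T', R} : Finset Tile) ⊆
        (X.τ W).filter (fun S => S ≠ T ∧ (X.V T ∩ X.V S).card = 2) := by
      intro S hS
      simp only [Finset.mem_insert, Finset.mem_singleton] at hS
      rw [Finset.mem_filter]
      rcases hS with rfl | rfl | rfl
      · exact ⟨hR', r1, hc⟩
      · exact ⟨X.mem_V_iff.mp hWT', hT'T, by rw [hV, Finset.card_pair hWO.symm]⟩
      · exact ⟨X.mem_V_iff.mp hWR, hRT, by rw [hVR, Finset.card_pair hWW']⟩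
    have h1 := Finset.card_le_card hsub
    rw [X.adj W T (X.mem_V_iff.mp hW)] at h1
    have : ({R', T', R} : Finset Tile).card = 3 := by
      rw [Finset.card_eq_three]
      exact ⟨R', T', R, r2, r3, hT'R, rfl⟩
    omega
  have adjR' : (X.τ W).filter (fun S => S ≠ R' ∧ (X.V R' ∩ X.V S).card = 2) = {T', R} := by
    apply Finset.eq_of_subset_of_card_le
    · intro S hS
      rw [Finset.mem_filter] at hS
      simp only [Finset.mem_insert, Finset.mem_singleton]
      rcases hall S (X.mem_V_iff.mpr hS.1) with h | h | h | h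
      · exfalso
        apply adjT
        rw [Finset.inter_comm, ← h]
        exact hS.2.2
      · exact Or.inl h
      · exact Or.inr h
      · exact absurd h hS.2.1
    · rw [X.adj W R' hR', Finset.card_pair hT'R]
  have mT' : T' ∈ (X.τ W).filter (fun S => S ≠ R' ∧ (X.V R' ∩ X.V S).card = 2) := by
    rw [adjR']; simp
  have mR : R ∈ (X.τ W).filter (fun S => S ≠ R' ∧ (X.V R' ∩ X.V S).card = 2) := by
    rw [adjR']; simp
  rw [Finset.mem_filter] at mT' mR
  -- W1
  obtain ⟨x, hxW, hVx, hxR', hxT', _⟩ := X.adj_edge mT'.2.2 hWR' hWT' (Ne.symm r2)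
  have hOR' : O ∉ X.V R' := by
    intro h
    have : R' ∈ X.τ O ∩ X.τ W := Finset.mem_inter.mpr ⟨X.mem_V_iff.mp h, hR'⟩
    rw [hτ] at this
    simp only [Finset.mem_insert, Finset.mem_singleton] at this
    tauto
  have hxO : x ≠ O := fun h => hOR' (h ▸ hxR')
  refine ⟨T', R', x, hT'T, hT'R, r1, r2, r3, hxO, hxW, hOT', hWT', hxT', hWR', hxR', hall,
    ?_, ?_⟩
  · rw [Finset.inter_comm]; exact mR.2.2
  · intro h
    have : R' ∈ X.τ W ∩ X.τ W' := Finset.mem_inter.mpr ⟨hR', X.mem_V_iff.mp h⟩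
    rw [hτR] at this
    simp only [Finset.mem_insert, Finset.mem_singleton] at this
    tauto

/-- If the tile across a star is a star then all tiles at a base vertex are stars. -/
lemma star2_step (h4 : ∀ p, 4 ≤ X.deg p) (hn : 22 ≤ X.n) {T R : Tile} {O W W' : Vert}
    (hO : O ∈ X.V T) (hd : X.deg O + 2 = X.n) (hW : W ∈ X.V T) (hW' : W' ∈ X.V T)
    (hWO : W ≠ O) (hW'O : W' ≠ O) (hWW' : W ≠ W') (hRT : R ≠ T) (hWR : W ∈ X.V R)
    (hW'R : W' ∈ X.V R) (hR : X.Star2 R) : ∀ U, W ∈ X.V U → X.Star2 U := by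
  obtain ⟨T', R', W1, a1, a2, a3, a4, a5, a6, a7, a8, a9, a10, a11, a12, a13, a14, a15⟩ :=
    X.star2_local h4 hn hO hd hW hW' hWO hW'O hWW' hRT hWR hW'R
  obtain ⟨h3, hdeg⟩ := X.star2_struct h4 hO hd
  obtain ⟨Y, hY, hdY⟩ := hR
  obtain ⟨h3R, hdegR⟩ := X.star2_struct h4 hY hdY
  obtain ⟨O', hO', hdO', hmem⟩ := X.star2_of_three h3R hWR hW'R hWW' (hdeg W hW hWO)
    (hdeg W' hW' hW'O)
  obtain ⟨y, hyW, hVy, hyR, hyR', _⟩ := X.adj_edge a14 hWR a11 a5
  have hy : y = O' := by
    rcases (hmem y).mp hyR with h | h | h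
    · exact h
    · exact absurd h hyW
    · exact absurd (h ▸ hyR') a15
  intro U hU
  rcases a13 U hU with rfl | rfl | rfl | rfl
  · exact ⟨O, hO, hd⟩
  · exact ⟨O, a8, hd⟩
  · exact ⟨Y, hY, hdY⟩
  · exact ⟨O', hy ▸ hyR', hdO'⟩

/-- The tile across a star is not a star. -/
lemma no_G2 (h4 : ∀ p, 4 ≤ X.deg p) (hn : 22 ≤ X.n) {T R : Tile} {O W W' : Vert}
    (hO : O ∈ X.V T) (hd : X.deg O + 2 = X.n) (hW : W ∈ X.V T) (hW' : W' ∈ X.V T)
    (hWO : W ≠ O) (hW'O : W' ≠ O) (hWW' : W ≠ W') (hRT : R ≠ T) (hWR : W ∈ X.V R)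
    (hW'R : W' ∈ X.V R) : ¬ X.Star2 R := by
  intro hR
  have step : ∀ (T R : Tile) (O W W' : Vert), O ∈ X.V T → X.deg O + 2 = X.n → W ∈ X.V T →
      W' ∈ X.V T → W ≠ O → W' ≠ O → W ≠ W' → R ≠ T → W ∈ X.V R → W' ∈ X.V R → X.Star2 R →
      ∀ p ∈ X.V T, ∀ U, p ∈ X.V U → X.Star2 U := by
    intro T R O W W' hO hd hW hW' hWO hW'O hWW' hRT hWR hW'R hR p hp U hU
    obtain ⟨h3, hdeg⟩ := X.star2_struct h4 hO hd
    obtain ⟨O', hO', hdO', hmem⟩ := X.star2_of_three h3 hW hW' hWW' (hdeg W hW hWO)
      (hdeg W' hW' hW'O)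
    rcases (hmem p).mp hp with rfl | rfl | rfl
    · exact ⟨_, hU, hdO'⟩
    · exact X.star2_step h4 hn hO hd hW hW' hWO hW'O hWW' hRT hWR hW'R hR U hU
    · exact X.star2_step h4 hn hO hd hW' hW hW'O hWO hWW'.symm hRT hW'R hWR hR U hU
  have hall : ∀ T, T ∈ {T | X.Star2 T ∧ ∀ p ∈ X.V T, ∀ U, p ∈ X.V U → X.Star2 U} := by
    apply X.conn
    · exact ⟨T, ⟨O, hO, hd⟩, step T R O W W' hO hd hW hW' hWO hW'O hWW' hRT hWR hW'R hR⟩
    · rintro T ⟨_, hT⟩ T' hne hc
      obtain ⟨p, hp⟩ : (X.V T ∩ X.V T').Nonempty := by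
        rw [← Finset.card_pos]; omega
      have hp' := Finset.mem_inter.mp hp
      obtain ⟨x, hxp, hV, hxT, hxT', hEx⟩ := X.adj_edge hc hp'.1 hp'.2 hne
      have starT' : X.Star2 T' := hT p hp'.1 T' hp'.2
      obtain ⟨O', hO', hd'⟩ := starT'
      obtain ⟨h3', hdeg'⟩ := X.star2_struct h4 hO' hd'
      -- one of p, x is different from O'
      have hW : ∃ W, W ∈ X.V T ∧ W ∈ X.V T' ∧ W ≠ O' := by
        by_cases h : p = O'
        · exact ⟨x, hxT, hxT', fun h' => hxp (h'.trans h.symm)⟩
        · exact ⟨p, hp'.1, hp'.2, h⟩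
      obtain ⟨W, hWT, hWT', hWO'⟩ := hW
      obtain ⟨A, B, a1, a2, a3, a4, a5⟩ := X.three_struct h3' hO'
      have hW' : ∃ W', W' ∈ X.V T' ∧ W' ≠ O' ∧ W ≠ W' := by
        rcases (a4 W).mp hWT' with h | h | h
        · exact absurd h hWO'
        · exact ⟨B, (a4 B).mpr (by tauto), a2, h ▸ a3⟩
        · exact ⟨A, (a4 A).mpr (by tauto), a1, h ▸ a3.symm⟩
      obtain ⟨W', hW'T', hW'O', hWW'⟩ := hW'
      obtain ⟨R, hRT', hWR, hW'R, _, _⟩ :=
        Edge.other X (X.edge_of_card_three h3' hWT' hW'T' hWW') hWT' hW'T'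
      exact ⟨⟨O', hO', hd'⟩, step T' R O' W W' hO' hd' hWT' hW'T' hWO' hW'O' hWW' hRT' hWR hW'R
        (hT W hWT R hWR)⟩
  refine X.ap_neg (1 / ((X.n : ℝ) - 2)) ?_ ?_
  · have : (22 : ℝ) ≤ (X.n : ℝ) := by exact_mod_cast hn
    apply one_div_pos.mpr
    linarith
  · intro T
    obtain ⟨⟨O, hO, hd⟩, _⟩ := hall T
    obtain ⟨h3, hdeg⟩ := X.star2_struct h4 hO hd
    have hdr : (X.deg O : ℝ) = (X.n : ℝ) - 2 := by
      have : ((X.deg O + 2 : ℕ) : ℝ) = (X.n : ℝ) := by rw [hd]
      push_cast at this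
      linarith
    rw [← Finset.add_sum_erase _ _ hO, h3, hdr]
    have : ∑ p ∈ (X.V T).erase O, 1 / (X.deg p : ℝ) = ∑ p ∈ (X.V T).erase O, (1 / 4 : ℝ) := by
      apply Finset.sum_congr rfl
      intro p hp
      rw [Finset.mem_erase] at hp
      rw [hdeg p hp.2 hp.1]
      norm_num
    rw [this, Finset.sum_const, Finset.card_erase_of_mem hO, h3]
    norm_num
    linarith

/-- A vertex of degree four in a star. -/
def Good2 (p : Vert) : Prop := X.deg p = 4 ∧ ∃ T, p ∈ X.V T ∧ X.Star2 T

open Classical in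
/-- At a good vertex there are exactly two stars, and the other tiles have at least four
vertices. -/
lemma good2_struct (h4 : ∀ p, 4 ≤ X.deg p) (hn : 22 ≤ X.n) {W : Vert} (hg : X.Good2 W) :
    ((X.τ W).filter (fun T => X.Star2 T)).card = 2 ∧
      ∀ S, W ∈ X.V S → ¬ X.Star2 S → 4 ≤ (X.V S).card := by
  obtain ⟨dW, T, hWT, O, hO, hd⟩ := hg
  obtain ⟨h3, hdeg⟩ := X.star2_struct h4 hO hd
  have hWO : W ≠ O := by
    rintro rfl
    omega
  obtain ⟨A, B, a1, a2, a3, a4, a5⟩ := X.three_struct h3 hO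
  have hW' : ∃ W', W' ∈ X.V T ∧ W' ≠ O ∧ W ≠ W' := by
    rcases (a4 W).mp hWT with h | h | h
    · exact absurd h hWO
    · exact ⟨B, (a4 B).mpr (by tauto), a2, h ▸ a3⟩
    · exact ⟨A, (a4 A).mpr (by tauto), a1, h ▸ a3.symm⟩
  obtain ⟨W', hW'T, hW'O, hWW'⟩ := hW'
  obtain ⟨R, hRT, hWR, hW'R, _, _⟩ :=
    Edge.other X (X.edge_of_card_three h3 hWT hW'T hWW') hWT hW'T
  obtain ⟨T', R', W1, b1, b2, b3, b4, b5, b6, b7, b8, b9, b10, b11, b12, b13, b14, b15⟩ :=
    X.star2_local h4 hn hO hd hWT hW'T hWO hW'O hWW' hRT hWR hW'R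
  have nR : ¬ X.Star2 R := X.no_G2 h4 hn hO hd hWT hW'T hWO hW'O hWW' hRT hWR hW'R
  have nR' : ¬ X.Star2 R' := X.no_G2 h4 hn b8 hd b9 b10 hWO b6 b7.symm b4 b11 b12
  obtain ⟨_, hdeg'⟩ := X.star2_struct h4 b8 hd
  have sT : X.Star2 T := ⟨O, hO, hd⟩
  have sT' : X.Star2 T' := ⟨O, b8, hd⟩
  constructor
  · have : (X.τ W).filter (fun T => X.Star2 T) = {T, T'} := by
      ext U
      simp only [Finset.mem_filter, Finset.mem_insert, Finset.mem_singleton]
      constructor
      · rintro ⟨hU, hs⟩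
        rcases b13 U (X.mem_V_iff.mpr hU) with h | h | h | h
        · exact Or.inl h
        · exact Or.inr h
        · exact absurd (h ▸ hs) nR
        · exact absurd (h ▸ hs) nR'
      · rintro (rfl | rfl)
        · exact ⟨X.mem_V_iff.mp hWT, sT⟩
        · exact ⟨X.mem_V_iff.mp b9, sT'⟩
    rw [this, Finset.card_pair b1.symm]
  · intro S hWS hS
    by_contra hlt
    have h3S : (X.V S).card = 3 := by have := X.three_le_card_V S; omega
    rcases b13 S hWS with rfl | rfl | rfl | rfl
    · exact hS sT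
    · exact hS sT'
    · obtain ⟨Y, hY, hdY, _⟩ := X.star2_of_three h3S hWR hW'R hWW' dW (hdeg W' hW'T hW'O)
      exact hS ⟨Y, hY, hdY⟩
    · obtain ⟨Y, hY, hdY, _⟩ := X.star2_of_three h3S b11 b12 b7.symm dW (hdeg' W1 b10 b6)
      exact hS ⟨Y, hY, hdY⟩

lemma flat_struct (h4 : ∀ p, 4 ≤ X.deg p) {T : Tile} {O : Vert} (hO : O ∈ X.V T)
    (hd : X.deg O + 3 = X.n) :
    (X.V T).card = 3 ∧ ∃ W Y, W ≠ O ∧ Y ≠ O ∧ W ≠ Y ∧
      (∀ x, x ∈ X.V T ↔ x = O ∨ x = W ∨ x = Y) ∧ X.deg W = 4 ∧ X.deg Y = 5 := by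
  have h3 := X.card_three_of_big h4 hO (by omega)
  refine ⟨h3, ?_⟩
  obtain ⟨A, B, a1, a2, a3, a4, a5⟩ := X.three_struct h3 hO
  have h1 := h4 A
  have h2 := h4 B
  have : (X.deg A = 4 ∧ X.deg B = 5) ∨ (X.deg A = 5 ∧ X.deg B = 4) := by omega
  rcases this with ⟨h5, h6⟩ | ⟨h5, h6⟩
  · exact ⟨A, B, a1, a2, a3, a4, h5, h6⟩
  · refine ⟨B, A, a2, a1, a3.symm, ?_, h6, h5⟩
    intro x
    rw [a4 x]
    tauto

/-- Parity lemma. -/
lemma parity {p : Vert} {k : ℕ} {s : Finset Tile} (hs : s ⊆ X.τ p)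
    (h1 : ∀ T ∈ s, ∃ q ∈ X.V T, X.Edge p q ∧ X.deg q = k ∧ ∀ q' ∈ X.V T, X.deg q' = k → q' = q)
    (h2 : ∀ q, X.deg q = k → (∃ T ∈ s, q ∈ X.V T) → X.τ p ∩ X.τ q ⊆ s) : Even s.card := by
  classical
  haveI : Nonempty Vert := ⟨p⟩
  choose! f hf1 hf2 hf3 hf4 using h1
  rw [Finset.card_eq_sum_card_image f s]
  have : ∀ b ∈ s.image f, (s.filter (fun a => f a = b)).card = 2 := by
    intro q hq
    obtain ⟨T, hT, rfl⟩ := Finset.mem_image.mp hq
    have heq : s.filter (fun a => f a = f T) = X.τ p ∩ X.τ (f T) := by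
      ext U
      rw [Finset.mem_filter, Finset.mem_inter]
      constructor
      · rintro ⟨hU, hfU⟩
        refine ⟨hs hU, ?_⟩
        rw [← hfU]
        exact X.mem_V_iff.mp (hf1 U hU)
      · rintro ⟨hU, hU'⟩
        have hUs : U ∈ s := h2 (f T) (hf3 T hT) ⟨T, hT, hf1 T hT⟩
          (Finset.mem_inter.mpr ⟨hU, hU'⟩)
        exact ⟨hUs, (hf4 U hUs (f T) (X.mem_V_iff.mpr hU') (hf3 T hT)).symm⟩
    rw [heq]
    exact (hf2 T hT).2
  rw [Finset.sum_congr rfl this, Finset.sum_const, smul_eq_mul]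
  exact ⟨_, by ring⟩

/-- If there is a flat tile then `n ≥ 23`. -/
lemma flat_n (h4 : ∀ p, 4 ≤ X.deg p) (hn : 22 ≤ X.n) {T : Tile} (hT : X.Flat T) :
    23 ≤ X.n := by
  obtain ⟨O, hO, hd⟩ := hT
  have h : Even (X.τ O).card := by
    refine X.parity (p := O) (k := 4) (s := X.τ O) (Finset.Subset.refl _) ?_
      (fun q _ _ => Finset.inter_subset_left)
    intro T hT
    have hOT := X.mem_V_iff.mpr hT
    obtain ⟨h3, W, Y, a1, a2, a3, a4, a5, a6⟩ := X.flat_struct h4 hOT hd
    refine ⟨W, (a4 W).mpr (by tauto), X.edge_of_card_three h3 hOT ((a4 W).mpr (by tauto)) a1.symm,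
      a5, ?_⟩
    intro q hq hdq
    rcases (a4 q).mp hq with rfl | rfl | rfl
    · omega
    · rfl
    · omega
  have hc : (X.τ O).card = X.deg O := rfl
  rw [hc] at h
  rcases Nat.lt_or_ge X.n 23 with h' | h'
  · exfalso
    have : X.deg O = 19 := by omega
    rw [this] at h
    exact absurd h (by decide)
  · exact h'

open Classical in
/-- Number of flats at a vertex. -/
noncomputable def nflat (p : Vert) : ℕ := ((X.τ p).filter (fun T => X.Flat T)).card

lemma nflat_le (h4 : ∀ p, 4 ≤ X.deg p) (hn : 22 ≤ X.n) {Y : Vert} (hY : X.deg Y = 5) :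
    X.nflat Y ≤ 4 := by
  classical
  have h : Even (X.nflat Y) := by
    unfold nflat
    refine X.parity (p := Y) (k := X.n - 3) (Finset.filter_subset _ _) ?_ ?_
    · intro T hT
      rw [Finset.mem_filter] at hT
      obtain ⟨O, hO, hd⟩ := hT.2
      have hYT := X.mem_V_iff.mpr hT.1
      obtain ⟨h3, W, Z, a1, a2, a3, a4, a5, a6⟩ := X.flat_struct h4 hO hd
      refine ⟨O, hO, X.edge_of_card_three h3 hYT hO (by rintro rfl; omega), by omega, ?_⟩
      intro q hq hdq
      rcases (a4 q).mp hq with rfl | rfl | rfl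
      · rfl
      · omega
      · omega
    · intro q hq _ T hT
      rw [Finset.mem_inter] at hT
      rw [Finset.mem_filter]
      exact ⟨hT.1, q, X.mem_V_iff.mpr hT.2, by omega⟩
  have hle : X.nflat Y ≤ 5 := by
    unfold nflat
    refine le_trans (Finset.card_le_card (Finset.filter_subset _ _)) ?_
    exact le_of_eq hY
  obtain ⟨r, hr⟩ := h
  omega

/-- All degrees at least four implies `n ≤ 21`. -/
theorem le_of_four_le_deg (h4 : ∀ p, 4 ≤ X.deg p) : X.n ≤ 21 := by
  classical
  by_contra hlt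
  have hn : 22 ≤ X.n := by omega
  have hnr : (22 : ℝ) ≤ (X.n : ℝ) := by exact_mod_cast hn
  set G1 : Vert → Tile → ℝ := fun p T =>
    if X.Good2 p then (if X.Star2 T then 3 / 100 else - (3 / 100)) else 0 with hG1
  set G2 : Vert → Tile → ℝ := fun p T =>
    if X.deg p = 5 then (if X.Flat T then (5 - (X.nflat p : ℝ)) / 1000
      else - (X.nflat p : ℝ) / 1000) else 0 with hG2
  have hnf : ∀ p, X.deg p = 5 → (X.nflat p : ℝ) ≤ 4 := by
    intro p hp
    exact_mod_cast X.nflat_le h4 hn hp
  have hnf0 : ∀ p, (0 : ℝ) ≤ (X.nflat p : ℝ) := fun p => Nat.cast_nonneg _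
  have bG1 : ∀ p T, -(3 / 100) ≤ G1 p T ∧ G1 p T ≤ 3 / 100 := by
    intro p T
    rw [hG1]
    dsimp only
    split_ifs <;> norm_num
  have bG2 : ∀ p T, -(4 / 1000) ≤ G2 p T ∧ G2 p T ≤ 5 / 1000 := by
    intro p T
    rw [hG2]
    dsimp only
    have h0 := hnf0 p
    split_ifs with h h'
    · have := hnf p h
      constructor <;> linarith
    · have := hnf p h
      constructor <;> linarith
    · norm_num
  refine X.ap_phi (fun p T => G1 p T + G2 p T) 1 ?_ ?_ (1 / 1000) (by norm_num) ?_
  · intro p T _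
    have h1 := bG1 p T
    have h2 := bG2 p T
    rw [abs_le]
    constructor <;> linarith
  · intro p
    rw [Finset.sum_add_distrib]
    have s1 : ∑ T ∈ X.τ p, G1 p T ≤ 0 := by
      rw [hG1]
      dsimp only
      by_cases hp : X.Good2 p
      · simp only [hp, if_true]
        rw [Finset.sum_ite, Finset.sum_const, Finset.sum_const]
        have h1 : ((X.τ p).filter (fun T => X.Star2 T)).card = 2 := by
          have := (X.good2_struct h4 hn hp).1
          convert this
        have h2 := Finset.card_filter_add_card_filter_not (s := X.τ p) (fun T => X.Star2 T)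
        have h3 : (X.τ p).card = 4 := hp.1
        have h4 : ((X.τ p).filter (fun T => ¬ X.Star2 T)).card = 2 := by omega
        rw [h1, h4]
        norm_num
      · simp [hp]
    have s2 : ∑ T ∈ X.τ p, G2 p T ≤ 0 := by
      rw [hG2]
      dsimp only
      by_cases hp : X.deg p = 5
      · simp only [hp, if_true]
        rw [Finset.sum_ite, Finset.sum_const, Finset.sum_const]
        have h1 : ((X.τ p).filter (fun T => X.Flat T)).card = X.nflat p := by
          unfold nflat
          congr!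
        have h2 := Finset.card_filter_add_card_filter_not (s := X.τ p) (fun T => X.Flat T)
        have h3 : (X.τ p).card = 5 := hp
        have h4 : (((X.τ p).filter (fun T => ¬ X.Flat T)).card : ℝ) = 5 - X.nflat p := by
          have : ((X.τ p).filter (fun T => ¬ X.Flat T)).card + X.nflat p = 5 := by omega
          have : ((((X.τ p).filter (fun T => ¬ X.Flat T)).card + X.nflat p : ℕ) : ℝ) = 5 := by
            rw [this]; norm_num
          push_cast at this
          linarith
        rw [nsmul_eq_mul, nsmul_eq_mul, h1, h4]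
        ring_nf
        exact le_refl _
      · simp [hp]
    linarith
  · intro T
    rw [Finset.sum_add_distrib, Finset.sum_add_distrib]
    have m3 := X.three_le_card_V T
    by_cases hT : X.Star2 T
    · obtain ⟨O, hO, hd⟩ := hT
      obtain ⟨h3, hdeg⟩ := X.star2_struct h4 hO hd
      obtain ⟨A, B, a1, a2, a3, a4, a5⟩ := X.three_struct h3 hO
      have hA : A ∈ X.V T := (a4 A).mpr (by tauto)
      have hB : B ∈ X.V T := (a4 B).mpr (by tauto)
      have sT : X.Star2 T := ⟨O, hO, hd⟩
      have gA : X.Good2 A := ⟨hdeg A hA a1, T, hA, sT⟩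
      have gB : X.Good2 B := ⟨hdeg B hB a2, T, hB, sT⟩
      have gO : ¬ X.Good2 O := fun h => by have := h.1; omega
      have hV : X.V T = {O, A, B} := by
        ext x
        rw [a4 x]
        simp only [Finset.mem_insert, Finset.mem_singleton]
      have n1 : O ∉ ({A, B} : Finset Vert) := by
        simp only [Finset.mem_insert, Finset.mem_singleton, not_or]
        exact ⟨a1.symm, a2.symm⟩
      have e1 : ∀ f : Vert → ℝ, ∑ p ∈ X.V T, f p = f O + (f A + f B) := by
        intro f
        rw [hV, Finset.sum_insert n1, Finset.sum_pair a3]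
      rw [e1, e1, e1]
      have hdr : (X.deg O : ℝ) = (X.n : ℝ) - 2 := by
        have : ((X.deg O + 2 : ℕ) : ℝ) = (X.n : ℝ) := by rw [hd]
        push_cast at this
        linarith
      have g1 : G1 O T = 0 := by rw [hG1]; simp [gO]
      have g2 : G1 A T = 3 / 100 := by rw [hG1]; simp [gA, sT]
      have g3 : G1 B T = 3 / 100 := by rw [hG1]; simp [gB, sT]
      have g4 : G2 O T = 0 := by
        have : X.deg O ≠ 5 := by omega
        rw [hG2]; simp [this]
      have g5 : G2 A T = 0 := by rw [hG2]; simp [hdeg A hA a1]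
      have g6 : G2 B T = 0 := by rw [hG2]; simp [hdeg B hB a2]
      rw [g1, g2, g3, g4, g5, g6, hdeg A hA a1, hdeg B hB a2, hdr]
      have := inv_bound ((X.n : ℝ) - 2) 20 (by norm_num) (by linarith)
      push_cast
      linarith
    · by_cases hF : X.Flat T
      · have hn23 := X.flat_n h4 hn hF
        have hnr23 : (23 : ℝ) ≤ (X.n : ℝ) := by exact_mod_cast hn23
        have fT := hF
        obtain ⟨O, hO, hd⟩ := hF
        obtain ⟨h3, W, Y, a1, a2, a3, a4, a5, a6⟩ := X.flat_struct h4 hO hd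
        have hV : X.V T = {O, W, Y} := by
          ext x
          rw [a4 x]
          simp only [Finset.mem_insert, Finset.mem_singleton]
        have n1 : O ∉ ({W, Y} : Finset Vert) := by
          simp only [Finset.mem_insert, Finset.mem_singleton, not_or]
          exact ⟨a1.symm, a2.symm⟩
        have hWT : W ∈ X.V T := (a4 W).mpr (by tauto)
        have e1 : ∀ f : Vert → ℝ, ∑ p ∈ X.V T, f p = f O + (f W + f Y) := by
          intro f
          rw [hV, Finset.sum_insert n1, Finset.sum_pair a3]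
        rw [e1, e1, e1]
        have hdr : (X.deg O : ℝ) = (X.n : ℝ) - 3 := by
          have : ((X.deg O + 3 : ℕ) : ℝ) = (X.n : ℝ) := by rw [hd]
          push_cast at this
          linarith
        have gO : ¬ X.Good2 O := fun h => by have := h.1; omega
        have gY : ¬ X.Good2 Y := fun h => by have := h.1; omega
        have gW : ¬ X.Good2 W := fun h => by
          have := (X.good2_struct h4 hn h).2 T hWT hT
          omega
        have g1 : G1 O T = 0 := by rw [hG1]; simp [gO]
        have g2 : G1 W T = 0 := by rw [hG1]; simp [gW]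
        have g3 : G1 Y T = 0 := by rw [hG1]; simp [gY]
        have g4 : G2 O T = 0 := by
          have : X.deg O ≠ 5 := by omega
          rw [hG2]; simp [this]
        have g5 : G2 W T = 0 := by rw [hG2]; simp [a5]
        have g6 : 1 / 1000 ≤ G2 Y T := by
          have := hnf Y a6
          rw [hG2]
          simp only [a6, fT, if_true]
          linarith
        rw [g1, g2, g3, g4, g5, a5, a6, hdr]
        have := inv_bound ((X.n : ℝ) - 3) 20 (by norm_num) (by linarith)
        push_cast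
        linarith
      · -- generic tile
        have hG2s : - (4 / 1000) * ((X.V T).card : ℝ) ≤ ∑ p ∈ X.V T, G2 p T := by
          have : ∑ _p ∈ X.V T, (-(4 / 1000) : ℝ) ≤ ∑ p ∈ X.V T, G2 p T :=
            Finset.sum_le_sum (fun p _ => (bG2 p T).1)
          rw [Finset.sum_const, nsmul_eq_mul] at this
          linarith
        have hG1s : - (3 / 100) * ((X.V T).card : ℝ) ≤ ∑ p ∈ X.V T, G1 p T := by
          have : ∑ _p ∈ X.V T, (-(3 / 100) : ℝ) ≤ ∑ p ∈ X.V T, G1 p T :=
            Finset.sum_le_sum (fun p _ => (bG1 p T).1)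
          rw [Finset.sum_const, nsmul_eq_mul] at this
          linarith
        rcases Nat.lt_or_ge (X.V T).card 4 with hm | hm
        · -- m = 3
          have h3 : (X.V T).card = 3 := by omega
          have hG10 : ∑ p ∈ X.V T, G1 p T = 0 := by
            apply Finset.sum_eq_zero
            intro p hp
            have : ¬ X.Good2 p := fun h => by
              have := (X.good2_struct h4 hn h).2 T hp hT
              omega
            rw [hG1]
            simp [this]
          rw [hG10]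
          rw [h3] at hG2s
          push_cast at hG2s
          have hmax : ∀ q ∈ X.V T, X.deg q + 4 ≤ X.n := by
            intro q hq
            have h1 := X.deg_add_two_le h4 hq
            have h2 : X.deg q + 2 ≠ X.n := fun h => hT ⟨q, hq, h⟩
            have h3 : X.deg q + 3 ≠ X.n := fun h => hF ⟨q, hq, h⟩
            omega
          by_cases h5 : ∀ p ∈ X.V T, 5 ≤ X.deg p
          · have hphi := X.phi_ge T 5 (by norm_num) h5
            rw [h3] at hphi
            push_cast at hphi
            have := inv_bound ((X.n : ℝ) + 2 * 3 - 5 * (3 - 1)) 18 (by norm_num) (by linarith)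
            linarith
          · push Not at h5
            obtain ⟨p, hp, hp5⟩ := h5
            have dp : X.deg p = 4 := by have := h4 p; omega
            obtain ⟨A, B, a1, a2, a3, a4, a5⟩ := X.three_struct h3 hp
            have hA : A ∈ X.V T := (a4 A).mpr (by tauto)
            have hB : B ∈ X.V T := (a4 B).mpr (by tauto)
            have hV : X.V T = {p, A, B} := by
              ext x
              rw [a4 x]
              simp only [Finset.mem_insert, Finset.mem_singleton]
            have n1 : p ∉ ({A, B} : Finset Vert) := by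
              simp only [Finset.mem_insert, Finset.mem_singleton, not_or]
              exact ⟨a1.symm, a2.symm⟩
            have e1 : ∀ f : Vert → ℝ, ∑ p ∈ X.V T, f p = f p + (f A + f B) := by
              intro f
              rw [hV, Finset.sum_insert n1, Finset.sum_pair a3]
            have mA := hmax A hA
            have mB := hmax B hB
            have hA6 : 6 ≤ X.deg A := by omega
            have hB6 : 6 ≤ X.deg B := by omega
            have hsum : (X.deg A : ℝ) + X.deg B = X.n + 2 := by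
              have : X.deg A + X.deg B = X.n + 2 := by omega
              exact_mod_cast this
            have rA : (6 : ℝ) ≤ X.deg A := by exact_mod_cast hA6
            have rB : (6 : ℝ) ≤ X.deg B := by exact_mod_cast hB6
            have hkey : 1 / (X.deg A : ℝ) + 1 / (X.deg B : ℝ) ≤
                1 / 6 + 1 / ((X.n : ℝ) - 4) := by
              have hB' : (X.deg B : ℝ) = X.n + 2 - X.deg A := by linarith
              rw [div_add_div _ _ (by linarith) (by linarith), div_add_div _ _ (by norm_num)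
                (by linarith), div_le_div_iff₀ (by nlinarith) (by linarith)]
              rw [hB'] at rB ⊢
              nlinarith [mul_nonneg (by linarith : (0 : ℝ) ≤ (X.deg A : ℝ) - 6)
                (by linarith : (0 : ℝ) ≤ (X.n : ℝ) + 2 - X.deg A - 6)]
            have h18 := inv_bound ((X.n : ℝ) - 4) 18 (by norm_num) (by linarith)
            have e2 := e1 (fun q => 1 / 2 - 1 / (X.deg q : ℝ))
            rw [e2, dp]
            push_cast
            linarith
        · have hphi := X.phi_ge T 4 (by norm_num) (fun p _ => h4 p)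
          push_cast at hphi
          have h2m : 2 * (X.V T).card ≤ X.n := by
            rw [← X.nformula T, mul_comm, ← smul_eq_mul, ← Finset.sum_const]
            apply Finset.sum_le_sum
            intro p _
            have := h4 p
            omega
          have h2mr : 2 * ((X.V T).card : ℝ) ≤ (X.n : ℝ) := by exact_mod_cast h2m
          rcases Nat.lt_or_ge (X.V T).card 5 with hm5 | hm5
          · have hm4 : (X.V T).card = 4 := by omega
            rw [hm4] at hphi hG1s hG2s
            push_cast at hphi hG1s hG2s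
            have h18 := inv_bound ((X.n : ℝ) + 2 * 4 - 4 * (4 - 1)) 18 (by norm_num)
              (by linarith)
            linarith
          · have hm5r : (5 : ℝ) ≤ ((X.V T).card : ℝ) := by exact_mod_cast hm5
            have h18 := inv_bound ((X.n : ℝ) + 2 * ((X.V T).card : ℝ)
              - 4 * (((X.V T).card : ℝ) - 1)) 4 (by norm_num) (by linarith)
            linarith

namespace Tri

variable {X} (R : X.Tri)

include R in
/-- If `α` is neither `1/3` nor `1/4` all vertices have degree at least four. -/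
lemma four_le_deg (h3 : R.α ≠ 1 / 3) (h4 : R.α ≠ 1 / 4) (p : Vert) : 4 ≤ X.deg p := by
  by_contra hlt
  have hd : X.deg p = 3 := by have := X.deg_ge' p; omega
  have hs := R.nS_le p
  have hang := R.angle_sum p
  have hsum := R.sum_angles
  have hγ := R.γ_pos
  have hγβ := R.hγβ
  have hβα := R.hβα
  have hα := R.hα
  have hdeg := R.deg_eq p
  rw [hd] at hdeg
  generalize R.nA p = a at *
  generalize R.nB p = b at *
  generalize R.nC p = c at *
  generalize R.nS p = s at *
  have ha : a ≤ 3 := by omega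
  have hb : b ≤ 3 := by omega
  have hc : c ≤ 3 := by omega
  interval_cases s <;> interval_cases a <;> interval_cases b <;>
    first
    | omega
    | (have hc' : c = 3 := by omega
       subst hc'; norm_num at hang; linarith)
    | (have hc' : c = 2 := by omega
       subst hc'; norm_num at hang; linarith)
    | (have hc' : c = 1 := by omega
       subst hc'; norm_num at hang; linarith)
    | (have hc' : c = 0 := by omega
       subst hc'; norm_num at hang; first | linarith | (apply h3; linarith) | (apply h4; linarith))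

end Tri

/-- **Case T1.** -/
theorem Tri.T1 (X : Tess Tile Vert) (R : X.Tri) (h3 : R.α ≠ 1 / 3) (h4 : R.α ≠ 1 / 4) :
    X.n ≤ 21 :=
  X.le_of_four_le_deg (R.four_le_deg h3 h4)

end Tess

end Pool.Agent.Hhelper50
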