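import Pool.Agent.Hhelper50.TessBase

/-!
# The triangle case with `α = 1/3` (120 degrees)

`Tess.Tri.T3 : R.α = 1/3 → X.n ≤ 21`.
-/

set_option autoImplicit false

namespace Pool.Agent.Hhelper50

open Finset

variable {Tile Vert : Type*} [DecidableEq Tile] [DecidableEq Vert]

namespace T3

variable {X : Tess Tile Vert} (R : X.Tri)

/-! ### Angles -/

lemma corners_subset (T : Tile) : ({R.A T, R.B T, R.C T} : Finset Vert) ⊆ X.V T := by
  intro x hx
  simp only [Finset.mem_insert, Finset.mem_singleton] at hx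
  rcases hx with rfl | rfl | rfl
  · exact R.hA T
  · exact R.hB T
  · exact R.hC T

lemma corners_card (T : Tile) : ({R.A T, R.B T, R.C T} : Finset Vert).card = 3 := by
  rw [Finset.card_eq_three]
  exact ⟨R.A T, R.B T, R.C T, R.hAB T, R.hAC T, R.hBC T, rfl⟩

lemma sum_angles : R.α + R.β + R.γ = 1 / 2 := by
  have h := X.ext_sum X.T₀
  rw [← Finset.sum_subset (corners_subset R X.T₀)] at h
  · rw [Finset.sum_insert, Finset.sum_insert, Finset.sum_singleton, R.angA, R.angB, R.angC] at h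
    · linarith
    · simpa using R.hBC X.T₀
    · simp only [Finset.mem_insert, Finset.mem_singleton, not_or]
      exact ⟨R.hAB _, R.hAC _⟩
  · intro p hp hp'
    simp only [Finset.mem_insert, Finset.mem_singleton, not_or] at hp'
    rw [R.straight _ p hp hp'.1 hp'.2.1 hp'.2.2]
    norm_num

lemma ang_cases {T : Tile} {p : Vert} (hp : p ∈ X.V T) :
    (p = R.A T ∧ X.ang p T = R.α) ∨ (p = R.B T ∧ X.ang p T = R.β) ∨
      (p = R.C T ∧ X.ang p T = R.γ) ∨
      (p ≠ R.A T ∧ p ≠ R.B T ∧ p ≠ R.C T ∧ X.ang p T = 1 / 2) := by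
  by_cases h1 : p = R.A T
  · subst h1; exact Or.inl ⟨rfl, R.angA T⟩
  by_cases h2 : p = R.B T
  · subst h2; exact Or.inr (Or.inl ⟨rfl, R.angB T⟩)
  by_cases h3 : p = R.C T
  · subst h3; exact Or.inr (Or.inr (Or.inl ⟨rfl, R.angC T⟩))
  exact Or.inr (Or.inr (Or.inr ⟨h1, h2, h3, R.straight T p hp h1 h2 h3⟩))

/-- At most one straight tile at each vertex. -/
lemma straight_unique {p : Vert} {S S' : Tile} (hS : S ∈ X.τ p) (hS' : S' ∈ X.τ p)
    (h : X.ang p S = 1 / 2) (h' : X.ang p S' = 1 / 2) : S = S' := by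
  by_contra hne
  have h3 := X.deg_ge p
  have hsum := X.ang_sum p
  have hS1 : S' ∈ (X.τ p).erase S := Finset.mem_erase.mpr ⟨Ne.symm hne, hS'⟩
  rw [← Finset.add_sum_erase _ _ hS, ← Finset.add_sum_erase _ _ hS1, h, h'] at hsum
  have hc : 0 < (((X.τ p).erase S).erase S').card := by
    rw [Finset.card_erase_of_mem hS1, Finset.card_erase_of_mem hS]; omega
  obtain ⟨U, hU⟩ := Finset.card_pos.mp hc
  have hpos : 0 < ∑ T ∈ ((X.τ p).erase S).erase S', X.ang p T := by
    apply Finset.sum_pos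
    · intro T hT
      exact X.ang_pos p T (Finset.mem_of_mem_erase (Finset.mem_of_mem_erase hT))
    · exact ⟨U, hU⟩
  linarith

/-- A tile with three vertices has no straight vertex. -/
lemma V_eq_of_card_three {T : Tile} (h3 : (X.V T).card = 3) :
    X.V T = {R.A T, R.B T, R.C T} := by
  symm
  apply Finset.eq_of_subset_of_card_le (corners_subset R T)
  rw [h3, corners_card]

include R in
lemma lt_half_of_card_three {T : Tile} (h3 : (X.V T).card = 3) {p : Vert} (hp : p ∈ X.V T) :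
    X.ang p T < 1 / 2 := by
  rw [V_eq_of_card_three R h3] at hp
  simp only [Finset.mem_insert, Finset.mem_singleton] at hp
  have h1 := R.hα
  have h2 := R.hβα
  have h4 := R.hγβ
  rcases hp with rfl | rfl | rfl
  · rw [R.angA]; exact h1
  · rw [R.angB]; linarith
  · rw [R.angC]; linarith

include R in
/-- The number of straight vertices of a tile. -/
lemma card_straight (T : Tile) :
    ((X.V T).filter (fun p => X.ang p T = 1 / 2)).card = (X.V T).card - 3 := by
  have h1 : (X.V T).filter (fun p => X.ang p T = 1 / 2) = X.V T \ {R.A T, R.B T, R.C T} := by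
    ext p
    simp only [Finset.mem_filter, Finset.mem_sdiff, Finset.mem_insert, Finset.mem_singleton,
      not_or]
    have hα := R.hα
    have hβ := R.hβα
    have hγ := R.hγβ
    constructor
    · rintro ⟨hp, ha⟩
      refine ⟨hp, ?_, ?_, ?_⟩
      · rintro rfl; rw [R.angA] at ha; linarith
      · rintro rfl; rw [R.angB] at ha; linarith
      · rintro rfl; rw [R.angC] at ha; linarith
    · rintro ⟨hp, h1, h2, h3⟩
      exact ⟨hp, R.straight T p hp h1 h2 h3⟩
  rw [h1, Finset.card_sdiff_of_subset (corners_subset R T), corners_card]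

section
variable (hα : R.α = 1 / 3)
include hα

lemma beta_lt : R.β < 1 / 6 := by
  have := sum_angles R
  have := R.γ_pos
  linarith

lemma eq_A_of_ang {T : Tile} {p : Vert} (hp : p ∈ X.V T) (h : X.ang p T = 1 / 3) :
    p = R.A T := by
  have hβ := beta_lt R hα
  have hγ := R.hγβ
  rcases ang_cases R hp with h1 | h1 | h1 | h1
  · exact h1.1
  · linarith [h1.2]
  · linarith [h1.2]
  · linarith [h1.2.2.2]

/-- degree three vertices -/
lemma deg_three {p : Vert} (h3 : X.deg p = 3) : ∀ T ∈ X.τ p, X.ang p T = 1 / 3 := by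
  have hβ := beta_lt R hα
  have hγ := R.hγβ
  have hγ0 := R.γ_pos
  obtain ⟨T₁, T₂, T₃, h12, h13, h23, heq⟩ := Finset.card_eq_three.mp h3
  have hsum := X.ang_sum p
  have m1 : p ∈ X.V T₁ := X.mem_V_iff.mpr (by rw [heq]; simp)
  have m2 : p ∈ X.V T₂ := X.mem_V_iff.mpr (by rw [heq]; simp)
  have m3 : p ∈ X.V T₃ := X.mem_V_iff.mpr (by rw [heq]; simp)
  rw [heq, Finset.sum_insert (by simp [h12, h13]), Finset.sum_insert (by simp [h23]),
    Finset.sum_singleton] at hsum
  have key : X.ang p T₁ = 1 / 3 ∧ X.ang p T₂ = 1 / 3 ∧ X.ang p T₃ = 1 / 3 := by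
    rcases ang_cases R m1 with ⟨_, a1⟩ | ⟨_, a1⟩ | ⟨_, a1⟩ | ⟨_, _, _, a1⟩ <;>
    rcases ang_cases R m2 with ⟨_, a2⟩ | ⟨_, a2⟩ | ⟨_, a2⟩ | ⟨_, _, _, a2⟩ <;>
    rcases ang_cases R m3 with ⟨_, a3⟩ | ⟨_, a3⟩ | ⟨_, a3⟩ | ⟨_, _, _, a3⟩ <;>
    rw [a1, a2, a3] at hsum <;>
    first
      | (exfalso; linarith)
      | (rw [a1, a2, a3, hα]; exact ⟨rfl, rfl, rfl⟩)
  intro T hT
  rw [heq] at hT
  simp only [Finset.mem_insert, Finset.mem_singleton] at hT
  rcases hT with rfl | rfl | rfl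
  · exact key.1
  · exact key.2.1
  · exact key.2.2

lemma eq_A_of_deg_three {T : Tile} {p : Vert} (hp : p ∈ X.V T) (h3 : X.deg p = 3) :
    p = R.A T :=
  eq_A_of_ang R hα hp (deg_three R hα h3 T (X.mem_V_iff.mp hp))

/-- degree four vertices have a straight tile -/
lemma deg_four {p : Vert} (h4 : X.deg p = 4) : ∃ S ∈ X.τ p, X.ang p S = 1 / 2 := by
  have hβ := beta_lt R hα
  have hγ := R.hγβ
  have hγ0 := R.γ_pos
  by_contra hno
  push Not at hno
  obtain ⟨T₁, T₂, T₃, T₄, h12, h13, h14, h23, h24, h34, heq⟩ := Finset.card_eq_four.mp h4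
  have hsum := X.ang_sum p
  have k1 : T₁ ∈ X.τ p := by rw [heq]; simp
  have k2 : T₂ ∈ X.τ p := by rw [heq]; simp
  have k3 : T₃ ∈ X.τ p := by rw [heq]; simp
  have k4 : T₄ ∈ X.τ p := by rw [heq]; simp
  rw [heq, Finset.sum_insert (by simp [h12, h13, h14]), Finset.sum_insert (by simp [h23, h24]),
    Finset.sum_insert (by simp [h34]), Finset.sum_singleton] at hsum
  have cs : ∀ T ∈ X.τ p, X.ang p T = 1 / 3 ∨ (0 < X.ang p T ∧ X.ang p T < 1 / 6) := by
    intro T hT
    rcases ang_cases R (X.mem_V_iff.mpr hT) with ⟨_, a1⟩ | ⟨_, a1⟩ | ⟨_, a1⟩ | ⟨_, _, _, a1⟩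
    · left; rw [a1, hα]
    · right; rw [a1]; exact ⟨by linarith, hβ⟩
    · right; rw [a1]; exact ⟨hγ0, by linarith⟩
    · exact absurd a1 (hno T hT)
  rcases cs _ k1 with a1 | ⟨a1, b1⟩ <;> rcases cs _ k2 with a2 | ⟨a2, b2⟩ <;>
    rcases cs _ k3 with a3 | ⟨a3, b3⟩ <;> rcases cs _ k4 with a4 | ⟨a4, b4⟩ <;> linarith

/-- In a tile, all vertices except possibly `A T` have degree at least four. -/
lemma four_le {T : Tile} {p : Vert} (hp : p ∈ X.V T) (hne : p ≠ R.A T) : 4 ≤ X.deg p := by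
  have h := X.deg_ge' p
  by_contra hlt
  exact hne (eq_A_of_deg_three R hα hp (by omega))

/-- degree bound -/
lemma deg_bound {T : Tile} {O : Vert} (hO : O ∈ X.V T) (h4 : 4 ≤ X.deg O) :
    X.deg O + 2 * (X.V T).card ≤ X.n + 5 := by
  have hn := X.nformula T
  rw [← Finset.add_sum_erase _ _ hO] at hn
  have hc : ((X.V T).erase O).card = (X.V T).card - 1 := Finset.card_erase_of_mem hO
  have h3 := X.three_le_card_V T
  -- sum over the others
  have hs : 2 * ((X.V T).erase O).card ≤ ∑ q ∈ (X.V T).erase O, (X.deg q - 2) + 1 := by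
    by_cases hA : R.A T ∈ (X.V T).erase O
    · rw [← Finset.add_sum_erase _ _ hA, ← Finset.card_erase_add_one hA]
      have h1 : ((X.V T).erase O |>.erase (R.A T)).card * 2
          ≤ ∑ q ∈ ((X.V T).erase O |>.erase (R.A T)), (X.deg q - 2) := by
        rw [← smul_eq_mul, ← Finset.sum_const]
        apply Finset.sum_le_sum
        intro q hq
        rw [Finset.mem_erase, Finset.mem_erase] at hq
        have := four_le R hα hq.2.2 hq.1
        omega
      have := X.deg_ge' (R.A T)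
      omega
    · have h1 : ((X.V T).erase O).card * 2 ≤ ∑ q ∈ ((X.V T).erase O), (X.deg q - 2) := by
        rw [← smul_eq_mul, ← Finset.sum_const]
        apply Finset.sum_le_sum
        intro q hq
        have hqA : q ≠ R.A T := by rintro rfl; exact hA hq
        have := four_le R hα (Finset.mem_of_mem_erase hq) hqA
        omega
      omega
  omega

/-- Structure of the tiles at a vertex of degree `n - 1`. -/
lemma star_tile {T : Tile} {O : Vert} (hO : O ∈ X.V T) (hn : 22 ≤ X.n)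
    (hd : X.n - 1 ≤ X.deg O) : (X.V T).card = 3 ∧ X.deg O = X.n - 1 ∧
      ∃ W, W ≠ O ∧ W ≠ R.A T ∧ O ≠ R.A T ∧ X.V T = {O, R.A T, W} ∧ X.deg W = 4 ∧
      X.deg (R.A T) = 3 := by
  have h1 := deg_bound R hα hO (by omega)
  have h3 := X.three_le_card_V T
  have hc : (X.V T).card = 3 := by omega
  have hdO : X.deg O = X.n - 1 := by omega
  have hform := X.nformula T
  obtain ⟨x, y, z, hxy, hxz, hyz, heq⟩ := Finset.card_eq_three.mp hc
  -- arrange that x = O
  have key : ∀ a b : Vert, O ≠ a → O ≠ b → a ≠ b → X.V T = {O, a, b} →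
      ∃ W, W ≠ O ∧ W ≠ R.A T ∧ O ≠ R.A T ∧ X.V T = {O, R.A T, W} ∧ X.deg W = 4 ∧
      X.deg (R.A T) = 3 := by
    intro a b hOa hOb hab hV
    rw [hV, Finset.sum_insert (by simp [hOa, hOb]), Finset.sum_pair hab] at hform
    have ha3 := X.deg_ge' a
    have hb3 := X.deg_ge' b
    have ha : a ∈ X.V T := by rw [hV]; simp
    have hb : b ∈ X.V T := by rw [hV]; simp
    have : X.deg a = 3 ∨ X.deg b = 3 := by omega
    rcases this with h | h
    · have hA := eq_A_of_deg_three R hα ha h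
      refine ⟨b, hOb.symm, ?_, ?_, ?_, ?_, ?_⟩
      · rw [← hA]; exact hab.symm
      · rw [← hA]; exact hOa
      · rw [← hA]; exact hV
      · omega
      · rw [← hA]; exact h
    · have hA := eq_A_of_deg_three R hα hb h
      refine ⟨a, hOa.symm, ?_, ?_, ?_, ?_, ?_⟩
      · rw [← hA]; exact hab
      · rw [← hA]; exact hOb
      · rw [← hA, hV, Finset.pair_comm]
      · omega
      · rw [← hA]; exact h
  refine ⟨hc, hdO, ?_⟩
  rw [heq] at hO
  simp only [Finset.mem_insert, Finset.mem_singleton] at hO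
  rcases hO with rfl | rfl | rfl
  · exact key y z hxy hxz hyz heq
  · exact key x z hxy.symm hyz hxz (by rw [heq, Finset.insert_comm])
  · refine key x y hxz.symm hyz.symm hxy ?_
    rw [heq]
    ext v; simp only [Finset.mem_insert, Finset.mem_singleton]; tauto

/-- No vertex of degree `≥ n - 1`. -/
theorem deg_le (hn : 22 ≤ X.n) (O : Vert) : X.deg O ≤ X.n - 2 := by
  by_contra hlt
  have hd : X.n - 1 ≤ X.deg O := by omega
  have hβ := beta_lt R hα
  have hγ := R.hγβ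
  -- choose the partner
  have hpart : ∀ T ∈ X.τ O, ∃ T' ∈ X.τ O, T' ≠ T ∧ (∃ W, X.deg W = 4 ∧ W ∈ X.V T ∧ W ∈ X.V T') ∧
      X.ang O T + X.ang O T' = 1 / 6 := by
    intro T hT
    have hOT := X.mem_V_iff.mpr hT
    obtain ⟨hc, hdO, W, hWO, hWA, hOA, hV, hW4, hA3⟩ := star_tile R hα hOT hn hd
    have hWT : W ∈ X.V T := by rw [hV]; simp
    obtain ⟨T', hne, hOT', hWT', hτ, hVV⟩ :=
      Tess.Edge.other X (X.edge_of_card_three hc hOT hWT hWO.symm) hOT hWT
    have hT' : T' ∈ X.τ O := X.mem_V_iff.mp hOT'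
    refine ⟨T', hT', hne, ⟨W, hW4, hWT, hWT'⟩, ?_⟩
    -- angle sums
    have angs : ∀ U, O ∈ X.V U → W ∈ X.V U → X.ang O U + X.ang W U = 1 / 6 := by
      intro U hOU hWU
      obtain ⟨hc', _, W', hWO', hWA', hOA', hV', hW4', hA3'⟩ := star_tile R hα hOU hn hd
      have hWW : W = W' := by
        rw [hV'] at hWU
        simp only [Finset.mem_insert, Finset.mem_singleton] at hWU
        rcases hWU with h | h | h
        · exact absurd h hWO
        · exfalso; rw [h] at hW4; omega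
        · exact h
      subst hWW
      have hext := X.ext_sum U
      rw [hV', Finset.sum_insert (by simp [hOA', hWO.symm]), Finset.sum_pair hWA'.symm,
        R.angA, hα] at hext
      linarith
    have h1 := angs T hOT hWT
    have h2 := angs T' hOT' hWT'
    have hc' : (X.V T').card = 3 := (star_tile R hα hOT' hn hd).1
    have hl1 := lt_half_of_card_three R hc hWT
    have hl2 := lt_half_of_card_three R hc' hWT'
    -- the remaining tiles at W
    obtain ⟨S, hS, hSa⟩ := deg_four R hα hW4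
    have hST : S ≠ T := by rintro rfl; linarith
    have hST' : S ≠ T' := by rintro rfl; linarith
    have hcard : ((((X.τ W).erase T).erase T').erase S).card = 1 := by
      have hm1 : T ∈ X.τ W := X.mem_V_iff.mp hWT
      have hm2 : T' ∈ (X.τ W).erase T := Finset.mem_erase.mpr ⟨hne, X.mem_V_iff.mp hWT'⟩
      have hm3 : S ∈ ((X.τ W).erase T).erase T' :=
        Finset.mem_erase.mpr ⟨hST', Finset.mem_erase.mpr ⟨hST, hS⟩⟩
      rw [Finset.card_erase_of_mem hm3, Finset.card_erase_of_mem hm2,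
        Finset.card_erase_of_mem hm1]
      have : (X.τ W).card = 4 := hW4
      omega
    obtain ⟨Y, hY⟩ := Finset.card_eq_one.mp hcard
    have hsum := X.ang_sum W
    have hm1 : T ∈ X.τ W := X.mem_V_iff.mp hWT
    have hm2 : T' ∈ (X.τ W).erase T := Finset.mem_erase.mpr ⟨hne, X.mem_V_iff.mp hWT'⟩
    have hm3 : S ∈ ((X.τ W).erase T).erase T' :=
      Finset.mem_erase.mpr ⟨hST', Finset.mem_erase.mpr ⟨hST, hS⟩⟩
    rw [← Finset.add_sum_erase _ _ hm1, ← Finset.add_sum_erase _ _ hm2,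
      ← Finset.add_sum_erase _ _ hm3, hY, Finset.sum_singleton, hSa] at hsum
    have hYm : Y ∈ (((X.τ W).erase T).erase T').erase S := by rw [hY]; simp
    simp only [Finset.mem_erase] at hYm
    have hposO := X.ang_pos O T hT
    have hposO' := X.ang_pos O T' hT'
    rcases ang_cases R (X.mem_V_iff.mpr hYm.2.2.2) with ⟨_, a⟩ | ⟨_, a⟩ | ⟨_, a⟩ | ⟨_, _, _, a⟩
    · rw [a, hα] at hsum; linarith
    · rw [a] at hsum; linarith
    · rw [a] at hsum; linarith
    · exact absurd (straight_unique hYm.2.2.2 hS a hSa) hYm.1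
  choose! σ hσ1 hσ2 hσ3 hσ4 using hpart
  -- σ is an involution on τ O
  have hinv : ∀ T ∈ X.τ O, σ (σ T) = T := by
    intro T hT
    have hT' := hσ1 T hT
    have hT'' := hσ1 _ hT'
    obtain ⟨W, hW4, hWT, hWT'⟩ := hσ3 T hT
    obtain ⟨W', hW4', hW1', hW2'⟩ := hσ3 _ hT'
    obtain ⟨hc, hdO, W₂, hWO, hWA, hOA, hV, hW4'', hA3⟩ :=
      star_tile R hα (X.mem_V_iff.mpr hT') hn hd
    have e1 : ∀ w, X.deg w = 4 → w ∈ X.V (σ T) → w = W₂ := by
      intro w hw hwT
      rw [hV] at hwT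
      simp only [Finset.mem_insert, Finset.mem_singleton] at hwT
      rcases hwT with h | h | h
      · exfalso; rw [h] at hw; omega
      · exfalso; rw [h] at hw; omega
      · exact h
    have e2 := e1 W hW4 hWT'
    have e3 := e1 W' hW4' hW1'
    have hWW : W' = W := e3.trans e2.symm
    subst hWW
    have hOW : O ≠ W' := by rintro rfl; omega
    have hτ := X.inter_τ_eq (hσ2 T hT) hOW (X.mem_V_iff.mpr hT') (X.mem_V_iff.mpr hT) hWT' hWT
    have hmem : σ (σ T) ∈ X.τ O ∩ X.τ W' :=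
      Finset.mem_inter.mpr ⟨hT'', X.mem_V_iff.mp hW2'⟩
    rw [hτ] at hmem
    simp only [Finset.mem_insert, Finset.mem_singleton] at hmem
    rcases hmem with h | h
    · exact absurd h (hσ2 _ hT')
    · exact h
  have hsum := X.ang_sum O
  have hsum2 : ∑ T ∈ X.τ O, X.ang O (σ T) = 1 := by
    rw [← hsum]
    exact Finset.sum_nbij' σ σ hσ1 hσ1 hinv hinv (fun T _ => rfl)
  have hsum3 : ∑ T ∈ X.τ O, (X.ang O T + X.ang O (σ T)) = ∑ _T ∈ X.τ O, (1 / 6 : ℝ) :=
    Finset.sum_congr rfl hσ4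
  rw [Finset.sum_add_distrib, hsum, hsum2, Finset.sum_const, nsmul_eq_mul] at hsum3
  have hge : (21 : ℝ) ≤ ((X.τ O).card : ℝ) := by
    have : 21 ≤ (X.τ O).card := by
      have : X.deg O = (X.τ O).card := rfl
      omega
    exact_mod_cast this
  linarith

end

/-! ### Numerical lemmas -/

/-- lower bound function for a vertex contribution with payments -/
noncomputable def fp (d : ℕ) : ℝ := 1 / 2 - 1 / (d : ℝ) - if d = 4 then 153 / 2000 else 0

/-- contribution of a vertex for a free triangle -/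
noncomputable def gp (d : ℕ) : ℝ := 1 / 2 - 1 / (d : ℝ) + if d = 4 then 51 / 2000 else 0

lemma inv_le {d k : ℕ} (hk : 0 < k) (h : k ≤ d) : 1 / (d : ℝ) ≤ 1 / (k : ℝ) := by
  apply one_div_le_one_div_of_le
  · exact_mod_cast hk
  · exact_mod_cast h

lemma inv_pos' {d : ℕ} (hd : 0 < d) : 0 < 1 / (d : ℝ) := by
  have : (0 : ℝ) < d := by exact_mod_cast hd
  positivity

lemma gp_four : gp 4 = 551 / 2000 := by unfold gp; norm_num

lemma gp_ge {d k : ℕ} (hk : 0 < k) (h : k ≤ d) : 1 / 2 - 1 / (k : ℝ) ≤ gp d := by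
  unfold gp
  have := inv_le hk h
  split_ifs <;> linarith

lemma fp_four : fp 4 = 347 / 2000 := by unfold fp; norm_num

lemma fp_eq {d : ℕ} (h : 5 ≤ d) : fp d = 1 / 2 - 1 / (d : ℝ) := by
  unfold fp
  rw [if_neg (by omega)]
  ring

lemma fp_ge {d k : ℕ} (hk : 5 ≤ k) (h : k ≤ d) : 1 / 2 - 1 / (k : ℝ) ≤ fp d := by
  rw [fp_eq (by omega)]
  have := inv_le (by omega : 0 < k) h
  linarith

lemma fp_ge_four {d : ℕ} (h : 4 ≤ d) : 347 / 2000 ≤ fp d := by
  rcases (show d = 4 ∨ 5 ≤ d by omega) with rfl | h5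
  · rw [fp_four]
  · have := fp_ge (le_refl 5) h5
    norm_num at this ⊢
    linarith

lemma num_free_sorted (a b c : ℕ) (ha : 4 ≤ a) (hab : a ≤ b) (hbc : b ≤ c)
    (h : 28 ≤ a + b + c) : 1 + 1 / 1000 ≤ gp a + gp b + gp c := by
  rcases (show a = 4 ∨ a = 5 ∨ 6 ≤ a by omega) with rfl | rfl | ha6
  · rcases (show b = 4 ∨ b = 5 ∨ 6 ≤ b by omega) with rfl | rfl | hb6
    · have := gp_ge (by norm_num : 0 < 20) (by omega : 20 ≤ c)
      rw [gp_four]; norm_num at this ⊢; linarith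
    · have := gp_ge (by norm_num : 0 < 19) (by omega : 19 ≤ c)
      have h5 := gp_ge (by norm_num : 0 < 5) (le_refl 5)
      rw [gp_four]; norm_num at this h5 ⊢; linarith
    · have := gp_ge (by norm_num : 0 < 12) (by omega : 12 ≤ c)
      have h5 := gp_ge (by norm_num : 0 < 6) hb6
      rw [gp_four]; norm_num at this h5 ⊢; linarith
  · have h1 := gp_ge (by norm_num : 0 < 5) (le_refl 5)
    rcases (show b = 5 ∨ 6 ≤ b by omega) with rfl | hb6
    · have := gp_ge (by norm_num : 0 < 18) (by omega : 18 ≤ c)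
      norm_num at this h1 ⊢; linarith
    · have := gp_ge (by norm_num : 0 < 12) (by omega : 12 ≤ c)
      have h5 := gp_ge (by norm_num : 0 < 6) hb6
      norm_num at this h1 h5 ⊢; linarith
  · have h1 := gp_ge (by norm_num : 0 < 6) ha6
    have h2 := gp_ge (by norm_num : 0 < 6) (by omega : 6 ≤ b)
    have h3 := gp_ge (by norm_num : 0 < 10) (by omega : 10 ≤ c)
    norm_num at h1 h2 h3 ⊢; linarith

lemma num_free (a b c : ℕ) (ha : 4 ≤ a) (hb : 4 ≤ b) (hc : 4 ≤ c)
    (h : 28 ≤ a + b + c) : 1 + 1 / 1000 ≤ gp a + gp b + gp c := by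
  rcases le_total a b with h1 | h1 <;> rcases le_total b c with h2 | h2 <;>
    rcases le_total a c with h3 | h3
  · exact num_free_sorted a b c ha h1 h2 h
  · exact num_free_sorted a b c ha h1 h2 h
  · have := num_free_sorted a c b ha h3 h2 (by omega); linarith
  · have := num_free_sorted c a b hc h3 h1 (by omega); linarith
  · have := num_free_sorted b a c hb h1 h3 (by omega); linarith
  · have := num_free_sorted b c a hb h2 h3 (by omega); linarith
  · have := num_free_sorted c b a hc h2 h1 (by omega); linarith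
  · have := num_free_sorted c b a hc h2 h1 (by omega); linarith

lemma fp_merge (a b : ℕ) (ha : 4 ≤ a) (hb : 4 ≤ b) : fp (a + b - 2) ≤ fp a + fp b := by
  have h1 : fp (a + b - 2) ≤ 1 / 2 := by
    rw [fp_eq (by omega)]
    have := inv_pos' (by omega : 0 < a + b - 2)
    linarith
  have key : ∀ b, 4 ≤ b → fp (4 + b - 2) ≤ fp 4 + fp b := by
    intro b hb
    rcases (show b = 4 ∨ b = 5 ∨ 6 ≤ b by omega) with rfl | rfl | hb6
    · have : fp 6 = 1 / 3 := by rw [fp_eq (by norm_num)]; norm_num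
      rw [show 4 + 4 - 2 = 6 from rfl, this, fp_four]; norm_num
    · have e1 : fp 7 = 1 / 2 - 1 / 7 := by rw [fp_eq (by norm_num)]; norm_num
      have e2 : fp 5 = 1 / 2 - 1 / 5 := by rw [fp_eq (by norm_num)]; norm_num
      rw [show 4 + 5 - 2 = 7 from rfl, e1, fp_four, e2]; norm_num
    · have h2 := fp_ge (by norm_num : 5 ≤ 6) hb6
      have h3 : fp (4 + b - 2) ≤ 1 / 2 := by
        rw [fp_eq (by omega)]
        have := inv_pos' (by omega : 0 < 4 + b - 2)
        linarith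
      rw [fp_four]; norm_num at h2 ⊢; linarith
  rcases (show a = 4 ∨ 5 ≤ a by omega) with rfl | ha5
  · exact key b hb
  · rcases (show b = 4 ∨ 5 ≤ b by omega) with rfl | hb5
    · have := key a ha
      rw [show 4 + a - 2 = a + 4 - 2 by omega] at this
      linarith
    · have h2 := fp_ge (le_refl 5) ha5
      have h3 := fp_ge (le_refl 5) hb5
      norm_num at h2 h3 ⊢; linarith

lemma fp_merge_finset {ι : Type*} [DecidableEq ι] (s : Finset ι) (hs : s.Nonempty) (d : ι → ℕ)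
    (hd : ∀ i ∈ s, 4 ≤ d i) :
    fp (2 + ∑ i ∈ s, (d i - 2)) ≤ ∑ i ∈ s, fp (d i) := by
  induction s using Finset.induction_on with
  | empty => exact absurd hs (by simp)
  | insert a s ha ih =>
    have hda := hd a (Finset.mem_insert_self a s)
    rcases s.eq_empty_or_nonempty with rfl | hne
    · simp only [insert_empty_eq, Finset.sum_singleton]
      rw [show 2 + (d a - 2) = d a by omega]
    · have ih' := ih hne (fun i hi => hd i (Finset.mem_insert_of_mem hi))
      obtain ⟨i, hi⟩ := hne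
      have h2 : 2 ≤ ∑ i ∈ s, (d i - 2) := by
        have h3 := hd i (Finset.mem_insert_of_mem hi)
        calc 2 ≤ d i - 2 := by omega
          _ ≤ ∑ i ∈ s, (d i - 2) :=
            Finset.single_le_sum (f := fun i => d i - 2) (fun _ _ => Nat.zero_le _) hi
      rw [Finset.sum_insert ha, Finset.sum_insert ha]
      have := fp_merge (d a) (2 + ∑ i ∈ s, (d i - 2)) hda (by omega)
      rw [show d a + (2 + ∑ i ∈ s, (d i - 2)) - 2 = 2 + ((d a - 2) + ∑ i ∈ s, (d i - 2)) by omega]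
        at this
      linarith

/-- G0 -/
lemma num_G0 (n a b c : ℕ) (hn : 22 ≤ n) (h1 : a + b = n + 3) (h2 : a + c = n + 3)
    (h3 : b + c = n + 3) :
    3 / 1000 ≤ (1 / 6 + (1 / 2 - 1 / (a : ℝ)) + (1 / 2 - 1 / (b : ℝ)) - 1)
      + (1 / 6 + (1 / 2 - 1 / (a : ℝ)) + (1 / 2 - 1 / (c : ℝ)) - 1)
      + (1 / 6 + (1 / 2 - 1 / (b : ℝ)) + (1 / 2 - 1 / (c : ℝ)) - 1) := by
  have e1 := inv_le (by norm_num : 0 < 13) (by omega : 13 ≤ a)
  have e2 := inv_le (by norm_num : 0 < 13) (by omega : 13 ≤ b)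
  have e3 := inv_le (by norm_num : 0 < 13) (by omega : 13 ≤ c)
  norm_num at e1 e2 e3 ⊢; linarith

/-- G1: `a` is the degree of the vertex opposite the big tile, `d` the two others. -/
lemma num_G1 (n a d : ℕ) (hn : 22 ≤ n) (hd : 5 ≤ d) (h1 : a + d = n + 3)
    (h2 : d + d ≤ n + 1) :
    3 / 1000 ≤ (1 / 6 + fp d + fp d + fp (n + 5 - d - d) - 1)
      + 2 * (1 / 6 + (1 / 2 - 1 / (a : ℝ)) + (1 / 2 - 1 / (d : ℝ)) - 1) := by
  rw [fp_eq hd]
  rcases (show d = 5 ∨ d = 6 ∨ (7 ≤ d ∧ 2 * d ≤ n) ∨ (2 * d = n + 1) by omega) with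
    rfl | rfl | ⟨h7, h8⟩ | h9
  · have e1 := inv_le (by norm_num : 0 < 20) (by omega : 20 ≤ a)
    have e2 := fp_ge (by norm_num : 5 ≤ 17) (by omega : 17 ≤ n + 5 - 5 - 5)
    norm_num at e1 e2 ⊢; linarith
  · have e1 := inv_le (by norm_num : 0 < 19) (by omega : 19 ≤ a)
    have e2 := fp_ge (by norm_num : 5 ≤ 15) (by omega : 15 ≤ n + 5 - 6 - 6)
    norm_num at e1 e2 ⊢; linarith
  · have e1 := inv_le (by norm_num : 0 < 13) (by omega : 13 ≤ a)
    have e2 := fp_ge (le_refl 5) (by omega : 5 ≤ n + 5 - d - d)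
    have e3 := inv_le (by norm_num : 0 < 7) h7
    norm_num at e1 e2 e3 ⊢; linarith
  · have e1 := inv_le (by norm_num : 0 < 12) (by omega : 12 ≤ a)
    have e3 := inv_le (by norm_num : 0 < 12) (by omega : 12 ≤ d)
    rw [show n + 5 - d - d = 4 by omega, fp_four]
    norm_num at e1 e3 ⊢; linarith

/-- G2, sorted -/
lemma num_G2_sorted (n a b c : ℕ) (hn : 22 ≤ n) (hc : 4 ≤ c) (h1 : a + b = n + 3)
    (h2 : b + c ≤ n + 1) (h3 : a + c ≤ n + 1) (hab : a ≤ b) :
    3 / 1000 ≤ (1 / 6 + fp b + fp c + fp (n + 5 - b - c) - 1)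
      + (1 / 6 + fp a + fp c + fp (n + 5 - a - c) - 1)
      + (1 / 6 + (1 / 2 - 1 / (a : ℝ)) + (1 / 2 - 1 / (b : ℝ)) - 1) := by
  have ha : 6 ≤ a := by omega
  rw [fp_eq (by omega : 5 ≤ a), fp_eq (by omega : 5 ≤ b)]
  rcases (show c = 4 ∨ 5 ≤ c by omega) with rfl | hc5
  · rw [fp_four]
    rcases (show a = 6 ∨ a = 7 ∨ 8 ≤ a by omega) with rfl | rfl | h8
    · have e1 := fp_ge (by norm_num : 5 ≤ 17) (by omega : 17 ≤ n + 5 - 6 - 4)
      have e2 := inv_le (by norm_num : 0 < 19) (by omega : 19 ≤ b)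
      rw [show n + 5 - b - 4 = 4 by omega, fp_four]
      norm_num at e1 e2 ⊢; linarith
    · have e1 := fp_ge (by norm_num : 5 ≤ 16) (by omega : 16 ≤ n + 5 - 7 - 4)
      have e2 := inv_le (by norm_num : 0 < 18) (by omega : 18 ≤ b)
      have e3 := fp_ge (by norm_num : 5 ≤ 5) (by omega : 5 ≤ n + 5 - b - 4)
      norm_num at e1 e2 e3 ⊢; linarith
    · have e1 := fp_ge (by norm_num : 5 ≤ 6) (by omega : 6 ≤ n + 5 - b - 4)
      have e2 := fp_ge (by norm_num : 5 ≤ 6) (by omega : 6 ≤ n + 5 - a - 4)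
      have e3 := inv_le (by norm_num : 0 < 8) h8
      have e4 := inv_le (by norm_num : 0 < 13) (by omega : 13 ≤ b)
      norm_num at e1 e2 e3 e4 ⊢; linarith
  · rw [fp_eq hc5]
    have e0 := inv_le (by norm_num : 0 < 5) hc5
    have e1 := fp_ge_four (by omega : 4 ≤ n + 5 - b - c)
    have e2 := fp_ge_four (by omega : 4 ≤ n + 5 - a - c)
    have e4 := inv_le (by norm_num : 0 < 13) (by omega : 13 ≤ b)
    rcases (show a = 7 ∨ 8 ≤ a by omega) with rfl | h8
    · have e3 := inv_le (by norm_num : 0 < 18) (by omega : 18 ≤ b)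
      norm_num at e0 e1 e2 e3 e4 ⊢; linarith
    · have e3 := inv_le (by norm_num : 0 < 8) h8
      norm_num at e0 e1 e2 e3 e4 ⊢; linarith

lemma num_G2 (n a b c : ℕ) (hn : 22 ≤ n) (hc : 4 ≤ c) (h1 : a + b = n + 3)
    (h2 : b + c ≤ n + 1) (h3 : a + c ≤ n + 1) :
    3 / 1000 ≤ (1 / 6 + fp b + fp c + fp (n + 5 - b - c) - 1)
      + (1 / 6 + fp a + fp c + fp (n + 5 - a - c) - 1)
      + (1 / 6 + (1 / 2 - 1 / (a : ℝ)) + (1 / 2 - 1 / (b : ℝ)) - 1) := by
  rcases le_total a b with h | h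
  · exact num_G2_sorted n a b c hn hc h1 h2 h3 h
  · have := num_G2_sorted n b a c hn hc (by omega) h3 h2 h
    linarith

/-! ### Payments -/

/-- free small tiles: exactly three vertices, none of degree three -/
def Free (X : Tess Tile Vert) (T : Tile) : Prop :=
  (X.V T).card = 3 ∧ ∀ p ∈ X.V T, X.deg p ≠ 3

open Classical in
/-- payments at vertices of degree four -/
noncomputable def pay (X : Tess Tile Vert) (p : Vert) (T : Tile) : ℝ :=
  if X.deg p = 4 then
    (if Free X T then 51 / 2000 else 0)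
      - (if X.ang p T = 1 / 2 then 51 / 2000 * (((X.τ p).filter (Free X)).card : ℝ) else 0)
  else 0

/-- value of a tile -/
noncomputable def val (X : Tess Tile Vert) (T : Tile) : ℝ :=
  ∑ p ∈ X.V T, (1 / 2 - 1 / (X.deg p : ℝ) + pay X p T) - 1

/-- pooling at vertices of degree three -/
noncomputable def pool (X : Tess Tile Vert) (p : Vert) (T : Tile) : ℝ :=
  if X.deg p = 3 then (∑ S ∈ X.τ p, val X S) / 3 - val X T else 0

lemma pool_sum (p : Vert) : ∑ T ∈ X.τ p, pool X p T = 0 := by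
  unfold pool
  split_ifs with h
  · rw [Finset.sum_sub_distrib, Finset.sum_const, nsmul_eq_mul]
    have : (X.τ p).card = 3 := h
    rw [this]
    push_cast
    ring
  · simp

lemma pay_bound (p : Vert) (T : Tile) : |pay X p T| ≤ 1 := by
  classical
  unfold pay
  have hc : (X.deg p = 4) → (((X.τ p).filter (Free X)).card : ℝ) ≤ 4 := by
    intro h
    have h1 : ((X.τ p).filter (Free X)).card ≤ (X.τ p).card := Finset.card_filter_le _ _
    have h2 : (X.τ p).card = 4 := h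
    rw [h2] at h1
    exact_mod_cast h1
  have h0 : (0 : ℝ) ≤ (((X.τ p).filter (Free X)).card : ℝ) := Nat.cast_nonneg _
  by_cases h4 : X.deg p = 4
  · have := hc h4
    rw [if_pos h4]
    rw [abs_le]
    constructor
    · split_ifs <;> linarith
    · split_ifs <;> linarith
  · rw [if_neg h4]
    norm_num

lemma val_bound (T : Tile) : |val X T| ≤ 2 * X.n + 1 := by
  unfold val
  have h1 : |∑ p ∈ X.V T, (1 / 2 - 1 / (X.deg p : ℝ) + pay X p T)| ≤ ∑ p ∈ X.V T, (2 : ℝ) := by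
    refine le_trans (Finset.abs_sum_le_sum_abs _ _) (Finset.sum_le_sum ?_)
    intro p _
    have hb := abs_le.mp (pay_bound (X := X) p T)
    have hd := X.deg_ge' p
    have h2 := inv_le (by norm_num : 0 < 3) hd
    have h3 := inv_pos' (by omega : 0 < X.deg p)
    push_cast at h2
    rw [abs_le]
    constructor <;> linarith [hb.1, hb.2]
  rw [Finset.sum_const, nsmul_eq_mul] at h1
  have h2 : ((X.V T).card : ℝ) ≤ X.n := by exact_mod_cast X.card_V_le T
  rw [abs_le] at h1 ⊢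
  constructor <;> linarith [h1.1, h1.2]

lemma pool_bound (p : Vert) (T : Tile) : |pool X p T| ≤ 4 * X.n + 2 := by
  unfold pool
  split_ifs with h
  · have h1 : |∑ S ∈ X.τ p, val X S| ≤ ∑ S ∈ X.τ p, (2 * (X.n : ℝ) + 1) :=
      le_trans (Finset.abs_sum_le_sum_abs _ _) (Finset.sum_le_sum (fun S _ => val_bound S))
    rw [Finset.sum_const, nsmul_eq_mul] at h1
    have h3 : (X.τ p).card = 3 := h
    rw [h3] at h1
    have h2 := val_bound (X := X) T
    rw [abs_le] at h1 h2 ⊢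
    push_cast at h1
    constructor <;> linarith [h1.1, h1.2, h2.1, h2.2]
  · rw [abs_zero]
    positivity

section
variable (hα : R.α = 1 / 3)
include hα

omit hα in
include R in
/-- straight tiles are not free -/
lemma not_free_of_straight {p : Vert} {T : Tile} (hp : p ∈ X.V T) (h : X.ang p T = 1 / 2) :
    ¬ Free X T := by
  intro hF
  have := lt_half_of_card_three R hF.1 hp
  linarith

lemma pay_sum (p : Vert) : ∑ T ∈ X.τ p, pay X p T = 0 := by
  classical
  unfold pay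
  by_cases h4 : X.deg p = 4
  · simp only [h4, if_true]
    rw [Finset.sum_sub_distrib]
    obtain ⟨S, hS, hSa⟩ := deg_four R hα h4
    have h1 : ∑ T ∈ X.τ p, (if X.ang p T = 1 / 2 then
        51 / 2000 * (((X.τ p).filter (Free X)).card : ℝ) else 0)
        = 51 / 2000 * (((X.τ p).filter (Free X)).card : ℝ) := by
      rw [Finset.sum_eq_single_of_mem S hS]
      · rw [if_pos hSa]
      · intro T hT hne
        rw [if_neg]
        intro h
        exact hne (straight_unique hT hS h hSa)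
    rw [h1, ← Finset.sum_filter, Finset.sum_const, nsmul_eq_mul]
    ring
  · simp [h4]

omit hα in
include R in
lemma pay_ge {p : Vert} {T : Tile} (hp : p ∈ X.V T) :
    -(if X.deg p = 4 ∧ X.ang p T = 1 / 2 then 153 / 2000 else 0) ≤ pay X p T := by
  classical
  unfold pay
  by_cases h4 : X.deg p = 4
  · by_cases ha : X.ang p T = 1 / 2
    · rw [if_pos h4, if_pos ha, if_pos ⟨h4, ha⟩]
      have h1 : ((X.τ p).filter (Free X)) ⊆ (X.τ p).erase T := by
        intro S hS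
        rw [Finset.mem_filter] at hS
        refine Finset.mem_erase.mpr ⟨?_, hS.1⟩
        rintro rfl
        exact not_free_of_straight R hp ha hS.2
      have h2 := Finset.card_le_card h1
      rw [Finset.card_erase_of_mem (X.mem_V_iff.mp hp)] at h2
      have h3 : (X.τ p).card = 4 := h4
      have h5 : (((X.τ p).filter (Free X)).card : ℝ) ≤ 3 := by
        have : ((X.τ p).filter (Free X)).card ≤ 3 := by omega
        exact_mod_cast this
      split_ifs <;> linarith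
    · rw [if_pos h4, if_neg ha, if_neg (fun h => ha h.2)]
      split_ifs <;> norm_num
  · rw [if_neg h4, if_neg (fun h => h4 h.1)]
    norm_num

omit hα in
include R in
lemma term_ge_fp {p : Vert} {T : Tile} (hp : p ∈ X.V T) :
    fp (X.deg p) ≤ 1 / 2 - 1 / (X.deg p : ℝ) + pay X p T := by
  have h := pay_ge R hp
  unfold fp
  by_cases h4 : X.deg p = 4
  · rw [if_pos h4]
    split_ifs at h <;> linarith
  · rw [if_neg (fun h => h4 h.1)] at h
    rw [if_neg h4]
    linarith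

omit hα in
include R in
lemma pay_nonneg {p : Vert} {T : Tile} (hp : p ∈ X.V T) (h3 : (X.V T).card = 3) :
    0 ≤ pay X p T := by
  have h := pay_ge R hp
  have h1 := lt_half_of_card_three R h3 hp
  rw [if_neg (fun h => by linarith [h.2])] at h
  linarith

omit hα in
include R in
/-- crude lower bound of the value -/
lemma val_ge_phi (T : Tile) :
    ∑ p ∈ X.V T, (1 / 2 - 1 / (X.deg p : ℝ)) - 153 / 2000 * (((X.V T).card : ℝ) - 3)
      ≤ 1 + val X T := by
  have h1 : ∑ p ∈ X.V T, (-(if X.ang p T = 1 / 2 then 153 / 2000 else 0) : ℝ)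
      ≤ ∑ p ∈ X.V T, pay X p T := by
    apply Finset.sum_le_sum
    intro p hp
    have h := pay_ge R hp
    by_cases ha : X.ang p T = 1 / 2
    · rw [if_pos ha]
      split_ifs at h <;> linarith
    · rw [if_neg ha]
      rw [if_neg (fun h => ha h.2)] at h
      exact h
  rw [Finset.sum_neg_distrib, ← Finset.sum_filter, Finset.sum_const, nsmul_eq_mul,
    card_straight R T, Nat.cast_sub (X.three_le_card_V T)] at h1
  unfold val
  rw [Finset.sum_add_distrib]
  push_cast at h1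
  linarith

omit hα in
include R in
/-- Value of tiles without vertices of degree three. -/
lemma val_free (hn : 22 ≤ X.n) (T : Tile) (hno : ∀ p ∈ X.V T, X.deg p ≠ 3) :
    1 / 1000 ≤ val X T := by
  classical
  have h3 := X.three_le_card_V T
  have hd4 : ∀ p ∈ X.V T, 4 ≤ X.deg p := by
    intro p hp
    have := X.deg_ge' p
    have := hno p hp
    omega
  have hn' : (22 : ℝ) ≤ X.n := by exact_mod_cast hn
  rcases (show (X.V T).card = 3 ∨ (X.V T).card = 4 ∨ 5 ≤ (X.V T).card by omega) with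
    hc | hc | hc
  · -- three vertices
    have hF : Free X T := ⟨hc, hno⟩
    have h1 : ∀ p ∈ X.V T, gp (X.deg p) ≤ 1 / 2 - 1 / (X.deg p : ℝ) + pay X p T := by
      intro p hp
      unfold gp pay
      by_cases h4 : X.deg p = 4
      · have hlt := lt_half_of_card_three R hc hp
        rw [if_pos h4, if_pos h4, if_pos hF, if_neg (by linarith)]
        linarith
      · rw [if_neg h4, if_neg h4]
    have h2 := Finset.sum_le_sum h1
    have hform := X.nformula T
    obtain ⟨x, y, z, hxy, hxz, hyz, heq⟩ := Finset.card_eq_three.mp hc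
    have hx := hd4 x (by rw [heq]; simp)
    have hy := hd4 y (by rw [heq]; simp)
    have hz := hd4 z (by rw [heq]; simp)
    have hs : ∀ f : Vert → ℝ, ∑ p ∈ X.V T, f p = f x + f y + f z := by
      intro f
      rw [heq, Finset.sum_insert (by simp [hxy, hxz]), Finset.sum_pair hyz]
      ring
    rw [heq, Finset.sum_insert (by simp [hxy, hxz]), Finset.sum_pair hyz] at hform
    have := num_free (X.deg x) (X.deg y) (X.deg z) hx hy hz (by omega)
    rw [hs (fun p => gp (X.deg p))] at h2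
    unfold val
    linarith
  · -- four vertices
    have h1 := val_ge_phi R T
    have h2 := X.phi_ge T 4 (by norm_num) hd4
    rw [hc] at h1 h2
    have h4 : 1 / ((X.n : ℝ) + 2 * ((4 : ℕ) : ℝ) - ((4 : ℕ) : ℝ) * (((4 : ℕ) : ℝ) - 1)) ≤ 1 / 18 := by
      apply one_div_le_one_div_of_le (by norm_num)
      push_cast
      linarith
    push_cast at h1 h2 h4
    linarith
  · -- at least five
    have h1 := val_ge_phi R T
    have h2 : ∑ _p ∈ X.V T, (1 / 4 : ℝ) ≤ ∑ p ∈ X.V T, (1 / 2 - 1 / (X.deg p : ℝ)) := by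
      apply Finset.sum_le_sum
      intro p hp
      have := inv_le (by norm_num : 0 < 4) (hd4 p hp)
      norm_num at this ⊢
      linarith
    rw [Finset.sum_const, nsmul_eq_mul] at h2
    have h5 : (5 : ℝ) ≤ ((X.V T).card : ℝ) := by exact_mod_cast hc
    linarith

/-- Value of tiles with a vertex of degree three and at least four vertices. -/
lemma val_big (hn : 22 ≤ X.n) {T : Tile} {P : Vert} (hP : P ∈ X.V T) (hP3 : X.deg P = 3)
    (hc4 : 4 ≤ (X.V T).card) : 1 / 1000 ≤ val X T := by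
  have hn' : (22 : ℝ) ≤ X.n := by exact_mod_cast hn
  have h1 := val_ge_phi R T
  have hPA := eq_A_of_deg_three R hα hP hP3
  have hd4 : ∀ p ∈ (X.V T).erase P, 4 ≤ X.deg p := by
    intro p hp
    rw [Finset.mem_erase] at hp
    exact four_le R hα hp.2 (by rw [← hPA]; exact hp.1)
  have hcard : ((X.V T).erase P).card = (X.V T).card - 1 := Finset.card_erase_of_mem hP
  have hne : ((X.V T).erase P).Nonempty := by
    rw [← Finset.card_pos]; omega
  have h2 := Tess.merge_finset ((X.V T).erase P) hne 4 (by norm_num) (fun p => (X.deg p : ℝ))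
    (fun p hp => by exact_mod_cast hd4 p hp)
  have hform := X.nformula_real T
  rw [← Finset.add_sum_erase _ _ hP, hP3] at hform
  have hphi : ∑ p ∈ X.V T, (1 / 2 - 1 / (X.deg p : ℝ))
      = 1 / 6 + ∑ p ∈ (X.V T).erase P, (1 / 2 - 1 / (X.deg p : ℝ)) := by
    rw [← Finset.add_sum_erase _ _ hP, hP3]
    norm_num
  have hcr : (((X.V T).erase P).card : ℝ) = ((X.V T).card : ℝ) - 1 := by
    rw [hcard, Nat.cast_sub (by omega)]
    norm_num
  have hs4 : ∑ p ∈ (X.V T).erase P, ((X.deg p : ℝ) - 4)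
      = X.n - 1 - 2 * (((X.V T).card : ℝ) - 1) := by
    have h5 : ∑ p ∈ (X.V T).erase P, ((X.deg p : ℝ) - 4)
        = ∑ p ∈ (X.V T).erase P, ((X.deg p : ℝ) - 2) - ∑ _p ∈ (X.V T).erase P, (2 : ℝ) := by
      rw [← Finset.sum_sub_distrib]
      exact Finset.sum_congr rfl (fun _ _ => by ring)
    rw [h5, Finset.sum_const, nsmul_eq_mul, hcr]
    push_cast at hform
    linarith
  rw [hs4, hcr] at h2
  rw [hphi] at h1
  rcases (show (X.V T).card = 4 ∨ 5 ≤ (X.V T).card by omega) with hc | hc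
  · rw [hc] at h1 h2
    have h4 : 1 / (4 + ((X.n : ℝ) - 1 - 2 * (((4 : ℕ) : ℝ) - 1))) ≤ 1 / 19 := by
      apply one_div_le_one_div_of_le (by norm_num)
      push_cast
      linarith
    push_cast at h1 h2 h4
    linarith
  · have h6 : ∑ _p ∈ (X.V T).erase P, (1 / 4 : ℝ)
        ≤ ∑ p ∈ (X.V T).erase P, (1 / 2 - 1 / (X.deg p : ℝ)) := by
      apply Finset.sum_le_sum
      intro p hp
      have := inv_le (by norm_num : 0 < 4) (hd4 p hp)
      push_cast at this
      linarith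
    rw [Finset.sum_const, nsmul_eq_mul, hcr] at h6
    have h5 : (5 : ℝ) ≤ ((X.V T).card : ℝ) := by exact_mod_cast hc
    linarith

/-- Lower bound for a group member with at least four vertices. -/
lemma big_lower {T : Tile} {P M N : Vert} (hP : P ∈ X.V T) (hP3 : X.deg P = 3)
    (hM : M ∈ X.V T) (hN : N ∈ X.V T) (hPM : P ≠ M) (hPN : P ≠ N) (hMN : M ≠ N)
    (hc4 : 4 ≤ (X.V T).card) :
    X.deg M + X.deg N ≤ X.n + 1 ∧
    1 / 6 + fp (X.deg M) + fp (X.deg N) + fp (X.n + 5 - X.deg M - X.deg N) - 1 ≤ val X T := by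
  have hPA := eq_A_of_deg_three R hα hP hP3
  have hM4 : 4 ≤ X.deg M := four_le R hα hM (by rw [← hPA]; exact hPM.symm)
  have hN4 : 4 ≤ X.deg N := four_le R hα hN (by rw [← hPA]; exact hPN.symm)
  have hM' : M ∈ (X.V T).erase P := Finset.mem_erase.mpr ⟨hPM.symm, hM⟩
  have hN' : N ∈ ((X.V T).erase P).erase M :=
    Finset.mem_erase.mpr ⟨hMN.symm, Finset.mem_erase.mpr ⟨hPN.symm, hN⟩⟩
  set s := (((X.V T).erase P).erase M).erase N with hs
  have hcs : s.card = (X.V T).card - 3 := by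
    rw [hs, Finset.card_erase_of_mem hN', Finset.card_erase_of_mem hM',
      Finset.card_erase_of_mem hP]
    omega
  have hne : s.Nonempty := by rw [← Finset.card_pos]; omega
  have hd4 : ∀ p ∈ s, 4 ≤ X.deg p := by
    intro p hp
    rw [hs, Finset.mem_erase, Finset.mem_erase, Finset.mem_erase] at hp
    exact four_le R hα hp.2.2.2 (by rw [← hPA]; exact hp.2.2.1)
  have hform := X.nformula T
  rw [← Finset.add_sum_erase _ _ hP, ← Finset.add_sum_erase _ _ hM',
    ← Finset.add_sum_erase _ _ hN', ← hs] at hform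
  have hge : 2 ≤ ∑ p ∈ s, (X.deg p - 2) := by
    obtain ⟨i, hi⟩ := hne
    have h3 := hd4 i hi
    calc 2 ≤ X.deg i - 2 := by omega
      _ ≤ ∑ i ∈ s, (X.deg i - 2) :=
        Finset.single_le_sum (f := fun i => X.deg i - 2) (fun _ _ => Nat.zero_le _) hi
  have hmerge := fp_merge_finset s hne (fun p => X.deg p) hd4
  have hterms : ∑ p ∈ s, fp (X.deg p)
      ≤ ∑ p ∈ s, (1 / 2 - 1 / (X.deg p : ℝ) + pay X p T) := by
    apply Finset.sum_le_sum
    intro p hp
    rw [hs, Finset.mem_erase, Finset.mem_erase, Finset.mem_erase] at hp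
    exact term_ge_fp R hp.2.2.2
  have hMt := term_ge_fp R hM
  have hNt := term_ge_fp R hN
  have hPt := term_ge_fp R hP
  have hfP : fp (X.deg P) = 1 / 6 := by
    rw [hP3]; unfold fp; norm_num
  rw [hfP] at hPt
  refine ⟨by omega, ?_⟩
  unfold val
  rw [← Finset.add_sum_erase _ _ hP, ← Finset.add_sum_erase _ _ hM',
    ← Finset.add_sum_erase _ _ hN', ← hs]
  rw [show 2 + ∑ i ∈ s, (X.deg i - 2) = X.n + 5 - X.deg M - X.deg N by omega] at hmerge
  linarith

omit hα in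
include R in
/-- Exact data for a group member with three vertices. -/
lemma small_lower {T : Tile} {P M N : Vert} (hP : P ∈ X.V T) (hP3 : X.deg P = 3)
    (hM : M ∈ X.V T) (hN : N ∈ X.V T) (hPM : P ≠ M) (hPN : P ≠ N) (hMN : M ≠ N)
    (hc3 : (X.V T).card = 3) :
    X.deg M + X.deg N = X.n + 3 ∧
    1 / 6 + (1 / 2 - 1 / (X.deg M : ℝ)) + (1 / 2 - 1 / (X.deg N : ℝ)) - 1 ≤ val X T := by
  have hV : X.V T = {P, M, N} := by
    symm
    apply Finset.eq_of_subset_of_card_le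
    · intro x hx
      simp only [Finset.mem_insert, Finset.mem_singleton] at hx
      rcases hx with rfl | rfl | rfl <;> assumption
    · rw [hc3, Finset.card_eq_three.mpr ⟨P, M, N, hPM, hPN, hMN, rfl⟩]
  have hform := X.nformula T
  rw [hV, Finset.sum_insert (by simp [hPM, hPN]), Finset.sum_pair hMN] at hform
  have h1 := X.deg_ge' M
  have h2 := X.deg_ge' N
  refine ⟨by omega, ?_⟩
  have e1 := pay_nonneg R hP hc3
  have e2 := pay_nonneg R hM hc3
  have e3 := pay_nonneg R hN hc3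
  unfold val
  rw [hV, Finset.sum_insert (by simp [hPM, hPN]), Finset.sum_pair hMN, hP3]
  push_cast
  linarith

end

/-- A group: the three tiles at a vertex of degree three. -/
structure Grp (X : Tess Tile Vert) (P : Vert) (T₁ T₂ T₃ : Tile) (N₁ N₂ N₃ : Vert) : Prop where
  hP3 : X.deg P = 3
  P1 : P ∈ X.V T₁
  P2 : P ∈ X.V T₂
  P3 : P ∈ X.V T₃
  m12 : N₁ ∈ X.V T₂
  m13 : N₁ ∈ X.V T₃
  m21 : N₂ ∈ X.V T₁
  m23 : N₂ ∈ X.V T₃
  m31 : N₃ ∈ X.V T₁
  m32 : N₃ ∈ X.V T₂
  p1 : P ≠ N₁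
  p2 : P ≠ N₂
  p3 : P ≠ N₃
  n12 : N₁ ≠ N₂
  n13 : N₁ ≠ N₃
  n23 : N₂ ≠ N₃

lemma Grp.swap {P : Vert} {T₁ T₂ T₃ : Tile} {N₁ N₂ N₃ : Vert} (h : Grp X P T₁ T₂ T₃ N₁ N₂ N₃) :
    Grp X P T₂ T₁ T₃ N₂ N₁ N₃ :=
  ⟨h.hP3, h.P2, h.P1, h.P3, h.m21, h.m23, h.m12, h.m13, h.m32, h.m31, h.p2, h.p1, h.p3,
    h.n12.symm, h.n23, h.n13⟩

lemma Grp.rot {P : Vert} {T₁ T₂ T₃ : Tile} {N₁ N₂ N₃ : Vert} (h : Grp X P T₁ T₂ T₃ N₁ N₂ N₃) :
    Grp X P T₂ T₃ T₁ N₂ N₃ N₁ :=
  ⟨h.hP3, h.P2, h.P3, h.P1, h.m23, h.m21, h.m32, h.m31, h.m12, h.m13, h.p2, h.p3, h.p1,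
    h.n23, h.n12.symm, h.n13.symm⟩

lemma exists_grp {P : Vert} (h3 : X.deg P = 3) :
    ∃ T₁ T₂ T₃ N₁ N₂ N₃, Grp X P T₁ T₂ T₃ N₁ N₂ N₃ ∧ T₁ ≠ T₂ ∧ T₁ ≠ T₃ ∧ T₂ ≠ T₃ ∧
      X.τ P = {T₁, T₂, T₃} := by
  obtain ⟨T₁, T₂, T₃, h12, h13, h23, heq⟩ := Finset.card_eq_three.mp h3
  have hm1 : T₁ ∈ X.τ P := by rw [heq]; simp
  have hm2 : T₂ ∈ X.τ P := by rw [heq]; simp
  have hm3 : T₃ ∈ X.τ P := by rw [heq]; simp
  have hP1 := X.mem_V_iff.mpr hm1
  have hP2 := X.mem_V_iff.mpr hm2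
  have hP3 := X.mem_V_iff.mpr hm3
  -- all pairs are adjacent
  have adj : ∀ T ∈ X.τ P, ∀ T' ∈ X.τ P, T' ≠ T → (X.V T ∩ X.V T').card = 2 := by
    intro T hT T' hT' hne
    have h := X.adj P T hT
    have hsub : (X.τ P).filter (fun T' => T' ≠ T ∧ (X.V T ∩ X.V T').card = 2)
        ⊆ (X.τ P).erase T := by
      intro S hS
      rw [Finset.mem_filter] at hS
      exact Finset.mem_erase.mpr ⟨hS.2.1, hS.1⟩
    have hc : ((X.τ P).erase T).card = 2 := by
      rw [Finset.card_erase_of_mem hT]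
      have : (X.τ P).card = 3 := h3
      omega
    have he := Finset.eq_of_subset_of_card_le hsub (by omega)
    have hmem : T' ∈ (X.τ P).filter (fun T' => T' ≠ T ∧ (X.V T ∩ X.V T').card = 2) := by
      rw [he]; exact Finset.mem_erase.mpr ⟨hne, hT'⟩
    exact (Finset.mem_filter.mp hmem).2.2
  obtain ⟨N₃, hN3, e3⟩ := Tess.pair_of_card_two (adj T₁ hm1 T₂ hm2 h12.symm)
    (Finset.mem_inter.mpr ⟨hP1, hP2⟩)
  obtain ⟨N₂, hN2, e2⟩ := Tess.pair_of_card_two (adj T₁ hm1 T₃ hm3 h13.symm)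
    (Finset.mem_inter.mpr ⟨hP1, hP3⟩)
  obtain ⟨N₁, hN1, e1⟩ := Tess.pair_of_card_two (adj T₂ hm2 T₃ hm3 h23.symm)
    (Finset.mem_inter.mpr ⟨hP2, hP3⟩)
  have i3 : N₃ ∈ X.V T₁ ∩ X.V T₂ := by rw [e3]; simp
  have i2 : N₂ ∈ X.V T₁ ∩ X.V T₃ := by rw [e2]; simp
  have i1 : N₁ ∈ X.V T₂ ∩ X.V T₃ := by rw [e1]; simp
  rw [Finset.mem_inter] at i1 i2 i3
  -- no vertex other than P is in all three
  have no3 : ∀ q, q ≠ P → q ∈ X.V T₁ → q ∈ X.V T₂ → q ∈ X.V T₃ → False := by
    intro q hq q1 q2 q3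
    have hsub : ({T₁, T₂, T₃} : Finset Tile) ⊆ X.τ P ∩ X.τ q := by
      intro S hS
      simp only [Finset.mem_insert, Finset.mem_singleton] at hS
      rw [Finset.mem_inter]
      rcases hS with rfl | rfl | rfl
      · exact ⟨hm1, X.mem_V_iff.mp q1⟩
      · exact ⟨hm2, X.mem_V_iff.mp q2⟩
      · exact ⟨hm3, X.mem_V_iff.mp q3⟩
    have h1 := Finset.card_le_card hsub
    rw [← heq] at h1
    have h2 := X.two_verts P q (Ne.symm hq)
    have : (X.τ P).card = 3 := h3
    omega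
  refine ⟨T₁, T₂, T₃, N₁, N₂, N₃, ⟨h3, hP1, hP2, hP3, i1.1, i1.2, i2.1, i2.2, i3.1, i3.2,
    hN1.symm, hN2.symm, hN3.symm, ?_, ?_, ?_⟩, h12, h13, h23, heq⟩
  · rintro rfl; exact no3 _ hN1 i2.1 i1.1 i1.2
  · rintro rfl; exact no3 _ hN1 i3.1 i1.1 i1.2
  · rintro rfl; exact no3 _ hN2 i2.1 i3.2 i2.2

section
variable (hα : R.α = 1 / 3)
include hα

/-- The value of a group. -/
lemma grp_val (hn : 22 ≤ X.n) {P : Vert} {T₁ T₂ T₃ : Tile} {N₁ N₂ N₃ : Vert}
    (h : Grp X P T₁ T₂ T₃ N₁ N₂ N₃) : 3 / 1000 ≤ val X T₁ + val X T₂ + val X T₃ := by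
  have c1 := X.three_le_card_V T₁
  have c2 := X.three_le_card_V T₂
  have c3 := X.three_le_card_V T₃
  -- the general computations
  have G0 : ∀ {T₁ T₂ T₃ : Tile} {N₁ N₂ N₃ : Vert}, Grp X P T₁ T₂ T₃ N₁ N₂ N₃ →
      (X.V T₁).card = 3 → (X.V T₂).card = 3 → (X.V T₃).card = 3 →
      3 / 1000 ≤ val X T₁ + val X T₂ + val X T₃ := by
    intro T₁ T₂ T₃ N₁ N₂ N₃ h k1 k2 k3
    obtain ⟨a1, b1⟩ := small_lower R h.P1 h.hP3 h.m21 h.m31 h.p2 h.p3 h.n23 k1
    obtain ⟨a2, b2⟩ := small_lower R h.P2 h.hP3 h.m12 h.m32 h.p1 h.p3 h.n13 k2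
    obtain ⟨a3, b3⟩ := small_lower R h.P3 h.hP3 h.m13 h.m23 h.p1 h.p2 h.n12 k3
    have := num_G0 X.n (X.deg N₁) (X.deg N₂) (X.deg N₃) hn a3 a2 a1
    linarith
  have G1 : ∀ {T₁ T₂ T₃ : Tile} {N₁ N₂ N₃ : Vert}, Grp X P T₁ T₂ T₃ N₁ N₂ N₃ →
      4 ≤ (X.V T₁).card → (X.V T₂).card = 3 → (X.V T₃).card = 3 →
      3 / 1000 ≤ val X T₁ + val X T₂ + val X T₃ := by
    intro T₁ T₂ T₃ N₁ N₂ N₃ h k1 k2 k3
    obtain ⟨a1, b1⟩ := big_lower R hα h.P1 h.hP3 h.m21 h.m31 h.p2 h.p3 h.n23 k1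
    obtain ⟨a2, b2⟩ := small_lower R h.P2 h.hP3 h.m12 h.m32 h.p1 h.p3 h.n13 k2
    obtain ⟨a3, b3⟩ := small_lower R h.P3 h.hP3 h.m13 h.m23 h.p1 h.p2 h.n12 k3
    have hle := deg_le R hα hn N₁
    have heq : X.deg N₂ = X.deg N₃ := by omega
    rw [heq] at a1 b1 b3
    have := num_G1 X.n (X.deg N₁) (X.deg N₃) hn (by omega) a2 a1
    linarith
  have G2 : ∀ {T₁ T₂ T₃ : Tile} {N₁ N₂ N₃ : Vert}, Grp X P T₁ T₂ T₃ N₁ N₂ N₃ →
      4 ≤ (X.V T₁).card → 4 ≤ (X.V T₂).card → (X.V T₃).card = 3 →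
      3 / 1000 ≤ val X T₁ + val X T₂ + val X T₃ := by
    intro T₁ T₂ T₃ N₁ N₂ N₃ h k1 k2 k3
    obtain ⟨a1, b1⟩ := big_lower R hα h.P1 h.hP3 h.m21 h.m31 h.p2 h.p3 h.n23 k1
    obtain ⟨a2, b2⟩ := big_lower R hα h.P2 h.hP3 h.m12 h.m32 h.p1 h.p3 h.n13 k2
    obtain ⟨a3, b3⟩ := small_lower R h.P3 h.hP3 h.m13 h.m23 h.p1 h.p2 h.n12 k3
    have hPA := eq_A_of_deg_three R hα h.P1 h.hP3
    have h4 : 4 ≤ X.deg N₃ := four_le R hα h.m31 (by rw [← hPA]; exact h.p3.symm)
    have := num_G2 X.n (X.deg N₁) (X.deg N₂) (X.deg N₃) hn h4 a3 a1 a2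
    linarith
  rcases (show (X.V T₁).card = 3 ∨ 4 ≤ (X.V T₁).card by omega) with k1 | k1 <;>
    rcases (show (X.V T₂).card = 3 ∨ 4 ≤ (X.V T₂).card by omega) with k2 | k2 <;>
    rcases (show (X.V T₃).card = 3 ∨ 4 ≤ (X.V T₃).card by omega) with k3 | k3
  · exact G0 h k1 k2 k3
  · have := G1 h.rot.rot k3 k1 k2; linarith
  · have := G1 h.rot k2 k3 k1; linarith
  · have := G2 h.rot k2 k3 k1; linarith
  · exact G1 h k1 k2 k3
  · have := G2 h.rot.rot k3 k1 k2; linarith
  · exact G2 h k1 k2 k3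
  · have e1 := val_big R hα hn h.P1 h.hP3 k1
    have e2 := val_big R hα hn h.P2 h.hP3 k2
    have e3 := val_big R hα hn h.P3 h.hP3 k3
    linarith

/-- Tile sums. -/
lemma tile_sum (hn : 22 ≤ X.n) (T : Tile) :
    1 + 1 / 1000 ≤ ∑ p ∈ X.V T, (1 / 2 - 1 / (X.deg p : ℝ) + (pay X p T + pool X p T)) := by
  have h1 : ∑ p ∈ X.V T, (1 / 2 - 1 / (X.deg p : ℝ) + (pay X p T + pool X p T))
      = 1 + val X T + ∑ p ∈ X.V T, pool X p T := by
    unfold val
    have h2 : ∀ p ∈ X.V T, (1 / 2 - 1 / (X.deg p : ℝ) + (pay X p T + pool X p T))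
        = (1 / 2 - 1 / (X.deg p : ℝ) + pay X p T) + pool X p T := fun p _ => by ring
    rw [Finset.sum_congr rfl h2, Finset.sum_add_distrib]
    ring
  rw [h1]
  by_cases hno : ∀ p ∈ X.V T, X.deg p ≠ 3
  · have h2 := val_free R hn T hno
    have h3 : ∑ p ∈ X.V T, pool X p T = 0 := by
      apply Finset.sum_eq_zero
      intro p hp
      unfold pool
      rw [if_neg (hno p hp)]
    rw [h3]
    linarith
  · push Not at hno
    obtain ⟨P, hP, hP3⟩ := hno
    have hPA := eq_A_of_deg_three R hα hP hP3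
    have h3 : ∑ p ∈ X.V T, pool X p T = pool X P T := by
      rw [Finset.sum_eq_single_of_mem P hP]
      intro q hq hne
      unfold pool
      rw [if_neg]
      intro hq3
      exact hne ((eq_A_of_deg_three R hα hq hq3).trans hPA.symm)
    obtain ⟨T₁, T₂, T₃, N₁, N₂, N₃, hG, h12, h13, h23, heq⟩ := exists_grp hP3
    have h4 := grp_val R hα hn hG
    have h5 : ∑ S ∈ X.τ P, val X S = val X T₁ + val X T₂ + val X T₃ := by
      rw [heq, Finset.sum_insert (by simp [h12, h13]), Finset.sum_pair h23]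
      ring
    rw [h3]
    unfold pool
    rw [if_pos hP3, h5]
    linarith

end

end T3

/-- **The triangle case with a 120 degree angle**: `n ≤ 21`. -/
theorem Tess.Tri.T3 {X : Tess Tile Vert} (R : X.Tri) (hα : R.α = 1 / 3) : X.n ≤ 21 := by
  by_contra hlt
  have hn : 22 ≤ X.n := by omega
  refine X.ap_phi (fun p T => T3.pay X p T + T3.pool X p T) (4 * X.n + 3) ?_ ?_ (1 / 1000)
    (by norm_num) (fun T => T3.tile_sum R hα hn T)
  · intro p T _
    have h1 := T3.pay_bound (X := X) p T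
    have h2 := T3.pool_bound (X := X) p T
    rw [abs_le] at h1 h2 ⊢
    constructor <;> linarith [h1.1, h1.2, h2.1, h2.2]
  · intro p
    rw [Finset.sum_add_distrib, T3.pay_sum R hα p, T3.pool_sum p]
    norm_num

end Pool.Agent.Hhelper50
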