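import Pool.Agent.Hhelper50.Geo4
import Pool.Agent.Hhelper50.TessQ
import Pool.Agent.Hhelper50.TessT1
import Pool.Agent.Hhelper50.TessT2
import Pool.Agent.Hhelper50.TessT3

/-!
# Assembly: a convex monohedral tiling has at most `21` neighbours per tile
(given the exterior angle sum, congruence invariance of angles, and the lemma on the
`90-72-18` triangle).
-/

set_option autoImplicit false

namespace Pool.Agent.Hhelper50

open Set Metric

lemma sort3 {α : Type*} (f : α → ℝ) (x y z : α) (hxy : x ≠ y) (hxz : x ≠ z) (hyz : y ≠ z) :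
    ∃ a b c : α, (∀ w, (w = a ∨ w = b ∨ w = c) ↔ (w = x ∨ w = y ∨ w = z)) ∧
      a ≠ b ∧ a ≠ c ∧ b ≠ c ∧ f b ≤ f a ∧ f c ≤ f b := by
  rcases le_total (f x) (f y) with h1 | h1 <;> rcases le_total (f y) (f z) with h2 | h2 <;>
    rcases le_total (f x) (f z) with h3 | h3
  · exact ⟨z, y, x, fun w => by tauto, hyz.symm, hxz.symm, hxy.symm, h2, h1⟩
  · exact ⟨z, y, x, fun w => by tauto, hyz.symm, hxz.symm, hxy.symm, h2, h1⟩
  · exact ⟨y, z, x, fun w => by tauto, hyz, hxy.symm, hxz.symm, h2, h3⟩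
  · exact ⟨y, x, z, fun w => by tauto, hxy.symm, hyz, hxz, h1, h3⟩
  · exact ⟨z, x, y, fun w => by tauto, hxz.symm, hyz.symm, hxy, h3, h1⟩
  · exact ⟨x, z, y, fun w => by tauto, hxz, hxy, hyz.symm, h3, h2⟩
  · exact ⟨x, y, z, fun w => by tauto, hxy, hxz, hyz, h1, h2⟩
  · exact ⟨x, y, z, fun w => by tauto, hxy, hxz, hyz, h1, h2⟩

namespace CT

variable (X : CT)

/-- The corners of a tile. -/
def IsCorner (A : Set ℂ) (p : ℂ) : Prop := p ∈ A ∧ p ∉ interior A ∧ ang p A < 1 / 2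

lemma IsCorner.isVert {A : Set ℂ} (hA : A ∈ X.𝒯) {p : ℂ} (h : IsCorner A p) : X.IsVert p := by
  classical
  obtain ⟨hp, hint, hang⟩ := h
  obtain ⟨a, _, hfam⟩ := X.exists_arcFam ⟨A, hA, hp, hint⟩
  have hsum := hfam.sum
  have hAm : A ∈ (X.tiles_finite p).toFinset := X.mem_tilesF.mpr ⟨hA, hp⟩
  rw [isVert_iff]
  by_contra hcon
  push Not at hcon
  rw [← Finset.add_sum_erase _ _ hAm] at hsum
  have h1 : ∑ B ∈ (X.tiles_finite p).toFinset.erase A, ang p B
      ≤ ∑ _B ∈ (X.tiles_finite p).toFinset.erase A, (1 / 2 : ℝ) :=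
    Finset.sum_le_sum (fun B hB => hfam.le B (Finset.mem_of_mem_erase hB))
  rw [Finset.sum_const, Finset.card_erase_of_mem hAm, nsmul_eq_mul] at h1
  have h2 : ((((X.tiles_finite p).toFinset.card - 1 : ℕ)) : ℝ) ≤ 1 := by
    have : (X.tiles_finite p).toFinset.card - 1 ≤ 1 := by omega
    exact_mod_cast this
  nlinarith

lemma isCorner_image (hcongr : ∀ (f : ℂ ≃ᵢ ℂ) (p : ℂ), p ∈ X.K → p ∉ interior X.K →
    ang (f p) (f '' X.K) = ang p X.K) (f : ℂ ≃ᵢ ℂ) (p : ℂ) :
    IsCorner (f '' X.K) (f p) ↔ IsCorner X.K p := by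
  have h1 : f p ∈ f '' X.K ↔ p ∈ X.K := f.injective.mem_set_image
  have h2 : f p ∈ interior (f '' X.K) ↔ p ∈ interior X.K := by
    have h := f.toHomeomorph.image_interior X.K
    have h' : f '' interior X.K = interior (f '' X.K) := h
    rw [← h']
    exact f.injective.mem_set_image
  unfold IsCorner
  rw [h1, h2]
  constructor
  · rintro ⟨a, b, c⟩
    exact ⟨a, b, by rw [← hcongr f p a b]; exact c⟩
  · rintro ⟨a, b, c⟩
    exact ⟨a, b, by rw [hcongr f p a b]; exact c⟩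

/-- the placing isometry of a tile -/
noncomputable def pl (T : X.Tile) : ℂ ≃ᵢ ℂ := (X.hcong T.1 T.2).choose

lemma pl_spec (T : X.Tile) : T.1 = X.pl T '' X.K := (X.hcong T.1 T.2).choose_spec

/-- the set of corners of `K` as a finset of vertices -/
lemma corners_K_finite : {p | IsCorner X.K p}.Finite :=
  (X.verts_finite X.hK).subset (fun _ hp => ⟨hp.1, IsCorner.isVert X X.hK hp⟩)

theorem main_of
    (hext : ∀ A ∈ X.𝒯, ∀ s : Finset ℂ,
      (∀ p, p ∈ s ↔ p ∈ A ∧ 3 ≤ (X.tiles p).ncard) → ∑ p ∈ s, (1 / 2 - ang p A) = 1)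
    (hcongr : ∀ (f : ℂ ≃ᵢ ℂ) (p : ℂ), p ∈ X.K → p ∉ interior X.K →
      ang (f p) (f '' X.K) = ang p X.K)
    (hhd : ∀ (A B C : X.Tile → ℂ) (a b c : ℝ)
      (_ : ∀ T, A T ∈ T.1) (_ : ∀ T, B T ∈ T.1) (_ : ∀ T, C T ∈ T.1)
      (_ : ∀ T p, p ∈ T.1 → p ∉ interior T.1 → (ang p T.1 < 1 / 2 ↔ p = A T ∨ p = B T ∨ p = C T))
      (_ : ∀ T, A T ∉ interior T.1) (_ : ∀ T, B T ∉ interior T.1) (_ : ∀ T, C T ∉ interior T.1)
      (_ : ∀ T, ang (A T) T.1 = 1 / 4) (_ : ∀ T, ang (B T) T.1 = 1 / 5)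
      (_ : ∀ T, ang (C T) T.1 = 1 / 20)
      (_ : ∀ T, dist (A T) (B T) = c) (_ : ∀ T, dist (A T) (C T) = b)
      (_ : ∀ T, dist (B T) (C T) = a),
      ∀ P : X.Vert, (X.τ P).card = 5 → (∀ T ∈ X.τ P, B T = P.1) →
        ∃ U ∈ X.τ P, ∃ q ∈ X.V U, (ang q.1 U.1 = 1 / 2 ∨ q.1 = C U) ∧
          (∃ S ∈ X.τ q, ang q.1 S.1 = 1 / 2) ∧ 4 ≤ (X.τ q).card) :
    X.n ≤ 21 := by
  classical
  set Y := X.toTess hext with hY
  -- corners of a tile T in terms of K
  have hcor : ∀ (T : X.Tile) (p : ℂ), IsCorner T.1 p ↔ ∃ q, IsCorner X.K q ∧ X.pl T q = p := by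
    intro T p
    obtain ⟨q, rfl⟩ := (X.pl T).surjective p
    rw [X.pl_spec T, X.isCorner_image hcongr]
    constructor
    · intro h
      exact ⟨q, h, rfl⟩
    · rintro ⟨q', h, h'⟩
      have := (X.pl T).injective h'
      rw [← this]
      exact h
  set s : Finset ℂ := X.corners_K_finite.toFinset with hs
  have hmem : ∀ p, p ∈ s ↔ IsCorner X.K p := by
    intro p
    rw [hs, Set.Finite.mem_toFinset]
    rfl
  -- at least three corners
  have h3 : 3 ≤ s.card := by
    have hKV := hext X.K X.hK _ (X.V_map_mem ⟨X.K, X.hK⟩)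
    have hsub : s ⊆ (X.V ⟨X.K, X.hK⟩).map X.valV := by
      intro p hp
      rw [hmem] at hp
      exact (X.V_map_mem ⟨X.K, X.hK⟩ p).mpr ⟨hp.1, IsCorner.isVert X X.hK hp⟩
    have hzero : ∀ p ∈ (X.V ⟨X.K, X.hK⟩).map X.valV, p ∉ s → (1 / 2 - ang p X.K) = 0 := by
      intro p hp hps
      rw [X.V_map_mem] at hp
      rw [hmem] at hps
      have hint : p ∉ interior X.K := X.vert_not_interior ⟨p, hp.2⟩ X.hK
      obtain ⟨_, _, h, _⟩ := X.exists_arc' X.hK hp.1 hint
      have : ¬ (ang p X.K < 1 / 2) := fun h' => hps ⟨hp.1, hint, h'⟩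
      linarith
    rw [← Finset.sum_subset hsub hzero] at hKV
    have hne : s.Nonempty := by
      rw [Finset.nonempty_iff_ne_empty]
      intro h
      rw [h] at hKV
      simp at hKV
    have hlt : ∑ p ∈ s, (1 / 2 - ang p X.K) < ∑ _p ∈ s, (1 / 2 : ℝ) := by
      apply Finset.sum_lt_sum_of_nonempty hne
      intro p hp
      rw [hmem] at hp
      obtain ⟨_, h, _, _⟩ := X.exists_arc' X.hK hp.1 hp.2.1
      linarith
    rw [hKV, Finset.sum_const, nsmul_eq_mul] at hlt
    have : (2 : ℝ) < s.card := by linarith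
    have : 2 < s.card := by exact_mod_cast this
    omega
  -- corners of `T` are vertices of `T`
  have hcV : ∀ (T : X.Tile) (p : ℂ), IsCorner T.1 p → p ∈ T.1 ∧ 3 ≤ (X.tiles p).ncard :=
    fun T p hp => ⟨hp.1, IsCorner.isVert X T.2 hp⟩
  rcases Nat.lt_or_ge 3 s.card with h4 | h4
  · -- at least four corners
    apply Tess.Q Y
    intro T
    have hsub : s.map (X.pl T).toEquiv.toEmbedding ⊆ (X.V T).map X.valV := by
      intro p hp
      rw [Finset.mem_map] at hp
      obtain ⟨q, hq, rfl⟩ := hp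
      rw [hmem] at hq
      rw [X.V_map_mem]
      exact hcV T _ ((hcor T _).mpr ⟨q, hq, rfl⟩)
    have h5 := Finset.card_le_card hsub
    rw [Finset.card_map, Finset.card_map] at h5
    show 4 ≤ (X.V T).card
    omega
  · -- exactly three corners
    have h5 : s.card = 3 := by omega
    obtain ⟨x, y, z, hxy, hxz, hyz, hsxyz⟩ := Finset.card_eq_three.mp h5
    obtain ⟨A₀, B₀, C₀, hABC, hAB, hAC, hBC, hba, hcb⟩ :=
      sort3 (fun p => ang p X.K) x y z hxy hxz hyz
    have hK3 : ∀ p, IsCorner X.K p ↔ (p = A₀ ∨ p = B₀ ∨ p = C₀) := by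
      intro p
      rw [← hmem, hsxyz, hABC]
      simp only [Finset.mem_insert, Finset.mem_singleton]
    have cA : IsCorner X.K A₀ := (hK3 A₀).mpr (Or.inl rfl)
    have cB : IsCorner X.K B₀ := (hK3 B₀).mpr (Or.inr (Or.inl rfl))
    have cC : IsCorner X.K C₀ := (hK3 C₀).mpr (Or.inr (Or.inr rfl))
    have cT : ∀ (T : X.Tile) (q : ℂ), IsCorner X.K q → IsCorner T.1 (X.pl T q) :=
      fun T q hq => (hcor T _).mpr ⟨q, hq, rfl⟩
    have hT3 : ∀ (T : X.Tile) (p : ℂ), IsCorner T.1 p ↔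
        (p = X.pl T A₀ ∨ p = X.pl T B₀ ∨ p = X.pl T C₀) := by
      intro T p
      rw [hcor]
      constructor
      · rintro ⟨q, hq, rfl⟩
        rcases (hK3 q).mp hq with rfl | rfl | rfl
        · exact Or.inl rfl
        · exact Or.inr (Or.inl rfl)
        · exact Or.inr (Or.inr rfl)
      · rintro (rfl | rfl | rfl)
        · exact ⟨A₀, cA, rfl⟩
        · exact ⟨B₀, cB, rfl⟩
        · exact ⟨C₀, cC, rfl⟩
    have hang : ∀ (T : X.Tile) (q : ℂ), IsCorner X.K q → ang (X.pl T q) T.1 = ang q X.K := by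
      intro T q hq
      have := hcongr (X.pl T) q hq.1 hq.2.1
      rw [← X.pl_spec T] at this
      exact this
    have hpos : ∀ q, IsCorner X.K q → 0 < ang q X.K := by
      intro q hq
      obtain ⟨_, h, _, _⟩ := X.exists_arc' X.hK hq.1 hq.2.1
      exact h
    let vt : (q : ℂ) → IsCorner X.K q → X.Tile → X.Vert :=
      fun q hq T => ⟨X.pl T q, IsCorner.isVert X T.2 (cT T q hq)⟩
    have vt_inj : ∀ q hq q' hq' T, vt q hq T = vt q' hq' T → q = q' := by
      intro q hq q' hq' T h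
      exact (X.pl T).injective (congrArg Subtype.val h)
    let R : Y.Tri :=
      { A := vt A₀ cA
        B := vt B₀ cB
        C := vt C₀ cC
        α := ang A₀ X.K
        β := ang B₀ X.K
        γ := ang C₀ X.K
        γ_pos := hpos C₀ cC
        hγβ := hcb
        hβα := hba
        hα := cA.2.2
        hA := fun T => X.mem_V.mpr (cT T A₀ cA).1
        hB := fun T => X.mem_V.mpr (cT T B₀ cB).1
        hC := fun T => X.mem_V.mpr (cT T C₀ cC).1
        hAB := fun T h => hAB (vt_inj _ cA _ cB T h)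
        hAC := fun T h => hAC (vt_inj _ cA _ cC T h)
        hBC := fun T h => hBC (vt_inj _ cB _ cC T h)
        angA := fun T => hang T A₀ cA
        angB := fun T => hang T B₀ cB
        angC := fun T => hang T C₀ cC
        straight := by
          intro T p hp hpA hpB hpC
          have hpT : p.1 ∈ T.1 := X.mem_V.mp hp
          have hint : p.1 ∉ interior T.1 := X.vert_not_interior p T.2
          obtain ⟨_, _, hle, _⟩ := X.exists_arc' T.2 hpT hint
          show ang p.1 T.1 = 1 / 2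
          by_contra hne
          have hc : IsCorner T.1 p.1 := ⟨hpT, hint, lt_of_le_of_ne hle hne⟩
          rcases (hT3 T p.1).mp hc with h | h | h
          · exact hpA (Subtype.ext h)
          · exact hpB (Subtype.ext h)
          · exact hpC (Subtype.ext h) }
    by_cases hα4 : R.α = 1 / 4
    · apply R.T2 hα4
      intro hβ
      have hγ : R.γ = 1 / 20 := by
        have := R.sum_angles
        linarith
      intro P hP5 hPB
      obtain ⟨U, hU, q, hq, h1, ⟨S, hS, hS'⟩, h2⟩ := hhd (fun T => X.pl T A₀) (fun T => X.pl T B₀)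
        (fun T => X.pl T C₀)
        (dist B₀ C₀) (dist A₀ C₀) (dist A₀ B₀)
        (fun T => (cT T A₀ cA).1) (fun T => (cT T B₀ cB).1) (fun T => (cT T C₀ cC).1)
        (by
          intro T p hp hint
          rw [← hT3]
          exact ⟨fun h => ⟨hp, hint, h⟩, fun h => h.2.2⟩)
        (fun T => (cT T A₀ cA).2.1) (fun T => (cT T B₀ cB).2.1) (fun T => (cT T C₀ cC).2.1)
        (fun T => (hang T A₀ cA).trans hα4) (fun T => (hang T B₀ cB).trans hβ)
        (fun T => (hang T C₀ cC).trans hγ)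
        (fun T => (X.pl T).dist_eq _ _) (fun T => (X.pl T).dist_eq _ _)
        (fun T => (X.pl T).dist_eq _ _) P hP5
        (fun T hT => congrArg Subtype.val (hPB T hT))
      refine ⟨U, hU, q, hq, ?_, ⟨S, hS, hS'⟩, h2⟩
      rcases h1 with h1 | h1
      · exact Or.inl h1
      · exact Or.inr (Subtype.ext h1)
    · by_cases hα3 : R.α = 1 / 3
      · exact R.T3 hα3
      · exact Tess.Tri.T1 Y R hα3 hα4

end CT

end Pool.Agent.Hhelper50
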