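import Pool.Agent.Hhelper50.Side

/-!
# The geometric lemma for tilings by the triangle with angles `90, 72, 18` degrees
-/

set_option autoImplicit false

namespace Pool.Agent.Hhelper50

open Set Metric

/-- law of cosines -/
lemma norm_sub_dir (x y s t : ℝ) : ‖x • dir s - y • dir t‖ ^ 2
    = x ^ 2 + y ^ 2 - 2 * x * y * Real.cos (2 * Real.pi * (t - s)) := by
  rw [← Complex.normSq_eq_norm_sq, Complex.normSq_apply]
  simp only [Complex.sub_re, Complex.sub_im, Complex.real_smul, Complex.mul_re, Complex.mul_im,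
    Complex.ofReal_re, Complex.ofReal_im, zero_mul, sub_zero, add_zero, dir_re, dir_im]
  have e1 : 2 * Real.pi * (t - s) = 2 * Real.pi * t - 2 * Real.pi * s := by ring
  rw [e1, Real.cos_sub]
  have h1 := Real.sin_sq_add_cos_sq (2 * Real.pi * s)
  have h2 := Real.sin_sq_add_cos_sq (2 * Real.pi * t)
  linear_combination x ^ 2 * h1 + y ^ 2 * h2

lemma dist_ray (p : ℂ) (x y s t : ℝ) : dist (p + x • dir s) (p + y • dir t) ^ 2
    = x ^ 2 + y ^ 2 - 2 * x * y * Real.cos (2 * Real.pi * (t - s)) := by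
  rw [← norm_sub_dir, dist_eq_norm]
  congr 2
  ring

lemma cos_fifth_lt : Real.cos (2 * Real.pi * (1 / 5)) < 1 / 2 := by
  rw [← Real.cos_pi_div_three]
  have hpi := Real.pi_pos
  apply Real.cos_lt_cos_of_nonneg_of_le_pi <;> linarith

namespace CT

variable (X : CT)

/-- If a vertex has exactly three tiles, two of which are `S₁ ≠ S₂`, the third has the remaining
angle. -/
lemma third_angle {v : X.Vert} (h3 : ¬ 4 ≤ (X.τ v).card) {S₁ S₂ : X.Tile} (h1 : S₁ ∈ X.τ v)
    (h2 : S₂ ∈ X.τ v) (h12 : S₁ ≠ S₂) : ∃ Z ∈ X.τ v, Z ≠ S₁ ∧ Z ≠ S₂ ∧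
      (∀ W ∈ X.τ v, W = S₁ ∨ W = S₂ ∨ W = Z) ∧
      ang v.1 Z.1 = 1 - ang v.1 S₁.1 - ang v.1 S₂.1 := by
  classical
  have hc : (X.τ v).card = 3 := by
    have := X.card_τ v
    omega
  have hsub : ({S₁, S₂} : Finset X.Tile) ⊆ X.τ v := by
    intro x hx
    simp only [Finset.mem_insert, Finset.mem_singleton] at hx
    rcases hx with rfl | rfl <;> assumption
  have hc1 : (X.τ v \ {S₁, S₂}).card = 1 := by
    rw [Finset.card_sdiff_of_subset hsub, hc, Finset.card_pair h12]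
  obtain ⟨Z, hZ⟩ := Finset.card_eq_one.mp hc1
  have hZm : Z ∈ X.τ v \ {S₁, S₂} := by rw [hZ]; simp
  rw [Finset.mem_sdiff] at hZm
  simp only [Finset.mem_insert, Finset.mem_singleton, not_or] at hZm
  refine ⟨Z, hZm.1, hZm.2.1, hZm.2.2, ?_, ?_⟩
  · intro W hW
    by_cases hW1 : W = S₁
    · exact Or.inl hW1
    · by_cases hW2 : W = S₂
      · exact Or.inr (Or.inl hW2)
      · have : W ∈ X.τ v \ {S₁, S₂} := by
          rw [Finset.mem_sdiff]
          simp only [Finset.mem_insert, Finset.mem_singleton, not_or]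
          exact ⟨hW, hW1, hW2⟩
        rw [hZ] at this
        exact Or.inr (Or.inr (Finset.mem_singleton.mp this))
  · have hs := X.ang_sum' v
    rw [← Finset.sum_sdiff hsub, hZ, Finset.sum_singleton, Finset.sum_pair h12] at hs
    linarith

/-- points between two points of a ray -/
lemma between_mem {A : Set ℂ} (hA : A ∈ X.𝒯) {p : ℂ} (hp : p ∈ A) {x y t : ℝ} (hx : 0 < x)
    (hxy : x < y) (hy : p + y • dir t ∈ A) : p + x • dir t ∈ A ∧
      t ∈ Dset A (p + x • dir t) ∧ t + 1 / 2 ∈ Dset A (p + x • dir t) := by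
  have h0 : 0 < y := hx.trans hxy
  have h1 : p + x • dir t ∈ A := by
    have := X.smul_mem hA hp (ε := x / y) (v := y • dir t) (by positivity)
      ((div_le_one h0).mpr hxy.le) hy
    rw [smul_smul, div_mul_cancel₀ _ h0.ne'] at this
    exact this
  refine ⟨h1, ?_, ?_⟩
  · apply mem_Dset_of_sub hy (r := y - x) (by linarith)
    rw [sub_smul]
    ring
  · apply mem_Dset_of_sub hp hx
    rw [dir_half]
    simp

theorem hd_core (A B C : X.Tile → ℂ) (a b c : ℝ)
    (hA : ∀ T, A T ∈ T.1) (hB : ∀ T, B T ∈ T.1) (hC : ∀ T, C T ∈ T.1)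
    (hcorner : ∀ T p, p ∈ T.1 → p ∉ interior T.1 →
      (ang p T.1 < 1 / 2 ↔ p = A T ∨ p = B T ∨ p = C T))
    (nA : ∀ T, A T ∉ interior T.1) (nB : ∀ T, B T ∉ interior T.1) (nC : ∀ T, C T ∉ interior T.1)
    (angA : ∀ T, ang (A T) T.1 = 1 / 4) (angB : ∀ T, ang (B T) T.1 = 1 / 5)
    (angC : ∀ T, ang (C T) T.1 = 1 / 20)
    (dAB : ∀ T, dist (A T) (B T) = c) (dAC : ∀ T, dist (A T) (C T) = b)
    (dBC : ∀ T, dist (B T) (C T) = a) :
    ∀ P : X.Vert, (X.τ P).card = 5 → (∀ T ∈ X.τ P, B T = P.1) →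
      ∃ U ∈ X.τ P, ∃ q ∈ X.V U, (ang q.1 U.1 = 1 / 2 ∨ q.1 = C U) ∧
        (∃ S ∈ X.τ q, ang q.1 S.1 = 1 / 2) ∧ 4 ≤ (X.τ q).card := by
  classical
  intro P hP5 hPB
  -- corners
  have cA : ∀ T : X.Tile, IsCorner T.1 (A T) := fun T =>
    ⟨hA T, nA T, by rw [angA]; norm_num⟩
  have cB : ∀ T : X.Tile, IsCorner T.1 (B T) := fun T =>
    ⟨hB T, nB T, by rw [angB]; norm_num⟩
  have cC : ∀ T : X.Tile, IsCorner T.1 (C T) := fun T =>
    ⟨hC T, nC T, by rw [angC]; norm_num⟩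
  have hall : ∀ (T : X.Tile) q, IsCorner T.1 q → q = A T ∨ q = B T ∨ q = C T :=
    fun T q hq => (hcorner T q hq.1 hq.2.1).mp hq.2.2
  have hvals : ∀ (T : X.Tile) q, IsCorner T.1 q → (q = A T ∧ ang q T.1 = 1 / 4) ∨
      (q = B T ∧ ang q T.1 = 1 / 5) ∨ (q = C T ∧ ang q T.1 = 1 / 20) := by
    intro T q hq
    rcases hall T q hq with h | h | h
    · exact Or.inl ⟨h, by rw [h]; exact angA T⟩
    · exact Or.inr (Or.inl ⟨h, by rw [h]; exact angB T⟩)
    · exact Or.inr (Or.inr ⟨h, by rw [h]; exact angC T⟩)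
  -- distinctness
  have hABne : ∀ T : X.Tile, A T ≠ B T := by
    intro T h
    have h1 := angA T
    rw [h, angB T] at h1
    norm_num at h1
  have hACne : ∀ T : X.Tile, A T ≠ C T := by
    intro T h
    have h1 := angA T
    rw [h, angC T] at h1
    norm_num at h1
  have hBCne : ∀ T : X.Tile, B T ≠ C T := by
    intro T h
    have h1 := angB T
    rw [h, angC T] at h1
    norm_num at h1
  set T₁ : X.Tile := ⟨X.K, X.hK⟩ with hT₁
  have hcpos : 0 < c := by rw [← dAB T₁]; exact dist_pos.mpr (hABne T₁)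
  have hbpos : 0 < b := by rw [← dAC T₁]; exact dist_pos.mpr (hACne T₁)
  have hapos : 0 < a := by rw [← dBC T₁]; exact dist_pos.mpr (hBCne T₁)
  -- directions at the corners
  have dirsA : ∀ (T : X.Tile) (s : ℝ), Dset T.1 (A T) = arc s (1 / 4) →
      (B T = A T + c • dir s ∧ C T = A T + b • dir (s + 1 / 4)) ∨
      (C T = A T + b • dir s ∧ B T = A T + c • dir (s + 1 / 4)) := by
    intro T s hs
    have h := X.triangle_dirs T.2 (cA T) (e₁ := B T) (e₂ := C T)
      (fun q hq => hall T q hq) (a := s) (by rw [angA]; exact hs)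
    rw [angA, dAB, dAC] at h
    exact h
  have dirsB : ∀ (T : X.Tile) (s : ℝ), Dset T.1 (B T) = arc s (1 / 5) →
      (A T = B T + c • dir s ∧ C T = B T + a • dir (s + 1 / 5)) ∨
      (C T = B T + a • dir s ∧ A T = B T + c • dir (s + 1 / 5)) := by
    intro T s hs
    have h := X.triangle_dirs T.2 (cB T) (e₁ := A T) (e₂ := C T)
      (fun q hq => by
        rcases hall T q hq with h | h | h
        · exact Or.inr (Or.inl h)
        · exact Or.inl h
        · exact Or.inr (Or.inr h)) (a := s) (by rw [angB]; exact hs)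
    rw [angB, dist_comm (B T) (A T), dAB, dBC] at h
    exact h
  -- metric relations
  have hpyth : a ^ 2 = b ^ 2 + c ^ 2 := by
    obtain ⟨s, _, _, hs⟩ := X.exists_arc' T₁.2 (hA T₁) (nA T₁)
    rw [angA] at hs
    have hcos : Real.cos (2 * Real.pi * (s + 1 / 4 - s)) = 0 := by
      have : 2 * Real.pi * (s + 1 / 4 - s) = Real.pi / 2 := by ring
      rw [this, Real.cos_pi_div_two]
    rw [← dBC T₁]
    rcases dirsA T₁ s hs with ⟨h1, h2⟩ | ⟨h1, h2⟩
    · rw [h1, h2, dist_ray, hcos]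
      ring
    · rw [h1, h2, dist_comm, dist_ray, hcos]
      ring
  have hlaw : b ^ 2 = a ^ 2 + c ^ 2 - 2 * a * c * Real.cos (2 * Real.pi * (1 / 5)) := by
    obtain ⟨s, _, _, hs⟩ := X.exists_arc' T₁.2 (hB T₁) (nB T₁)
    rw [angB] at hs
    have hcos : 2 * Real.pi * (s + 1 / 5 - s) = 2 * Real.pi * (1 / 5) := by ring
    rw [← dAC T₁]
    rcases dirsB T₁ s hs with ⟨h1, h2⟩ | ⟨h1, h2⟩
    · rw [h1, h2, dist_ray, hcos]
      ring
    · rw [h1, h2, dist_comm, dist_ray, hcos]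
  have h2c : 2 * c < a := by
    have h1 : c = a * Real.cos (2 * Real.pi * (1 / 5)) := by
      have : c * (2 * c) = c * (2 * (a * Real.cos (2 * Real.pi * (1 / 5)))) := by
        nlinarith
      have := mul_left_cancel₀ hcpos.ne' this
      linarith
    have := cos_fifth_lt
    nlinarith
  have hbc : a < b + c := by
    by_contra hcon
    push Not at hcon
    have : (b + c) ^ 2 ≤ a ^ 2 := by
      apply pow_le_pow_left₀ (by positivity) hcon
    nlinarith [mul_pos hbpos hcpos]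
  -- arcs at P
  obtain ⟨α, harc, hfam⟩ := X.exists_arcFam (X.isVert_bd P.2)
  have hτ : ∀ T : X.Tile, T ∈ X.τ P ↔ P.1 ∈ T.1 := fun T => X.mem_τ
  have hangP : ∀ T ∈ X.τ P, ang P.1 T.1 = 1 / 5 := by
    intro T hT
    have := angB T
    rw [hPB T hT] at this
    exact this
  have hcardF : 3 ≤ (X.tiles_finite P.1).toFinset.card := (X.isVert_iff P.1).mp P.2
  have harcP : ∀ T ∈ X.τ P, Dset T.1 P.1 = arc (α T.1) (1 / 5) := by
    intro T hT
    rw [harc T.1 T.2 ((hτ T).mp hT), hangP T hT]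
  have hdirs : ∀ T ∈ X.τ P, (A T = P.1 + c • dir (α T.1) ∧ C T = P.1 + a • dir (α T.1 + 1 / 5)) ∨
      (C T = P.1 + a • dir (α T.1) ∧ A T = P.1 + c • dir (α T.1 + 1 / 5)) := by
    intro T hT
    have h := dirsB T (α T.1) (by rw [hPB T hT]; exact harcP T hT)
    rw [hPB T hT] at h
    exact h
  -- PARITY
  have hpar : ∃ U ∈ X.τ P, ∃ W ∈ X.τ P, U ≠ W ∧ ∃ t : ℝ, C U = P.1 + a • dir t ∧
      A W = P.1 + c • dir t := by
    by_contra hcon
    push Not at hcon
    -- for each U a direction towards C U with the neighbouring tile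
    have hstep : ∀ U ∈ X.τ P, ∃ W ∈ X.τ P, W ≠ U ∧ ∃ t : ℝ, C U = P.1 + a • dir t ∧
        C W = P.1 + a • dir t := by
      intro U hU
      have hUm : U.1 ∈ (X.tiles_finite P.1).toFinset := X.mem_tilesF.mpr ⟨U.2, (hτ U).mp hU⟩
      have hex : ∃ t : ℝ, C U = P.1 + a • dir t ∧ t ∈ Dset U.1 P.1 ∧
          ∃ W : X.Tile, W ∈ X.τ P ∧ W ≠ U ∧ t ∈ Dset W.1 P.1 := by
        rcases hdirs U hU with ⟨_, h⟩ | ⟨h, _⟩
        · obtain ⟨W, hW, hWU, hmem⟩ := hfam.exists_right hUm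
          have hW' := X.mem_tilesF.mp hW
          simp only [hangP U hU] at hmem
          refine ⟨α U.1 + 1 / 5, h, ?_, ⟨W, hW'.1⟩, (hτ _).mpr hW'.2, ?_, ?_⟩
          · rw [harcP U hU]
            exact arc_right_mem (by norm_num)
          · exact fun h' => hWU (congrArg Subtype.val h')
          · show α U.1 + 1 / 5 ∈ Dset W P.1
            rw [harc W hW'.1 hW'.2]
            exact hmem
        · obtain ⟨W, hW, hWU, hmem⟩ := hfam.exists_left hUm
          have hW' := X.mem_tilesF.mp hW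
          refine ⟨α U.1, h, ?_, ⟨W, hW'.1⟩, (hτ _).mpr hW'.2, ?_, ?_⟩
          · rw [harcP U hU]
            exact arc_left_mem (by norm_num)
          · exact fun h' => hWU (congrArg Subtype.val h')
          · show α U.1 ∈ Dset W P.1
            rw [harc W hW'.1 hW'.2]
            exact hmem
      obtain ⟨t, ht, htU, W, hW, hWU, htW⟩ := hex
      refine ⟨W, hW, hWU, t, ht, ?_⟩
      have hno : NoOverlap (arc (α W.1) (1 / 5)) (arc (α U.1) (1 / 5)) := by
        rw [← harcP W hW, ← harcP U hU]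
        exact X.noOverlap W.2 U.2 (fun h' => hWU (Subtype.ext h')) ((hτ W).mp hW) ((hτ U).mp hU)
      rw [harcP W hW] at htW
      rw [harcP U hU] at htU
      have hnotA : A W ≠ P.1 + c • dir t := hcon U hU W hW hWU.symm t ht
      rcases hno.endpoint (by norm_num) htW htU with ⟨k, hk⟩ | ⟨k, hk⟩
      · have hd : dir (α W.1) = dir t := by rw [← hk, dir_add_int]
        rcases hdirs W hW with ⟨h1, _⟩ | ⟨h1, _⟩
        · rw [hd] at h1
          exact absurd h1 hnotA
        · rw [hd] at h1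
          exact h1
      · have hd : dir (α W.1 + 1 / 5) = dir t := by rw [← hk, dir_add_int]
        rcases hdirs W hW with ⟨_, h1⟩ | ⟨_, h1⟩
        · rw [hd] at h1
          exact h1
        · rw [hd] at h1
          exact absurd h1 hnotA
    -- uniqueness: three tiles with the same C-point are impossible
    have huniq : ∀ U ∈ X.τ P, ∀ W ∈ X.τ P, ∀ Z ∈ X.τ P, U ≠ W → Z ≠ W → C U = C W → C Z = C W →
        U = Z := by
      intro U hU W hW Z hZ hUW hZW h1 h2
      by_contra hUZ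
      have hPC : P.1 ≠ C W := by
        rw [← hPB W hW]
        exact hBCne W
      refine X.two_verts U.2 W.2 Z.2 (fun h' => hUW (Subtype.ext h'))
        (fun h' => hUZ (Subtype.ext h')) (fun h' => hZW (Subtype.ext h').symm) hPC
        ((hτ U).mp hU) ((hτ W).mp hW) ((hτ Z).mp hZ) ?_ (hC W) ?_
      · rw [← h1]; exact hC U
      · rw [← h2]; exact hC Z
    choose g hg hgne t ht1 ht2 using hstep
    have hgC : ∀ U hU, C (g U hU) = C U := fun U hU => (ht2 U hU).trans (ht1 U hU).symm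
    have hsum : ∑ _T ∈ X.τ P, (1 : ZMod 2) = 0 := by
      apply Finset.sum_involution g
      · intro U hU
        decide
      · intro U hU _
        exact hgne U hU
      · intro U hU
        have h1 : C (g (g U hU) (hg U hU)) = C (g U hU) := hgC _ _
        exact (huniq U hU (g U hU) (hg U hU) _ (hg _ _) (hgne U hU).symm (hgne _ _)
          (hgC U hU).symm h1).symm
    rw [Finset.sum_const, hP5] at hsum
    revert hsum
    decide
  obtain ⟨U, hU, W, hW, hUW, t, hCU, hAW⟩ := hpar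
  have hPU : P.1 ∈ U.1 := (hτ U).mp hU
  have hPW : P.1 ∈ W.1 := (hτ W).mp hW
  -- the point q = A W
  have hCUmem : P.1 + a • dir t ∈ U.1 := by rw [← hCU]; exact hC U
  obtain ⟨hqU, hqU1, hqU2⟩ := X.between_mem U.2 hPU hcpos (by linarith) hCUmem
  set q : ℂ := P.1 + c • dir t with hq
  have hqW : q ∈ W.1 := by rw [← hAW]; exact hA W
  have hqv : X.IsVert q := by
    rw [← hAW]
    exact IsCorner.isVert X W.2 (cA W)
  have hUW' : U.1 ≠ W.1 := fun h' => hUW (Subtype.ext h')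
  have hqU0 : q ∉ interior U.1 := X.not_interior_of_two U.2 W.2 hUW' hqW
  have hangU : ang q U.1 = 1 / 2 := X.ang_half U.2 hqU hqU0 hqU1 hqU2
  have hUq : U ∈ X.τ ⟨q, hqv⟩ := X.mem_τ.mpr hqU
  have hWq : W ∈ X.τ ⟨q, hqv⟩ := X.mem_τ.mpr hqW
  by_cases h4 : 4 ≤ (X.τ ⟨q, hqv⟩).card
  · exact ⟨U, hU, ⟨q, hqv⟩, X.mem_V.mpr hqU, Or.inl hangU, ⟨U, hUq, hangU⟩, h4⟩
  -- exactly three tiles at q
  obtain ⟨Y, hY, hYU, hYW, hYall, hYang⟩ := X.third_angle h4 hUq hWq hUW
  have hangW : ang q W.1 = 1 / 4 := by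
    have := angA W
    rw [hAW] at this
    exact this
  have hYang' : ang q Y.1 = 1 / 4 := by
    have : ang q Y.1 = 1 - ang q U.1 - ang q W.1 := hYang
    rw [this, hangU, hangW]
    norm_num
  have hqY : q ∈ Y.1 := X.mem_τ.mp hY
  have hYU' : Y.1 ≠ U.1 := fun h' => hYU (Subtype.ext h')
  have hqY0 : q ∉ interior Y.1 := X.not_interior_of_two Y.2 U.2 hYU' hqU
  have hcY : IsCorner Y.1 q := ⟨hqY, hqY0, by rw [hYang']; norm_num⟩
  have hqAY : q = A Y := by
    rcases hvals Y q hcY with ⟨h, _⟩ | ⟨_, h⟩ | ⟨_, h⟩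
    · exact h
    · rw [hYang'] at h; norm_num at h
    · rw [hYang'] at h; norm_num at h
  -- the direction t belongs to Y
  have hqW2 : t + 1 / 2 ∈ Dset W.1 q := by
    apply mem_Dset_of_sub hPW hcpos
    rw [hq, dir_half]
    simp
  have htW : t ∉ Dset W.1 q := by
    intro h
    have hW0 : q ∉ interior W.1 := X.not_interior_of_two W.2 U.2 hUW'.symm hqU
    have := X.ang_half W.2 hqW hW0 h hqW2
    rw [hangW] at this
    norm_num at this
  obtain ⟨β, hβarc, hβfam⟩ := X.exists_arcFam (X.isVert_bd hqv)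
  have htY : t ∈ Dset Y.1 q := by
    have hUm : U.1 ∈ (X.tiles_finite q).toFinset := X.mem_tilesF.mpr ⟨U.2, hqU⟩
    have hβU : Dset U.1 q = arc (β U.1) (1 / 2) := by rw [hβarc U.1 U.2 hqU, hangU]
    have h1 : t ∈ arc (β U.1) (1 / 2) := by rw [← hβU]; exact hqU1
    have h2 : t + 1 / 2 ∈ arc (β U.1) (1 / 2) := by rw [← hβU]; exact hqU2
    -- t is an endpoint
    have hend : (∃ k : ℤ, t + k = β U.1) ∨ (∃ k : ℤ, t + k = β U.1 + 1 / 2) := by
      obtain ⟨k, hk1, hk2⟩ := h1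
      obtain ⟨m, hm1, hm2⟩ := h2
      rcases lt_trichotomy (m : ℤ) k with h | h | h
      · right
        refine ⟨k, ?_⟩
        have : (m : ℝ) ≤ k - 1 := by
          have : m ≤ k - 1 := by omega
          exact_mod_cast this
        linarith
      · left
        refine ⟨k, ?_⟩
        rw [h] at hm1 hm2
        linarith
      · exfalso
        have : (k : ℝ) + 1 ≤ m := by
          have : k + 1 ≤ m := by omega
          exact_mod_cast this
        linarith
    have hex : ∃ j : Set ℂ, j ∈ X.𝒯 ∧ q ∈ j ∧ j ≠ U.1 ∧ t ∈ Dset j q := by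
      rcases hend with ⟨k, hk⟩ | ⟨k, hk⟩
      · obtain ⟨j, hj, hjU, hmem⟩ := hβfam.exists_left hUm
        have hj' := X.mem_tilesF.mp hj
        refine ⟨j, hj'.1, hj'.2, hjU, ?_⟩
        rw [hβarc j hj'.1 hj'.2, ← arc_add_int k, hk]
        exact hmem
      · obtain ⟨j, hj, hjU, hmem⟩ := hβfam.exists_right hUm
        have hj' := X.mem_tilesF.mp hj
        refine ⟨j, hj'.1, hj'.2, hjU, ?_⟩
        simp only [hangU] at hmem
        rw [hβarc j hj'.1 hj'.2, ← arc_add_int k, hk]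
        exact hmem
    obtain ⟨j, hj, hqj, hjU, htj⟩ := hex
    rcases hYall ⟨j, hj⟩ (X.mem_τ.mpr hqj) with h | h | h
    · exact absurd (congrArg Subtype.val h) hjU
    · exfalso
      apply htW
      rw [← h]
      exact htj
    · rw [← h]
      exact htj
  -- t is an endpoint of the arc of Y
  have hdirY : B Y = q + c • dir t ∨ C Y = q + b • dir t := by
    have harcY : Dset Y.1 q = arc (β Y.1) (1 / 4) := by
      rw [hβarc Y.1 Y.2 hqY, hYang']
    have hno := X.noOverlap Y.2 U.2 hYU' hqY hqU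
    rw [harcY, hβarc U.1 U.2 hqU, hangU] at hno
    have h1 : t ∈ arc (β Y.1) (1 / 4) := by rw [← harcY]; exact htY
    have h2 : t ∈ arc (β U.1) (1 / 2) := by rw [← hangU, ← hβarc U.1 U.2 hqU]; exact hqU1
    have hdA := dirsA Y (β Y.1) (by rw [← hqAY]; exact harcY)
    rw [← hqAY] at hdA
    rcases hno.endpoint (by norm_num) h1 h2 with ⟨k, hk⟩ | ⟨k, hk⟩
    · have hd : dir (β Y.1) = dir t := by rw [← hk, dir_add_int]
      rw [hd] at hdA
      rcases hdA with ⟨h, _⟩ | ⟨h, _⟩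
      · exact Or.inl h
      · exact Or.inr h
    · have hd : dir (β Y.1 + 1 / 4) = dir t := by rw [← hk, dir_add_int]
      rw [hd] at hdA
      rcases hdA with ⟨_, h⟩ | ⟨_, h⟩
      · exact Or.inr h
      · exact Or.inl h
  rcases hdirY with hBY | hCY
  · -- Case 1
    have e1 : B Y = P.1 + (2 * c) • dir t := by
      rw [hBY, hq, two_mul, add_smul]
      ring
    obtain ⟨m1, m2, m3⟩ := X.between_mem U.2 hPU (by linarith : 0 < 2 * c) h2c hCUmem
    rw [← e1] at m1 m2 m3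
    have hv : X.IsVert (B Y) := IsCorner.isVert X Y.2 (cB Y)
    have hBU0 : B Y ∉ interior U.1 := X.not_interior_of_two U.2 Y.2 hYU'.symm (hB Y)
    have hangU' : ang (B Y) U.1 = 1 / 2 := X.ang_half U.2 m1 hBU0 m2 m3
    have hU' : U ∈ X.τ ⟨B Y, hv⟩ := X.mem_τ.mpr m1
    have hY' : Y ∈ X.τ ⟨B Y, hv⟩ := X.mem_τ.mpr (hB Y)
    refine ⟨U, hU, ⟨B Y, hv⟩, X.mem_V.mpr m1, Or.inl hangU', ⟨U, hU', hangU'⟩, ?_⟩
    by_contra h4'
    obtain ⟨Z, hZ, hZU, hZY, _, hZang⟩ := X.third_angle h4' hU' hY' hYU.symm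
    have hZang' : ang (B Y) Z.1 = 3 / 10 := by
      have : ang (B Y) Z.1 = 1 - ang (B Y) U.1 - ang (B Y) Y.1 := hZang
      rw [this, hangU', angB]
      norm_num
    have hZm : B Y ∈ Z.1 := X.mem_τ.mp hZ
    have hZ0 : B Y ∉ interior Z.1 :=
      X.not_interior_of_two Z.2 U.2 (fun h' => hZU (Subtype.ext h')) m1
    rcases hvals Z (B Y) ⟨hZm, hZ0, by rw [hZang']; norm_num⟩ with ⟨_, h⟩ | ⟨_, h⟩ | ⟨_, h⟩
    · rw [hZang'] at h; norm_num at h
    · rw [hZang'] at h; norm_num at h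
    · rw [hZang'] at h; norm_num at h
  · -- Case 2
    have e1 : C U = q + (a - c) • dir t := by
      rw [hCU, hq, sub_smul]
      ring
    have hCYmem : q + b • dir t ∈ Y.1 := by rw [← hCY]; exact hC Y
    obtain ⟨m1, m2, m3⟩ := X.between_mem Y.2 hqY (by linarith : 0 < a - c) (by linarith) hCYmem
    rw [← e1] at m1 m2 m3
    have hv : X.IsVert (C U) := IsCorner.isVert X U.2 (cC U)
    have hCY0 : C U ∉ interior Y.1 := X.not_interior_of_two Y.2 U.2 hYU' (hC U)
    have hangY' : ang (C U) Y.1 = 1 / 2 := X.ang_half Y.2 m1 hCY0 m2 m3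
    have hU' : U ∈ X.τ ⟨C U, hv⟩ := X.mem_τ.mpr (hC U)
    have hY' : Y ∈ X.τ ⟨C U, hv⟩ := X.mem_τ.mpr m1
    refine ⟨U, hU, ⟨C U, hv⟩, X.mem_V.mpr (hC U), Or.inr rfl, ⟨Y, hY', hangY'⟩, ?_⟩
    by_contra h4'
    obtain ⟨Z, hZ, hZY, hZU, _, hZang⟩ := X.third_angle h4' hY' hU' hYU
    have hZang' : ang (C U) Z.1 = 9 / 20 := by
      have : ang (C U) Z.1 = 1 - ang (C U) Y.1 - ang (C U) U.1 := hZang
      rw [this, hangY', angC]
      norm_num
    have hZm : C U ∈ Z.1 := X.mem_τ.mp hZ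
    have hZ0 : C U ∉ interior Z.1 :=
      X.not_interior_of_two Z.2 U.2 (fun h' => hZU (Subtype.ext h')) (hC U)
    rcases hvals Z (C U) ⟨hZm, hZ0, by rw [hZang']; norm_num⟩ with ⟨_, h⟩ | ⟨_, h⟩ | ⟨_, h⟩
    · rw [hZang'] at h; norm_num at h
    · rw [hZang'] at h; norm_num at h
    · rw [hZang'] at h; norm_num at h

end CT

end Pool.Agent.Hhelper50
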