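import Pool.Agent.Hhelper50.Geo1

/-!
# Transfer of the frozen statement to tilings of the complex plane
-/

set_option autoImplicit false

namespace Pool.Agent.Hhelper50

open Set Metric

/-- the isometry used for the transfer -/
noncomputable def eC : EuclideanSpace ℝ (Fin 2) ≃ₗᵢ[ℝ] ℂ := Complex.orthonormalBasisOneI.repr.symm

theorem reduce (h : ∀ X : CT, X.n ≤ 21) :
    ∀ (𝒯 : Set (Set (EuclideanSpace ℝ (Fin 2)))) (K : Set (EuclideanSpace ℝ (Fin 2))) (n : ℕ),
      Convex ℝ K → IsCompact K → (interior K).Nonempty →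
      (∀ A ∈ 𝒯, ∃ f : EuclideanSpace ℝ (Fin 2) ≃ᵢ EuclideanSpace ℝ (Fin 2), A = f '' K) →
      ⋃₀ 𝒯 = Set.univ →
      (∀ A ∈ 𝒯, ∀ B ∈ 𝒯, A ≠ B → Disjoint (interior A) (interior B)) →
      (∀ A ∈ 𝒯, {B | B ∈ 𝒯 ∧ B ≠ A ∧ (A ∩ B).Nonempty}.ncard = n) →
      n ≤ 21 := by
  intro 𝒯 K n hconv hcomp hint hcong hcov hdisj hn
  by_contra hcon
  push Not at hcon
  -- a tile
  obtain ⟨A₀, hA₀, -⟩ : ∃ A ∈ 𝒯, (0 : EuclideanSpace ℝ (Fin 2)) ∈ A := by
    have : (0 : EuclideanSpace ℝ (Fin 2)) ∈ ⋃₀ 𝒯 := by rw [hcov]; trivial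
    exact this
  obtain ⟨f₀, hf₀⟩ := hcong A₀ hA₀
  have hinj : Function.Injective (fun A : Set (EuclideanSpace ℝ (Fin 2)) => eC '' A) :=
    eC.injective.image_injective
  have hintim : ∀ A : Set (EuclideanSpace ℝ (Fin 2)), interior (eC '' A) = eC '' interior A := by
    intro A
    exact (eC.toHomeomorph.image_interior A).symm
  have hinter : ∀ A B : Set (EuclideanSpace ℝ (Fin 2)), eC '' A ∩ eC '' B = eC '' (A ∩ B) :=
    fun A B => (image_inter eC.injective).symm
  have hX := h
    { 𝒯 := (fun A => eC '' A) '' 𝒯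
      K := eC '' A₀
      n := n
      hK := ⟨A₀, hA₀, rfl⟩
      hconv := by
        have h1 : Convex ℝ A₀ := by
          rw [hf₀]
          have := hconv.affine_image
            (f₀.toRealAffineIsometryEquiv.toAffineEquiv.toAffineMap)
          simpa using this
        exact h1.linear_image eC.toLinearEquiv.toLinearMap
      hcomp := by
        have h1 : IsCompact A₀ := by
          rw [hf₀]; exact hcomp.image f₀.continuous
        exact h1.image eC.continuous
      hint := by
        rw [hintim]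
        apply Set.Nonempty.image
        have h2 : (f₀ '' interior K) = interior (f₀ '' K) := f₀.toHomeomorph.image_interior K
        rw [hf₀, ← h2]
        exact hint.image f₀
      hcong := by
        rintro _ ⟨A, hA, rfl⟩
        obtain ⟨g, hg⟩ := hcong A hA
        refine ⟨eC.symm.toIsometryEquiv.trans (f₀.symm.trans (g.trans eC.toIsometryEquiv)), ?_⟩
        ext z
        simp only [mem_image]
        constructor
        · rintro ⟨x, hx, rfl⟩
          rw [hg] at hx
          obtain ⟨k, hk, rfl⟩ := hx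
          refine ⟨eC (f₀ k), ⟨f₀ k, by rw [hf₀]; exact ⟨k, hk, rfl⟩, rfl⟩, ?_⟩
          simp
        · rintro ⟨_, ⟨y, hy, rfl⟩, rfl⟩
          rw [hf₀] at hy
          obtain ⟨k, hk, rfl⟩ := hy
          refine ⟨g k, by rw [hg]; exact ⟨k, hk, rfl⟩, ?_⟩
          simp
      hcov := by
        rw [eq_univ_iff_forall]
        intro z
        have h1 : eC.symm z ∈ ⋃₀ 𝒯 := by rw [hcov]; trivial
        obtain ⟨A, hA, hz⟩ := h1
        exact ⟨eC '' A, ⟨A, hA, rfl⟩, ⟨eC.symm z, hz, eC.apply_symm_apply z⟩⟩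
      hdisj := by
        rintro _ ⟨A, hA, rfl⟩ _ ⟨B, hB, rfl⟩ hAB
        have hAB' : A ≠ B := fun hh => hAB (by rw [hh])
        simp only [hintim]
        exact (disjoint_image_iff eC.injective).mpr (hdisj A hA B hB hAB')
      hn := by
        rintro _ ⟨A, hA, rfl⟩
        have h1 : {B | B ∈ (fun A => eC '' A) '' 𝒯 ∧ B ≠ eC '' A ∧ (eC '' A ∩ B).Nonempty}
            = (fun A => eC '' A) '' {B | B ∈ 𝒯 ∧ B ≠ A ∧ (A ∩ B).Nonempty} := by
          ext C
          simp only [mem_ofPred_eq, mem_image]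
          constructor
          · rintro ⟨⟨B, hB, rfl⟩, h2, h3⟩
            refine ⟨B, ⟨hB, fun hh => h2 (by rw [hh]), ?_⟩, rfl⟩
            rw [hinter] at h3
            exact h3.of_image
          · rintro ⟨B, ⟨hB, h2, h3⟩, rfl⟩
            refine ⟨⟨B, hB, rfl⟩, fun hh => h2 (hinj hh), ?_⟩
            rw [hinter]
            exact h3.image _
        show {B | B ∈ (fun A => eC '' A) '' 𝒯 ∧ B ≠ eC '' A ∧ (eC '' A ∩ B).Nonempty}.ncard = n
        rw [h1, ncard_image_of_injective _ hinj]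
        exact hn A hA
      hn0 := by omega }
  simp only at hX
  omega

end Pool.Agent.Hhelper50
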