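import Pool.Agent.Hhelper50.Geo5

/-!
# Sides of a tile end at corners
-/

set_option autoImplicit false

namespace Pool.Agent.Hhelper50

open Set Metric

/-- `t` is not interior to `S` -/
def NotInt (S : Set ℝ) (t : ℝ) : Prop := ∀ x y : ℝ, x < t → t < y → ¬ (Ioo x y ⊆ S)

lemma notInt_left {a θ : ℝ} (h0 : 0 ≤ θ) (h1 : θ < 1) : NotInt (arc a θ) a := by
  intro x y hx hy hsub
  obtain ⟨k, h2, h3⟩ := Ioo_subset_arc_interior h0 h1 hsub ⟨hx, hy⟩
  have e1 : (0 : ℝ) < k := by linarith
  have e2 : (k : ℝ) < 1 := by linarith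
  have e1' : 0 < k := by exact_mod_cast e1
  have e2' : k < 1 := by exact_mod_cast e2
  omega

lemma notInt_right {a θ : ℝ} (h0 : 0 ≤ θ) (h1 : θ < 1) : NotInt (arc a θ) (a + θ) := by
  intro x y hx hy hsub
  obtain ⟨k, h2, h3⟩ := Ioo_subset_arc_interior h0 h1 hsub ⟨hx, hy⟩
  have e1 : (-1 : ℝ) < k := by linarith
  have e2 : (k : ℝ) < 0 := by linarith
  have e1' : -1 < k := by exact_mod_cast e1
  have e2' : k < 0 := by exact_mod_cast e2
  omega

namespace CT

variable (X : CT)

/-- A boundary ray of `A` at `p` ends at a corner of `A`. -/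
theorem exists_side {A : Set ℂ} (hA : A ∈ X.𝒯) {p : ℂ} (hp : p ∈ A) {t : ℝ}
    (ht : t ∈ Dset A p) (hni : NotInt (Dset A p) t) :
    ∃ r : ℝ, 0 < r ∧ IsCorner A (p + r • dir t) := by
  obtain ⟨D, hD, hdiam⟩ := X.exists_diam
  set S : Set ℝ := {r | 0 ≤ r ∧ r ≤ D ∧ p + r • dir t ∈ A} with hS
  have hcont : Continuous (fun r : ℝ => p + r • dir t) := by fun_prop
  have hSclosed : IsClosed S := by
    have h1 : IsClosed {r : ℝ | 0 ≤ r} := isClosed_le continuous_const continuous_id
    have h2 : IsClosed {r : ℝ | r ≤ D} := isClosed_le continuous_id continuous_const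
    have h3 : IsClosed {r : ℝ | p + r • dir t ∈ A} := (X.closed hA).preimage hcont
    exact h1.inter (h2.inter h3)
  have hScomp : IsCompact S := by
    apply IsCompact.of_isClosed_subset (isCompact_Icc (a := (0 : ℝ)) (b := D)) hSclosed
    rintro r ⟨h1, h2, _⟩
    exact ⟨h1, h2⟩
  have hdist : ∀ r : ℝ, 0 ≤ r → p + r • dir t ∈ A → r ≤ D := by
    intro r hr hmem
    have := hdiam A hA _ hmem p hp
    rw [dist_eq_norm] at this
    simpa [norm_smul, norm_dir, abs_of_nonneg hr] using this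
  obtain ⟨r1, hr1, hr1'⟩ := X.exists_small p
  have hA1 := (X.Dset_iff hA hp hr1 hr1' t).mp ht
  have hr1S : r1 ∈ S := ⟨hr1.le, hdist r1 hr1.le hA1, hA1⟩
  have hmem := hScomp.sSup_mem ⟨r1, hr1S⟩
  set r := sSup S with hr
  have hmax : ∀ x ∈ S, x ≤ r := fun x hx => le_csSup hScomp.bddAbove hx
  have hrpos : 0 < r := lt_of_lt_of_le hr1 (hmax r1 hr1S)
  obtain ⟨_, _, heA⟩ := hmem
  set e : ℂ := p + r • dir t with he
  have hpe : p = e + r • dir (t + 1 / 2) := by
    rw [he, dir_half]
    simp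
  have ht' : t + 1 / 2 ∈ Dset A e := mem_Dset_of_sub hp hrpos hpe
  have hnt : t ∉ Dset A e := by
    intro h
    obtain ⟨r2, hr2, hr2'⟩ := X.exists_small e
    have k1 := (X.Dset_iff hA heA hr2 hr2' t).mp h
    have e3 : e + r2 • dir t = p + (r + r2) • dir t := by
      rw [he, add_smul]
      ring
    rw [e3] at k1
    have := hmax _ (show r + r2 ∈ S from ⟨by linarith, hdist _ (by linarith) k1, k1⟩)
    linarith
  have hint : e ∉ interior A := by
    intro h
    apply hnt
    obtain ⟨ε, hε, hsub⟩ := Metric.isOpen_iff.mp isOpen_interior e h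
    refine ⟨ε / 2, by linarith, interior_subset (hsub ?_)⟩
    rw [mem_ball, dist_eq_norm, add_sub_cancel_left, norm_smul, norm_dir, mul_one,
      Real.norm_of_nonneg (by linarith)]
    linarith
  refine ⟨r, hrpos, heA, hint, ?_⟩
  obtain ⟨a, hpos, hhalf, harc⟩ := X.exists_arc' hA heA hint
  rcases hhalf.lt_or_eq with h | h
  · exact h
  · exfalso
    rw [h] at harc
    have h1 : t + 1 / 2 ∈ arc a (1 / 2) := by rw [← harc]; exact ht'
    have hnotend : ¬ ((∃ k : ℤ, t + 1 / 2 + k = a) ∨ (∃ k : ℤ, t + 1 / 2 + k = a + 1 / 2)) := by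
      intro h2
      have h3 := arc_half_opposite h2
      apply hnt
      rw [harc, ← arc_add_int 1]
      convert h3 using 1
      push_cast
      ring
    push Not at hnotend
    obtain ⟨k, hk1, hk2⟩ := h1
    have hk1' : a < t + 1 / 2 + k := lt_of_le_of_ne hk1 (hnotend.1 k).symm
    have hk2' : t + 1 / 2 + k < a + 1 / 2 := lt_of_le_of_ne hk2 (hnotend.2 k)
    have hsub : Ioo (a - k) (a + 1 / 2 - k) ⊆ Dset A e := by
      intro u hu
      rw [harc]
      exact ⟨k, by linarith [hu.1], by linarith [hu.2]⟩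
    set ρ := min (X.rad e / 2) (r / 2) with hρ
    have hρ0 : 0 < ρ := lt_min (half_pos (X.rad_pos e)) (half_pos hrpos)
    have hρ1 : ρ < X.rad e := lt_of_le_of_lt (min_le_left _ _) (half_lt_self (X.rad_pos e))
    have hρ2 : ρ < r := lt_of_le_of_lt (min_le_right _ _) (half_lt_self hrpos)
    have hw := X.interior_of_Ioo hA heA hsub (t := t + 1 / 2)
      ⟨by linarith, by linarith⟩ hρ0 hρ1
    have hw2 : e + ρ • dir (t + 1 / 2) = p + (r - ρ) • dir t := by
      rw [he, dir_half, sub_smul]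
      simp only [smul_neg]
      ring
    rw [hw2] at hw
    have hcont2 : Continuous (fun u : ℝ => p + (r - ρ) • dir u) :=
      continuous_const.add (continuous_dir.const_smul (r - ρ))
    have hev : ∀ᶠ u in nhds t, p + (r - ρ) • dir u ∈ interior A := by
      apply hcont2.continuousAt.eventually (isOpen_interior.mem_nhds _)
      exact hw
    obtain ⟨δ, hδ, hδ'⟩ := Metric.eventually_nhds_iff.mp hev
    apply hni (t - δ) (t + δ) (by linarith) (by linarith)
    intro u hu
    refine ⟨r - ρ, by linarith, interior_subset (hδ' ?_)⟩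
    rw [Real.dist_eq, abs_lt]
    constructor <;> linarith [hu.1, hu.2]

/-- **Sides of a triangle**: at the corner `p` of a tile with corners exactly `p, e₁, e₂`, the two
ends of the arc point to the two other corners. -/
theorem triangle_dirs {A : Set ℂ} (hA : A ∈ X.𝒯) {p e₁ e₂ : ℂ} (hp : IsCorner A p)
    (hall : ∀ q, IsCorner A q → q = p ∨ q = e₁ ∨ q = e₂) {a : ℝ}
    (harc : Dset A p = arc a (ang p A)) :
    (e₁ = p + dist p e₁ • dir a ∧ e₂ = p + dist p e₂ • dir (a + ang p A)) ∨
    (e₂ = p + dist p e₂ • dir a ∧ e₁ = p + dist p e₁ • dir (a + ang p A)) := by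
  obtain ⟨hpA, hint, hlt⟩ := hp
  obtain ⟨_, hpos, _, _⟩ := X.exists_arc' hA hpA hint
  have hl : a ∈ Dset A p := by rw [harc]; exact arc_left_mem hpos.le
  have hr : a + ang p A ∈ Dset A p := by rw [harc]; exact arc_right_mem hpos.le
  have hnl : NotInt (Dset A p) a := by rw [harc]; exact notInt_left hpos.le (by linarith)
  have hnr : NotInt (Dset A p) (a + ang p A) := by
    rw [harc]; exact notInt_right hpos.le (by linarith)
  obtain ⟨r1, hr1, hc1⟩ := X.exists_side hA hpA hl hnl
  obtain ⟨r2, hr2, hc2⟩ := X.exists_side hA hpA hr hnr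
  have hd : ∀ (r t : ℝ), 0 < r → dist p (p + r • dir t) = r := by
    intro r t hr
    rw [dist_eq_norm]
    simp [norm_smul, norm_dir, abs_of_pos hr]
  have hne : ∀ (r t : ℝ), 0 < r → p + r • dir t ≠ p := by
    intro r t hr h
    have := hd r t hr
    rw [h, dist_self] at this
    linarith
  have hdiff : p + r1 • dir a ≠ p + r2 • dir (a + ang p A) := by
    intro h
    have h1 := hd r1 a hr1
    rw [h, hd r2 _ hr2] at h1
    rw [h1] at h
    have h2 : r1 • dir a = r1 • dir (a + ang p A) := add_left_cancel h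
    have h3 : dir a = dir (a + ang p A) := smul_right_injective ℂ hr1.ne' h2
    obtain ⟨k, hk⟩ := dir_inj h3
    have e1 : (-1 : ℝ) < k := by linarith
    have e2 : (k : ℝ) < 0 := by linarith
    have e1' : -1 < k := by exact_mod_cast e1
    have e2' : k < 0 := by exact_mod_cast e2
    omega
  rcases hall _ hc1 with h1 | h1 | h1
  · exact absurd h1 (hne _ _ hr1)
  · rcases hall _ hc2 with h2 | h2 | h2
    · exact absurd h2 (hne _ _ hr2)
    · exact absurd (h1.trans h2.symm) hdiff
    · left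
      rw [← h1, ← h2, hd _ _ hr1, hd _ _ hr2]
      exact ⟨rfl, rfl⟩
  · rcases hall _ hc2 with h2 | h2 | h2
    · exact absurd h2 (hne _ _ hr2)
    · right
      rw [← h1, ← h2, hd _ _ hr1, hd _ _ hr2]
      exact ⟨rfl, rfl⟩
    · exact absurd (h1.trans h2.symm) hdiff

end CT

end Pool.Agent.Hhelper50
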