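import Pool.Agent.Hhelper50.Tess

/-!
# Basic consequences of the `Tess` axioms
-/

set_option autoImplicit false

namespace Pool.Agent.Hhelper50

open Finset

variable {Tile Vert : Type*} [DecidableEq Tile] [DecidableEq Vert]

namespace Tess

variable (X : Tess Tile Vert)

lemma mem_V_iff {p : Vert} {T : Tile} : p ∈ X.V T ↔ T ∈ X.τ p := X.mem_iff p T

lemma V_nonempty (T : Tile) : (X.V T).Nonempty := by
  rw [Finset.nonempty_iff_ne_empty]
  intro h
  have := X.ext_sum T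
  rw [h] at this
  simp at this

/-- Two tiles sharing an edge at `p`. -/
lemma inter_card_pos {p : Vert} {T T' : Tile} (h : p ∈ X.V T) (h' : p ∈ X.V T') :
    1 ≤ (X.V T ∩ X.V T').card :=
  Finset.card_pos.mpr ⟨p, Finset.mem_inter.mpr ⟨h, h'⟩⟩

/-- the closed neighbourhood of a tile -/
def N (T : Tile) : Finset Tile := (X.V T).biUnion X.τ

lemma mem_N {T T' : Tile} : T' ∈ X.N T ↔ ∃ p, p ∈ X.V T ∧ p ∈ X.V T' := by
  unfold N
  rw [Finset.mem_biUnion]
  constructor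
  · rintro ⟨p, hp, h⟩
    exact ⟨p, hp, X.mem_V_iff.mpr h⟩
  · rintro ⟨p, hp, h⟩
    exact ⟨p, hp, X.mem_V_iff.mp h⟩

lemma self_mem_N (T : Tile) : T ∈ X.N T := by
  obtain ⟨p, hp⟩ := X.V_nonempty T
  exact X.mem_N.mpr ⟨p, hp, hp⟩

/-- Double counting: the sum of `|V T ∩ V T'|` over neighbours. -/
lemma sum_inter (T : Tile) (P : Tile → Prop) [DecidablePred P] :
    ∑ T' ∈ ((X.N T).erase T).filter P, (X.V T ∩ X.V T').card
      = ∑ p ∈ X.V T, ((X.τ p).filter (fun T' => T' ≠ T ∧ P T')).card := by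
  have h1 : ∀ T' ∈ ((X.N T).erase T).filter P, (X.V T ∩ X.V T').card
      = ∑ p ∈ X.V T, if p ∈ X.V T' then 1 else 0 := by
    intro T' _
    rw [Finset.sum_boole, ← Finset.filter_mem_eq_inter]
    simp
  rw [Finset.sum_congr rfl h1, Finset.sum_comm]
  apply Finset.sum_congr rfl
  intro p hp
  rw [Finset.sum_boole]
  simp only [Nat.cast_id]
  congr 1
  ext T'
  simp only [Finset.mem_filter, Finset.mem_erase]
  constructor
  · rintro ⟨⟨⟨h1, h2⟩, h3⟩, h4⟩
    exact ⟨X.mem_V_iff.mp h4, h1, h3⟩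
  · rintro ⟨h1, h2, h3⟩
    exact ⟨⟨⟨h2, X.mem_N.mpr ⟨p, hp, X.mem_V_iff.mpr h1⟩⟩, h3⟩, X.mem_V_iff.mpr h1⟩

lemma card_adj (T : Tile) :
    (((X.N T).erase T).filter (fun T' => (X.V T ∩ X.V T').card = 2)).card = (X.V T).card := by
  have h := X.sum_inter T (fun T' => (X.V T ∩ X.V T').card = 2)
  have h1 : ∑ T' ∈ ((X.N T).erase T).filter (fun T' => (X.V T ∩ X.V T').card = 2),
      (X.V T ∩ X.V T').card
      = (((X.N T).erase T).filter (fun T' => (X.V T ∩ X.V T').card = 2)).card * 2 := by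
    rw [Finset.sum_const_nat]
    intro T' hT'
    exact (Finset.mem_filter.mp hT').2
  have h2 : ∑ p ∈ X.V T, ((X.τ p).filter
      (fun T' => T' ≠ T ∧ (X.V T ∩ X.V T').card = 2)).card = (X.V T).card * 2 := by
    rw [Finset.sum_const_nat]
    intro p hp
    exact X.adj p T (X.mem_V_iff.mp hp)
  omega

/-- `n = ∑ (deg p - 2)`. -/
theorem nformula_int (T : Tile) : ∑ p ∈ X.V T, ((X.deg p : ℤ) - 2) = X.n := by
  have h0 := X.nbr T
  have hadj := X.card_adj T
  have h := X.sum_inter T (fun _ => True)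
  have hN : ((X.N T).erase T).card = X.n := h0
  have h1 : ∀ T' ∈ (X.N T).erase T, (X.V T ∩ X.V T').card
      = 1 + if (X.V T ∩ X.V T').card = 2 then 1 else 0 := by
    intro T' hT'
    rw [Finset.mem_erase] at hT'
    obtain ⟨p, hp, hp'⟩ := X.mem_N.mp hT'.2
    have := X.inter_card_pos hp hp'
    have := X.two_tiles T T' (Ne.symm hT'.1)
    split_ifs with h
    · omega
    · omega
  have h2 : ∑ T' ∈ (X.N T).erase T, (X.V T ∩ X.V T').card = X.n + (X.V T).card := by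
    rw [Finset.sum_congr rfl h1, Finset.sum_add_distrib, Finset.sum_boole]
    simp only [Finset.sum_const, smul_eq_mul, mul_one, Nat.cast_id]
    rw [hN, hadj]
  rw [Finset.filter_true_of_mem (fun _ _ => trivial)] at h
  rw [h2] at h
  have h3 : ∀ p ∈ X.V T, ((((X.τ p).filter (fun T' => T' ≠ T ∧ True)).card : ℕ) : ℤ)
      = ((X.deg p : ℤ) - 2) + 1 := by
    intro p hp
    have hT : T ∈ X.τ p := X.mem_V_iff.mp hp
    have : (X.τ p).filter (fun T' => T' ≠ T ∧ True) = (X.τ p).erase T := by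
      ext T'
      simp [and_comm]
    rw [this, Finset.card_erase_of_mem hT]
    have := X.deg_ge p
    unfold deg
    omega
  have h4 : ((X.n + (X.V T).card : ℕ) : ℤ) = ∑ p ∈ X.V T, (((X.deg p : ℤ) - 2) + 1) := by
    rw [h]
    push_cast
    exact Finset.sum_congr rfl h3
  rw [Finset.sum_add_distrib] at h4
  simp only [Finset.sum_const, nsmul_eq_mul, mul_one] at h4
  push_cast at h4
  linarith

theorem nformula (T : Tile) : ∑ p ∈ X.V T, (X.deg p - 2) = X.n := by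
  have h := X.nformula_int T
  have h1 : ((∑ p ∈ X.V T, (X.deg p - 2) : ℕ) : ℤ) = ∑ p ∈ X.V T, ((X.deg p : ℤ) - 2) := by
    rw [Nat.cast_sum]
    apply Finset.sum_congr rfl
    intro p _
    have : 3 ≤ X.deg p := X.deg_ge p
    omega
  have : ((∑ p ∈ X.V T, (X.deg p - 2) : ℕ) : ℤ) = X.n := by rw [h1, h]
  exact_mod_cast this

lemma deg_ge' (p : Vert) : 3 ≤ X.deg p := X.deg_ge p

lemma card_V_le (T : Tile) : (X.V T).card ≤ X.n := by
  rw [← X.nformula T, Finset.card_eq_sum_ones]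
  apply Finset.sum_le_sum
  intro p _
  have := X.deg_ge' p
  omega

/-- `deg p - 2 + (m - 1) * (k-2) ≤ n` if all other degrees on `T` are at least `k`. -/
lemma deg_le_of (T : Tile) (p : Vert) (hp : p ∈ X.V T) (k : ℕ)
    (hk : ∀ q ∈ X.V T, q ≠ p → k ≤ X.deg q) :
    (X.deg p - 2) + ((X.V T).card - 1) * (k - 2) ≤ X.n := by
  rw [← X.nformula T, ← Finset.add_sum_erase _ _ hp, ← Finset.card_erase_of_mem hp,
    ← smul_eq_mul, ← Finset.sum_const]
  apply Nat.add_le_add_left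
  apply Finset.sum_le_sum
  intro q hq
  rw [Finset.mem_erase] at hq
  have := hk q hq.2 hq.1
  omega

/-! ### The averaging argument -/

lemma ball_succ (r : ℕ) : ballAux X.N X.T₀ (r + 1) = (ballAux X.N X.T₀ r).biUnion X.N := rfl

lemma ball_mono (r : ℕ) : ballAux X.N X.T₀ r ⊆ ballAux X.N X.T₀ (r + 1) := by
  intro T hT
  rw [X.ball_succ, Finset.mem_biUnion]
  exact ⟨T, hT, X.self_mem_N T⟩

/-- **Averaging principle.** There is no bounded flag function with nonpositive vertex sums and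
tile sums bounded below by a positive constant. -/
theorem ap (F : Vert → Tile → ℝ) (M : ℝ) (hM : ∀ p, ∀ T ∈ X.τ p, |F p T| ≤ M)
    (hv : ∀ p, ∑ T ∈ X.τ p, F p T ≤ 0) (ε : ℝ) (hε : 0 < ε)
    (ht : ∀ T, ε ≤ ∑ p ∈ X.V T, F p T) : False := by
  classical
  set B : ℕ → Finset Tile := ballAux X.N X.T₀ with hB
  have hM0 : 0 ≤ M := by
    obtain ⟨p, hp⟩ := X.V_nonempty X.T₀
    exact le_trans (abs_nonneg _) (hM p X.T₀ (X.mem_V_iff.mp hp))
  -- main estimate
  have key : ∀ r : ℕ, ε * ((B (r + 1)).card : ℝ) ≤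
      (M * X.n) * (((B (r + 1)).card : ℝ) - ((B r).card : ℝ)) := by
    intro r
    have h1 : ε * ((B (r + 1)).card : ℝ) ≤ ∑ T ∈ B (r + 1), ∑ p ∈ X.V T, F p T := by
      have : ∑ _T ∈ B (r + 1), ε ≤ ∑ T ∈ B (r + 1), ∑ p ∈ X.V T, F p T :=
        Finset.sum_le_sum (fun T _ => ht T)
      rw [Finset.sum_const, nsmul_eq_mul] at this
      linarith
    have h2 : ∑ T ∈ B (r + 1), ∑ p ∈ X.V T, F p T
        = ∑ p ∈ (B (r + 1)).biUnion X.V, ∑ T ∈ (X.τ p).filter (fun T => T ∈ B (r + 1)), F p T := by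
      rw [Finset.sum_comm' (t' := (B (r + 1)).biUnion X.V)
        (s' := fun p => (X.τ p).filter (fun T => T ∈ B (r + 1)))]
      intro T p
      simp only [Finset.mem_biUnion, Finset.mem_filter]
      constructor
      · rintro ⟨h1, h2⟩
        exact ⟨⟨X.mem_V_iff.mp h2, h1⟩, T, h1, h2⟩
      · rintro ⟨⟨h1, h2⟩, _⟩
        exact ⟨h2, X.mem_V_iff.mpr h1⟩
    have h3 : ∀ p ∈ (B (r + 1)).biUnion X.V,
        ∑ T ∈ (X.τ p).filter (fun T => T ∈ B (r + 1)), F p T
        ≤ ∑ T ∈ (X.τ p).filter (fun T => T ∈ B (r + 1) \ B r), M := by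
      intro p _
      by_cases hsub : X.τ p ⊆ B (r + 1)
      · rw [Finset.filter_true_of_mem (fun T hT => hsub hT)]
        refine le_trans (hv p) ?_
        apply Finset.sum_nonneg
        intro _ _
        exact hM0
      · have heq : (X.τ p).filter (fun T => T ∈ B (r + 1))
            = (X.τ p).filter (fun T => T ∈ B (r + 1) \ B r) := by
          apply Finset.filter_congr
          intro T hT
          rw [Finset.mem_sdiff]
          constructor
          · intro h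
            refine ⟨h, fun hr => hsub ?_⟩
            intro T' hT'
            have : T' ∈ (B r).biUnion X.N := by
              rw [Finset.mem_biUnion]
              exact ⟨T, hr, X.mem_N.mpr ⟨p, X.mem_V_iff.mpr hT, X.mem_V_iff.mpr hT'⟩⟩
            exact this
          · exact fun h => h.1
        rw [heq]
        apply Finset.sum_le_sum
        intro T hT
        exact le_trans (le_abs_self _) (hM p T (Finset.mem_filter.mp hT).1)
    have h4 : ∑ p ∈ (B (r + 1)).biUnion X.V,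
        ∑ T ∈ (X.τ p).filter (fun T => T ∈ B (r + 1) \ B r), M
        = ∑ T ∈ B (r + 1) \ B r, ∑ p ∈ X.V T, M := by
      symm
      rw [Finset.sum_comm' (t' := (B (r + 1)).biUnion X.V)
        (s' := fun p => (X.τ p).filter (fun T => T ∈ B (r + 1) \ B r))]
      intro T p
      simp only [Finset.mem_biUnion, Finset.mem_filter]
      constructor
      · rintro ⟨h1, h2⟩
        exact ⟨⟨X.mem_V_iff.mp h2, h1⟩, T, (Finset.mem_sdiff.mp h1).1, h2⟩
      · rintro ⟨⟨h1, h2⟩, _⟩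
        exact ⟨h2, X.mem_V_iff.mpr h1⟩
    have h5 : ∑ T ∈ B (r + 1) \ B r, ∑ p ∈ X.V T, M ≤
        (M * X.n) * (((B (r + 1)).card : ℝ) - ((B r).card : ℝ)) := by
      have hc : ((B (r + 1) \ B r).card : ℝ) = ((B (r + 1)).card : ℝ) - ((B r).card : ℝ) := by
        rw [Finset.card_sdiff_of_subset (X.ball_mono r),
          Nat.cast_sub (Finset.card_le_card (X.ball_mono r))]
      rw [← hc, mul_comm, ← nsmul_eq_mul, ← Finset.sum_const]
      apply Finset.sum_le_sum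
      intro T _
      rw [Finset.sum_const, nsmul_eq_mul, mul_comm]
      apply mul_le_mul_of_nonneg_left _ hM0
      exact_mod_cast X.card_V_le T
    calc ε * ((B (r + 1)).card : ℝ) ≤ _ := h1
      _ = _ := h2
      _ ≤ _ := Finset.sum_le_sum h3
      _ = _ := h4
      _ ≤ _ := h5
  -- exponential growth
  set K : ℝ := M * X.n + ε with hK
  have hKpos : 0 < K := by
    have : 0 ≤ M * X.n := mul_nonneg hM0 (Nat.cast_nonneg _)
    linarith
  set q : ℝ := 1 - ε / K with hq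
  have hq0 : 0 ≤ q := by
    rw [hq, sub_nonneg, div_le_one hKpos]
    have : 0 ≤ M * X.n := mul_nonneg hM0 (Nat.cast_nonneg _)
    linarith
  have hq1 : q < 1 := by
    rw [hq]
    have : 0 < ε / K := div_pos hε hKpos
    linarith
  have step : ∀ r, ((B r).card : ℝ) ≤ q * ((B (r + 1)).card : ℝ) := by
    intro r
    have h := key r
    have hmono : ((B r).card : ℝ) ≤ ((B (r + 1)).card : ℝ) := by
      exact_mod_cast Finset.card_le_card (X.ball_mono r)
    have h' : K * ((B r).card : ℝ) ≤ (K - ε) * ((B (r + 1)).card : ℝ) := by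
      have hh : 0 ≤ ε * (((B (r + 1)).card : ℝ) - ((B r).card : ℝ)) :=
        mul_nonneg hε.le (by linarith)
      rw [hK]
      nlinarith
    have : q * ((B (r + 1)).card : ℝ) = ((K - ε) * ((B (r + 1)).card : ℝ)) / K := by
      rw [hq]
      field_simp
    rw [this, le_div_iff₀ hKpos]
    linarith
  have hexp : ∀ r, (1 : ℝ) ≤ q ^ r * ((B r).card : ℝ) := by
    intro r
    induction r with
    | zero => simp [hB, ballAux]
    | succ r ih =>
      calc (1 : ℝ) ≤ q ^ r * ((B r).card : ℝ) := ih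
        _ ≤ q ^ r * (q * ((B (r + 1)).card : ℝ)) :=
          mul_le_mul_of_nonneg_left (step r) (pow_nonneg hq0 r)
        _ = q ^ (r + 1) * ((B (r + 1)).card : ℝ) := by ring
  obtain ⟨C, hC⟩ := X.growth
  have hlim : Filter.Tendsto (fun r : ℕ => (r : ℝ) ^ 2 * q ^ r) Filter.atTop (nhds 0) :=
    tendsto_pow_const_mul_const_pow_of_abs_lt_one 2 (by rw [abs_of_nonneg hq0]; exact hq1)
  have hlim' : Filter.Tendsto (fun r : ℕ => ((r + 1 : ℕ) : ℝ) ^ 2 * q ^ (r + 1))
      Filter.atTop (nhds 0) := hlim.comp (Filter.tendsto_add_atTop_nat 1)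
  have hbound : ∀ r : ℕ, q ≤ C * (((r + 1 : ℕ) : ℝ) ^ 2 * q ^ (r + 1)) := by
    intro r
    have h1 := hexp r
    have h2 : ((B r).card : ℝ) ≤ C * ((r : ℝ) + 1) ^ 2 := hC r
    calc q = q * 1 := by ring
      _ ≤ q * (q ^ r * ((B r).card : ℝ)) := mul_le_mul_of_nonneg_left h1 hq0
      _ ≤ q * (q ^ r * (C * ((r : ℝ) + 1) ^ 2)) := by
        apply mul_le_mul_of_nonneg_left _ hq0
        exact mul_le_mul_of_nonneg_left h2 (pow_nonneg hq0 r)
      _ = C * (((r + 1 : ℕ) : ℝ) ^ 2 * q ^ (r + 1)) := by push_cast; ring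
  have hq0' : q ≤ 0 := by
    have := ge_of_tendsto' (hlim'.const_mul C) hbound
    simpa using this
  have hq00 : q = 0 := le_antisymm hq0' hq0
  have h1 := hexp 1
  rw [hq00] at h1
  norm_num at h1

/-- Averaging principle, in the form used most often: `φ(T) - 1 + transfers ≥ ε`. -/
theorem ap_phi (G : Vert → Tile → ℝ) (M : ℝ) (hM : ∀ p, ∀ T ∈ X.τ p, |G p T| ≤ M)
    (hv : ∀ p, ∑ T ∈ X.τ p, G p T ≤ 0) (ε : ℝ) (hε : 0 < ε)
    (ht : ∀ T, 1 + ε ≤ ∑ p ∈ X.V T, (1 / 2 - 1 / (X.deg p : ℝ) + G p T)) : False := by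
  apply X.ap (fun p T => X.ang p T - 1 / (X.deg p : ℝ) + G p T) (M + 1) _ _ ε hε
  · intro T
    have h1 := X.ext_sum T
    have h2 : ∑ p ∈ X.V T, (X.ang p T - 1 / (X.deg p : ℝ) + G p T)
        = ∑ p ∈ X.V T, (1 / 2 - 1 / (X.deg p : ℝ) + G p T)
          - ∑ p ∈ X.V T, (1 / 2 - X.ang p T) := by
      rw [← Finset.sum_sub_distrib]
      apply Finset.sum_congr rfl
      intro p _
      ring
    have := ht T
    linarith
  · intro p T hT
    have h1 := X.ang_pos p T hT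
    have h2 := X.ang_le p T hT
    have h3 := hM p T hT
    have h4 : 0 < 1 / (X.deg p : ℝ) := by
      have : 0 < X.deg p := by have := X.deg_ge' p; omega
      positivity
    have h5 : 1 / (X.deg p : ℝ) ≤ 1 / 3 := by
      apply one_div_le_one_div_of_le (by norm_num)
      exact_mod_cast X.deg_ge' p
    rw [abs_le] at h3 ⊢
    constructor <;> linarith
  · intro p
    have h1 := X.ang_sum p
    have h2 : ∑ T ∈ X.τ p, (X.ang p T - 1 / (X.deg p : ℝ) + G p T)
        = ∑ T ∈ X.τ p, X.ang p T - ∑ _T ∈ X.τ p, 1 / (X.deg p : ℝ) + ∑ T ∈ X.τ p, G p T := by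
      rw [← Finset.sum_sub_distrib, ← Finset.sum_add_distrib]
    have h3 : ∑ _T ∈ X.τ p, 1 / (X.deg p : ℝ) = 1 := by
      rw [Finset.sum_const, nsmul_eq_mul]
      have : (0 : ℝ) < (X.deg p : ℝ) := by
        have : 0 < X.deg p := by have := X.deg_ge' p; omega
        exact_mod_cast this
      unfold deg at *
      field_simp
    have := hv p
    rw [h2, h1, h3]
    linarith

/-! ### Local structure -/

/-- `p q` are joined by an edge. -/
def Edge (p q : Vert) : Prop := p ≠ q ∧ (X.τ p ∩ X.τ q).card = 2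

lemma Edge.symm {p q : Vert} (h : X.Edge p q) : X.Edge q p :=
  ⟨h.1.symm, by rw [Finset.inter_comm]; exact h.2⟩

lemma pair_of_card_two {α : Type*} [DecidableEq α] {s : Finset α} (h : s.card = 2) {a : α}
    (ha : a ∈ s) : ∃ b, b ≠ a ∧ s = {a, b} := by
  obtain ⟨x, y, hxy, rfl⟩ := Finset.card_eq_two.mp h
  simp only [Finset.mem_insert, Finset.mem_singleton] at ha
  rcases ha with rfl | rfl
  · exact ⟨y, hxy.symm, rfl⟩
  · exact ⟨x, hxy, Finset.pair_comm _ _⟩

/-- If `T ≠ T'` share two distinct vertices `p, q` then `V T ∩ V T' = {p,q}`. -/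
lemma inter_V_eq {T T' : Tile} {p q : Vert} (hT : T ≠ T') (hpq : p ≠ q) (h1 : p ∈ X.V T)
    (h2 : p ∈ X.V T') (h3 : q ∈ X.V T) (h4 : q ∈ X.V T') : X.V T ∩ X.V T' = {p, q} := by
  symm
  apply Finset.eq_of_subset_of_card_le
  · intro x hx
    simp only [Finset.mem_insert, Finset.mem_singleton] at hx
    rcases hx with rfl | rfl
    · exact Finset.mem_inter.mpr ⟨h1, h2⟩
    · exact Finset.mem_inter.mpr ⟨h3, h4⟩
  · rw [Finset.card_pair hpq]
    exact X.two_tiles T T' hT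

/-- If `T ≠ T'` share two distinct vertices `p, q` then `τ p ∩ τ q = {T,T'}`. -/
lemma inter_τ_eq {T T' : Tile} {p q : Vert} (hT : T ≠ T') (hpq : p ≠ q) (h1 : p ∈ X.V T)
    (h2 : p ∈ X.V T') (h3 : q ∈ X.V T) (h4 : q ∈ X.V T') : X.τ p ∩ X.τ q = {T, T'} := by
  symm
  apply Finset.eq_of_subset_of_card_le
  · intro x hx
    simp only [Finset.mem_insert, Finset.mem_singleton] at hx
    rcases hx with rfl | rfl
    · exact Finset.mem_inter.mpr ⟨X.mem_V_iff.mp h1, X.mem_V_iff.mp h3⟩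
    · exact Finset.mem_inter.mpr ⟨X.mem_V_iff.mp h2, X.mem_V_iff.mp h4⟩
  · rw [Finset.card_pair hT]
    exact X.two_verts p q hpq

lemma edge_of {T T' : Tile} {p q : Vert} (hT : T ≠ T') (hpq : p ≠ q) (h1 : p ∈ X.V T)
    (h2 : p ∈ X.V T') (h3 : q ∈ X.V T) (h4 : q ∈ X.V T') : X.Edge p q :=
  ⟨hpq, by rw [X.inter_τ_eq hT hpq h1 h2 h3 h4, Finset.card_pair hT]⟩

lemma adj_card_of {T T' : Tile} {p q : Vert} (hT : T ≠ T') (hpq : p ≠ q) (h1 : p ∈ X.V T)
    (h2 : p ∈ X.V T') (h3 : q ∈ X.V T) (h4 : q ∈ X.V T') : (X.V T ∩ X.V T').card = 2 := by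
  rw [X.inter_V_eq hT hpq h1 h2 h3 h4, Finset.card_pair hpq]

/-- An edge `p q` of `T` has another tile `T'` on it. -/
lemma Edge.other {p q : Vert} (h : X.Edge p q) {T : Tile} (h1 : p ∈ X.V T) (h3 : q ∈ X.V T) :
    ∃ T', T' ≠ T ∧ p ∈ X.V T' ∧ q ∈ X.V T' ∧ X.τ p ∩ X.τ q = {T, T'} ∧
      X.V T ∩ X.V T' = {p, q} := by
  obtain ⟨T', hne, heq⟩ := pair_of_card_two h.2
    (Finset.mem_inter.mpr ⟨X.mem_V_iff.mp h1, X.mem_V_iff.mp h3⟩)
  have hT' : T' ∈ X.τ p ∩ X.τ q := by rw [heq]; simp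
  rw [Finset.mem_inter, ← X.mem_V_iff, ← X.mem_V_iff] at hT'
  exact ⟨T', hne, hT'.1, hT'.2, heq, X.inter_V_eq hne.symm h.1 h1 hT'.1 h3 hT'.2⟩

/-- **Local structure of a tile at a vertex**: exactly two adjacent tiles through `p`, on two
different edges. -/
theorem local_structure {p : Vert} {T : Tile} (hp : p ∈ X.V T) :
    ∃ T₁ T₂ q₁ q₂, T₁ ≠ T ∧ T₂ ≠ T ∧ T₁ ≠ T₂ ∧ q₁ ≠ p ∧ q₂ ≠ p ∧ q₁ ≠ q₂ ∧
      p ∈ X.V T₁ ∧ p ∈ X.V T₂ ∧ q₁ ∈ X.V T ∧ q₂ ∈ X.V T ∧ q₁ ∈ X.V T₁ ∧ q₂ ∈ X.V T₂ ∧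
      (∀ T' ∈ X.τ p, T' ≠ T → (X.V T ∩ X.V T').card = 2 → T' = T₁ ∨ T' = T₂) ∧
      (∀ q ∈ X.V T, X.Edge p q → q = q₁ ∨ q = q₂) := by
  obtain ⟨T₁, T₂, hne, heq⟩ := Finset.card_eq_two.mp (X.adj p T (X.mem_V_iff.mp hp))
  have m1 : T₁ ∈ (X.τ p).filter (fun T' => T' ≠ T ∧ (X.V T ∩ X.V T').card = 2) := by
    rw [heq]; simp
  have m2 : T₂ ∈ (X.τ p).filter (fun T' => T' ≠ T ∧ (X.V T ∩ X.V T').card = 2) := by
    rw [heq]; simp
  rw [Finset.mem_filter] at m1 m2
  have hp1 : p ∈ X.V T₁ := X.mem_V_iff.mpr m1.1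
  have hp2 : p ∈ X.V T₂ := X.mem_V_iff.mpr m2.1
  obtain ⟨q₁, hq1, e1⟩ := pair_of_card_two m1.2.2 (Finset.mem_inter.mpr ⟨hp, hp1⟩)
  obtain ⟨q₂, hq2, e2⟩ := pair_of_card_two m2.2.2 (Finset.mem_inter.mpr ⟨hp, hp2⟩)
  have n1 : q₁ ∈ X.V T ∩ X.V T₁ := by rw [e1]; simp
  have n2 : q₂ ∈ X.V T ∩ X.V T₂ := by rw [e2]; simp
  rw [Finset.mem_inter] at n1 n2
  have hqq : q₁ ≠ q₂ := by
    rintro rfl
    have h3 : ({T, T₁, T₂} : Finset Tile) ⊆ X.τ p ∩ X.τ q₁ := by
      intro S hS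
      simp only [Finset.mem_insert, Finset.mem_singleton] at hS
      rw [Finset.mem_inter, ← X.mem_V_iff, ← X.mem_V_iff]
      rcases hS with rfl | rfl | rfl
      · exact ⟨hp, n1.1⟩
      · exact ⟨hp1, n1.2⟩
      · exact ⟨hp2, n2.2⟩
    have h4 := Finset.card_le_card h3
    have h5 : ({T, T₁, T₂} : Finset Tile).card = 3 := by
      rw [Finset.card_eq_three]
      exact ⟨T, T₁, T₂, m1.2.1.symm, m2.2.1.symm, hne, rfl⟩
    have h6 := X.two_verts p q₁ hq1.symm
    omega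
  refine ⟨T₁, T₂, q₁, q₂, m1.2.1, m2.2.1, hne, hq1, hq2, hqq, hp1, hp2, n1.1, n2.1, n1.2, n2.2,
    ?_, ?_⟩
  · intro T' hT' hne' hc
    have : T' ∈ (X.τ p).filter (fun T' => T' ≠ T ∧ (X.V T ∩ X.V T').card = 2) :=
      Finset.mem_filter.mpr ⟨hT', hne', hc⟩
    rw [heq] at this
    simpa using this
  · intro q hq hE
    obtain ⟨T', hne', hpT', hqT', hτ, hV⟩ := Edge.other X hE hp hq
    have : T' ∈ (X.τ p).filter (fun T' => T' ≠ T ∧ (X.V T ∩ X.V T').card = 2) :=
      Finset.mem_filter.mpr ⟨X.mem_V_iff.mp hpT', hne', by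
        rw [hV, Finset.card_pair hE.1]⟩
    rw [heq] at this
    simp only [Finset.mem_insert, Finset.mem_singleton] at this
    have hq' : q ∈ X.V T ∩ X.V T' := Finset.mem_inter.mpr ⟨hq, hqT'⟩
    rcases this with rfl | rfl
    · rw [e1] at hq'
      simp only [Finset.mem_insert, Finset.mem_singleton] at hq'
      rcases hq' with rfl | rfl
      · exact absurd rfl hE.1
      · exact Or.inl rfl
    · rw [e2] at hq'
      simp only [Finset.mem_insert, Finset.mem_singleton] at hq'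
      rcases hq' with rfl | rfl
      · exact absurd rfl hE.1
      · exact Or.inr rfl

/-- Each vertex of `T` has exactly two `T`-adjacent vertices. -/
theorem card_nb {p : Vert} {T : Tile} (hp : p ∈ X.V T) :
    ∃ q₁ q₂, q₁ ≠ q₂ ∧ q₁ ∈ X.V T ∧ q₂ ∈ X.V T ∧ X.Edge p q₁ ∧ X.Edge p q₂ ∧
      ∀ q ∈ X.V T, X.Edge p q → q = q₁ ∨ q = q₂ := by
  obtain ⟨T₁, T₂, q₁, q₂, h1, h2, h3, h4, h5, h6, h7, h8, h9, h10, h11, h12, h13, h14⟩ :=
    X.local_structure hp
  exact ⟨q₁, q₂, h6, h9, h10, X.edge_of h1.symm h4.symm hp h7 h9 h11,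
    X.edge_of h2.symm h5.symm hp h8 h10 h12, h14⟩

lemma three_le_card_V (T : Tile) : 3 ≤ (X.V T).card := by
  obtain ⟨p, hp⟩ := X.V_nonempty T
  obtain ⟨q₁, q₂, h1, h2, h3, h4, h5, _⟩ := X.card_nb hp
  have : ({p, q₁, q₂} : Finset Vert) ⊆ X.V T := by
    intro x hx
    simp only [Finset.mem_insert, Finset.mem_singleton] at hx
    rcases hx with rfl | rfl | rfl <;> assumption
  have h := Finset.card_le_card this
  have h5 : ({p, q₁, q₂} : Finset Vert).card = 3 := by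
    rw [Finset.card_eq_three]
    exact ⟨p, q₁, q₂, h4.1, h5.1, h1, rfl⟩
  omega

/-- In a tile with exactly three vertices, any two of them are joined by an edge. -/
theorem edge_of_card_three {T : Tile} (h3 : (X.V T).card = 3) {p q : Vert} (hp : p ∈ X.V T)
    (hq : q ∈ X.V T) (hpq : p ≠ q) : X.Edge p q := by
  obtain ⟨q₁, q₂, h1, h2, h2', h4, h5, _⟩ := X.card_nb hp
  have hsub : ({p, q₁, q₂} : Finset Vert) ⊆ X.V T := by
    intro x hx
    simp only [Finset.mem_insert, Finset.mem_singleton] at hx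
    rcases hx with rfl | rfl | rfl <;> assumption
  have h6 : ({p, q₁, q₂} : Finset Vert).card = 3 := by
    rw [Finset.card_eq_three]
    exact ⟨p, q₁, q₂, h4.1, h5.1, h1, rfl⟩
  have heq : ({p, q₁, q₂} : Finset Vert) = X.V T :=
    Finset.eq_of_subset_of_card_le hsub (by omega)
  rw [← heq] at hq
  simp only [Finset.mem_insert, Finset.mem_singleton] at hq
  rcases hq with rfl | rfl | rfl
  · exact absurd rfl hpq
  · exact h4
  · exact h5

/-! ### Merging inequality -/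

/-- Numerical merging inequality. -/
lemma merge_two (k x y : ℝ) (hk : 0 < k) (hx : 0 ≤ x) (hy : 0 ≤ y) :
    (1 / 2 - 1 / k) + (1 / 2 - 1 / (k + (x + y))) ≤
      (1 / 2 - 1 / (k + x)) + (1 / 2 - 1 / (k + y)) := by
  have h1 : 0 < k + x := by linarith
  have h2 : 0 < k + y := by linarith
  have h3 : 0 < k + (x + y) := by linarith
  have : 1 / (k + x) + 1 / (k + y) ≤ 1 / k + 1 / (k + (x + y)) := by
    rw [div_add_div _ _ h1.ne' h2.ne', div_add_div _ _ hk.ne' h3.ne',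
      div_le_div_iff₀ (by positivity) (by positivity)]
    have hxy := mul_nonneg hx hy
    have hxy2 := mul_nonneg hxy hk.le
    nlinarith [mul_nonneg hxy hx, mul_nonneg hxy hy]
  linarith

/-- Merging over a finset: if all `d p ≥ k` then
`∑ (1/2 - 1/d p) ≥ (m-1)(1/2-1/k) + (1/2 - 1/(k + ∑ (d p - k)))`. -/
theorem merge_finset {ι : Type*} [DecidableEq ι] (s : Finset ι) (hs : s.Nonempty) (k : ℝ)
    (hk : 0 < k) (d : ι → ℝ) (hd : ∀ i ∈ s, k ≤ d i) :
    ((s.card : ℝ) - 1) * (1 / 2 - 1 / k) + (1 / 2 - 1 / (k + ∑ i ∈ s, (d i - k)))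
      ≤ ∑ i ∈ s, (1 / 2 - 1 / d i) := by
  induction s using Finset.induction_on with
  | empty => exact absurd hs (by simp)
  | insert a s ha ih =>
    rcases s.eq_empty_or_nonempty with rfl | hne
    · simp
    · have ih' := ih hne (fun i hi => hd i (Finset.mem_insert_of_mem hi))
      rw [Finset.sum_insert ha, Finset.sum_insert ha, Finset.card_insert_of_notMem ha]
      have hS : 0 ≤ ∑ i ∈ s, (d i - k) := Finset.sum_nonneg (fun i hi => by
        have := hd i (Finset.mem_insert_of_mem hi); linarith)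
      have hda : 0 ≤ d a - k := by
        have := hd a (Finset.mem_insert_self a s); linarith
      have hm := merge_two k (d a - k) (∑ i ∈ s, (d i - k)) hk hda hS
      have e1 : k + (d a - k) = d a := by ring
      rw [e1] at hm
      push_cast
      have e2 : ((s.card : ℝ) + 1 - 1) * (1 / 2 - 1 / k)
          = ((s.card : ℝ) - 1) * (1 / 2 - 1 / k) + (1 / 2 - 1 / k) := by ring
      rw [e2]
      linarith

/-- real version of `nformula` -/
theorem nformula_real (T : Tile) : ∑ p ∈ X.V T, ((X.deg p : ℝ) - 2) = X.n := by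
  have h := X.nformula_int T
  have : ((∑ p ∈ X.V T, ((X.deg p : ℤ) - 2) : ℤ) : ℝ) = ((X.n : ℤ) : ℝ) := by rw [h]
  push_cast at this
  exact this

/-- `φ(T) ≥ (m-1)(1/2-1/k) + 1/2 - 1/(n + 2m - k(m-1))` if all degrees on `T` are `≥ k`. -/
theorem phi_ge (T : Tile) (k : ℕ) (hk : 0 < k) (hd : ∀ p ∈ X.V T, k ≤ X.deg p) :
    (((X.V T).card : ℝ) - 1) * (1 / 2 - 1 / (k : ℝ))
      + (1 / 2 - 1 / ((X.n : ℝ) + 2 * ((X.V T).card : ℝ) - k * (((X.V T).card : ℝ) - 1)))
      ≤ ∑ p ∈ X.V T, (1 / 2 - 1 / (X.deg p : ℝ)) := by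
  have h := merge_finset (X.V T) (X.V_nonempty T) (k : ℝ) (by exact_mod_cast hk)
    (fun p => (X.deg p : ℝ)) (fun p hp => by exact_mod_cast hd p hp)
  have h2 : (k : ℝ) + ∑ p ∈ X.V T, ((X.deg p : ℝ) - k)
      = (X.n : ℝ) + 2 * ((X.V T).card : ℝ) - k * (((X.V T).card : ℝ) - 1) := by
    have h3 := X.nformula_real T
    rw [Finset.sum_sub_distrib, Finset.sum_const, nsmul_eq_mul] at h3 ⊢
    linarith
  rw [h2] at h
  exact h

end Tess

end Pool.Agent.Hhelper50
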